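import Pool.Agent.V5helper6.LAR.Load

set_option autoImplicit false

/-!
Counting voltages.
-/

namespace Pool.Agent.V5helper6.LAR

open Finset SimpleGraph H931R3.LA Pool.Agent.W111.LAR

section

variable {V Γ X : Type} [LinearOrder V] [Group Γ]

theorem volt_inj {σ σ' : Sym2 V → Γ} {u v : V} (h : volt σ u v = volt σ' u v) :
    σ s(u, v) = σ' s(u, v) := by
  unfold volt at h
  split_ifs at h with h1
  · exact h
  · exact inv_injective h

/-- The decomposition of a graph, with a cut for each cyclic component and vertex. -/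
structure Cuts (G : SimpleGraph V) (k : ℕ) where
  H : Fin k → SimpleGraph V
  deg : ∀ i v, ((H i).neighborSet v).ncard ≤ 2
  sup : (⨆ i, H i) = G
  disj : ∀ i j, i ≠ j → ∀ u v, (H i).Adj u v → ¬ (H j).Adj u v
  b : ∀ i v, Cyc (H i) v → V
  adj : ∀ i v (h : Cyc (H i) v), (H i).Adj v (b i v h)
  p : ∀ i v (h : Cyc (H i) v), (H i).Walk (b i v h) v
  cut : ∀ i v (h : Cyc (H i) v), s(v, b i v h) ∉ (p i v h).edges

omit [LinearOrder V] in
theorem exists_cuts [Finite V] (G : SimpleGraph V) (k : ℕ)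
    (hdeg : ∀ v, (G.neighborSet v).ncard ≤ 2 * k) : Nonempty (Cuts G k) := by
  obtain ⟨H, h1, h2, h3⟩ := decomp' G k hdeg
  have h4 : ∀ i v, Cyc (H i) v → ∃ (b : V) (_ : (H i).Adj v b) (p : (H i).Walk b v),
      s(v, b) ∉ p.edges := fun i v h => (exists_cut (h1 i) h).2
  choose b hb p hp using h4
  exact ⟨⟨H, h1, h2, h3, b, hb, p, hp⟩⟩

namespace Cuts

variable {G : SimpleGraph V} {k : ℕ} (D : Cuts G k)

/-- The closed walk. -/
def c (i : Fin k) (v : V) (h : Cyc (D.H i) v) : (D.H i).Walk v v :=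
  Walk.cons (D.adj i v h) (D.p i v h)

theorem mono_inj {i : Fin k} {v : V} {h : Cyc (D.H i) v} {σ σ' : Sym2 V → Γ}
    (hoff : ∀ e ∈ (D.p i v h).edges, σ e = σ' e)
    (hw : wv σ (D.c i v h) = wv σ' (D.c i v h)) :
    σ s(v, D.b i v h) = σ' s(v, D.b i v h) := by
  simp only [c, wv, wv_congr _ hoff] at hw
  exact volt_inj (mul_left_cancel hw)

omit [LinearOrder V] in
theorem not_mem {i j : Fin k} (hij : i ≠ j) {v : V} {hi : Cyc (D.H i) v} {hj : Cyc (D.H j) v} :
    s(v, D.b j v hj) ∉ (D.p i v hi).edges := by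
  intro hmem
  have h1 := Walk.edges_subset_edgeSet _ hmem
  rw [mem_edgeSet] at h1
  exact D.disj i j hij _ _ h1 (D.adj j v hj)

omit [LinearOrder V] in
theorem edge_ne {i j : Fin k} (hij : i ≠ j) {v : V} (hi : Cyc (D.H i) v) (hj : Cyc (D.H j) v) :
    s(v, D.b i v hi) ≠ s(v, D.b j v hj) := by
  intro h
  have h1 : (D.H i).Adj v (D.b i v hi) := D.adj i v hi
  rw [← mem_edgeSet, h, mem_edgeSet] at h1
  exact D.disj i j hij _ _ h1 (D.adj j v hj)

end Cuts

variable [Fintype V] [Fintype Γ] [Fintype X] [MulAction Γ X]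

open Classical in
theorem count_two {G : SimpleGraph V} {k : ℕ} (D : Cuts G k) {i j : Fin k} (hij : i ≠ j) (v : V)
    (B : Finset Γ) :
    (univ.filter (fun σ : Sym2 V → Γ => ∃ (hi : Cyc (D.H i) v) (hj : Cyc (D.H j) v),
      wv σ (D.c i v hi) ∈ B ∧ wv σ (D.c j v hj) ∈ B)).card * Fintype.card Γ ^ 2 ≤
    B.card ^ 2 * Fintype.card (Sym2 V → Γ) := by
  by_cases hc : ∃ (_ : Cyc (D.H i) v), Cyc (D.H j) v
  swap
  · have h1 : univ.filter (fun σ : Sym2 V → Γ => ∃ (hi : Cyc (D.H i) v) (hj : Cyc (D.H j) v),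
      wv σ (D.c i v hi) ∈ B ∧ wv σ (D.c j v hj) ∈ B) = ∅ := by
      rw [filter_eq_empty_iff]
      rintro σ - ⟨hi, hj, _⟩
      exact hc ⟨hi, hj⟩
    rw [h1, card_empty, zero_mul]
    exact Nat.zero_le _
  obtain ⟨hi, hj⟩ := hc
  have h1 : (univ.filter (fun σ : Sym2 V → Γ => ∃ (hi : Cyc (D.H i) v) (hj : Cyc (D.H j) v),
      wv σ (D.c i v hi) ∈ B ∧ wv σ (D.c j v hj) ∈ B)) =
      univ.filter (fun σ : Sym2 V → Γ => wv σ (D.c i v hi) ∈ B ∧ wv σ (D.c j v hj) ∈ B) := by
    ext σ
    simp only [mem_filter, mem_univ, true_and]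
    exact ⟨fun ⟨_, _, h⟩ => h, fun h => ⟨hi, hj, h⟩⟩
  rw [h1]
  have hcard : (B ×ˢ B ×ˢ (univ : Finset (Sym2 V → Γ))).card =
      B.card ^ 2 * Fintype.card (Sym2 V → Γ) := by
    rw [card_product, card_product, card_univ]; ring
  have hcard' : ((univ.filter (fun σ : Sym2 V → Γ => wv σ (D.c i v hi) ∈ B ∧
      wv σ (D.c j v hj) ∈ B)) ×ˢ (univ : Finset (Γ × Γ))).card =
      (univ.filter (fun σ : Sym2 V → Γ => wv σ (D.c i v hi) ∈ B ∧
      wv σ (D.c j v hj) ∈ B)).card * Fintype.card Γ ^ 2 := by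
    rw [card_product, card_univ, Fintype.card_prod]; ring
  rw [← hcard, ← hcard']
  refine card_le_card_of_injOn (fun a => (wv a.1 (D.c i v hi), wv a.1 (D.c j v hj),
    Function.update (Function.update a.1 s(v, D.b i v hi) a.2.1) s(v, D.b j v hj) a.2.2)) ?_ ?_
  · rintro ⟨σ, a, b⟩ h
    have h2 := (mem_filter.1 (mem_product.1 h).1).2
    exact mem_product.2 ⟨h2.1, mem_product.2 ⟨h2.2, mem_univ _⟩⟩
  · rintro ⟨σ, a, b⟩ - ⟨σ', a', b'⟩ - h
    simp only [Prod.mk.injEq] at h
    obtain ⟨h2, h3, h4⟩ := h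
    have hne := D.edge_ne hij hi hj
    have h5 : b = b' := by
      have := congrFun h4 s(v, D.b j v hj)
      rwa [Function.update_self, Function.update_self] at this
    have h6 : a = a' := by
      have := congrFun h4 s(v, D.b i v hi)
      rwa [Function.update_of_ne hne, Function.update_of_ne hne, Function.update_self,
        Function.update_self] at this
    have h7 : ∀ e, e ≠ s(v, D.b i v hi) → e ≠ s(v, D.b j v hj) → σ e = σ' e := by
      intro e he1 he2
      have := congrFun h4 e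
      rwa [Function.update_of_ne he2, Function.update_of_ne he2, Function.update_of_ne he1,
        Function.update_of_ne he1] at this
    have h8 : σ s(v, D.b i v hi) = σ' s(v, D.b i v hi) := by
      refine D.mono_inj (fun e he => h7 e ?_ ?_) h2
      · rintro rfl; exact D.cut i v hi he
      · rintro rfl; exact D.not_mem hij he
    have h9 : σ s(v, D.b j v hj) = σ' s(v, D.b j v hj) := by
      refine D.mono_inj (fun e he => h7 e ?_ ?_) h3
      · rintro rfl; exact D.not_mem (Ne.symm hij) he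
      · rintro rfl; exact D.cut j v hj he
    have h10 : σ = σ' := by
      funext e
      by_cases he1 : e = s(v, D.b i v hi)
      · rw [he1]; exact h8
      · by_cases he2 : e = s(v, D.b j v hj)
        · rw [he2]; exact h9
        · exact h7 e he1 he2
    rw [h10, h6, h5]

open Classical in
theorem count_one {G : SimpleGraph V} {k : ℕ} (D : Cuts G k) (i : Fin k) (v : V)
    (B : Finset Γ) :
    (univ.filter (fun σ : Sym2 V → Γ => ∃ (hi : Cyc (D.H i) v),
      wv σ (D.c i v hi) ∈ B)).card * Fintype.card Γ ≤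
    B.card * Fintype.card (Sym2 V → Γ) := by
  by_cases hi : Cyc (D.H i) v
  swap
  · have h1 : univ.filter (fun σ : Sym2 V → Γ => ∃ (hi : Cyc (D.H i) v),
      wv σ (D.c i v hi) ∈ B) = ∅ := by
      rw [filter_eq_empty_iff]
      rintro σ - ⟨hi', _⟩
      exact hi hi'
    rw [h1, card_empty, zero_mul]
    exact Nat.zero_le _
  have h1 : (univ.filter (fun σ : Sym2 V → Γ => ∃ (hi : Cyc (D.H i) v),
      wv σ (D.c i v hi) ∈ B)) =
      univ.filter (fun σ : Sym2 V → Γ => wv σ (D.c i v hi) ∈ B) := by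
    ext σ
    simp only [mem_filter, mem_univ, true_and]
    exact ⟨fun ⟨_, h⟩ => h, fun h => ⟨hi, h⟩⟩
  rw [h1]
  have hcard : (B ×ˢ (univ : Finset (Sym2 V → Γ))).card =
      B.card * Fintype.card (Sym2 V → Γ) := by
    rw [card_product, card_univ]
  have hcard' : ((univ.filter (fun σ : Sym2 V → Γ => wv σ (D.c i v hi) ∈ B)) ×ˢ
      (univ : Finset Γ)).card =
      (univ.filter (fun σ : Sym2 V → Γ => wv σ (D.c i v hi) ∈ B)).card * Fintype.card Γ := by
    rw [card_product, card_univ]
  rw [← hcard, ← hcard']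
  refine card_le_card_of_injOn (fun a => (wv a.1 (D.c i v hi),
    Function.update a.1 s(v, D.b i v hi) a.2)) ?_ ?_
  · rintro ⟨σ, a⟩ h
    have h2 := (mem_filter.1 (mem_product.1 h).1).2
    exact mem_product.2 ⟨h2, mem_univ _⟩
  · rintro ⟨σ, a⟩ - ⟨σ', a'⟩ - h
    simp only [Prod.mk.injEq] at h
    obtain ⟨h2, h4⟩ := h
    have h6 : a = a' := by
      have := congrFun h4 s(v, D.b i v hi)
      rwa [Function.update_self, Function.update_self] at this
    have h7 : ∀ e, e ≠ s(v, D.b i v hi) → σ e = σ' e := by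
      intro e he1
      have := congrFun h4 e
      rwa [Function.update_of_ne he1, Function.update_of_ne he1] at this
    have h8 : σ s(v, D.b i v hi) = σ' s(v, D.b i v hi) := by
      refine D.mono_inj (fun e he => h7 e ?_) h2
      rintro rfl; exact D.cut i v hi he
    have h10 : σ = σ' := by
      funext e
      by_cases he1 : e = s(v, D.b i v hi)
      · rw [he1]; exact h8
      · exact h7 e he1
    rw [h10, h6]

open Classical in
/-- The number of voltages for which the cover is not covered by `k + 1` linear forests. -/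
theorem count_cover (G : SimpleGraph V) (k : ℕ) (hdeg : ∀ v, (G.neighborSet v).ncard ≤ 2 * k) :
    (univ.filter (fun σ : Sym2 V → Γ => ¬ Cov (cover X G σ) (k + 1))).card * Fintype.card Γ ^ 2 ≤
    Fintype.card V * k ^ 2 * (∑ x : X, (univ.filter (fun g : Γ =>
      Function.minimalPeriod (fun y : X => g • y) x < 2 * k)).card ^ 2) *
      Fintype.card (Sym2 V → Γ) := by
  obtain ⟨D⟩ := exists_cuts G k hdeg
  set B : X → Finset Γ := fun x => univ.filter (fun g : Γ =>
      Function.minimalPeriod (fun y : X => g • y) x < 2 * k) with hB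
  let E : V × (Fin k × Fin k) × X → Finset (Sym2 V → Γ) := fun a => if a.2.1.1 ≠ a.2.1.2 then
    univ.filter (fun σ : Sym2 V → Γ => ∃ (hi : Cyc (D.H a.2.1.1) a.1) (hj : Cyc (D.H a.2.1.2) a.1),
      wv σ (D.c a.2.1.1 a.1 hi) ∈ B a.2.2 ∧ wv σ (D.c a.2.1.2 a.1 hj) ∈ B a.2.2) else ∅
  have hsub : univ.filter (fun σ : Sym2 V → Γ => ¬ Cov (cover X G σ) (k + 1)) ⊆
      univ.biUnion E := by
    intro σ hσ
    have h1 := (mem_filter.1 hσ).2
    by_contra hcon
    apply h1
    have h2 := cov_of_pairs (X := X) D.H D.deg σ D.c (by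
      intro i j v hi hj x hij
      by_contra hcon2
      push Not at hcon2
      apply hcon
      rw [mem_biUnion]
      refine ⟨(v, (i, j), x), mem_univ _, ?_⟩
      simp only [E]
      rw [if_pos hij, mem_filter]
      exact ⟨mem_univ _, hi, hj, mem_filter.2 ⟨mem_univ _, hcon2.1⟩,
        mem_filter.2 ⟨mem_univ _, hcon2.2⟩⟩)
    rwa [D.sup] at h2
  have hE : ∀ a, (E a).card * Fintype.card Γ ^ 2 ≤
      (B a.2.2).card ^ 2 * Fintype.card (Sym2 V → Γ) := by
    intro a
    simp only [E]
    split_ifs with h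
    · exact count_two D h a.1 (B a.2.2)
    · rw [card_empty, zero_mul]; exact Nat.zero_le _
  calc (univ.filter (fun σ : Sym2 V → Γ => ¬ Cov (cover X G σ) (k + 1))).card *
        Fintype.card Γ ^ 2
      ≤ (∑ a, (E a).card) * Fintype.card Γ ^ 2 :=
        Nat.mul_le_mul_right _ ((card_le_card hsub).trans card_biUnion_le)
    _ = ∑ a, (E a).card * Fintype.card Γ ^ 2 := sum_mul _ _ _
    _ ≤ ∑ a : V × (Fin k × Fin k) × X, (B a.2.2).card ^ 2 * Fintype.card (Sym2 V → Γ) :=
        sum_le_sum fun a _ => hE a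
    _ = Fintype.card V * k ^ 2 * (∑ x : X, (B x).card ^ 2) * Fintype.card (Sym2 V → Γ) := by
        rw [← sum_mul]
        congr 1
        rw [Fintype.sum_prod_type]
        dsimp only
        rw [sum_const, card_univ, smul_eq_mul, Fintype.sum_prod_type]
        dsimp only
        rw [sum_const, card_univ, smul_eq_mul, Fintype.card_prod, Fintype.card_fin]
        ring

open Classical in
/-- The number of voltages for which the regular cover is not covered by `k + 1` linear
forests. -/
theorem count_regular (G : SimpleGraph V) (k : ℕ) (hdeg : ∀ v, (G.neighborSet v).ncard ≤ 2 * k) :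
    (univ.filter (fun σ : Sym2 V → Γ => ¬ Cov (cover Γ G σ) (k + 1))).card * Fintype.card Γ ≤
    Fintype.card V * k * (univ.filter (fun g : Γ => 3 * orderOf g < 2 * k)).card *
      Fintype.card (Sym2 V → Γ) := by
  obtain ⟨D⟩ := exists_cuts G k hdeg
  set B : Finset Γ := univ.filter (fun g : Γ => 3 * orderOf g < 2 * k) with hB
  let E : V × Fin k → Finset (Sym2 V → Γ) := fun a =>
    univ.filter (fun σ : Sym2 V → Γ => ∃ (hi : Cyc (D.H a.2) a.1), wv σ (D.c a.2 a.1 hi) ∈ B)
  have hper : ∀ (g x : Γ), orderOf g ≤ Function.minimalPeriod (fun y : Γ => g • y) x := by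
    intro g x
    have h1 : Function.IsPeriodicPt (fun y : Γ => g • y)
        (Function.minimalPeriod (fun y : Γ => g • y) x) x := Function.isPeriodicPt_minimalPeriod _ _
    have h2 : 0 < Function.minimalPeriod (fun y : Γ => g • y) x := by
      apply Function.minimalPeriod_pos_of_mem_periodicPts
      exact Function.Injective.mem_periodicPts (MulAction.injective _) x
    have h3 : g ^ (Function.minimalPeriod (fun y : Γ => g • y) x) • x = x := by
      have h4 := h1
      unfold Function.IsPeriodicPt Function.IsFixedPt at h4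
      rwa [smul_iterate_apply] at h4
    rw [smul_eq_mul, mul_eq_right] at h3
    exact Nat.le_of_dvd h2 (orderOf_dvd_of_pow_eq_one h3)
  have hsub : univ.filter (fun σ : Sym2 V → Γ => ¬ Cov (cover Γ G σ) (k + 1)) ⊆
      univ.biUnion E := by
    intro σ hσ
    have h1 := (mem_filter.1 hσ).2
    by_contra hcon
    apply h1
    have h2 := cov_of_large (X := Γ) D.H D.deg σ (by
      intro i v hv x
      refine ⟨v, x, D.c i v hv, Reachable.refl _, ?_⟩
      by_contra hcon2
      apply hcon
      rw [mem_biUnion]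
      refine ⟨(v, i), mem_univ _, ?_⟩
      simp only [E]
      rw [mem_filter]
      refine ⟨mem_univ _, hv, mem_filter.2 ⟨mem_univ _, ?_⟩⟩
      have h3 := hper (wv σ (D.c i v hv)) x
      unfold per at hcon2
      omega)
    rwa [D.sup] at h2
  calc (univ.filter (fun σ : Sym2 V → Γ => ¬ Cov (cover Γ G σ) (k + 1))).card *
        Fintype.card Γ
      ≤ (∑ a, (E a).card) * Fintype.card Γ :=
        Nat.mul_le_mul_right _ ((card_le_card hsub).trans card_biUnion_le)
    _ = ∑ a, (E a).card * Fintype.card Γ := sum_mul _ _ _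
    _ ≤ ∑ a : V × Fin k, B.card * Fintype.card (Sym2 V → Γ) :=
        sum_le_sum fun a _ => count_one D a.2 a.1 B
    _ = Fintype.card V * k * B.card * Fintype.card (Sym2 V → Γ) := by
        rw [sum_const, card_univ, smul_eq_mul, Fintype.card_prod, Fintype.card_fin]
        ring

end

end Pool.Agent.V5helper6.LAR
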