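import Pool.Agent.V5helper6.LAR.Count
import Pool.Agent.W111.LAR.Odd

set_option autoImplicit false

/-!
Voltages for which all monodromies are generators.
-/

namespace Pool.Agent.V5helper6.LAR

open Finset SimpleGraph H931R3.LA Pool.Agent.W111.LAR

section

variable {V Γ X : Type} [LinearOrder V] [Group Γ] {G : SimpleGraph V} {k : ℕ} (D : Cuts G k)

/-- The designated edges. -/
def Des : Set (Sym2 V) :=
  {e | ∃ (i : Fin k) (v : V) (h : Cyc (D.H i) v), rep (D.H i) v = v ∧ e = s(v, D.b i v h)}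

open Classical in
/-- The voltage `c` on the designated edges. -/
noncomputable def desV (c : Γ) : Sym2 V → Γ := fun e => if e ∈ Des D then c else 1

omit [LinearOrder V] in
theorem not_des {i : Fin k} {w : V} (hw : Cyc (D.H i) w) (hr : rep (D.H i) w = w) :
    ∀ e ∈ (D.p i w hw).edges, e ∉ Des D := by
  rintro e he ⟨j, v', h', hrep, rfl⟩
  have h1 := Walk.edges_subset_edgeSet _ he
  rw [mem_edgeSet] at h1
  have hij : i = j := by
    by_contra hne
    exact D.disj i j hne _ _ h1 (D.adj j v' h')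
  subst hij
  have h2 : v' ∈ (D.p i w hw).support := Walk.fst_mem_support_of_mem_edges _ he
  have h3 : (D.H i).Reachable w v' := by
    classical
    have := (D.p i w hw).dropUntil v' h2
    exact this.reachable.symm
  have h4 : v' = w := by rw [← hrep, ← rep_eq h3, hr]
  subst h4
  exact D.cut i v' hw he

theorem des_wv (c : Γ) {i : Fin k} {w : V} (hw : Cyc (D.H i) w) (hr : rep (D.H i) w = w) :
    wv (desV D c) (D.c i w hw) = c ∨ wv (desV D c) (D.c i w hw) = c⁻¹ := by
  have h1 : wv (desV D c) (D.p i w hw) = 1 := by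
    apply wv_one
    intro e he
    unfold desV
    rw [if_neg (not_des D hw hr e he)]
  have h2 : desV D c s(w, D.b i w hw) = c := by
    unfold desV
    rw [if_pos ⟨i, w, hw, hr, rfl⟩]
  simp only [Cuts.c, wv, h1, one_mul, volt]
  rw [h2]
  split_ifs
  · exact Or.inl rfl
  · exact Or.inr rfl

variable [MulAction Γ X] [Finite V] [Finite X]

omit [Finite V] [Finite X] in
theorem des_reach (c : Γ) {i : Fin k} {v : V} (hv : Cyc (D.H i) v) (x : X) :
    ∃ (w : V) (y : X) (hw : Cyc (D.H i) w), (cover X (D.H i) (desV D c)).Reachable (v, x) (w, y) ∧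
      (wv (desV D c) (D.c i w hw) = c ∨ wv (desV D c) (D.c i w hw) = c⁻¹) := by
  obtain ⟨q⟩ := (rep_reach (D.H i) v).symm
  have hr : rep (D.H i) (rep (D.H i) v) = rep (D.H i) v := rep_eq (rep_reach (D.H i) v)
  refine ⟨rep (D.H i) v, wv (desV D c) q • x, hv.trans q.reachable, reach_wv _ q x, ?_⟩
  exact des_wv D c _ hr

theorem des_csize (c : Γ) (m : ℕ) (h1 : ∀ x : X, m ≤ Function.minimalPeriod (fun y => c • y) x)
    (h2 : ∀ x : X, m ≤ Function.minimalPeriod (fun y => c⁻¹ • y) x) {i : Fin k} {v : V} (x : X)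
    (hv : Cyc (D.H i) v) : 3 * m ≤ csize (cover X (D.H i) (desV D c)) (v, x) := by
  obtain ⟨w, y, hw, hr, h⟩ := des_reach D c hv x
  rw [csize_eq hr]
  have h3 := csize_cover (desV D c) (D.c i w hw) y
  have h4 := (exists_cut (D.deg i) hw).1
  refine le_trans ?_ h3
  refine Nat.mul_le_mul h4 ?_
  rcases h with h | h
  · rw [h]; exact h1 y
  · rw [h]; exact h2 y

theorem cov_des (c : Γ) (m : ℕ) (h1 : ∀ x : X, m ≤ Function.minimalPeriod (fun y => c • y) x)
    (h2 : ∀ x : X, m ≤ Function.minimalPeriod (fun y => c⁻¹ • y) x) (hm : 2 * k ≤ 3 * m) :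
    Cov (cover X G (desV D c)) (k + 1) := by
  have h3 := cov_of_large (X := X) D.H D.deg (desV D c) (by
    intro i v hv x
    obtain ⟨w, y, hw, hr, h⟩ := des_reach D c hv x
    refine ⟨w, y, D.c i w hw, hr, hm.trans (Nat.mul_le_mul_left _ ?_)⟩
    unfold per
    rcases h with h | h
    · rw [h]; exact h1 y
    · rw [h]; exact h2 y)
  rwa [D.sup] at h3

theorem cov_des_matching (P : SimpleGraph V) (hP : ∀ v, (P.neighborSet v).ncard ≤ 1) (c : Γ)
    (m : ℕ) (h1 : ∀ x : X, m ≤ Function.minimalPeriod (fun y => c • y) x)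
    (h2 : ∀ x : X, m ≤ Function.minimalPeriod (fun y => c⁻¹ • y) x) (hm : 12 * k ≤ 3 * m + 8) :
    Cov (cover X (P ⊔ G) (desV D c)) (k + 1) := by
  have h3 := cov_matching (fun i => cover X (D.H i) (desV D c)) (cover X P (desV D c))
    (fun i v => by rw [cover_deg]; exact D.deg i v.1)
    (fun v => by rw [cover_deg]; exact hP v.1) (3 * m) (by rw [Fintype.card_fin]; exact hm)
    (fun i v hv => des_csize D c m h1 h2 v.2 (cyc_of_cover _ hv))
  rw [Fintype.card_fin, ← cover_sup, D.sup] at h3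
  have h4 : cover X (P ⊔ G) (desV D c) = cover X P (desV D c) ⊔ cover X G (desV D c) := by
    ext ⟨u, x⟩ ⟨v, y⟩
    simp only [cover, sup_adj]
    tauto
  rwa [h4]

omit [LinearOrder V] in
/-- If all degrees are `2 k` then all degrees of the parts are two. -/
theorem cuts_reg (hreg : ∀ v, (G.neighborSet v).ncard = 2 * k) (i : Fin k) (v : V) :
    ((D.H i).neighborSet v).ncard = 2 := by
  by_contra hne
  have hlt : ((D.H i).neighborSet v).ncard < 2 := lt_of_le_of_ne (D.deg i v) hne
  have h1 : G.neighborSet v ⊆ ⋃ j, (D.H j).neighborSet v := by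
    intro u hu
    have hu' : G.Adj v u := hu
    rw [← D.sup, iSup_adj] at hu'
    exact Set.mem_iUnion.2 hu'
  have h2 : (G.neighborSet v).ncard ≤ ∑ j, ((D.H j).neighborSet v).ncard := by
    refine (Set.ncard_le_ncard h1 (Set.toFinite _)).trans ?_
    have h3 : ∀ s : Finset (Fin k), (⋃ j ∈ s, (D.H j).neighborSet v).ncard ≤
        ∑ j ∈ s, ((D.H j).neighborSet v).ncard := by
      intro s
      classical
      induction s using Finset.induction_on with
      | empty => simp
      | insert a s ha ih =>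
        rw [sum_insert ha, Finset.set_biUnion_insert]
        exact (Set.ncard_union_le _ _).trans (Nat.add_le_add_left ih _)
    have h4 := h3 univ
    simpa using h4
  have h3 : ∑ j, ((D.H j).neighborSet v).ncard < ∑ _j : Fin k, 2 :=
    sum_lt_sum (fun j _ => D.deg j v) ⟨i, mem_univ _, hlt⟩
  rw [sum_const, card_univ, Fintype.card_fin, smul_eq_mul] at h3
  have := hreg v
  omega

theorem conn_des (c : Γ) (hk : 0 < k) (hreg : ∀ v, (G.neighborSet v).ncard = 2 * k)
    (P : SimpleGraph V) (hconn : (P ⊔ G).Connected) [Nonempty X]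
    (htr : ∀ x y : X, (∃ t : ℕ, c ^ t • x = y)) (htr' : ∀ x y : X, (∃ t : ℕ, c⁻¹ ^ t • x = y)) :
    (cover X (P ⊔ G) (desV D c)).Connected := by
  have hmono : ∀ i, cover X (D.H i) (desV D c) ≤ cover X (P ⊔ G) (desV D c) := by
    rintro i ⟨u, x⟩ ⟨v, y⟩ ⟨h, h'⟩
    refine ⟨?_, h'⟩
    rw [sup_adj]
    right
    rw [← D.sup, iSup_adj]
    exact ⟨i, h⟩
  have hne : Nonempty (V × X) := ⟨(hconn.nonempty.some, Classical.arbitrary X)⟩
  refine (connected_iff _).2 ⟨?_, hne⟩
  rintro ⟨u, x⟩ ⟨v, y⟩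
  obtain ⟨p⟩ := hconn.preconnected u v
  have h1 := reach_wv (desV D c) p x
  refine h1.trans ?_
  set x' := wv (desV D c) p • x
  let i : Fin k := ⟨0, hk⟩
  have hv : Cyc (D.H i) v := fun w _ => cuts_reg D hreg i w
  obtain ⟨q⟩ := (rep_reach (D.H i) v).symm
  have hr : rep (D.H i) (rep (D.H i) v) = rep (D.H i) v := rep_eq (rep_reach (D.H i) v)
  have h2 := reach_wv (desV D c) q x'
  have h3 := reach_wv (desV D c) q y
  have hw : Cyc (D.H i) (rep (D.H i) v) := hv.trans q.reachable
  have h4 : (cover X (D.H i) (desV D c)).Reachable (rep (D.H i) v, wv (desV D c) q • x')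
      (rep (D.H i) v, wv (desV D c) q • y) := by
    rcases des_wv D c hw hr with h | h
    · obtain ⟨t, ht⟩ := htr (wv (desV D c) q • x') (wv (desV D c) q • y)
      have h5 := reach_pow (desV D c) (D.c i _ hw) (wv (desV D c) q • x') t
      rwa [h, ht] at h5
    · obtain ⟨t, ht⟩ := htr' (wv (desV D c) q • x') (wv (desV D c) q • y)
      have h5 := reach_pow (desV D c) (D.c i _ hw) (wv (desV D c) q • x') t
      rwa [h, ht] at h5
  exact (h2.trans (h4.trans h3.symm)).mono (hmono i)

end

end Pool.Agent.V5helper6.LAR
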