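import Pool.Agent.V5helper6.LAR.HamSum

set_option autoImplicit false

/-!
Families of vectors whose Cayley graph is the union of Hamilton cycles.
-/

namespace Pool.Agent.V5helper6.LAR

open SimpleGraph Finset

theorem ham_eq {κ W : Type} [Fintype κ] [AddCommGroup W] [Finite W] (δ : κ → W) (hδ : Nd δ)
    (P : κ → SimpleGraph W) (h1 : ∀ k v, ((P k).neighborSet v).ncard ≤ 2)
    (h2 : ∀ v w, (⨆ k, P k).Adj v w ↔ v ≠ w ∧ ∃ k, w = v + δ k ∨ v = w + δ k) (k : κ) (v : W) :
    ((P k).neighborSet v).ncard = 2 := by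
  classical
  have := Fintype.ofFinite W
  let F : κ ⊕ κ → W := Sum.elim (fun k => v + δ k) (fun k => v - δ k)
  have hF : Function.Injective F := by
    rintro (a | a) (b | b) h
    · have h : v + δ a = v + δ b := h
      have h' := add_left_cancel h
      by_contra hcon
      exact hδ.1 a b (fun e => hcon (by rw [e])) h'
    · have h : v + δ a = v - δ b := h
      rw [sub_eq_add_neg] at h
      exact absurd (add_left_cancel h) (hδ.2 a b)
    · have h : v - δ a = v + δ b := h
      rw [sub_eq_add_neg] at h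
      exact absurd (add_left_cancel h).symm (hδ.2 b a)
    · have h : v - δ a = v - δ b := h
      have h' := sub_right_injective h
      by_contra hcon
      exact hδ.1 a b (fun e => hcon (by rw [e])) h'
  let N : κ → Finset W := fun j => univ.filter (fun w => (P j).Adj v w)
  have hNc : ∀ j, (N j).card = ((P j).neighborSet v).ncard := by
    intro j
    rw [← Set.ncard_coe_finset]
    congr 1
    ext u
    simp [N]
  have hsub : univ.image F ⊆ univ.biUnion N := by
    intro u hu
    obtain ⟨j, -, rfl⟩ := mem_image.1 hu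
    have hadj : (⨆ k, P k).Adj v (F j) := by
      rw [h2]
      rcases j with j | j
      · refine ⟨?_, j, Or.inl rfl⟩
        intro h
        have h : v = v + δ j := h
        have h3 : δ j = 0 := left_eq_add.1 h
        exact hδ.2 j j (by rw [h3, neg_zero])
      · refine ⟨?_, j, Or.inr ?_⟩
        · intro h
          have h : v = v - δ j := h
          have h3 : δ j = 0 := by
            rw [sub_eq_add_neg] at h
            exact neg_eq_zero.1 (left_eq_add.1 h)
          exact hδ.2 j j (by rw [h3, neg_zero])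
        · show v = v - δ j + δ j
          abel
    rw [iSup_adj] at hadj
    obtain ⟨j', hj'⟩ := hadj
    exact mem_biUnion.2 ⟨j', mem_univ _, mem_filter.2 ⟨mem_univ _, hj'⟩⟩
  have hcard := (card_le_card hsub).trans card_biUnion_le
  rw [card_image_of_injective _ hF, card_univ, Fintype.card_sum] at hcard
  by_contra hne
  have hlt : ∑ j : κ, (N j).card < ∑ _j : κ, 2 := by
    refine sum_lt_sum (fun j _ => ?_) ⟨k, mem_univ _, ?_⟩
    · rw [hNc]; exact h1 j v
    · rw [hNc]; exact lt_of_le_of_ne (h1 k v) hne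
  rw [sum_const, card_univ, smul_eq_mul] at hlt
  omega

section base

variable {p : ℕ} [Fact p.Prime]

theorem small_ne (h5 : 5 ≤ p) {n : ℕ} (h0 : 0 < n) (hn : n < 5) : ((n : ℕ) : ZMod p) ≠ 0 := by
  intro h
  rw [ZMod.natCast_eq_zero_iff] at h
  have := Nat.le_of_dvd h0 h
  omega

/-- Three elements in the plane. -/
theorem ham_plane (h5 : 5 ≤ p) :
    HamDec (![(1, 0), (3, 0), (-1, 1)] : Fin 3 → ZMod p × ZMod p) := by
  have : Fact (1 < p) := ⟨by omega⟩
  have : NeZero p := ⟨by omega⟩
  obtain ⟨P, h1, h2, h3⟩ := torus3 h5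
  set δ : Fin 3 → ZMod p × ZMod p := ![(1, 0), (3, 0), (-1, 1)] with hδdef
  have n1 : (1 : ZMod p) ≠ 0 := one_ne_zero
  have n2 : (2 : ZMod p) ≠ 0 := by have := small_ne h5 (n := 2) (by omega) (by omega); exact_mod_cast this
  have n3 : (3 : ZMod p) ≠ 0 := by have := small_ne h5 (n := 3) (by omega) (by omega); exact_mod_cast this
  have n4 : (4 : ZMod p) ≠ 0 := by have := small_ne h5 (n := 4) (by omega) (by omega); exact_mod_cast this
  have n6 : (6 : ZMod p) ≠ 0 := by
    have : (6 : ZMod p) = 2 * 3 := by norm_num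
    rw [this]
    exact mul_ne_zero n2 n3
  have d0 : δ 0 = (1, 0) := rfl
  have d1 : δ 1 = (3, 0) := rfl
  have d2 : δ 2 = (-1, 1) := rfl
  have hk : ∀ k : Fin 3, k = 0 ∨ k = 1 ∨ k = 2 := by decide
  have hNd : Nd δ := by
    constructor
    · intro k l hkl h
      rcases hk k with rfl | rfl | rfl <;> rcases hk l with rfl | rfl | rfl
      · exact hkl rfl
      · rw [d0, d1, Prod.mk.injEq] at h
        exact n2 (by linear_combination -h.1)
      · rw [d0, d2, Prod.mk.injEq] at h
        exact n1 h.2.symm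
      · rw [d1, d0, Prod.mk.injEq] at h
        exact n2 (by linear_combination h.1)
      · exact hkl rfl
      · rw [d1, d2, Prod.mk.injEq] at h
        exact n1 h.2.symm
      · rw [d2, d0, Prod.mk.injEq] at h
        exact n1 h.2
      · rw [d2, d1, Prod.mk.injEq] at h
        exact n1 h.2
      · exact hkl rfl
    · intro k l h
      rcases hk k with rfl | rfl | rfl <;> rcases hk l with rfl | rfl | rfl
      · rw [d0, Prod.neg_mk, Prod.mk.injEq] at h
        exact n2 (by linear_combination h.1)
      · rw [d0, d1, Prod.neg_mk, Prod.mk.injEq] at h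
        exact n4 (by linear_combination h.1)
      · rw [d0, d2, Prod.neg_mk, Prod.mk.injEq] at h
        exact n1 (by linear_combination h.2)
      · rw [d1, d0, Prod.neg_mk, Prod.mk.injEq] at h
        exact n4 (by linear_combination h.1)
      · rw [d1, Prod.neg_mk, Prod.mk.injEq] at h
        exact n6 (by linear_combination h.1)
      · rw [d1, d2, Prod.neg_mk, Prod.mk.injEq] at h
        exact n1 (by linear_combination h.2)
      · rw [d2, d0, Prod.neg_mk, Prod.mk.injEq] at h
        exact n1 (by linear_combination h.2)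
      · rw [d2, d1, Prod.neg_mk, Prod.mk.injEq] at h
        exact n1 (by linear_combination h.2)
      · rw [d2, Prod.neg_mk, Prod.mk.injEq] at h
        exact n2 (by linear_combination h.2)
  have hadj : ∀ v w, (⨆ k, P k).Adj v w ↔ v ≠ w ∧ ∃ k, w = v + δ k ∨ v = w + δ k := by
    intro v w
    rw [h3]
    refine and_congr_right fun _ => ?_
    have m1 : w = (v.1 + 1, v.2) ↔ w = v + δ 0 := by
      rw [d0]
      have : v + (1, 0) = (v.1 + 1, v.2) := by ext <;> simp
      rw [this]
    have m1' : w = (v.1 - 1, v.2) ↔ v = w + δ 0 := by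
      rw [d0]
      constructor
      · rintro rfl
        ext <;> simp
      · intro h
        rw [h]
        ext <;> simp
    have m3 : w = (v.1 + 3, v.2) ↔ w = v + δ 1 := by
      rw [d1]
      have : v + (3, 0) = (v.1 + 3, v.2) := by ext <;> simp
      rw [this]
    have m3' : w = (v.1 - 3, v.2) ↔ v = w + δ 1 := by
      rw [d1]
      constructor
      · rintro rfl
        ext <;> simp
      · intro h
        rw [h]
        ext <;> simp
    have m4 : w = (v.1 - 1, v.2 + 1) ↔ w = v + δ 2 := by
      rw [d2]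
      have : v + (-1, 1) = (v.1 - 1, v.2 + 1) := by
        ext
        · simp [sub_eq_add_neg]
        · simp
      rw [this]
    have m4' : w = (v.1 + 1, v.2 - 1) ↔ v = w + δ 2 := by
      rw [d2]
      constructor
      · rintro rfl
        ext <;> simp
      · intro h
        rw [h]
        ext <;> simp
    unfold Nb
    rw [m1, m1', m3, m3', m4, m4']
    constructor
    · rintro (h | h | h | h | h | h)
      · exact ⟨0, Or.inl h⟩
      · exact ⟨0, Or.inr h⟩
      · exact ⟨1, Or.inl h⟩
      · exact ⟨1, Or.inr h⟩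
      · exact ⟨2, Or.inl h⟩
      · exact ⟨2, Or.inr h⟩
    · rintro ⟨k, h⟩
      rcases hk k with rfl | rfl | rfl
      · rcases h with h | h
        · exact Or.inl h
        · exact Or.inr (Or.inl h)
      · rcases h with h | h
        · exact Or.inr (Or.inr (Or.inl h))
        · exact Or.inr (Or.inr (Or.inr (Or.inl h)))
      · rcases h with h | h
        · exact Or.inr (Or.inr (Or.inr (Or.inr (Or.inl h))))
        · exact Or.inr (Or.inr (Or.inr (Or.inr (Or.inr h))))
  exact ⟨P, fun k v => ham_eq δ hNd P h1 hadj k v, h2, hadj⟩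

/-- Two elements on a line. -/
theorem ham_line (h5 : 5 ≤ p) : HamDec (![3, 1] : Fin 2 → ZMod p) := by
  have : Fact (1 < p) := ⟨by omega⟩
  have : NeZero p := ⟨by omega⟩
  set δ : Fin 2 → ZMod p := ![3, 1] with hδdef
  have n1 : (1 : ZMod p) ≠ 0 := one_ne_zero
  have n2 : (2 : ZMod p) ≠ 0 := by have := small_ne h5 (n := 2) (by omega) (by omega); exact_mod_cast this
  have n3 : (3 : ZMod p) ≠ 0 := by have := small_ne h5 (n := 3) (by omega) (by omega); exact_mod_cast this
  have n4 : (4 : ZMod p) ≠ 0 := by have := small_ne h5 (n := 4) (by omega) (by omega); exact_mod_cast this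
  have n6 : (6 : ZMod p) ≠ 0 := by
    have : (6 : ZMod p) = 2 * 3 := by norm_num
    rw [this]
    exact mul_ne_zero n2 n3
  have d0 : δ 0 = 3 := rfl
  have d1 : δ 1 = 1 := rfl
  have hk : ∀ k : Fin 2, k = 0 ∨ k = 1 := by decide
  have hNd : Nd δ := by
    constructor
    · intro k l hkl h
      rcases hk k with rfl | rfl <;> rcases hk l with rfl | rfl
      · exact hkl rfl
      · rw [d0, d1] at h
        exact n2 (by linear_combination h)
      · rw [d0, d1] at h
        exact n2 (by linear_combination -h)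
      · exact hkl rfl
    · intro k l h
      rcases hk k with rfl | rfl <;> rcases hk l with rfl | rfl
      · rw [d0] at h
        exact n6 (by linear_combination h)
      · rw [d0, d1] at h
        exact n4 (by linear_combination h)
      · rw [d0, d1] at h
        exact n4 (by linear_combination h)
      · rw [d1] at h
        exact n2 (by linear_combination h)
  let P : Fin 2 → SimpleGraph (ZMod p) := fun k => PG (fun x => x + δ k) (fun x => x - δ k)
  have hports : ∀ k, Ports (fun x => x + δ k) (fun x => x - δ k) :=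
    fun k => ⟨fun x => Or.inr (by ring), fun x => Or.inl (by ring)⟩
  have hadj : ∀ v w, (⨆ k, P k).Adj v w ↔ v ≠ w ∧ ∃ k, w = v + δ k ∨ v = w + δ k := by
    intro v w
    rw [iSup_adj]
    constructor
    · rintro ⟨k, hk⟩
      obtain ⟨h0, h | h⟩ := (hports k).adj.1 hk
      · exact ⟨h0, k, Or.inl h⟩
      · exact ⟨h0, k, Or.inr (by rw [h]; ring)⟩
    · rintro ⟨h0, k, h | h⟩
      · exact ⟨k, (hports k).adj.2 ⟨h0, Or.inl h⟩⟩
      · exact ⟨k, (hports k).adj.2 ⟨h0, Or.inr (by rw [h]; ring)⟩⟩
  refine ⟨P, fun k v => ham_eq δ hNd P (fun k => (hports k).deg) hadj k v, fun k v w => ?_, hadj⟩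
  have hc : δ k ≠ 0 := by
    rcases hk k with rfl | rfl
    · rw [d0]; exact n3
    · rw [d1]; exact n1
  have key : ∀ n : ℕ, (P k).Reachable v (v + n * δ k) := by
    intro n
    induction n with
    | zero =>
      have : v + ((0 : ℕ) : ZMod p) * δ k = v := by simp
      rw [this]
    | succ n ih =>
      have h := PG.reach_f (f := fun x => x + δ k) (g := fun x => x - δ k) (v + n * δ k)
      have e : v + ((n + 1 : ℕ) : ZMod p) * δ k = v + n * δ k + δ k := by push_cast; ring
      rw [e]
      exact ih.trans h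
  have h := key (((w - v) * (δ k)⁻¹).val)
  rw [ZMod.natCast_zmod_val, mul_assoc, inv_mul_cancel₀ hc, mul_one] at h
  have e : v + (w - v) = w := by ring
  rwa [e] at h

end base

section cls

variable (p : ℕ) [Fact p.Prime] {V : Type} [AddCommGroup V] [Module (ZMod p) V]

/-- The Cayley graph of the family is the union of Hamilton cycles of its components, of order
`p ^ r`. -/
def Cls {κ : Type} (x : κ → V) (r : ℕ) : Prop :=
  ∃ (W : Type) (_ : AddCommGroup W) (_ : Finite W) (φ : W →+ V) (δ : κ → W),
    Function.Injective φ ∧ Nat.card W = p ^ r ∧ (∀ k, φ (δ k) = x k) ∧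
    (∀ w, φ w ∈ Submodule.span (ZMod p) (Set.range x)) ∧ HamDec δ

variable {p}

theorem HamDec.reindex {κ κ' W : Type} [AddCommGroup W] {δ : κ → W} (h : HamDec δ) (e : κ' ≃ κ) :
    HamDec (fun k => δ (e k)) := by
  obtain ⟨P, h1, h2, h3⟩ := h
  refine ⟨fun k => P (e k), fun k => h1 (e k), fun k => h2 (e k), fun v w => ?_⟩
  rw [e.surjective.iSup_comp P, h3]
  refine and_congr_right fun _ => ?_
  constructor
  · rintro ⟨k, hk⟩
    exact ⟨e.symm k, by simpa using hk⟩
  · rintro ⟨k, hk⟩
    exact ⟨e k, hk⟩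

theorem Cls.reindex {κ κ' : Type} {x : κ → V} {r : ℕ} (h : Cls p x r) (e : κ' ≃ κ) :
    Cls p (fun k => x (e k)) r := by
  obtain ⟨W, i1, i2, φ, δ, h1, h2, h3, h4, h5⟩ := h
  refine ⟨W, i1, i2, φ, fun k => δ (e k), h1, h2, fun k => h3 (e k), fun w => ?_, h5.reindex e⟩
  have : Set.range (fun k => x (e k)) = Set.range x := e.surjective.range_comp x
  rw [this]
  exact h4 w

theorem Cls.sum {κ κ' : Type} [Fintype κ] [Fintype κ'] {x : κ → V} {y : κ' → V} {a b : ℕ}
    (hx : Cls p x a) (hy : Cls p y b) (hNd : Nd y)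
    (hdisj : Disjoint (Submodule.span (ZMod p) (Set.range x))
      (Submodule.span (ZMod p) (Set.range y)))
    (h1 : Fintype.card κ ≤ Fintype.card κ') (h2 : Fintype.card κ' ≤ 2 * Fintype.card κ)
    (hsize : Fintype.card κ' ≠ Fintype.card κ → p ^ a % 2 = 1 ∧ p ^ b % 2 = 1 ∧
      5 ≤ p ^ a ∧ 2 * p ^ a ≤ p ^ b + 1) : Cls p (Sum.elim x y) (a + b) := by
  obtain ⟨W, i1, i2, φ, δ, a1, a2, a3, a4, a5⟩ := hx
  obtain ⟨W', i1', i2', φ', δ', b1, b2, b3, b4, b5⟩ := hy
  refine ⟨W × W', inferInstance, inferInstance, φ.coprod φ',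
    Sum.elim (fun k => ((δ k, 0) : W × W')) (fun k => ((0, δ' k) : W × W')), ?_, ?_, ?_, ?_, ?_⟩
  · rw [injective_iff_map_eq_zero]
    rintro ⟨w, w'⟩ h
    rw [AddMonoidHom.coprod_apply] at h
    have h3 : φ w = -φ' w' := eq_neg_of_add_eq_zero_left h
    have h4 : φ w ∈ Submodule.span (ZMod p) (Set.range y) := by
      rw [h3]
      exact Submodule.neg_mem _ (b4 w')
    have h5 : φ w = 0 := Submodule.disjoint_def.1 hdisj _ (a4 w) h4
    have h6 : φ' w' = 0 := by
      rw [h5, zero_add] at h
      exact h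
    rw [injective_iff_map_eq_zero] at a1 b1
    rw [a1 w h5, b1 w' h6]
    rfl
  · rw [Nat.card_prod, a2, b2, pow_add]
  · rintro (k | k)
    · show φ.coprod φ' (δ k, 0) = x k
      rw [AddMonoidHom.coprod_apply, map_zero, add_zero, a3]
    · show φ.coprod φ' (0, δ' k) = y k
      rw [AddMonoidHom.coprod_apply, map_zero, zero_add, b3]
  · rintro ⟨w, w'⟩
    rw [AddMonoidHom.coprod_apply]
    refine Submodule.add_mem _ (Submodule.span_mono ?_ (a4 w)) (Submodule.span_mono ?_ (b4 w'))
    · rintro _ ⟨k, rfl⟩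
      exact ⟨Sum.inl k, rfl⟩
    · rintro _ ⟨k, rfl⟩
      exact ⟨Sum.inr k, rfl⟩
  · refine a5.sum' b5 ?_ h1 h2 ?_
    · constructor
      · intro k l hkl h
        apply hNd.1 k l hkl
        rw [← b3, ← b3, h]
      · intro k l h
        apply hNd.2 k l
        rw [← b3, ← b3, h, map_neg]
    · rw [a2, b2]
      exact hsize

theorem nd_of_indep (hp : p ≠ 2) {κ : Type} {x : κ → V} (hx : LinearIndependent (ZMod p) x) :
    Nd x := by
  have hnt : Nontrivial (ZMod p) := inferInstance
  refine ⟨fun k l hkl h => hkl (hx.injective h), fun k l h => ?_⟩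
  by_cases hkl : k = l
  · subst hkl
    have h2 : (2 : ZMod p) • x k = 0 := by
      rw [two_smul]
      nth_rewrite 1 [h]
      exact neg_add_cancel _
    have h3 : (2 : ZMod p) ≠ 0 := by
      intro h4
      have h5 : ((2 : ℕ) : ZMod p) = 0 := by exact_mod_cast h4
      rw [ZMod.natCast_eq_zero_iff] at h5
      exact hp ((Nat.prime_dvd_prime_iff_eq Fact.out Nat.prime_two).1 h5)
    exact hx.ne_zero k ((smul_eq_zero.1 h2).resolve_left h3)
  · have h1 : x k ∉ Submodule.span (ZMod p) (x '' {l}) :=
      hx.notMem_span_image (by simpa using hkl)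
    apply h1
    rw [h]
    exact Submodule.neg_mem _ (Submodule.subset_span ⟨l, rfl, rfl⟩)

end cls

end Pool.Agent.V5helper6.LAR
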