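import Pool.Agent.V5helper6.LAR.Cls

set_option autoImplicit false

/-!
Independent families, and independent families with one more element.
-/

namespace Pool.Agent.V5helper6.LAR

open SimpleGraph Finset Module

variable {p : ℕ} [Fact p.Prime] {V : Type} [AddCommGroup V] [Module (ZMod p) V]

theorem cls_base (hp : p ≠ 2) {r : ℕ} (hr1 : 1 ≤ r) (hrp : r ≤ p)
    (hcop : r = 1 ∨ (r - 1).Coprime p) {κ : Type} [Fintype κ] (x : κ → V)
    (hκ : Fintype.card κ = r) (hx : LinearIndependent (ZMod p) x) : Cls p x r := by
  classical
  have : NeZero r := ⟨by omega⟩
  have hpp : p.Prime := Fact.out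
  have : NeZero p := ⟨hpp.ne_zero⟩
  have hodd : Odd p := hpp.odd_of_ne_two hp
  have hp3 : 3 ≤ p := by
    have h1 := hpp.two_le
    omega
  let e : ZMod r ≃ κ := Fintype.equivOfCardEq (by rw [ZMod.card, hκ])
  let x' : ZMod r → V := fun k => x (e k)
  have hx' : LinearIndependent (ZMod p) x' := hx.comp e e.injective
  have hmain : Cls p x' r := by
    let y : Fin r → V := fun i => if i.val = 0 then x' 0 else x' ((i.val : ℕ) : ZMod r) - x' 0
    let φ : (Fin r → ZMod p) →ₗ[ZMod p] V := Fintype.linearCombination (ZMod p) y
    have hφ : ∀ f, φ f = ∑ i, f i • y i := fun f => Fintype.linearCombination_apply _ _ _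
    let i0 : Fin r := ⟨0, by omega⟩
    have hgen : ∀ k, φ (gen k) = x' k := by
      intro k
      rw [hφ, ← add_sum_erase univ _ (mem_univ i0)]
      have h0 : (gen k : Fin r → ZMod p) i0 • y i0 = x' 0 := by
        have e1 : (gen k : Fin r → ZMod p) i0 = 1 := by
          unfold gen
          rw [if_pos rfl]
        have e2 : y i0 = x' 0 := if_pos rfl
        rw [e1, e2, one_smul]
      rw [h0]
      have hg : ∀ i ∈ univ.erase i0, (gen k : Fin r → ZMod p) i • y i =
          if k = ((i.val : ℕ) : ZMod r) then x' k - x' 0 else 0 := by
        intro i hi
        have hi0 : i.val ≠ 0 := fun h => (ne_of_mem_erase hi) (Fin.ext h)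
        have e2 : y i = x' ((i.val : ℕ) : ZMod r) - x' 0 := if_neg hi0
        unfold gen
        rw [if_neg hi0, e2]
        by_cases h : k = ((i.val : ℕ) : ZMod r)
        · rw [if_pos h, if_pos h, one_smul, h]
        · rw [if_neg h, if_neg h, zero_smul]
      rw [sum_congr rfl hg]
      by_cases hk : k = 0
      · rw [sum_eq_zero, hk, add_zero]
        intro i hi
        rw [if_neg]
        intro h
        have hi0 : i.val ≠ 0 := fun h => (ne_of_mem_erase hi) (Fin.ext h)
        rw [hk] at h
        have h1 := (cast_eq_iff (r := r) i.2 0).1 h.symm
        rw [ZMod.val_zero] at h1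
        exact hi0 h1
      · have hkv : k.val ≠ 0 := fun h => hk ((ZMod.val_eq_zero k).1 h)
        rw [sum_eq_single (⟨k.val, ZMod.val_lt k⟩ : Fin r)]
        · rw [if_pos (ZMod.natCast_zmod_val k).symm]
          abel
        · intro i hi hne
          rw [if_neg]
          intro h
          have h1 := (cast_eq_iff (r := r) i.2 k).1 h.symm
          exact hne (Fin.ext h1)
        · intro h
          exfalso
          apply h
          refine mem_erase.2 ⟨fun h' => hkv (congrArg Fin.val h'), mem_univ _⟩
    have hinj : Function.Injective φ := by
      have h1 : Submodule.span (ZMod p) (Set.range x') ≤ LinearMap.range φ := by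
        rw [Submodule.span_le]
        rintro _ ⟨k, rfl⟩
        exact ⟨gen k, hgen k⟩
      have h2 := Submodule.finrank_mono h1
      rw [finrank_span_eq_card hx', ZMod.card] at h2
      have h3 := LinearMap.finrank_range_add_finrank_ker φ
      rw [Module.finrank_fintype_fun_eq_card, Fintype.card_fin] at h3
      have h4 : finrank (ZMod p) (LinearMap.ker φ) = 0 := by omega
      rw [Submodule.finrank_eq_zero] at h4
      exact LinearMap.ker_eq_bot.1 h4
    refine ⟨Fin r → ZMod p, inferInstance, inferInstance, φ.toAddMonoidHom, gen, hinj, ?_, hgen, ?_,
      ham_rank hodd hp3 hrp hcop⟩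
    · rw [Nat.card_eq_fintype_card, Fintype.card_fun, ZMod.card, Fintype.card_fin]
    · intro w
      show φ w ∈ _
      rw [hφ]
      refine Submodule.sum_mem _ fun i _ => Submodule.smul_mem _ _ ?_
      show (if i.val = 0 then x' 0 else x' ((i.val : ℕ) : ZMod r) - x' 0) ∈ _
      split_ifs
      · exact Submodule.subset_span ⟨_, rfl⟩
      · exact Submodule.sub_mem _ (Submodule.subset_span ⟨_, rfl⟩) (Submodule.subset_span ⟨_, rfl⟩)
  have h := hmain.reindex e.symm
  have hx2 : (fun k => x' (e.symm k)) = x := by
    funext k
    show x (e (e.symm k)) = x k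
    rw [e.apply_symm_apply]
  rwa [hx2] at h

/-- Independent families. -/
theorem cls_ind (hp : p ≠ 2) : ∀ t, 1 ≤ t → ∀ (κ : Type) [Fintype κ] (x : κ → V),
    Fintype.card κ = t → LinearIndependent (ZMod p) x → Cls p x t := by
  intro t
  have hpp : p.Prime := Fact.out
  have hodd : Odd p := hpp.odd_of_ne_two hp
  have hp3 : 3 ≤ p := by
    have h1 := hpp.two_le
    omega
  induction t using Nat.strong_induction_on with
  | _ t ih =>
    intro ht κ _ x hκ hx
    rcases Nat.lt_or_ge t 4 with hlt | hge
    · refine cls_base hp ht (by omega) ?_ x hκ hx
      have : t = 1 ∨ t = 2 ∨ t = 3 := by omega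
      rcases this with rfl | rfl | rfl
      · exact Or.inl rfl
      · exact Or.inr (Nat.coprime_one_left p)
      · exact Or.inr ((Nat.coprime_two_left).2 hodd)
    · set a := t / 2 with ha
      set b := t - t / 2 with hb
      let e : κ ≃ Fin a ⊕ Fin b := Fintype.equivOfCardEq (by
        rw [hκ, Fintype.card_sum, Fintype.card_fin, Fintype.card_fin]; omega)
      let v : Fin a ⊕ Fin b → V := fun k => x (e.symm k)
      have hv : LinearIndependent (ZMod p) v := hx.comp e.symm e.symm.injective
      obtain ⟨h1, h2, h3⟩ := linearIndependent_sum.1 hv
      have c1 := ih a (by omega) (by omega) (Fin a) (v ∘ Sum.inl) (Fintype.card_fin a) h1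
      have c2 := ih b (by omega) (by omega) (Fin b) (v ∘ Sum.inr) (Fintype.card_fin b) h2
      have c3 := c1.sum c2 (nd_of_indep hp h2) h3
        (by rw [Fintype.card_fin, Fintype.card_fin]; omega)
        (by rw [Fintype.card_fin, Fintype.card_fin]; omega) (by
          intro hne
          rw [Fintype.card_fin, Fintype.card_fin] at hne
          have hba : b = a + 1 := by omega
          have hpos : 3 ^ 2 ≤ p ^ a :=
            (Nat.pow_le_pow_left hp3 2).trans (Nat.pow_le_pow_right (by omega) (by omega))
          refine ⟨Nat.odd_iff.1 hodd.pow, Nat.odd_iff.1 hodd.pow, by omega, ?_⟩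
          rw [hba, pow_succ]
          nlinarith)
      rw [Sum.elim_comp_inl_inr] at c3
      have c4 := c3.reindex e
      have hx2 : (fun k => v (e k)) = x := by
        funext k
        show x (e.symm (e k)) = x k
        rw [e.symm_apply_apply]
      have hab : a + b = t := by omega
      rwa [hx2, hab] at c4

/-- The options of a sum. -/
def optSum (α β : Type) : Option (α ⊕ β) ≃ Option α ⊕ β where
  toFun o := match o with
    | none => Sum.inl none
    | some (Sum.inl a) => Sum.inl (some a)
    | some (Sum.inr b) => Sum.inr b
  invFun o := match o with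
    | Sum.inl none => none
    | Sum.inl (some a) => some (Sum.inl a)
    | Sum.inr b => some (Sum.inr b)
  left_inv := by rintro (_ | (_ | _)) <;> rfl
  right_inv := by rintro ((_ | _) | _) <;> rfl

/-- Independent families with one more element. -/
theorem cls_spec (h5 : 5 ≤ p) : ∀ f, 1 ≤ f → ∀ (κ : Type) [Fintype κ] (x : κ → V) (k0 : κ),
    Fintype.card κ = f → LinearIndependent (ZMod p) x →
    Cls p (fun o : Option κ => o.elim ((3 : ZMod p) • x k0) x) f := by
  classical
  intro f
  have hpp : p.Prime := Fact.out
  have hp2 : p ≠ 2 := by omega
  have hodd : Odd p := hpp.odd_of_ne_two hp2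
  have : NeZero p := ⟨by omega⟩
  induction f using Nat.strong_induction_on with
  | _ f ih =>
    intro hf κ _ x k0 hκ hx
    rcases Nat.lt_or_ge f 3 with hlt | hge
    · have : f = 1 ∨ f = 2 := by omega
      rcases this with rfl | rfl
      · -- one element
        obtain ⟨k1, hk1⟩ := Fintype.card_eq_one_iff.1 hκ
        have hall : ∀ k, k = k0 := fun k => (hk1 k).trans (hk1 k0).symm
        let F : Option κ → Fin 2 := fun o => o.elim 0 (fun _ => 1)
        have hF : Function.Bijective F := by
          constructor
          · rintro (_ | a) (_ | b) h
            · rfl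
            · exact absurd h (by show ¬ (0 : Fin 2) = 1; decide)
            · exact absurd h (by show ¬ (1 : Fin 2) = 0; decide)
            · rw [hall a, hall b]
          · intro k
            have hk : ∀ k : Fin 2, k = 0 ∨ k = 1 := by decide
            rcases hk k with rfl | rfl
            · exact ⟨none, rfl⟩
            · exact ⟨some k0, rfl⟩
        let φ : ZMod p →ₗ[ZMod p] V := LinearMap.toSpanSingleton (ZMod p) V (x k0)
        have hφ : ∀ c, φ c = c • x k0 := fun c => LinearMap.toSpanSingleton_apply _ _ _ _
        have hc : Cls p (![(3 : ZMod p) • x k0, x k0] : Fin 2 → V) 1 := by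
          refine ⟨ZMod p, inferInstance, inferInstance, φ.toAddMonoidHom, ![3, 1], ?_, ?_, ?_, ?_,
            ham_line h5⟩
          · rw [injective_iff_map_eq_zero]
            intro c h
            have h : c • x k0 = 0 := h
            exact (smul_eq_zero.1 h).resolve_right (hx.ne_zero k0)
          · rw [Nat.card_zmod, pow_one]
          · intro k
            have hk : ∀ k : Fin 2, k = 0 ∨ k = 1 := by decide
            rcases hk k with rfl | rfl
            · rfl
            · show (1 : ZMod p) • x k0 = x k0
              rw [one_smul]
          · intro w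
            show w • x k0 ∈ _
            exact Submodule.smul_mem _ _ (Submodule.subset_span ⟨1, rfl⟩)
        have h := hc.reindex (Equiv.ofBijective F hF)
        have he : (fun k => (![(3 : ZMod p) • x k0, x k0] : Fin 2 → V)
            ((Equiv.ofBijective F hF) k)) =
            (fun o : Option κ => o.elim ((3 : ZMod p) • x k0) x) := by
          funext o
          rcases o with _ | k
          · rfl
          · show x k0 = x k
            rw [hall k]
        rwa [he] at h
      · -- two elements
        obtain ⟨k1, hk1, hall⟩ : ∃ k1, k1 ≠ k0 ∧ ∀ k, k = k0 ∨ k = k1 := by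
          rw [← Finset.card_univ, Finset.card_eq_two] at hκ
          obtain ⟨i, j, hij, h⟩ := hκ
          have hm : ∀ k : κ, k = i ∨ k = j := by
            intro k
            have : k ∈ (univ : Finset κ) := mem_univ k
            rw [h] at this
            simpa using this
          rcases hm k0 with rfl | rfl
          · exact ⟨j, hij.symm, hm⟩
          · exact ⟨i, hij, fun k => (hm k).symm⟩
        let F : Option κ → Fin 3 := fun o => o.elim 1 (fun k => if k = k0 then 0 else 2)
        have F0 : F (some k0) = 0 := if_pos rfl
        have F2 : F (some k1) = 2 := if_neg hk1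
        have hF : Function.Bijective F := by
          constructor
          · rintro (_ | a) (_ | b) h
            · rfl
            · exfalso
              rcases hall b with rfl | rfl
              · rw [F0] at h
                exact absurd h (by show ¬ (1 : Fin 3) = 0; decide)
              · rw [F2] at h
                exact absurd h (by show ¬ (1 : Fin 3) = 2; decide)
            · exfalso
              rcases hall a with rfl | rfl
              · rw [F0] at h
                exact absurd h (by show ¬ (0 : Fin 3) = 1; decide)
              · rw [F2] at h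
                exact absurd h (by show ¬ (2 : Fin 3) = 1; decide)
            · rcases hall a with rfl | rfl <;> rcases hall b with rfl | rfl
              · rfl
              · rw [F0, F2] at h
                exact absurd h (by decide)
              · rw [F0, F2] at h
                exact absurd h (by decide)
              · rfl
          · intro k
            have hk : ∀ k : Fin 3, k = 0 ∨ k = 1 ∨ k = 2 := by decide
            rcases hk k with rfl | rfl | rfl
            · exact ⟨some k0, F0⟩
            · exact ⟨none, rfl⟩
            · exact ⟨some k1, F2⟩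
        set a := x k0 with ha
        set b := x k1 with hb
        have hab : LinearIndependent (ZMod p) ![a, b] := by
          have h1 : Function.Injective (![k0, k1] : Fin 2 → κ) := by
            intro i j hij
            have hk : ∀ k : Fin 2, k = 0 ∨ k = 1 := by decide
            rcases hk i with rfl | rfl <;> rcases hk j with rfl | rfl
            · rfl
            · exact absurd hij.symm hk1
            · exact absurd hij hk1
            · rfl
          have h2 := hx.comp _ h1
          have h3 : x ∘ (![k0, k1] : Fin 2 → κ) = ![a, b] := by
            funext i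
            have hk : ∀ k : Fin 2, k = 0 ∨ k = 1 := by decide
            rcases hk i with rfl | rfl
            · rfl
            · rfl
          rwa [h3] at h2
        rw [LinearIndependent.pair_iff] at hab
        let φ : ZMod p × ZMod p →ₗ[ZMod p] V :=
          (LinearMap.toSpanSingleton (ZMod p) V a).coprod
            (LinearMap.toSpanSingleton (ZMod p) V (a + b))
        have hφ : ∀ w, φ w = w.1 • a + w.2 • (a + b) := fun w => rfl
        have hc : Cls p (![a, (3 : ZMod p) • a, b] : Fin 3 → V) 2 := by
          refine ⟨ZMod p × ZMod p, inferInstance, inferInstance, φ.toAddMonoidHom,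
            ![(1, 0), (3, 0), (-1, 1)], ?_, ?_, ?_, ?_, ham_plane h5⟩
          · rw [injective_iff_map_eq_zero]
            rintro ⟨i, j⟩ h
            have h : i • a + j • (a + b) = 0 := h
            have h' : (i + j) • a + j • b = 0 := by
              rw [← h]
              module
            obtain ⟨h3, h4⟩ := hab _ _ h'
            rw [h4, add_zero] at h3
            rw [h3, h4]
            rfl
          · rw [Nat.card_prod, Nat.card_zmod, pow_two]
          · intro k
            have hk : ∀ k : Fin 3, k = 0 ∨ k = 1 ∨ k = 2 := by decide
            rcases hk k with rfl | rfl | rfl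
            · show (1 : ZMod p) • a + (0 : ZMod p) • (a + b) = a
              module
            · show (3 : ZMod p) • a + (0 : ZMod p) • (a + b) = (3 : ZMod p) • a
              module
            · show (-1 : ZMod p) • a + (1 : ZMod p) • (a + b) = b
              module
          · rintro ⟨i, j⟩
            show i • a + j • (a + b) ∈ _
            refine Submodule.add_mem _ (Submodule.smul_mem _ _ (Submodule.subset_span ⟨0, rfl⟩))
              (Submodule.smul_mem _ _ (Submodule.add_mem _ (Submodule.subset_span ⟨0, rfl⟩)
                (Submodule.subset_span ⟨2, rfl⟩)))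
        have h := hc.reindex (Equiv.ofBijective F hF)
        have he : (fun k => (![a, (3 : ZMod p) • a, b] : Fin 3 → V)
            ((Equiv.ofBijective F hF) k)) =
            (fun o : Option κ => o.elim ((3 : ZMod p) • a) x) := by
          funext o
          show (![a, (3 : ZMod p) • a, b] : Fin 3 → V) (F o) = _
          rcases o with _ | k
          · rfl
          · rcases hall k with rfl | rfl
            · rw [F0]; rfl
            · rw [F2]; rfl
        rwa [he] at h
    · set f1 := (f - 1) / 2 with hf1
      set f2 := f - (f - 1) / 2 with hf2
      have hf1pos : 0 < f1 := by omega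
      let e0 : κ ≃ Fin f1 ⊕ Fin f2 := Fintype.equivOfCardEq (by
        rw [hκ, Fintype.card_sum, Fintype.card_fin, Fintype.card_fin]; omega)
      let z : Fin f1 := ⟨0, hf1pos⟩
      let e : κ ≃ Fin f1 ⊕ Fin f2 := e0.trans (Equiv.swap (e0 k0) (Sum.inl z))
      have hek : e k0 = Sum.inl z := by
        show Equiv.swap (e0 k0) (Sum.inl z) (e0 k0) = _
        exact Equiv.swap_apply_left _ _
      let v : Fin f1 ⊕ Fin f2 → V := fun k => x (e.symm k)
      have hvz : v (Sum.inl z) = x k0 := by
        show x (e.symm (Sum.inl z)) = _
        rw [← hek, e.symm_apply_apply]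
      have hv : LinearIndependent (ZMod p) v := hx.comp e.symm e.symm.injective
      obtain ⟨h1, h2, h3⟩ := linearIndependent_sum.1 hv
      have c1 := ih f1 (by omega) (by omega) (Fin f1) (v ∘ Sum.inl) z (Fintype.card_fin f1) h1
      have c2 := cls_ind hp2 f2 (by omega) (Fin f2) (v ∘ Sum.inr) (Fintype.card_fin f2) h2
      have hle : Submodule.span (ZMod p) (Set.range (fun o : Option (Fin f1) =>
          o.elim ((3 : ZMod p) • (v ∘ Sum.inl) z) (v ∘ Sum.inl))) ≤
          Submodule.span (ZMod p) (Set.range (v ∘ Sum.inl)) := by
        rw [Submodule.span_le]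
        rintro _ ⟨o, rfl⟩
        rcases o with _ | k
        · exact Submodule.smul_mem _ _ (Submodule.subset_span ⟨z, rfl⟩)
        · exact Submodule.subset_span ⟨k, rfl⟩
      have c3 := c1.sum c2 (nd_of_indep hp2 h2) (h3.mono_left hle)
        (by rw [Fintype.card_option, Fintype.card_fin, Fintype.card_fin]; omega)
        (by rw [Fintype.card_option, Fintype.card_fin, Fintype.card_fin]; omega) (by
          intro hne
          rw [Fintype.card_option, Fintype.card_fin, Fintype.card_fin] at hne
          have hba : f2 = f1 + 2 := by omega
          have hpos : 5 ^ 1 ≤ p ^ f1 :=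
            (Nat.pow_le_pow_left h5 1).trans (Nat.pow_le_pow_right (by omega) (by omega))
          refine ⟨Nat.odd_iff.1 hodd.pow, Nat.odd_iff.1 hodd.pow, by omega, ?_⟩
          rw [hba, pow_add]
          have h25 : 5 ^ 2 ≤ p ^ 2 := Nat.pow_le_pow_left h5 2
          nlinarith)
      have c4 := c3.reindex ((Equiv.optionCongr e).trans (optSum (Fin f1) (Fin f2)))
      have hab : f1 + f2 = f := by omega
      have hx2 : (fun k => Sum.elim (fun o : Option (Fin f1) =>
          o.elim ((3 : ZMod p) • (v ∘ Sum.inl) z) (v ∘ Sum.inl)) (v ∘ Sum.inr)
          (((Equiv.optionCongr e).trans (optSum (Fin f1) (Fin f2))) k)) =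
          (fun o : Option κ => o.elim ((3 : ZMod p) • x k0) x) := by
        funext o
        rcases o with _ | k
        · show (3 : ZMod p) • v (Sum.inl z) = (3 : ZMod p) • x k0
          rw [hvz]
        · have h6 : x k = v (e k) := by
            show x k = x (e.symm (e k))
            rw [e.symm_apply_apply]
          show Sum.elim (fun o : Option (Fin f1) =>
            o.elim ((3 : ZMod p) • (v ∘ Sum.inl) z) (v ∘ Sum.inl)) (v ∘ Sum.inr)
            (optSum (Fin f1) (Fin f2) (some (e k))) = x k
          rw [h6]
          rcases e k with i | j
          · rfl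
          · rfl
      rwa [hx2, hab] at c4

end Pool.Agent.V5helper6.LAR
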