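import Pool.Agent.W111.LAR.Top

set_option autoImplicit false

/-!
Covers of graphs given by voltages in a group acting on the fibre, and the sizes of the components
of the preimages of the cyclic components of graphs of maximum degree two.
-/

namespace Pool.Agent.V5helper6.LAR

open Finset SimpleGraph H931R3.LA Pool.Agent.W111.LAR

section

variable {V Γ : Type} [LinearOrder V] [Group Γ]

/-- The voltage from `u` to `v`: the group element of the pair, or its inverse. -/
def volt (σ : Sym2 V → Γ) (u v : V) : Γ := if u < v then σ s(u, v) else (σ s(u, v))⁻¹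

theorem volt_symm (σ : Sym2 V → Γ) {u v : V} (h : u ≠ v) : volt σ v u = (volt σ u v)⁻¹ := by
  unfold volt
  rcases lt_or_gt_of_ne h with h1 | h1
  · rw [if_neg (not_lt.2 h1.le), if_pos h1, Sym2.eq_swap]
  · rw [if_pos h1, if_neg (not_lt.2 h1.le), inv_inv, Sym2.eq_swap]

variable (X : Type) [MulAction Γ X]

/-- The cover of `G` with fibre `X` given by the voltages `σ`. -/
def cover (G : SimpleGraph V) (σ : Sym2 V → Γ) : SimpleGraph (V × X) where
  Adj p q := G.Adj p.1 q.1 ∧ q.2 = volt σ p.1 q.1 • p.2
  symm := ⟨by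
    rintro ⟨u, x⟩ ⟨v, y⟩ ⟨h, h2⟩
    refine ⟨h.symm, ?_⟩
    dsimp only at h h2 ⊢
    rw [volt_symm σ h.ne, h2, inv_smul_smul]⟩
  loopless := ⟨fun _ h => G.irrefl h.1⟩

variable {X}

theorem cover_nb (G : SimpleGraph V) (σ : Sym2 V → Γ) (v : V) (x : X) :
    (cover X G σ).neighborSet (v, x) = (fun u => (u, volt σ v u • x)) '' G.neighborSet v := by
  ext ⟨u, y⟩
  simp only [mem_neighborSet, Set.mem_image, Prod.mk.injEq]
  constructor
  · rintro ⟨h1, h2⟩
    exact ⟨u, h1, rfl, h2.symm⟩
  · rintro ⟨w, hw, rfl, h2⟩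
    exact ⟨hw, h2.symm⟩

theorem cover_deg (G : SimpleGraph V) (σ : Sym2 V → Γ) (v : V) (x : X) :
    ((cover X G σ).neighborSet (v, x)).ncard = (G.neighborSet v).ncard := by
  rw [cover_nb, Set.ncard_image_of_injective]
  intro a b h
  exact (Prod.mk.injEq _ _ _ _ ▸ h : _ ∧ _).1

/-- The voltage of a walk. -/
def wv {P : SimpleGraph V} (σ : Sym2 V → Γ) : ∀ {u v : V}, P.Walk u v → Γ
  | _, _, .nil => 1
  | _, _, .cons (u := a) (v := b) _ p => wv σ p * volt σ a b

theorem reach_wv {P : SimpleGraph V} (σ : Sym2 V → Γ) {u v : V} (p : P.Walk u v) (x : X) :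
    (cover X P σ).Reachable (u, x) (v, wv σ p • x) := by
  induction p generalizing x with
  | nil => simp only [wv, one_smul]; exact Reachable.refl _
  | cons h p ih =>
    rename_i a b c
    have h1 : (cover X P σ).Adj (a, x) (b, volt σ a b • x) := ⟨h, rfl⟩
    have h2 := ih (volt σ a b • x)
    simp only [wv, mul_smul]
    exact h1.reachable.trans h2

theorem wv_congr {P : SimpleGraph V} {σ σ' : Sym2 V → Γ} {u v : V} (p : P.Walk u v)
    (h : ∀ e ∈ p.edges, σ e = σ' e) : wv σ p = wv σ' p := by
  induction p with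
  | nil => rfl
  | cons hadj p ih =>
    rename_i a b c
    simp only [Walk.edges_cons, List.mem_cons, forall_eq_or_imp] at h
    simp only [wv, ih h.2, volt, h.1]

/-- A walk all whose edges have trivial voltage. -/
theorem wv_one {P : SimpleGraph V} {σ : Sym2 V → Γ} {u v : V} (p : P.Walk u v)
    (h : ∀ e ∈ p.edges, σ e = 1) : wv σ p = 1 := by
  induction p with
  | nil => rfl
  | cons hadj p ih =>
    rename_i a b c
    simp only [Walk.edges_cons, List.mem_cons, forall_eq_or_imp] at h
    simp only [wv, ih h.2, volt, h.1, inv_one, ite_self, mul_one]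

theorem cyc_of_cover {P : SimpleGraph V} (σ : Sym2 V → Γ) {v : V} {x : X}
    (h : Cyc (cover X P σ) (v, x)) : Cyc P v := by
  rintro w ⟨p⟩
  have h1 := h _ (reach_wv σ p x)
  rwa [cover_deg] at h1

theorem reach_pow {P : SimpleGraph V} (σ : Sym2 V → Γ) {v : V} (c : P.Walk v v) (x : X) (t : ℕ) :
    (cover X P σ).Reachable (v, x) (v, (wv σ c) ^ t • x) := by
  induction t with
  | zero => rw [pow_zero, one_smul]
  | succ t ih =>
    have h1 := reach_wv σ c ((wv σ c) ^ t • x)
    rw [← mul_smul, ← pow_succ'] at h1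
    exact ih.trans h1

/-- The component of the cover is at least as large as the component of the graph times the period
of the monodromy of a closed walk. -/
theorem csize_cover [Finite V] [Finite X] {P : SimpleGraph V} (σ : Sym2 V → Γ) {v : V}
    (c : P.Walk v v) (x : X) :
    csize P v * Function.minimalPeriod (fun y : X => wv σ c • y) x ≤
      csize (cover X P σ) (v, x) := by
  classical
  set m := Function.minimalPeriod (fun y : X => wv σ c • y) x with hm
  let q : ∀ u : {u | P.Reachable v u}, P.Walk v u.1 := fun u => u.2.some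
  let F : {u | P.Reachable v u} × Fin m → {w | (cover X P σ).Reachable (v, x) w} := fun a =>
    ⟨(a.1.1, wv σ (q a.1) • (wv σ c) ^ (a.2 : ℕ) • x),
      (reach_pow σ c x a.2).trans (reach_wv σ (q a.1) _)⟩
  have hF : Function.Injective F := by
    rintro ⟨u, t⟩ ⟨u', t'⟩ h
    have h1 := congrArg Subtype.val h
    simp only [F, Prod.mk.injEq] at h1
    obtain ⟨h2, h3⟩ := h1
    have h4 : u = u' := Subtype.ext h2
    subst h4
    have h5 := smul_left_cancel _ h3
    have h6 : (fun y : X => wv σ c • y)^[(t : ℕ)] x = (fun y : X => wv σ c • y)^[(t' : ℕ)] x := by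
      rw [smul_iterate_apply, smul_iterate_apply]
      exact h5
    have h7 := Function.iterate_injOn_Iio_minimalPeriod (f := fun y : X => wv σ c • y) (x := x)
      (Set.mem_Iio.2 t.2) (Set.mem_Iio.2 t'.2) h6
    rw [Prod.mk.injEq]
    exact ⟨rfl, Fin.ext h7⟩
  have h1 := Nat.card_le_card_of_injective F hF
  rw [Nat.card_prod, Nat.card_fin, Nat.card_coe_set_eq, Nat.card_coe_set_eq] at h1
  exact h1

theorem cover_reach_fst {P : SimpleGraph V} (σ : Sym2 V → Γ) {p q : V × X}
    (h : (cover X P σ).Reachable p q) : P.Reachable p.1 q.1 := by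
  obtain ⟨w⟩ := h
  induction w with
  | nil => exact Reachable.refl _
  | cons hadj _ ih => exact (Adj.reachable hadj.1).trans ih

theorem cover_sup {ι : Type} (H : ι → SimpleGraph V) (σ : Sym2 V → Γ) :
    cover X (⨆ i, H i) σ = ⨆ i, cover X (H i) σ := by
  ext ⟨u, x⟩ ⟨v, y⟩
  simp only [cover, iSup_adj]
  constructor
  · rintro ⟨⟨i, hi⟩, h⟩
    exact ⟨i, hi, h⟩
  · rintro ⟨i, hi, h⟩
    exact ⟨⟨i, hi⟩, h⟩

end

/-- A cyclic component contains a cycle. -/
theorem exists_cycle' {V : Type} [Finite V] {H : SimpleGraph V} {v : V} (h : Cyc H v) :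
    ∃ (w : V) (c : H.Walk w w), c.IsCycle ∧ H.Reachable v w ∧ c.length ≤ csize H v := by
  classical
  have := Fintype.ofFinite V
  let K : Set V := {w | H.Reachable v w}
  let T := H.induce K
  have hdegT : ∀ x : K, (T.neighborSet x).ncard = 2 := by
    intro x
    rw [← h x.1 x.2]
    have : (Subtype.val '' (T.neighborSet x)) = H.neighborSet x.1 := by
      ext w
      constructor
      · rintro ⟨y, hy, rfl⟩
        exact hy
      · intro hw
        exact ⟨⟨w, (x.2 : H.Reachable v x.1).trans (SimpleGraph.Adj.reachable hw)⟩, hw, rfl⟩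
    rw [← this, Set.ncard_image_of_injective _ Subtype.val_injective]
  have hnot : ¬ T.IsAcyclic := by
    intro hac
    obtain ⟨x, hx⟩ := exists_end T ⟨hac, fun x => (hdegT x).le⟩ ⟨v, Reachable.refl v⟩
    rw [hdegT x] at hx
    omega
  unfold SimpleGraph.IsAcyclic at hnot
  push Not at hnot
  obtain ⟨x, c, hc⟩ := hnot
  have hlen : (c.map (Embedding.induce (G := H) K).toHom).length = c.length :=
    Walk.length_map _ _
  refine ⟨_, c.map (Embedding.induce (G := H) K).toHom, ?_, x.2, ?_⟩
  · exact hc.map (Embedding.induce (G := H) K).injective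
  · rw [hlen]
    have h1 : c.support.tail.Nodup := hc.support_nodup
    have h2 := h1.length_le_card
    rw [List.length_tail, Walk.length_support, Nat.add_sub_cancel] at h2
    refine h2.trans (le_of_eq ?_)
    rw [csize, ← Nat.card_coe_set_eq, Nat.card_eq_fintype_card]

/-- Cutting a cyclic component at a vertex. -/
theorem exists_cut {V : Type} [Finite V] {H : SimpleGraph V}
    (hdeg : ∀ v, (H.neighborSet v).ncard ≤ 2) {v : V} (h : Cyc H v) :
    3 ≤ csize H v ∧ ∃ (b : V) (_ : H.Adj v b) (p : H.Walk b v), s(v, b) ∉ p.edges := by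
  classical
  obtain ⟨w, c, hc, hvw, hlen⟩ := exists_cycle' h
  refine ⟨hc.three_le_length.trans hlen, ?_⟩
  have hv := (closed_cycle (le_refl H) hdeg hc v hvw.symm).1
  have hc' := hc.rotate hv
  revert hc'
  cases hcc : c.rotate v hv with
  | nil =>
    intro hc'
    exact absurd hc' (by simp)
  | cons hadj p =>
    intro hc'
    exact ⟨_, hadj, p, (Walk.cons_isCycle_iff p hadj).1 hc' |>.2⟩

end Pool.Agent.V5helper6.LAR
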