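import Pool.Agent.V5helper6.LAR.Torus

set_option autoImplicit false

/-!
Three connected two-factors of the Cayley graph of the group `(ℤ/3)²` with the generators `(1, 0)`,
`(0, 1)` and `(1, 1)`.
-/

namespace Pool.Agent.V5helper6.LAR

open SimpleGraph

theorem PG.reach_iter {W : Type} {f g : W → W} (v : W) (n : ℕ) :
    (PG f g).Reachable v (f^[n] v) := by
  induction n with
  | zero => exact Reachable.refl _
  | succ n ih =>
    rw [Function.iterate_succ_apply']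
    exact ih.trans (PG.reach_f _)

/-- The successor in one of the three cycles. -/
def nx (i : Fin 3) (v : ZMod 3 × ZMod 3) : ZMod 3 × ZMod 3 :=
  ((![[(1, 1), (2, 0), (2, 1), (0, 2), (0, 1), (1, 0), (1, 2), (2, 2), (0, 0)],
    [(0, 1), (0, 2), (1, 2), (0, 0), (2, 2), (1, 1), (2, 1), (1, 0), (2, 0)],
    [(0, 2), (2, 1), (2, 2), (2, 0), (1, 0), (0, 1), (0, 0), (1, 1), (1, 2)]] :
    Fin 3 → List (ZMod 3 × ZMod 3)) i).getD (3 * v.1.val + v.2.val) (0, 0)

/-- The predecessor. -/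
def pv (i : Fin 3) (v : ZMod 3 × ZMod 3) : ZMod 3 × ZMod 3 := (nx i)^[8] v

theorem nx_cyc : ∀ (i : Fin 3) (v : ZMod 3 × ZMod 3), (nx i)^[9] v = v := by decide

theorem nx_all : ∀ (i : Fin 3) (v : ZMod 3 × ZMod 3), ∃ n : Fin 9, (nx i)^[n] (0, 0) = v := by
  decide

theorem nx_nb : ∀ v w : ZMod 3 × ZMod 3, (∃ i, w = nx i v ∨ w = pv i v) ↔
    (w = v + (1, 0) ∨ v = w + (1, 0) ∨ w = v + (0, 1) ∨ v = w + (0, 1) ∨ w = v + (1, 1) ∨
      v = w + (1, 1)) := by decide

theorem torus9 : ∃ P : Fin 3 → SimpleGraph (ZMod 3 × ZMod 3),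
    (∀ i v, ((P i).neighborSet v).ncard ≤ 2) ∧ (∀ i v w, (P i).Reachable v w) ∧
    ∀ v w, (⨆ i, P i).Adj v w ↔ v ≠ w ∧ (w = v + (1, 0) ∨ v = w + (1, 0) ∨ w = v + (0, 1) ∨
      v = w + (0, 1) ∨ w = v + (1, 1) ∨ v = w + (1, 1)) := by
  have hports : ∀ i, Ports (nx i) (pv i) := by
    intro i
    constructor
    · intro v
      right
      show (nx i)^[8] (nx i v) = v
      exact nx_cyc i v
    · intro v
      left
      show nx i ((nx i)^[8] v) = v
      exact (Function.iterate_succ_apply' (nx i) 8 v).symm.trans (nx_cyc i v)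
  refine ⟨fun i => PG (nx i) (pv i), fun i v => (hports i).deg v, ?_, ?_⟩
  · intro i v w
    obtain ⟨n, hn⟩ := nx_all i v
    obtain ⟨m, hm⟩ := nx_all i w
    have h1 := PG.reach_iter (f := nx i) (g := pv i) (0, 0) n
    have h2 := PG.reach_iter (f := nx i) (g := pv i) (0, 0) m
    rw [hn] at h1
    rw [hm] at h2
    exact h1.symm.trans h2
  · intro v w
    rw [iSup_adj, ← nx_nb]
    constructor
    · rintro ⟨i, hi⟩
      obtain ⟨h1, h2⟩ := (hports i).adj.1 hi
      exact ⟨h1, i, h2⟩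
    · rintro ⟨h1, i, h2⟩
      exact ⟨i, (hports i).adj.2 ⟨h1, h2⟩⟩

end Pool.Agent.V5helper6.LAR
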