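import Pool.Agent.V5helper6.LAR.Pull
import Pool.Agent.V5helper6.LAR.Torus9

set_option autoImplicit false

/-!
Three dependent elements in an elementary abelian group of order `p²`.
-/

namespace Pool.Agent.V5helper6.LAR

open Finset SimpleGraph H931R3.LA Pool.Agent.W111.LAR Pool.Agent.TH486.LAC Pool.Agent.Y59.LA
open Pool.Agent.Y647.LAC (LW)

variable {Γ : Type} [Group Γ]

/-- Additive models with Hamilton cycles. -/
theorem lw_add [Finite Γ] [DecidableEq Γ] {κ W : Type} [Fintype κ] [AddCommGroup W] [Finite W]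
    (φ : W → Γ) (hadd : ∀ u v, φ (u + v) = φ u * φ v) (hker : ∀ u, φ u = 1 → u = 0) (δ : κ → W)
    (hδ : Function.Injective δ) (P : κ → SimpleGraph W)
    (hdeg : ∀ i v, ((P i).neighborSet v).ncard ≤ 2) (hconn : ∀ i v w, (P i).Reachable v w)
    (hadj : ∀ v w, (⨆ i, P i).Adj v w ↔ v ≠ w ∧ ∃ k, w = v + δ k ∨ v = w + δ k) :
    LW (cayG (univ.image (fun k => φ (δ k)))) (univ.image (fun k => φ (δ k))).card
      ((Fintype.card κ : ℝ) * 2 / Nat.card W) := by
  have h0 : φ 0 = 1 := by
    have := hadd 0 0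
    rw [add_zero] at this
    exact (mul_eq_left.1 this.symm)
  have hneg : ∀ u, φ (-u) = (φ u)⁻¹ := by
    intro u
    rw [eq_inv_iff_mul_eq_one, ← hadd, neg_add_cancel, h0]
  have hinj : Function.Injective φ := by
    intro u v h
    have h1 : φ (u - v) = 1 := by
      rw [sub_eq_add_neg, hadd, hneg, h, mul_inv_cancel]
    exact sub_eq_zero.1 (hker _ h1)
  let K : Subgroup Γ :=
    { carrier := {g | ∃ u, φ u = g}
      mul_mem' := by
        rintro _ _ ⟨u, rfl⟩ ⟨v, rfl⟩
        exact ⟨u + v, hadd u v⟩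
      one_mem' := ⟨0, h0⟩
      inv_mem' := by
        rintro _ ⟨u, rfl⟩
        exact ⟨-u, hneg u⟩ }
  have hpos : 0 < Nat.card W := Nat.card_pos
  have key := lw_model (fun k => φ (δ k)) (hinj.comp hδ) K φ hinj (fun g => Iff.rfl)
    (fun k u => u + δ k) (fun k u => hadd u (δ k)) P hdeg hadj (fun _ => Nat.card W)
    (fun _ => hpos) (fun k u => (csize_all (hconn k u)).ge)
  have hsum : ∑ _k : κ, (2 : ℝ) / Nat.card W = (Fintype.card κ : ℝ) * 2 / Nat.card W := by
    rw [sum_const, card_univ, nsmul_eq_mul]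
    ring
  rwa [hsum] at key
where
  csize_all {V : Type} {P : SimpleGraph V} {v : V}
      (h : ∀ w, P.Reachable v w) : csize P v = Nat.card V := by
    have h1 : {u | P.Reachable v u} = Set.univ := by
      ext u
      exact ⟨fun _ => Set.mem_univ u, fun _ => h u⟩
    show {u | P.Reachable v u}.ncard = _
    rw [h1, Set.ncard_univ]

/-- Powers indexed by `ZMod p`. -/
theorem pw_add {p : ℕ} [NeZero p] {a : Γ} (ha : a ^ p = 1) (i j : ZMod p) :
    a ^ (i + j).val = a ^ i.val * a ^ j.val := by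
  rw [← pow_add, ZMod.val_add]
  conv_rhs => rw [← Nat.mod_add_div (i.val + j.val) p, pow_add, pow_mul, ha, one_pow, mul_one]

theorem pw_nat {p : ℕ} [NeZero p] {a : Γ} (ha : a ^ p = 1) (n : ℕ) :
    a ^ ((n : ZMod p)).val = a ^ n := by
  rw [ZMod.val_natCast]
  conv_rhs => rw [← Nat.mod_add_div n p, pow_add, pow_mul, ha, one_pow, mul_one]

/-- The parametrization of an elementary abelian group of order `p²`. -/
def phi {p : ℕ} (a c : Γ) (u : ZMod p × ZMod p) : Γ := a ^ u.1.val * c ^ u.2.val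

theorem phi_add {p : ℕ} [NeZero p] {a c : Γ} (hac : Commute a c) (ha : a ^ p = 1)
    (hc : c ^ p = 1) (u v : ZMod p × ZMod p) : phi a c (u + v) = phi a c u * phi a c v := by
  unfold phi
  rw [Prod.fst_add, Prod.snd_add, pw_add ha, pw_add hc]
  have h := (hac.pow_pow v.1.val u.2.val).eq
  calc a ^ u.1.val * a ^ v.1.val * (c ^ u.2.val * c ^ v.2.val)
      = a ^ u.1.val * (a ^ v.1.val * c ^ u.2.val) * c ^ v.2.val := by group
    _ = a ^ u.1.val * (c ^ u.2.val * a ^ v.1.val) * c ^ v.2.val := by rw [h]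
    _ = _ := by group

theorem phi_ker {p : ℕ} [Fact p.Prime] {a c : Γ} (ha : a ^ p = 1)
    (hc : c ^ p = 1) (ha1 : a ≠ 1) (hca : c ∉ Subgroup.zpowers a) (u : ZMod p × ZMod p)
    (h : phi a c u = 1) : u = 0 := by
  have hp : p.Prime := Fact.out
  have hc1 : c ≠ 1 := fun h => hca (h ▸ one_mem _)
  have hoa : orderOf a = p := orderOf_eq_prime ha ha1
  have hoc : orderOf c = p := orderOf_eq_prime hc hc1
  unfold phi at h
  have h2 : u.2 = 0 := by
    by_contra hne
    apply hca
    have h3 : c ^ u.2.val ∈ Subgroup.zpowers a := by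
      have h4 : c ^ u.2.val = (a ^ u.1.val)⁻¹ := by
        rw [eq_inv_iff_mul_eq_one]
        have h5 := congrArg (fun x => (a ^ u.1.val)⁻¹ * x * a ^ u.1.val) h
        simp only [inv_mul_cancel_left, mul_one, inv_mul_cancel] at h5
        exact h5
      rw [h4]
      exact inv_mem (pow_mem (Subgroup.mem_zpowers a) _)
    have h4 : Nat.Coprime (orderOf c) u.2.val := by
      rw [hoc, Nat.Prime.coprime_iff_not_dvd hp]
      intro h6
      have h7 : 0 < u.2.val := Nat.pos_of_ne_zero (fun h5 => hne ((ZMod.val_eq_zero u.2).1 h5))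
      have h8 := Nat.le_of_dvd h7 h6
      have h9 := ZMod.val_lt u.2
      omega
    have h5 : c ∈ Subgroup.zpowers (c ^ u.2.val) := by
      rw [mem_zpowers_pow_iff, Nat.gcd_comm]
      exact h4
    exact (Subgroup.zpowers_le.2 h3) h5
  rw [h2, ZMod.val_zero, pow_zero, mul_one] at h
  have h3 := orderOf_dvd_of_pow_eq_one h
  rw [hoa] at h3
  have h4 : u.1.val = 0 := by
    by_contra hne
    have := Nat.le_of_dvd (Nat.pos_of_ne_zero hne) h3
    have := ZMod.val_lt u.1
    omega
  have h5 : u.1 = 0 := (ZMod.val_eq_zero u.1).1 h4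
  exact Prod.ext h5 h2

/-- The elements `a`, `a³` and `b`. -/
theorem lw_torus5 [Finite Γ] [DecidableEq Γ] {p : ℕ} (hp : p.Prime) (h5 : 5 ≤ p) {a b : Γ}
    (hab : Commute a b) (ha : a ^ p = 1) (hb : b ^ p = 1) (ha1 : a ≠ 1)
    (hba : b ∉ Subgroup.zpowers a) :
    LW (cayG {a, a ^ 3, b}) ({a, a ^ 3, b} : Finset Γ).card (6 / (p : ℝ) ^ 2) := by
  have : Fact p.Prime := ⟨hp⟩
  have : Fact (1 < p) := ⟨by omega⟩
  obtain ⟨P, h1, h2, h3⟩ := torus3 h5
  have hac : Commute a (a * b) := (Commute.refl a).mul_right hab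
  have hc : (a * b) ^ p = 1 := by rw [hab.mul_pow, ha, hb, mul_one]
  have hca : a * b ∉ Subgroup.zpowers a := by
    intro h
    apply hba
    have := mul_mem (inv_mem (Subgroup.mem_zpowers a)) h
    rwa [inv_mul_cancel_left] at this
  let δ : Fin 3 → ZMod p × ZMod p := ![(1, 0), (3, 0), (-1, 1)]
  have h31 : (3 : ZMod p) ≠ 1 := by
    intro h
    have h4 : ((2 : ℕ) : ZMod p) = 0 := by
      push_cast
      linear_combination h
    rw [ZMod.natCast_eq_zero_iff] at h4
    have := Nat.le_of_dvd (by norm_num) h4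
    omega
  have hδ : Function.Injective δ := by
    intro i j hij
    fin_cases i <;> fin_cases j
    · rfl
    · exact absurd (Prod.ext_iff.1 hij).1.symm h31
    · exact absurd (Prod.ext_iff.1 hij).2.symm one_ne_zero
    · exact absurd (Prod.ext_iff.1 hij).1 h31
    · rfl
    · exact absurd (Prod.ext_iff.1 hij).2.symm one_ne_zero
    · exact absurd (Prod.ext_iff.1 hij).2 one_ne_zero
    · exact absurd (Prod.ext_iff.1 hij).2 one_ne_zero
    · rfl
  have hval1 : ((1 : ZMod p)).val = 1 := ZMod.val_one p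
  have e3 : a ^ ((3 : ZMod p)).val = a ^ 3 := by
    have := pw_nat ha 3
    exact_mod_cast this
  have e1 : phi a (a * b) ((1, 0) : ZMod p × ZMod p) = a := by
    unfold phi
    simp only [ZMod.val_zero, pow_zero, mul_one, hval1, pow_one]
  have e2 : phi a (a * b) ((3, 0) : ZMod p × ZMod p) = a ^ 3 := by
    unfold phi
    simp only [ZMod.val_zero, pow_zero, mul_one]
    exact e3
  have e4 : phi a (a * b) ((0, 1) : ZMod p × ZMod p) = a * b := by
    unfold phi
    simp only [ZMod.val_zero, pow_zero, one_mul, hval1, pow_one]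
  have e5 : phi a (a * b) ((-1, 1) : ZMod p × ZMod p) = b := by
    have h6 := phi_add hac ha hc ((1, 0) : ZMod p × ZMod p) (-1, 1)
    have h7 : ((1, 0) : ZMod p × ZMod p) + (-1, 1) = (0, 1) := by
      ext <;> simp
    rw [h7, e4, e1] at h6
    exact (mul_left_cancel h6).symm
  have key := lw_add (phi a (a * b)) (phi_add hac ha hc) (phi_ker ha hc ha1 hca) δ hδ P h1 h2 (by
    intro v w
    rw [h3]
    refine and_congr_right fun _ => ?_
    have m1 : ∀ v w : ZMod p × ZMod p, w = (v.1 + 1, v.2) ↔ w = v + (1, 0) := by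
      intro v w
      have : v + (1, 0) = (v.1 + 1, v.2) := by ext <;> simp
      rw [this]
    have m1' : ∀ v w : ZMod p × ZMod p, w = (v.1 - 1, v.2) ↔ v = w + (1, 0) := by
      intro v w
      constructor
      · rintro rfl
        ext <;> simp
      · intro h
        rw [h]
        ext <;> simp
    have m3 : ∀ v w : ZMod p × ZMod p, w = (v.1 + 3, v.2) ↔ w = v + (3, 0) := by
      intro v w
      have : v + (3, 0) = (v.1 + 3, v.2) := by ext <;> simp
      rw [this]
    have m3' : ∀ v w : ZMod p × ZMod p, w = (v.1 - 3, v.2) ↔ v = w + (3, 0) := by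
      intro v w
      constructor
      · rintro rfl
        ext <;> simp
      · intro h
        rw [h]
        ext <;> simp
    have m4 : ∀ v w : ZMod p × ZMod p, w = (v.1 - 1, v.2 + 1) ↔ w = v + (-1, 1) := by
      intro v w
      have : v + (-1, 1) = (v.1 - 1, v.2 + 1) := by
        ext
        · simp [sub_eq_add_neg]
        · simp
      rw [this]
    have m4' : ∀ v w : ZMod p × ZMod p, w = (v.1 + 1, v.2 - 1) ↔ v = w + (-1, 1) := by
      intro v w
      constructor
      · rintro rfl
        ext <;> simp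
      · intro h
        rw [h]
        ext <;> simp
    unfold Nb
    rw [m1, m1', m3, m3', m4, m4']
    constructor
    · rintro (h | h | h | h | h | h)
      · exact ⟨0, Or.inl h⟩
      · exact ⟨0, Or.inr h⟩
      · exact ⟨1, Or.inl h⟩
      · exact ⟨1, Or.inr h⟩
      · exact ⟨2, Or.inl h⟩
      · exact ⟨2, Or.inr h⟩
    · rintro ⟨k, h⟩
      have hk : ∀ k : Fin 3, k = 0 ∨ k = 1 ∨ k = 2 := by decide
      rcases hk k with rfl | rfl | rfl
      · rcases h with h | h
        · exact Or.inl h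
        · exact Or.inr (Or.inl h)
      · rcases h with h | h
        · exact Or.inr (Or.inr (Or.inl h))
        · exact Or.inr (Or.inr (Or.inr (Or.inl h)))
      · rcases h with h | h
        · exact Or.inr (Or.inr (Or.inr (Or.inr (Or.inl h))))
        · exact Or.inr (Or.inr (Or.inr (Or.inr (Or.inr h)))))
  have himg : univ.image (fun k => phi a (a * b) (δ k)) = {a, a ^ 3, b} := by
    ext g
    rw [mem_image]
    simp only [mem_univ, true_and, mem_insert, mem_singleton]
    constructor
    · rintro ⟨i, rfl⟩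
      fin_cases i
      · exact Or.inl e1
      · exact Or.inr (Or.inl e2)
      · exact Or.inr (Or.inr e5)
    · rintro (rfl | rfl | rfl)
      · exact ⟨0, e1⟩
      · exact ⟨1, e2⟩
      · exact ⟨2, e5⟩
  rw [himg] at key
  have hs : ((Fintype.card (Fin 3) : ℕ) : ℝ) * 2 / Nat.card (ZMod p × ZMod p) =
      6 / (p : ℝ) ^ 2 := by
    rw [Fintype.card_fin, Nat.card_prod, Nat.card_zmod]
    push_cast
    ring
  rwa [hs] at key

theorem d9_inj : Function.Injective (![(1, 0), (0, 1), (1, 1)] : Fin 3 → ZMod 3 × ZMod 3) := by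
  decide

/-- The elements `a`, `b` and `a b` of order three. -/
theorem lw_torus9 [Finite Γ] [DecidableEq Γ] {a b : Γ}
    (hab : Commute a b) (ha : a ^ 3 = 1) (hb : b ^ 3 = 1) (ha1 : a ≠ 1)
    (hba : b ∉ Subgroup.zpowers a) :
    LW (cayG {a, b, a * b}) ({a, b, a * b} : Finset Γ).card (6 / (3 : ℝ) ^ 2) := by
  have : Fact (Nat.Prime 3) := ⟨Nat.prime_three⟩
  obtain ⟨P, h1, h2, h3⟩ := torus9
  let δ : Fin 3 → ZMod 3 × ZMod 3 := ![(1, 0), (0, 1), (1, 1)]
  have hδ : Function.Injective δ := d9_inj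
  have hval1 : ((1 : ZMod 3)).val = 1 := rfl
  have e1 : phi a b ((1, 0) : ZMod 3 × ZMod 3) = a := by
    unfold phi
    simp only [ZMod.val_zero, pow_zero, mul_one, hval1, pow_one]
  have e2 : phi a b ((0, 1) : ZMod 3 × ZMod 3) = b := by
    unfold phi
    simp only [ZMod.val_zero, pow_zero, one_mul, hval1, pow_one]
  have e3 : phi a b ((1, 1) : ZMod 3 × ZMod 3) = a * b := by
    unfold phi
    simp only [hval1, pow_one]
  have key := lw_add (phi a b) (phi_add hab ha hb) (phi_ker ha hb ha1 hba) δ hδ P h1 h2 (by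
    intro v w
    rw [h3]
    refine and_congr_right fun _ => ?_
    constructor
    · rintro (h | h | h | h | h | h)
      · exact ⟨0, Or.inl h⟩
      · exact ⟨0, Or.inr h⟩
      · exact ⟨1, Or.inl h⟩
      · exact ⟨1, Or.inr h⟩
      · exact ⟨2, Or.inl h⟩
      · exact ⟨2, Or.inr h⟩
    · rintro ⟨k, h⟩
      have hk : ∀ k : Fin 3, k = 0 ∨ k = 1 ∨ k = 2 := by decide
      rcases hk k with rfl | rfl | rfl
      · rcases h with h | h
        · exact Or.inl h
        · exact Or.inr (Or.inl h)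
      · rcases h with h | h
        · exact Or.inr (Or.inr (Or.inl h))
        · exact Or.inr (Or.inr (Or.inr (Or.inl h)))
      · rcases h with h | h
        · exact Or.inr (Or.inr (Or.inr (Or.inr (Or.inl h))))
        · exact Or.inr (Or.inr (Or.inr (Or.inr (Or.inr h)))))
  have himg : univ.image (fun k => phi a b (δ k)) = {a, b, a * b} := by
    ext g
    rw [mem_image]
    simp only [mem_univ, true_and, mem_insert, mem_singleton]
    constructor
    · rintro ⟨i, rfl⟩
      fin_cases i
      · exact Or.inl e1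
      · exact Or.inr (Or.inl e2)
      · exact Or.inr (Or.inr e3)
    · rintro (rfl | rfl | rfl)
      · exact ⟨0, e1⟩
      · exact ⟨1, e2⟩
      · exact ⟨2, e3⟩
  rw [himg] at key
  have hs : ((Fintype.card (Fin 3) : ℕ) : ℝ) * 2 / Nat.card (ZMod 3 × ZMod 3) =
      6 / (3 : ℝ) ^ 2 := by
    rw [Fintype.card_fin, Nat.card_prod, Nat.card_zmod]
    push_cast
    ring
  rwa [hs] at key

end Pool.Agent.V5helper6.LAR
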