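import Pool.Agent.V5helper6.LAR.ClsInd
import Pool.Agent.V5helper6.LAR.TorusLw
import Pool.Agent.TH486.LAC.Horn

set_option autoImplicit false

/-!
Loads of sets of vectors.
-/

namespace Pool.Agent.V5helper6.LAR

open Finset SimpleGraph H931R3.LA Pool.Agent.W111.LAR Pool.Agent.TH486.LAC Pool.Agent.Y59.LA
open Pool.Agent.Y647.LAC (LW)

section ac

variable {V : Type} [AddCommGroup V]

/-- The Cayley graph of a set of vectors and their negatives. -/
def ac (A : Finset V) : SimpleGraph V where
  Adj v w := v ≠ w ∧ ∃ s ∈ A, w = v + s ∨ v = w + s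
  symm := ⟨fun _ _ h => ⟨h.1.symm, h.2.imp fun _ h' => ⟨h'.1, h'.2.symm⟩⟩⟩
  loopless := ⟨fun _ h => h.1 rfl⟩

theorem ac_union [DecidableEq V] (A B : Finset V) : ac (A ∪ B) = ac A ⊔ ac B := by
  ext v w
  rw [sup_adj]
  constructor
  · rintro ⟨h0, s, hs, h⟩
    rcases mem_union.1 hs with hs | hs
    · exact Or.inl ⟨h0, s, hs, h⟩
    · exact Or.inr ⟨h0, s, hs, h⟩
  · rintro (⟨h0, s, hs, h⟩ | ⟨h0, s, hs, h⟩)
    · exact ⟨h0, s, mem_union_left _ hs, h⟩
    · exact ⟨h0, s, mem_union_right _ hs, h⟩

theorem lw_aunion [DecidableEq V] {A B : Finset V} {c c' : ℝ} (hAB : Disjoint A B)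
    (hA : LW (ac A) A.card c) (hB : LW (ac B) B.card c') :
    LW (ac (A ∪ B)) (A ∪ B).card (c + c') := by
  rw [ac_union, card_union_of_disjoint hAB]
  exact hA.sup hB

theorem lw_aempty : LW (ac (∅ : Finset V)) (∅ : Finset V).card 0 := by
  have h : ac (∅ : Finset V) = ⊥ := by
    ext v w
    constructor
    · rintro ⟨_, s, hs, _⟩
      exact absurd hs (notMem_empty s)
    · intro h
      exact absurd h (by simp)
  rw [h, card_empty]
  exact Pool.Agent.Y647.LAC.LW.bot

theorem ac_congr {A B : Finset V} (h1 : ∀ s ∈ A, s ∈ B ∨ -s ∈ B)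
    (h2 : ∀ s ∈ B, s ∈ A ∨ -s ∈ A) : ac A = ac B := by
  have key : ∀ {A B : Finset V}, (∀ s ∈ A, s ∈ B ∨ -s ∈ B) → ac A ≤ ac B := by
    intro A B h v w
    rintro ⟨h0, s, hs, h3⟩
    rcases h s hs with h4 | h4
    · exact ⟨h0, s, h4, h3⟩
    · refine ⟨h0, -s, h4, ?_⟩
      rcases h3 with h3 | h3
      · right; rw [h3]; abel
      · left; rw [h3]; abel
  exact le_antisymm (key h1) (key h2)

end ac

section lw

variable {p : ℕ} [Fact p.Prime] {V : Type} [AddCommGroup V] [Module (ZMod p) V] [Finite V]
  [DecidableEq V]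

theorem cls_lw {κ : Type} [Fintype κ] {x : κ → V} {r : ℕ} (h : Cls p x r)
    (hx : Function.Injective x) :
    LW (ac (univ.image x)) (univ.image x).card ((univ.image x).card * 2 / (p : ℝ) ^ r) := by
  obtain ⟨W, i1, i2, φ, δ, a1, a2, a3, a4, P, b1, b2, b3⟩ := h
  have hδ : Function.Injective δ := by
    intro k l hkl
    apply hx
    rw [← a3, ← a3, hkl]
  have key := lw_add (Γ := Multiplicative V) (fun w => Multiplicative.ofAdd (φ w))
    (fun u v => by rw [map_add]; rfl) (fun u hu => by
      have h1 : φ u = 0 := hu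
      exact (injective_iff_map_eq_zero φ).1 a1 u h1) δ hδ P (fun k v => (b1 k v).le) b2 b3
  have himg : (univ.image (fun k => Multiplicative.ofAdd (φ (δ k))) : Finset (Multiplicative V)) =
      (univ.image x : Finset V) := by
    have : (fun k => Multiplicative.ofAdd (φ (δ k))) = (x : κ → V) := by
      funext k
      exact a3 k
    rw [this]
    rfl
  rw [himg] at key
  have hc : Fintype.card κ = (univ.image x).card := by
    rw [card_image_of_injective _ hx, card_univ]
  rw [a2] at key
  rw [hc] at key
  push_cast at key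
  exact key

theorem ind_lw (hp : p ≠ 2) {Y : Finset V} (hY : Ind (ZMod p) Y) :
    LW (ac Y) Y.card (Y.card * 2 / (p : ℝ) ^ Y.card) := by
  rcases Y.eq_empty_or_nonempty with rfl | hne
  · have h := lw_aempty (V := V)
    simpa using h
  · let x : Y → V := fun k => k.1
    have hx : LinearIndependent (ZMod p) x := by
      rw [linearIndependent_iff_card_eq_finrank_span]
      have h1 : Set.range x = (Y : Set V) := by
        ext v
        simp [x]
      rw [h1, Fintype.card_coe]
      exact hY.symm
    have hc : Fintype.card Y = Y.card := Fintype.card_coe Y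
    have h := cls_lw (cls_ind hp Y.card (card_pos.2 hne) Y x hc hx) Subtype.val_injective
    have himg : (univ.image x : Finset V) = Y := by
      ext v
      simp [x]
    rw [himg] at h
    exact h

/-- The load of a set partitioned into independent sets. -/
theorem part_lw (hp : p ≠ 2) {T : Finset V} {l : ℕ} (c : V → Fin l)
    (hc : ∀ j, Ind (ZMod p) (T.filter (fun x => c x = j))) :
    LW (ac T) T.card (∑ j, ((T.filter (fun x => c x = j)).card * 2 : ℝ) /
      (p : ℝ) ^ (T.filter (fun x => c x = j)).card) := by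
  have key : ∀ J : Finset (Fin l), LW (ac (T.filter (fun x => c x ∈ J)))
      (T.filter (fun x => c x ∈ J)).card (∑ j ∈ J, ((T.filter (fun x => c x = j)).card * 2 : ℝ) /
      (p : ℝ) ^ (T.filter (fun x => c x = j)).card) := by
    intro J
    induction J using Finset.induction_on with
    | empty =>
      have h : T.filter (fun x => c x ∈ (∅ : Finset (Fin l))) = ∅ := by simp
      rw [h, sum_empty]
      exact lw_aempty
    | insert j J hj ih =>
      have h : T.filter (fun x => c x ∈ insert j J) = T.filter (fun x => c x = j) ∪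
          T.filter (fun x => c x ∈ J) := by
        ext x
        simp only [mem_filter, mem_insert, mem_union]
        tauto
      have hd : Disjoint (T.filter (fun x => c x = j)) (T.filter (fun x => c x ∈ J)) := by
        rw [Finset.disjoint_left]
        intro x hx hx'
        rw [mem_filter] at hx hx'
        rw [hx.2] at hx'
        exact hj hx'.2
      rw [h, sum_insert hj]
      exact lw_aunion hd (ind_lw hp (hc j)) ih
  have h := key univ
  have hT : T.filter (fun x => c x ∈ (univ : Finset (Fin l))) = T := by simp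
  rw [hT] at h
  exact h

end lw

section load

/-- The load of an independent set. -/
noncomputable def hl (p t : ℕ) : ℝ := (t * 2 : ℝ) / (p : ℝ) ^ t

theorem hl_anti {p : ℕ} (hp : 3 ≤ p) {s t : ℕ} (hs : 1 ≤ s) (hst : s ≤ t) : hl p t ≤ hl p s := by
  induction t, hst using Nat.le_induction with
  | base => exact le_rfl
  | succ t hst ih =>
    refine le_trans ?_ ih
    unfold hl
    have h0 : (0 : ℝ) < p := by exact_mod_cast (by omega : 0 < p)
    have h3 : (3 : ℝ) ≤ p := by exact_mod_cast hp
    have ht : (1 : ℝ) ≤ t := by exact_mod_cast (by omega : 1 ≤ t)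
    rw [div_le_div_iff₀ (by positivity) (by positivity), pow_succ]
    push_cast
    have h4 : (0 : ℝ) < (p : ℝ) ^ t := by positivity
    nlinarith [mul_le_mul_of_nonneg_left (by nlinarith : ((t : ℝ) + 1) * 2 ≤ t * 2 * p) h4.le]

theorem hl_nonneg (p t : ℕ) : 0 ≤ hl p t := by
  unfold hl; positivity

/-- The load of an equitable partition. -/
theorem load_le {p : ℕ} (hp : 3 ≤ p) {l f b k : ℕ} (hf : 2 ≤ f) (hb : b ≤ l) (s : Fin l → ℕ)
    (hs : ∀ i j, s i ≤ s j + 1) (hk : ∑ j, s j = k) (hkb : f * l ≤ k + b) :
    ∑ j, hl p (s j) ≤ b * hl p (f - 1) + (l - b : ℕ) * hl p f := by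
  have hge : ∀ j, f ≤ s j + 1 := by
    intro j
    by_contra hcon
    have h1 : ∀ i, s i ≤ f - 1 := fun i => (hs i j).trans (by omega)
    have h2 : ∑ i, s i < ∑ _i : Fin l, (f - 1) :=
      sum_lt_sum (fun i _ => h1 i) ⟨j, mem_univ _, by omega⟩
    rw [hk, sum_const, card_univ, Fintype.card_fin, smul_eq_mul] at h2
    have h3 : l * (f - 1) + l = l * f := by
      obtain ⟨g, rfl⟩ : ∃ g, f = g + 1 := ⟨f - 1, by omega⟩
      simp only [Nat.add_sub_cancel]
      ring
    have h4 : f * l = l * f := Nat.mul_comm _ _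
    omega
  set B := univ.filter (fun j => s j < f) with hB
  have hBc : B.card ≤ b := by
    rcases B.eq_empty_or_nonempty with h | ⟨j0, hj0⟩
    · rw [h, card_empty]; omega
    · have h0 := (mem_filter.1 hj0).2
      have h1 : ∀ i, s i ≤ f := fun i => (hs i j0).trans (by omega)
      have h2 : ∑ i, (s i + if s i < f then 1 else 0) ≤ ∑ _i : Fin l, f := by
        refine sum_le_sum fun i _ => ?_
        have := h1 i
        split_ifs <;> omega
      rw [sum_add_distrib, hk, sum_const, card_univ, Fintype.card_fin, smul_eq_mul,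
        ← card_filter] at h2
      have h4 : f * l = l * f := Nat.mul_comm _ _
      have h5 : B.card = (univ.filter (fun j => s j < f)).card := rfl
      omega
  have hsplit : ∑ j, hl p (s j) ≤ ∑ j : Fin l, (if s j < f then hl p (f - 1) else hl p f) := by
    refine sum_le_sum fun j _ => ?_
    have := hge j
    split_ifs with h
    · exact hl_anti hp (by omega) (by omega)
    · exact hl_anti hp (by omega) (by omega)
  refine hsplit.trans ?_
  rw [sum_ite, sum_const, sum_const, nsmul_eq_mul, nsmul_eq_mul]
  have hc2 : (univ.filter (fun j => ¬ s j < f)).card = l - B.card := by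
    have h1 := card_filter_add_card_filter_not (s := (univ : Finset (Fin l))) (fun j => s j < f)
    rw [card_univ, Fintype.card_fin] at h1
    have h5 : B.card = (univ.filter (fun j => s j < f)).card := rfl
    omega
  rw [hc2, ← hB]
  have hle : B.card ≤ l := hBc.trans hb
  rw [Nat.cast_sub hle, Nat.cast_sub hb]
  have h1 : hl p f ≤ hl p (f - 1) := hl_anti hp (by omega) (by omega)
  have h2 : (B.card : ℝ) ≤ b := by exact_mod_cast hBc
  nlinarith

end load

section eq

variable {p : ℕ} [Fact p.Prime] {V : Type} [AddCommGroup V] [Module (ZMod p) V] [Finite V]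
  [DecidableEq V]

/-- The load of a set by its covering number. -/
theorem cover_lw (hp : p ≠ 2) {T : Finset V} {l f b : ℕ} (hl0 : 0 < l) (hf : 2 ≤ f) (hb : b ≤ l)
    (h : ∀ A ⊆ T, A.card ≤ l * Module.finrank (ZMod p) ↥(Submodule.span (ZMod p) (A : Set V)))
    (hk : f * l ≤ T.card + b) :
    LW (ac T) T.card (b * hl p (f - 1) + (l - b : ℕ) * hl p f) := by
  have hpp : p.Prime := Fact.out
  have hp3 : 3 ≤ p := by
    have h1 := hpp.two_le
    omega
  have hfin : FiniteDimensional (ZMod p) V := Module.Finite.of_finite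
  obtain ⟨c, hc1, hc2⟩ := equitable (K := ZMod p) hl0 h
  refine LW.mono' (part_lw hp c hc1) ?_
  refine load_le hp3 hf hb (fun j => (T.filter (fun x => c x = j)).card) hc2 ?_ hk
  exact (card_eq_sum_card_fiberwise (fun x _ => mem_univ (c x))).symm

end eq

end Pool.Agent.V5helper6.LAR
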