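import Pool.Agent.V5helper6.LAR.Elem1

set_option autoImplicit false

/-!
Special classes in dense sets of vectors.
-/

namespace Pool.Agent.V5helper6.LAR

open Finset SimpleGraph H931R3.LA Pool.Agent.W111.LAR Pool.Agent.TH486.LAC Pool.Agent.Y59.LA
open Pool.Agent.Y647.LAC (LW)

variable {p : ℕ} [Fact p.Prime] {V : Type} [AddCommGroup V] [Module (ZMod p) V] [Finite V]
  [DecidableEq V]

omit [DecidableEq V] in
theorem card_sub (F : Submodule (ZMod p) V) :
    Nat.card F = p ^ Module.finrank (ZMod p) F := by
  have : NeZero p := ⟨(Fact.out : p.Prime).ne_zero⟩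
  have := Fintype.ofFinite F
  rw [Nat.card_eq_fintype_card, Module.card_eq_pow_finrank (K := ZMod p), ZMod.card]

/-- A set without negatives, and its negatives. -/
theorem card_pm (A : Finset V) (hneg : ∀ a ∈ A, -a ∉ A) :
    (A ∪ A.image (fun a => -a)).card = 2 * A.card := by
  rw [card_union_of_disjoint, card_image_of_injective _ neg_injective]
  · omega
  · rw [Finset.disjoint_left]
    intro a ha ha'
    obtain ⟨b, hb, rfl⟩ := mem_image.1 ha'
    exact hneg b hb ha

theorem mem_pm (A : Finset V) (v : V) : v ∈ A ∪ A.image (fun a => -a) ↔ v ∈ A ∨ -v ∈ A := by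
  rw [mem_union, mem_image]
  constructor
  · rintro (h | ⟨b, hb, rfl⟩)
    · exact Or.inl h
    · right; rwa [neg_neg]
  · rintro (h | h)
    · exact Or.inl h
    · exact Or.inr ⟨-v, h, neg_neg v⟩

/-- Finite sets in subspaces. -/
theorem card_le_sub (F : Submodule (ZMod p) V) (A : Finset V) (h : ∀ a ∈ A, a ∈ F) :
    A.card ≤ p ^ Module.finrank (ZMod p) F := by
  rw [← card_sub, ← Set.ncard_coe_finset]
  exact Set.ncard_le_ncard (fun a ha => h a ha) (Set.toFinite _)

theorem exists_spec (h5 : 5 ≤ p) (F : Submodule (ZMod p) V) {f : ℕ}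
    (hf : Module.finrank (ZMod p) F = f) (hf1 : 1 ≤ f) (A : Finset V) (hAF : ∀ a ∈ A, a ∈ F)
    (hneg : ∀ a ∈ A, -a ∉ A) (hbig : p ^ f < 4 * A.card) :
    ∃ C ⊆ A, C.card = f + 1 ∧ LW (ac C) C.card ((C.card * 2 : ℝ) / (p : ℝ) ^ f) := by
  classical
  have hpp : p.Prime := Fact.out
  have hfin : FiniteDimensional (ZMod p) V := Module.Finite.of_finite
  have hp2 : p ≠ 2 := by omega
  have n2 : (2 : ZMod p) ≠ 0 := by have := small_ne h5 (n := 2) (by omega) (by omega); exact_mod_cast this
  have n3 : (3 : ZMod p) ≠ 0 := by have := small_ne h5 (n := 3) (by omega) (by omega); exact_mod_cast this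
  have n4 : (4 : ZMod p) ≠ 0 := by have := small_ne h5 (n := 4) (by omega) (by omega); exact_mod_cast this
  have n6 : (6 : ZMod p) ≠ 0 := by
    have : (6 : ZMod p) = 2 * 3 := by norm_num
    rw [this]
    exact mul_ne_zero n2 n3
  set B := A ∪ A.image (fun a => -a) with hB
  have hBc : B.card = 2 * A.card := card_pm A hneg
  have hBm : ∀ v, v ∈ B ↔ v ∈ A ∨ -v ∈ A := mem_pm A
  have hBF : ∀ v ∈ B, v ∈ F := by
    intro v hv
    rcases (hBm v).1 hv with h | h
    · exact hAF v h
    · have := F.neg_mem (hAF _ h)
      rwa [neg_neg] at this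
  have hB0 : ∀ v ∈ B, v ≠ 0 := by
    rintro v hv rfl
    rcases (hBm 0).1 hv with h | h
    · exact hneg 0 h (by rwa [neg_zero])
    · rw [neg_zero] at h
      exact hneg 0 h (by rwa [neg_zero])
  -- the first element
  obtain ⟨x0, hx0, hx0'⟩ : ∃ x0 ∈ B, (3 : ZMod p) • x0 ∈ B := by
    by_contra hcon
    push Not at hcon
    have hinj : Function.Injective (fun v : V => (3 : ZMod p)⁻¹ • v) := by
      intro v w h
      have h1 := congrArg (fun v => (3 : ZMod p) • v) h
      simp only [smul_inv_smul₀ n3] at h1
      exact h1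
    have hd : Disjoint B (B.image (fun v => (3 : ZMod p)⁻¹ • v)) := by
      rw [Finset.disjoint_left]
      intro v hv hv'
      obtain ⟨w, hw, rfl⟩ := mem_image.1 hv'
      apply hcon _ hv
      rw [smul_inv_smul₀ n3]
      exact hw
    have h1 := card_le_sub F (B ∪ B.image (fun v => (3 : ZMod p)⁻¹ • v)) (by
      intro v hv
      rcases mem_union.1 hv with h | h
      · exact hBF v h
      · obtain ⟨w, hw, rfl⟩ := mem_image.1 h
        exact F.smul_mem _ (hBF w hw))
    rw [card_union_of_disjoint hd, card_image_of_injective _ hinj, hBc, hf] at h1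
    omega
  -- a basis
  obtain ⟨b, hbB, hxb, hsp, hli⟩ := exists_linearIndepOn_id_extension (K := ZMod p)
    (s := {x0}) (t := (B : Set V)) ((linearIndepOn_singleton_iff (R := ZMod p) (v := (id : V → V))).2
      (hB0 x0 hx0)) (by
      intro v hv
      rw [Set.mem_singleton_iff] at hv
      rw [hv]
      exact hx0)
  have hbfin : Finite b := Finite.of_injective (fun v : b => (v : V)) Subtype.val_injective
  have := Fintype.ofFinite b
  let x : b → V := fun k => k.1
  have hx : LinearIndependent (ZMod p) x := hli
  let k0 : b := ⟨x0, hxb rfl⟩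
  have hk0 : x k0 = x0 := rfl
  have hcard : Fintype.card b = f := by
    have h1 : Module.finrank (ZMod p) (Submodule.span (ZMod p) (Set.range x)) = Fintype.card b :=
      finrank_span_eq_card hx
    have hr : Set.range x = b := by
      ext v
      simp [x]
    rw [hr] at h1
    have h2 : Submodule.span (ZMod p) b ≤ F := by
      rw [Submodule.span_le]
      exact fun v hv => hBF v (hbB hv)
    have h3 := Submodule.finrank_mono h2
    rw [h1, hf] at h3
    have h4 := card_le_sub (Submodule.span (ZMod p) b) B (fun v hv => hsp hv)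
    rw [h1, hBc] at h4
    by_contra hne
    have h5' : Fintype.card b ≤ f - 1 := by omega
    have h6 : p ^ Fintype.card b ≤ p ^ (f - 1) := Nat.pow_le_pow_right (by omega) h5'
    have h7 : p ^ f = p ^ (f - 1) * p := by
      rw [← pow_succ]
      congr 1
      omega
    have h8 : p ^ (f - 1) * 5 ≤ p ^ (f - 1) * p := Nat.mul_le_mul_left _ h5
    omega
  have hcls := cls_spec h5 f hf1 b x k0 hcard hx
  set y : Option b → V := fun o => o.elim ((3 : ZMod p) • x k0) x with hy
  have hrel : ∀ (k : b) (c : ZMod p), c • x k0 = x k → c = 1 := by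
    intro k c h
    by_cases hk : k = k0
    · rw [hk] at h
      have h1 : (c - 1) • x k0 = 0 := by
        rw [sub_smul, one_smul, h, sub_self]
      have h2 := (smul_eq_zero.1 h1).resolve_right (hx.ne_zero k0)
      linear_combination h2
    · exfalso
      have h1 : x k ∉ Submodule.span (ZMod p) (x '' {k0}) :=
        hx.notMem_span_image (by simpa using hk)
      apply h1
      rw [← h]
      exact Submodule.smul_mem _ _ (Submodule.subset_span ⟨k0, rfl, rfl⟩)
  have hnd := nd_of_indep hp2 hx
  have hyinj : Function.Injective y := by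
    rintro (_ | k) (_ | l) h
    · rfl
    · have h : (3 : ZMod p) • x k0 = x l := h
      exact absurd (hrel l 3 h) (fun h' => n2 (by linear_combination h'))
    · have h : x k = (3 : ZMod p) • x k0 := h
      exact absurd (hrel k 3 h.symm) (fun h' => n2 (by linear_combination h'))
    · have h : x k = x l := h
      rw [hx.injective h]
  have hyneg : ∀ o o', y o ≠ -y o' := by
    rintro (_ | k) (_ | l) h
    · have h : (3 : ZMod p) • x k0 = -((3 : ZMod p) • x k0) := h
      have h1 : (6 : ZMod p) • x k0 = 0 := by
        have e : (6 : ZMod p) • x k0 = (3 : ZMod p) • x k0 + (3 : ZMod p) • x k0 := by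
          rw [← add_smul]
          norm_num
        rw [e]
        nth_rewrite 1 [h]
        exact neg_add_cancel _
      exact n6 ((smul_eq_zero.1 h1).resolve_right (hx.ne_zero k0))
    · have h : (3 : ZMod p) • x k0 = -x l := h
      have h1 : (-3 : ZMod p) • x k0 = x l := by rw [neg_smul, h, neg_neg]
      exact absurd (hrel l (-3) h1) (fun h' => n4 (by linear_combination -h'))
    · have h : x k = -((3 : ZMod p) • x k0) := h
      have h1 : (-3 : ZMod p) • x k0 = x k := by rw [neg_smul, h]
      exact absurd (hrel k (-3) h1) (fun h' => n4 (by linear_combination -h'))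
    · exact hnd.2 k l h
  have hyB : ∀ o, y o ∈ B := by
    rintro (_ | k)
    · exact hx0'
    · exact hbB k.2
  have hlw := cls_lw hcls hyinj
  -- representatives
  let rep : V → V := fun v => if v ∈ A then v else -v
  have hrep : ∀ v, rep v = v ∨ rep v = -v := by
    intro v
    by_cases h : v ∈ A
    · exact Or.inl (if_pos h)
    · exact Or.inr (if_neg h)
  have hrepA : ∀ v ∈ B, rep v ∈ A := by
    intro v hv
    by_cases h : v ∈ A
    · have : rep v = v := if_pos h
      rwa [this]
    · have : rep v = -v := if_neg h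
      rw [this]
      exact ((hBm v).1 hv).resolve_left h
  set Y : Finset V := univ.image y with hY
  have hYm : ∀ v ∈ Y, ∃ o, y o = v := by
    intro v hv
    obtain ⟨o, _, ho⟩ := mem_image.1 hv
    exact ⟨o, ho⟩
  have hrinj : Set.InjOn rep (Y : Set V) := by
    intro v hv w hw h
    obtain ⟨o, rfl⟩ := hYm v hv
    obtain ⟨o', rfl⟩ := hYm w hw
    have key : y o = y o' ∨ y o = -y o' := by
      rcases hrep (y o) with h1 | h1 <;> rcases hrep (y o') with h2 | h2 <;> rw [h1, h2] at h
      · exact Or.inl h
      · exact Or.inr h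
      · right; rw [← h, neg_neg]
      · exact Or.inl (neg_injective h)
    exact key.resolve_right (hyneg o o')
  have hYc : Y.card = f + 1 := by
    rw [hY, card_image_of_injective _ hyinj, card_univ, Fintype.card_option, hcard]
  refine ⟨Y.image rep, ?_, ?_, ?_⟩
  · intro v hv
    obtain ⟨w, hw, rfl⟩ := mem_image.1 hv
    obtain ⟨o, rfl⟩ := hYm w hw
    exact hrepA _ (hyB o)
  · rw [card_image_of_injOn hrinj, hYc]
  · rw [card_image_of_injOn hrinj]
    have hg : ac (Y.image rep) = ac Y := by
      refine ac_congr ?_ ?_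
      · intro v hv
        obtain ⟨w, hw, rfl⟩ := mem_image.1 hv
        rcases hrep w with h | h
        · left; rwa [h]
        · right; rwa [h, neg_neg]
      · intro v hv
        rcases hrep v with h | h
        · left
          exact mem_image.2 ⟨v, hv, h⟩
        · right
          exact mem_image.2 ⟨v, hv, h⟩
    rw [hg]
    exact hlw

end Pool.Agent.V5helper6.LAR
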