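import Pool.Agent.V5helper6.LAR.Square

set_option autoImplicit false

/-!
Commuting connection sets of size less than the square of the least prime factor of the order.
-/

namespace Pool.Agent.V5helper6.LAR

open Finset SimpleGraph H931R3.LA Pool.Agent.W111.LAR Pool.Agent.TH486.LAC Pool.Agent.Y59.LA
open Pool.Agent.Y647.LAC (LW)

variable {Γ : Type} [Group Γ] {T : Finset Γ} {p : ℕ}

theorem Setup.done_one [Finite Γ] [DecidableEq Γ] (S : Setup T p) {π : Equiv.Perm T} {w : T}
    (O : OneFix T p π w) : Done T := by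
  by_contra hnd
  have N1 : ∀ {π : Equiv.Perm T} {w : T}, OneFix T p π w → orderOf w.1 < p ^ 2 := by
    intro π w O
    by_contra h
    exact hnd (S.done_large O (not_lt.1 h))
  have NP : ∀ {π : Equiv.Perm T} {w : T}, OneFix T p π w → (orderOf w.1).Prime := by
    intro π w O
    have h1 := N1 O
    rw [← gn_self] at h1
    exact (S.bad (S.ne_one w) h1).1
  have N2 : ∀ {π : Equiv.Perm T} {w : T}, OneFix T p π w → ∀ a : T, a ≠ w →
      w.1 ∈ (Subgroup.closure {a.1, (π a).1} : Subgroup Γ) := by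
    intro π w O a ha
    by_contra h
    exact hnd (S.done_indep O (NP O) ha h)
  have hbad : ∀ {k l : T}, l.1 ∉ Subgroup.zpowers k.1 → p ^ 2 ≤ gn k.1 l.1 := by
    intro k l h
    by_contra h'
    exact h (S.bad (S.ne_one k) (not_le.1 h')).2.2
  obtain ⟨a0, ha0w, ha0C, hb0C⟩ : ∃ a0 : T, a0 ≠ w ∧ a0.1 ∉ Subgroup.zpowers w.1 ∧
      (π a0).1 ∉ Subgroup.zpowers w.1 := by
    by_contra hcon
    push Not at hcon
    refine hnd (S.done_meet O (NP O) (N1 O) ?_)
    intro a ha
    by_cases h : a.1 ∈ Subgroup.zpowers w.1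
    · exact Or.inl h
    · exact Or.inr (hcon a ha h)
  obtain ⟨b0, hb0⟩ : ∃ b0, b0 = π a0 := ⟨_, rfl⟩
  rw [← hb0] at hb0C
  have hπb0 : π b0 = a0 := by rw [hb0, O.gi]
  have hb0w : b0 ≠ w := by
    intro h
    apply ha0w
    rw [← hπb0, h, O.self]
  obtain ⟨π1, O1, -, -, -⟩ := O.conj (x := b0) hb0w (by rw [hπb0]; exact hbad ha0C)
  obtain ⟨π2, O2, h2b, h2w, h2k⟩ := O.conj (x := a0) ha0w (by rw [← hb0]; exact hbad hb0C)
  rw [← hb0] at h2b h2w h2k
  have hwE : w.1 ∈ (Subgroup.closure {a0.1, b0.1} : Subgroup Γ) := by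
    have := N2 O a0 ha0w
    rwa [← hb0] at this
  have hwb0 : w.1 ∉ Subgroup.zpowers b0.1 := fun h => hb0C (zp_eq (S.ne_one w) (NP O1) h)
  have hwa0 : w.1 ∉ Subgroup.zpowers a0.1 := fun h => ha0C (zp_eq (S.ne_one w) (NP O2) h)
  have hcomm : Commute a0.1 b0.1 := S.comm _ a0.2 _ b0.2
  have hqa : orderOf a0.1 = orderOf w.1 := prime_eq hcomm (NP O2) (NP O) hwE hwb0
  have hqb : orderOf b0.1 = orderOf w.1 := by
    refine prime_eq hcomm.symm (NP O1) (NP O) ?_ hwa0
    rw [Set.pair_comm]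
    exact hwE
  have hba : b0.1 ∉ Subgroup.zpowers a0.1 := by
    intro h
    apply hwa0
    have h1 : (Subgroup.closure {a0.1, b0.1} : Subgroup Γ) ≤ Subgroup.zpowers a0.1 := by
      rw [Subgroup.closure_le]
      rintro x (rfl | hx)
      · exact Subgroup.mem_zpowers _
      · rw [Set.mem_singleton_iff] at hx
        rw [hx]; exact h
    exact h1 hwE
  have hE : ∀ t : T, t.1 ∈ (Subgroup.closure {a0.1, b0.1} : Subgroup Γ) := by
    intro t
    by_cases htw : t = w
    · rw [htw]; exact hwE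
    by_cases hta : t = a0
    · rw [hta]; exact Subgroup.subset_closure (by simp)
    by_cases htb : t = b0
    · rw [htb]; exact Subgroup.subset_closure (by simp)
    have hπt : π t ≠ a0 := by
      intro h
      apply htb
      rw [← O.gi t, h, hb0]
    by_cases hbC : (π t).1 ∈ Subgroup.zpowers w.1
    · have e1 : π2 t = π t := h2k t htw hta htb
      have hbz : (π t).1 ∉ Subgroup.zpowers a0.1 := by
        intro h
        have h1 := zp_eq (S.ne_one (π t)) (NP O2) h
        exact ha0C ((Subgroup.zpowers_le.2 hbC) h1)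
      obtain ⟨π4, O4, -, -, h4k⟩ := O2.conj (x := t) hta (by rw [e1]; exact hbad hbz)
      have hba0 : b0 ≠ a0 := by
        intro h
        exact hba (by rw [h]; exact Subgroup.mem_zpowers _)
      have hb0t : b0 ≠ π2 t := by
        rw [e1]
        intro h
        exact hb0C (by rw [h]; exact hbC)
      have e2 : π4 b0 = π2 b0 := h4k b0 hba0 (Ne.symm htb) hb0t
      have h5 := N2 O4 b0 (Ne.symm htb)
      rw [e2, h2b] at h5
      have h6 : (Subgroup.closure {b0.1, w.1} : Subgroup Γ) ≤ Subgroup.closure {a0.1, b0.1} := by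
        rw [Subgroup.closure_le]
        rintro x (rfl | hx)
        · exact Subgroup.subset_closure (by simp)
        · rw [Set.mem_singleton_iff] at hx
          rw [hx]; exact hwE
      exact h6 h5
    · obtain ⟨π3, O3, -, -, h3k⟩ := O.conj (x := t) htw (hbad hbC)
      have e1 : π3 a0 = π a0 := h3k a0 ha0w (Ne.symm hta) (Ne.symm hπt)
      have h5 := N2 O3 a0 (Ne.symm hta)
      rwa [e1, ← hb0] at h5
  exact hnd (S.done_sq O (NP O) (S.ord_ge (S.ne_one w)) (N1 O) hqa hqb hE hba)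

theorem Setup.done [Finite Γ] (S : Setup T p) : Done T := by
  classical
  obtain ⟨π, h1, h2, h3, h4⟩ := exists_mm (κ := T) (fun k l => p ^ 2 ≤ gn k.1 l.1)
    (fun a b h => by rw [gn_comm]; exact h)
  by_cases hfix : ∃ u v, u ≠ v ∧ π u = u ∧ π v = v
  · obtain ⟨u, v, huv, hu, hv⟩ := hfix
    exact ⟨_, S.two_fixed π h1 h2 h3 h4 hu hv huv, S.lw T (Subset.refl T) π h1⟩
  · push Not at hfix
    by_cases hw : ∃ w, π w = w
    · obtain ⟨w, hw⟩ := hw
      refine S.done_one (π := π) (w := w) ⟨h1, h2, fun k => ⟨fun hk => ?_, fun hk => by rw [hk, hw]⟩⟩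
      by_contra hkw
      exact hfix k w hkw hk hw
    · push Not at hw
      refine ⟨_, ?_, S.lw T (Subset.refl T) π h1⟩
      have hp := S.hp3
      refine (Setup.load_le T π (N := p ^ 2) (by positivity) (fun k => h2 k (hw k))).trans ?_
      have h7 : (2 * T.card : ℝ) ≤ (p : ℝ) ^ 2 := by exact_mod_cast S.card.le
      have h8 : (0 : ℝ) < (p : ℝ) ^ 2 := by positivity
      push_cast
      have e : (T.card : ℝ) * (2 / (p : ℝ) ^ 2) = (2 * T.card) / (p : ℝ) ^ 2 := by ring
      rw [e, div_le_one h8]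
      exact h7

/-- Commuting connection sets of size less than `p²`. -/
theorem ld_lt_sq [Finite Γ] (S : Finset Γ) (G : SimpleGraph Γ)
    (hG : ∀ g h, G.Adj g h ↔ g⁻¹ * h ∈ S) (hcomm : ∀ s ∈ S, ∀ t ∈ S, Commute s t) (p : ℕ)
    (hp3 : 3 ≤ p) (hp : ∀ q : ℕ, q.Prime → q ∣ Nat.card Γ → p ≤ q)
    (hS : S.card < p ^ 2) : LD G (S.card / 2) := by
  classical
  have hodd : ∀ s ∈ S, Odd (orderOf s) := by
    intro s _
    rw [← Nat.not_even_iff_odd]
    intro h
    have h1 := hp 2 Nat.prime_two (h.two_dvd.trans (orderOf_dvd_natCard s))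
    omega
  obtain ⟨hone, hinv, hno⟩ := odd_facts hG hodd
  obtain ⟨T, hTS, hT, hT', hcard, -⟩ := halve' S hinv hno
  have hsetup : Setup T p := ⟨hp3, hp, fun s hs t ht => hcomm s (hTS hs) t (hTS ht),
    fun h => hone (hTS h), hT', by omega⟩
  obtain ⟨c, hc, h⟩ := hsetup.done
  exact ld_of_lw hG hinv hTS hT hcard hc h

end Pool.Agent.V5helper6.LAR
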