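import Pool.Agent.V5helper6.LAR.Elem2
import Pool.Agent.V5helper6.LAR.Main

set_option autoImplicit false

/-!
The load of every set of vectors without negatives is at most one.
-/

namespace Pool.Agent.V5helper6.LAR

open Finset SimpleGraph H931R3.LA Pool.Agent.W111.LAR Pool.Agent.TH486.LAC Pool.Agent.Y59.LA
open Pool.Agent.Y647.LAC (LW)

section num

theorem num1 {q : ℕ} (hq : 4 ≤ q) (n : ℕ) :
    4 * (n + 2) ^ 2 * q + 4 * ((n + 2) * (n + 4)) ≤ (q + 1) ^ (n + 3) := by
  induction n with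
  | zero =>
    have : (q + 1) ^ 3 = (q + 1) * (q + 1) * (q + 1) := by ring
    rw [this]
    nlinarith [mul_le_mul hq hq (by omega) (by omega)]
  | succ n ih =>
    have h1 : (q + 1) ^ (n + 1 + 3) = (q + 1) ^ (n + 3) * (q + 1) := by ring
    rw [h1]
    have h2 : (q + 1) ^ (n + 3) * 5 ≤ (q + 1) ^ (n + 3) * (q + 1) :=
      Nat.mul_le_mul_left _ (by omega)
    refine le_trans ?_ h2
    refine le_trans ?_ (Nat.mul_le_mul_right 5 ih)
    nlinarith [Nat.zero_le (n * q), Nat.zero_le (n ^ 2 * q), Nat.zero_le (n ^ 2)]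

theorem num2 {q : ℕ} (hq : 4 ≤ q) (n : ℕ) :
    4 * (n + 2) ^ 2 * q + 4 * (n + 3) ^ 2 ≤ 7 * (q + 1) ^ (n + 2) := by
  induction n with
  | zero =>
    show 4 * 2 ^ 2 * q + 4 * 3 ^ 2 ≤ 7 * (q + 1) ^ 2
    have h : 4 * q ≤ q * q := Nat.mul_le_mul_right _ hq
    nlinarith
  | succ n ih =>
    have h1 : 7 * (q + 1) ^ (n + 1 + 2) = 7 * (q + 1) ^ (n + 2) * (q + 1) := by ring
    rw [h1]
    have h2 : 7 * (q + 1) ^ (n + 2) * 5 ≤ 7 * (q + 1) ^ (n + 2) * (q + 1) :=
      Nat.mul_le_mul_left _ (by omega)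
    refine le_trans ?_ h2
    refine le_trans ?_ (Nat.mul_le_mul_right 5 ih)
    nlinarith [Nat.zero_le (n * q), Nat.zero_le (n ^ 2 * q), Nat.zero_le (n ^ 2)]

theorem num3 {p : ℕ} (hp : 5 ≤ p) (u d : ℕ) (hu : 1 ≤ u) (hud : 2 ≤ u + d) :
    2 * (u + d + 1) ≤ 3 * u * p ^ d := by
  rcases Nat.eq_zero_or_pos d with rfl | hd
  · rw [pow_zero]
    omega
  · have h1 : ∀ d : ℕ, 4 * d + 1 ≤ p ^ d := by
      intro d
      induction d with
      | zero => simp
      | succ d ih =>
        rw [pow_succ]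
        have : p ^ d * 5 ≤ p ^ d * p := Nat.mul_le_mul_left _ hp
        omega
    have h2 := h1 d
    have h3 : 3 * u * (4 * d + 1) ≤ 3 * u * p ^ d := Nat.mul_le_mul_left _ h2
    nlinarith

theorem num4 {p : ℕ} (hp : 5 ≤ p) (q : ℕ) (hq : 1 ≤ q) : q * (3 * q + 2) ≤ p ^ q := by
  induction q, hq using Nat.le_induction with
  | base => simpa using hp
  | succ q hq ih =>
    rw [pow_succ]
    have h1 : p ^ q * 5 ≤ p ^ q * p := Nat.mul_le_mul_left _ hp
    refine le_trans ?_ h1
    refine le_trans ?_ (Nat.mul_le_mul_right 5 ih)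
    nlinarith

end num

variable {p : ℕ} [Fact p.Prime] {V : Type} [AddCommGroup V] [Module (ZMod p) V] [Finite V]
  [DecidableEq V]

theorem exists_specs (h5 : 5 ≤ p) (F : Submodule (ZMod p) V) {f : ℕ}
    (hf : Module.finrank (ZMod p) F = f) (hf1 : 1 ≤ f) (A : Finset V) (hAF : ∀ a ∈ A, a ∈ F)
    (hneg : ∀ a ∈ A, -a ∉ A) : ∀ j : ℕ, p ^ f + 4 * (j * (f + 1)) < 4 * A.card →
    ∃ C ⊆ A, C.card = j * (f + 1) ∧ LW (ac C) C.card (j * (((f + 1) * 2 : ℝ) / (p : ℝ) ^ f)) := by
  intro j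
  induction j with
  | zero =>
    intro _
    refine ⟨∅, empty_subset _, by simp, ?_⟩
    have h := lw_aempty (V := V)
    simpa using h
  | succ j ih =>
    intro hj
    have hexp : (j + 1) * (f + 1) = j * (f + 1) + (f + 1) := by ring
    obtain ⟨C, hCA, hCc, hC⟩ := ih (by omega)
    have hcard : (A \ C).card = A.card - j * (f + 1) := by
      rw [card_sdiff_of_subset hCA, hCc]
    obtain ⟨D, hDA, hDc, hD⟩ := exists_spec h5 F hf hf1 (A \ C)
      (fun a ha => hAF a (mem_sdiff.1 ha).1)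
      (fun a ha ha' => hneg a (mem_sdiff.1 ha).1 (mem_sdiff.1 ha').1) (by rw [hcard]; omega)
    have hdisj : Disjoint C D := by
      rw [Finset.disjoint_left]
      intro a ha ha'
      exact (mem_sdiff.1 (hDA ha')).2 ha
    refine ⟨C ∪ D, union_subset hCA (hDA.trans sdiff_subset), ?_, ?_⟩
    · rw [card_union_of_disjoint hdisj, hCc, hDc, hexp]
    · have h := lw_aunion hdisj hC hD
      rw [hDc] at h
      refine LW.mono' h (le_of_eq ?_)
      push_cast
      ring

omit [DecidableEq V] [Finite V] in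
theorem span_lt [FiniteDimensional (ZMod p) V] {A B : Set V} (F : Submodule (ZMod p) V)
    (hAB : A ⊆ B) (hA : A ⊆ F)
    {v : V} (hv : v ∈ B) (hvF : v ∉ F) :
    Module.finrank (ZMod p) (Submodule.span (ZMod p) A) + 1 ≤
      Module.finrank (ZMod p) (Submodule.span (ZMod p) B) := by
  refine Submodule.finrank_lt_finrank_of_lt (lt_of_le_of_ne (Submodule.span_mono hAB) ?_)
  intro h
  apply hvF
  have h1 : v ∈ Submodule.span (ZMod p) A := by
    rw [h]
    exact Submodule.subset_span hv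
  exact (Submodule.span_le.2 hA) h1

/-- The nearly full case. -/
theorem near_full (h5 : 5 ≤ p) (F : Submodule (ZMod p) V) {f : ℕ}
    (hf : Module.finrank (ZMod p) F = f) (hf3 : 3 ≤ f) (T : Finset V)
    (hneg : ∀ a ∈ T, -a ∉ T) (TF : Finset V) (hTF : TF ⊆ T) (hTFF : ∀ v ∈ TF, v ∈ F)
    (hTFF' : ∀ v ∈ T, v ∈ F → v ∈ TF) {l b : ℕ}
    (hb1 : 1 ≤ b) (hbf : b + 1 ≤ f) (hτ : TF.card + b = f * l)
    (hfull : p ^ f < 2 * TF.card + 2 * b * (f - 1) * (p - 1)) (hk : T.card ≤ TF.card + b + 1) :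
    ∃ c : ℝ, c ≤ 1 ∧ LW (ac T) T.card c := by
  have hpp : p.Prime := Fact.out
  have hfin : FiniteDimensional (ZMod p) V := Module.Finite.of_finite
  have hp2 : p ≠ 2 := by omega
  obtain ⟨n, rfl⟩ : ∃ n, f = n + 3 := ⟨f - 3, by omega⟩
  obtain ⟨q, rfl⟩ : ∃ q, p = q + 1 := ⟨p - 1, by omega⟩
  have hq : 4 ≤ q := by omega
  rw [Nat.add_sub_cancel, show n + 3 - 1 = n + 2 by omega] at hfull
  have hn1 := num1 hq n
  have hn2 := num2 hq n
  set τ := TF.card with hτdef
  set P := (q + 1) ^ (n + 3) with hP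
  set P' := (q + 1) ^ (n + 2) with hP'
  have hPP : P = P' * (q + 1) := by rw [hP, hP']; ring
  have hP5 : 5 * P' ≤ P := by rw [hPP]; nlinarith
  have hτP : 2 * τ ≤ P := by
    have h1 := card_le_sub F (TF ∪ TF.image (fun a => -a)) (by
      intro v hv
      rcases (mem_pm TF v).1 hv with h | h
      · exact hTFF v h
      · have := F.neg_mem (hTFF _ h)
        rwa [neg_neg] at this)
    rw [card_pm TF (fun a ha ha' => hneg a (hTF ha) (hTF ha')), hf] at h1
    exact h1
  obtain ⟨j, hj⟩ : ∃ j, n + 3 = b + j := ⟨n + 3 - b, by omega⟩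
  have hj1 : 1 ≤ j := by omega
  have hjn : j ≤ n + 2 := by omega
  have hbn : b ≤ n + 2 := by omega
  have hbq : 2 * b * (n + 2) * q ≤ 2 * (n + 2) ^ 2 * q := by
    have : b * (n + 2) ≤ (n + 2) * (n + 2) := Nat.mul_le_mul_right _ hbn
    nlinarith
  -- the special classes
  obtain ⟨C, hCA, hCc, hC⟩ := exists_specs h5 F hf (by omega) TF hTFF
    (fun a ha ha' => hneg a (hTF ha) (hTF ha')) j (by
      have h1 : j * (n + 3 + 1) ≤ (n + 2) * (n + 4) := Nat.mul_le_mul hjn (by omega)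
      have h2 : 4 * (n + 2) ^ 2 * q = 2 * (2 * (n + 2) ^ 2 * q) := by ring
      omega)
  -- the number of the other classes
  have hln : n + 3 + 3 ≤ l := by
    by_contra hcon
    have h1 : (n + 3) * l ≤ (n + 3) * (n + 5) := Nat.mul_le_mul_left _ (by omega)
    have h2 : 4 * (n + 2) ^ 2 * q = 2 * (2 * (n + 2) ^ 2 * q) := by ring
    have h3 : 16 * (n + 2) ^ 2 ≤ 4 * (n + 2) ^ 2 * q := by nlinarith
    nlinarith
  obtain ⟨l', hl'⟩ : ∃ l', l = l' + 1 + j := ⟨l - 1 - j, by omega⟩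
  have hexp : (n + 3) * l = (n + 3) * l' + (n + 3) + (n + 3) * j := by
    rw [hl']; ring
  have hkey : P < 2 * ((n + 3) * l') + 2 * (n + 2) ^ 2 * q + 2 * (n + 3) ^ 2 := by
    have h1 : (n + 3) * j + (n + 3) ≤ (n + 3) ^ 2 + b := by
      have : (n + 3) * j ≤ (n + 3) * (n + 2) := Nat.mul_le_mul_left _ hjn
      nlinarith
    omega
  have hC2 : ∀ u, 1 ≤ u → u ≤ n + 2 → (q + 1) ^ u ≤ 2 * (u * l') := by
    intro u hu hun
    obtain ⟨d, hd⟩ : ∃ d, n + 2 = u + d := ⟨n + 2 - u, by omega⟩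
    have h1 := num3 (p := q + 1) (by omega) u d hu (by omega)
    have h2 : P' = (q + 1) ^ u * (q + 1) ^ d := by rw [hP', hd, pow_add]
    have h3 : 2 * (n + 3) * (q + 1) ^ u ≤ 3 * u * P' := by
      have e : u + d + 1 = n + 3 := by omega
      rw [e] at h1
      rw [h2]
      calc 2 * (n + 3) * (q + 1) ^ u ≤ 3 * u * (q + 1) ^ d * (q + 1) ^ u :=
            Nat.mul_le_mul_right _ h1
        _ = 3 * u * ((q + 1) ^ u * (q + 1) ^ d) := by ring
    have h4 : 3 * P' ≤ 4 * ((n + 3) * l') := by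
      have e : 4 * (n + 2) ^ 2 * q = 2 * (2 * (n + 2) ^ 2 * q) := by ring
      omega
    have h5' : 3 * u * P' ≤ u * (4 * ((n + 3) * l')) := by
      calc 3 * u * P' = u * (3 * P') := by ring
        _ ≤ _ := Nat.mul_le_mul_left _ h4
    have h6 : (2 * (n + 3)) * (q + 1) ^ u ≤ (2 * (n + 3)) * (2 * (u * l')) := by
      calc (2 * (n + 3)) * (q + 1) ^ u ≤ 3 * u * P' := h3
        _ ≤ u * (4 * ((n + 3) * l')) := h5'
        _ = _ := by ring
    exact Nat.le_of_mul_le_mul_left h6 (by omega)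
  have hlf : n + 3 ≤ l' := by
    have h1 : 3 * P' ≤ 4 * ((n + 3) * l') := by
      have e : 4 * (n + 2) ^ 2 * q = 2 * (2 * (n + 2) ^ 2 * q) := by ring
      omega
    have h3 : 16 * (n + 2) ^ 2 ≤ 4 * (n + 2) ^ 2 * q := by nlinarith
    by_contra hcon
    have h4 : (n + 3) * l' ≤ (n + 3) * (n + 2) := Nat.mul_le_mul_left _ (by omega)
    nlinarith
  -- the rest
  set R := T \ C with hR
  have hCT : C ⊆ T := hCA.trans hTF
  have hCle : C.card ≤ τ := card_le_card hCA
  have hRc : R.card + j * (n + 3 + 1) = T.card := by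
    rw [hR, card_sdiff_of_subset hCT, hCc]
    have := card_le_card hCT
    rw [hCc] at this
    omega
  have hτj : τ = (n + 3) * l' + j * (n + 3 + 1) := by
    have e : j * (n + 3 + 1) = (n + 3) * j + j := by ring
    omega
  have hτT : τ ≤ T.card := card_le_card hTF
  have hin : ∀ A ⊆ R, (∀ v ∈ A, v ∈ F) →
      A.card ≤ l' * Module.finrank (ZMod (q + 1)) ↥(Submodule.span (ZMod (q + 1)) (A : Set V)) := by
    intro A hA hAF
    have hle : Submodule.span (ZMod (q + 1)) (A : Set V) ≤ F :=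
      Submodule.span_le.2 (fun v hv => hAF v hv)
    have h1 := Submodule.finrank_mono hle
    rw [hf] at h1
    rcases Nat.lt_or_ge (Module.finrank (ZMod (q + 1))
      (Submodule.span (ZMod (q + 1)) (A : Set V))) (n + 3) with h | h
    · have h2 := card_le_sub (Submodule.span (ZMod (q + 1)) (A : Set V))
        (A ∪ A.image (fun a => -a)) (by
        intro v hv
        rcases (mem_pm A v).1 hv with h | h
        · exact Submodule.subset_span h
        · have := Submodule.neg_mem _ (Submodule.subset_span (R := ZMod (q + 1))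
            (s := (A : Set V)) h)
          rwa [neg_neg] at this)
      rw [card_pm A (fun a ha ha' => hneg a (mem_sdiff.1 (hA ha)).1
        (mem_sdiff.1 (hA ha')).1)] at h2
      rcases Nat.eq_zero_or_pos (Module.finrank (ZMod (q + 1))
        (Submodule.span (ZMod (q + 1)) (A : Set V))) with h0 | h0
      · rw [h0, pow_zero] at h2
        omega
      · have h3 := hC2 _ h0 (by omega)
        have h4 : l' * Module.finrank (ZMod (q + 1))
          (Submodule.span (ZMod (q + 1)) (A : Set V)) = Module.finrank (ZMod (q + 1))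
          (Submodule.span (ZMod (q + 1)) (A : Set V)) * l' := Nat.mul_comm _ _
        omega
    · have h2 : A ⊆ TF \ C := by
        intro v hv
        have h3 := mem_sdiff.1 (hA hv)
        exact mem_sdiff.2 ⟨hTFF' v h3.1 (hAF v hv), h3.2⟩
      have h3 := card_le_card h2
      rw [card_sdiff_of_subset hCA, hCc, ← hτdef] at h3
      have h4 : Module.finrank (ZMod (q + 1))
        (Submodule.span (ZMod (q + 1)) (A : Set V)) = n + 3 := le_antisymm h1 h
      rw [h4]
      have h5 : l' * (n + 3) = (n + 3) * l' := Nat.mul_comm _ _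
      omega
  have hcov : ∀ A ⊆ R, A.card ≤
      l' * Module.finrank (ZMod (q + 1)) ↥(Submodule.span (ZMod (q + 1)) (A : Set V)) := by
    intro A hA
    classical
    by_cases hAF : ∀ v ∈ A, v ∈ F
    · exact hin A hA hAF
    · push Not at hAF
      obtain ⟨v, hv, hvF⟩ := hAF
      have h1 := hin (A.filter (fun v => v ∈ F)) ((filter_subset _ _).trans hA)
        (fun v hv => (mem_filter.1 hv).2)
      have h2 := span_lt (p := q + 1) F (A := ((A.filter (fun v => v ∈ F) : Finset V) : Set V))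
        (B := (A : Set V)) (fun v hv => (mem_filter.1 hv).1) (fun v hv => (mem_filter.1 hv).2)
        hv hvF
      have h3 : (A.filter (fun v => ¬ v ∈ F)).card ≤ T.card - τ := by
        have h4 : A.filter (fun v => ¬ v ∈ F) ⊆ T \ TF := by
          intro v hv
          obtain ⟨h5, h6⟩ := mem_filter.1 hv
          exact mem_sdiff.2 ⟨(mem_sdiff.1 (hA h5)).1, fun h7 => h6 (hTFF v h7)⟩
        have h5 := card_le_card h4
        rwa [card_sdiff_of_subset hTF] at h5
      have h4 := card_filter_add_card_filter_not (s := A) (fun v => v ∈ F)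
      have h5 : l' * (Module.finrank (ZMod (q + 1)) (Submodule.span (ZMod (q + 1))
        ((A.filter (fun v => v ∈ F) : Finset V) : Set V)) + 1) ≤ l' * Module.finrank (ZMod (q + 1))
        (Submodule.span (ZMod (q + 1)) (A : Set V)) := Nat.mul_le_mul_left _ h2
      rw [Nat.mul_add, mul_one] at h5
      omega
  have hRlw := cover_lw (p := q + 1) hp2 (T := R) (l := l') (f := n + 3 + 1) (b := l') (by omega)
    (by omega) le_rfl hcov (by
      have e : (n + 3 + 1) * l' = (n + 3) * l' + l' := by ring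
      omega)
  have hdisj : Disjoint C R := by
    rw [hR]
    exact disjoint_sdiff
  have hfinal := lw_aunion hdisj hC hRlw
  rw [hR, union_sdiff_of_subset hCT] at hfinal
  refine ⟨_, ?_, hfinal⟩
  rw [Nat.sub_self, Nat.cast_zero, zero_mul, add_zero, Nat.add_sub_cancel]
  unfold hl
  have hpos : (0 : ℝ) < ((q + 1 : ℕ) : ℝ) ^ (n + 3) := by positivity
  have e : (j : ℝ) * ((((n + 3 : ℕ) : ℝ) + 1) * 2 / ((q + 1 : ℕ) : ℝ) ^ (n + 3)) +
      (l' : ℝ) * (((n + 3 : ℕ) : ℝ) * 2 / ((q + 1 : ℕ) : ℝ) ^ (n + 3)) =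
      (2 * (((n + 3 : ℕ) : ℝ) * l' + j * (((n + 3 : ℕ) : ℝ) + 1))) /
        ((q + 1 : ℕ) : ℝ) ^ (n + 3) := by
    ring
  rw [e, div_le_one hpos]
  have h1 : 2 * ((n + 3) * l' + j * (n + 3 + 1)) ≤ (q + 1) ^ (n + 3) := by
    rw [← hτj]
    exact hτP
  exact_mod_cast h1

/-- Every set of at least `p ^ 2 / 2` vectors without negatives. -/
theorem lw_all (h5 : 5 ≤ p) (T : Finset V) (hneg : ∀ a ∈ T, -a ∉ T) (hbig : p ^ 2 ≤ 2 * T.card) :
    ∃ c : ℝ, c ≤ 1 ∧ LW (ac T) T.card c := by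
  classical
  have hpp : p.Prime := Fact.out
  have hfin : FiniteDimensional (ZMod p) V := Module.Finite.of_finite
  have hp2 : p ≠ 2 := by omega
  have hpodd : p % 2 = 1 := Nat.odd_iff.1 (hpp.odd_of_ne_two hp2)
  have hppos : (0 : ℝ) < p := by exact_mod_cast (by omega : 0 < p)
  have hT0 : (0 : V) ∉ T := fun h => hneg 0 h (by rwa [neg_zero])
  have hpow : ∀ e, p ^ e % 2 = 1 := fun e => Nat.odd_iff.1 (Nat.odd_iff.2 hpodd).pow
  have hTpos : 0 < T.card := by
    have : 0 < p ^ 2 := by positivity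
    omega
  -- the covering number
  have hex : ∃ l : ℕ, ∀ A ⊆ T, A.card ≤ l * Module.finrank (ZMod p)
      ↥(Submodule.span (ZMod p) (A : Set V)) := by
    refine ⟨T.card, fun A hA => ?_⟩
    rcases A.eq_empty_or_nonempty with rfl | ⟨a, ha⟩
    · simp
    · have h1 : 1 ≤ Module.finrank (ZMod p) ↥(Submodule.span (ZMod p) (A : Set V)) := by
        rw [Nat.one_le_iff_ne_zero]
        intro h
        rw [Submodule.finrank_eq_zero, Submodule.span_eq_bot] at h
        exact hT0 (h a ha ▸ hA ha)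
      calc A.card ≤ T.card := card_le_card hA
        _ = T.card * 1 := (mul_one _).symm
        _ ≤ _ := Nat.mul_le_mul_left _ h1
  set l := Nat.find hex with hldef
  have hcov : ∀ A ⊆ T, A.card ≤ l * Module.finrank (ZMod p)
      ↥(Submodule.span (ZMod p) (A : Set V)) := Nat.find_spec hex
  have hlpos : 0 < l := by
    by_contra hcon
    have h1 := hcov T (Subset.refl T)
    have h2 : l = 0 := by omega
    rw [h2, zero_mul] at h1
    omega
  obtain ⟨A0, hA0T, hA0⟩ : ∃ A0 ⊆ T, (l - 1) * Module.finrank (ZMod p)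
      ↥(Submodule.span (ZMod p) (A0 : Set V)) < A0.card := by
    have h1 := Nat.find_min hex (m := l - 1) (by omega)
    push Not at h1
    exact h1
  set F := Submodule.span (ZMod p) (A0 : Set V) with hF
  set f := Module.finrank (ZMod p) F with hf
  set TF := T.filter (fun v => v ∈ F) with hTF
  set τ := TF.card with hτ
  have hTFT : TF ⊆ T := filter_subset _ _
  have hτT : τ ≤ T.card := card_le_card hTFT
  have hA0F : A0.card ≤ τ := card_le_card (fun v hv =>
    mem_filter.2 ⟨hA0T hv, Submodule.subset_span hv⟩)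
  have hτlow : (l - 1) * f < τ := lt_of_lt_of_le hA0 hA0F
  have hτup : τ ≤ l * f := by
    have h1 := hcov TF hTFT
    have h2 : Submodule.span (ZMod p) (TF : Set V) ≤ F :=
      Submodule.span_le.2 (fun v hv => (mem_filter.1 hv).2)
    exact h1.trans (Nat.mul_le_mul_left _ (Submodule.finrank_mono h2))
  have hτP : 2 * τ ≤ p ^ f := by
    have h1 := card_le_sub F (TF ∪ TF.image (fun a => -a)) (by
      intro v hv
      rcases (mem_pm TF v).1 hv with h | h
      · exact (mem_filter.1 h).2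
      · have := F.neg_mem (mem_filter.1 h).2
        rwa [neg_neg] at this)
    rwa [card_pm TF (fun a ha ha' => hneg a (hTFT ha) (hTFT ha'))] at h1
  have hτP' : 2 * τ + 1 ≤ p ^ f := by
    have := hpow f
    omega
  have hf1 : 1 ≤ f := by
    by_contra hcon
    have h1 : f = 0 := by omega
    rw [h1, pow_zero] at hτP'
    omega
  have hlT : l ≤ T.card := by
    have h1 : (l - 1) * 1 ≤ (l - 1) * f := Nat.mul_le_mul_left _ hf1
    omega
  have hl1 : (l - 1) * f + f = f * l := by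
    obtain ⟨m, hm⟩ : ∃ m, l = m + 1 := ⟨l - 1, by omega⟩
    rw [hm]
    simp only [Nat.add_sub_cancel]
    ring
  have hlf : l * f = f * l := Nat.mul_comm _ _
  rcases Nat.lt_or_ge p (2 * l) with hBl | hAl
  swap
  · -- few classes
    refine ⟨_, ?_, cover_lw hp2 hlpos (f := 2) (b := l) le_rfl le_rfl hcov (by omega)⟩
    rw [Nat.sub_self, Nat.cast_zero, zero_mul, add_zero]
    unfold hl
    rw [show (2 : ℕ) - 1 = 1 from rfl, pow_one]
    have h1 : ((2 * l : ℕ) : ℝ) ≤ p := by exact_mod_cast hAl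
    push_cast at h1 ⊢
    rw [show (l : ℝ) * (1 * 2 / p) = (2 * l) / p by ring, div_le_one hppos]
    exact h1
  have hl3 : 3 ≤ l := by omega
  have hf2 : 2 ≤ f := by
    by_contra hcon
    have h1 : f = 1 := by omega
    rw [h1, pow_one] at hτP'
    rw [h1] at hτlow
    omega
  obtain ⟨b, hb⟩ : ∃ b, τ + b = f * l := ⟨f * l - τ, by omega⟩
  have hbf : b + 1 ≤ f := by omega
  obtain ⟨g, hg⟩ : ∃ g, f = g + 2 := ⟨f - 2, by omega⟩
  obtain ⟨q, hq⟩ : ∃ q, p = q + 1 := ⟨p - 1, by omega⟩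
  rcases Nat.lt_or_ge (f * l + 1) T.card with hB1 | hB2
  · -- many elements
    refine ⟨_, ?_, cover_lw hp2 hlpos (f := f + 1) (b := l - 2) (by omega) (by omega) hcov (by
      have : (f + 1) * l = f * l + l := by ring
      omega)⟩
    have e1 : l - (l - 2) = 2 := by omega
    obtain ⟨m, hm⟩ : ∃ m, l = m + 2 := ⟨l - 2, by omega⟩
    rw [e1, Nat.add_sub_cancel, hm, Nat.add_sub_cancel]
    unfold hl
    have h1 : 2 * (f * m) * p + 4 * (f + 1) ≤ p ^ (f + 1) := by
      have h2 : 2 * (f * m) + 2 * f + 3 ≤ p ^ f := by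
        have e : f * l = f * m + 2 * f := by rw [hm]; ring
        omega
      have h3 : (2 * (f * m) + 2 * f + 3) * p ≤ p ^ f * p := Nat.mul_le_mul_right _ h2
      rw [pow_succ]
      nlinarith
    have h2 : (2 * ((f : ℝ) * m) * p + 4 * (f + 1)) ≤ (p : ℝ) ^ (f + 1) := by exact_mod_cast h1
    have hpf : (0 : ℝ) < (p : ℝ) ^ (f + 1) := by positivity
    have hpf' : (0 : ℝ) < (p : ℝ) ^ f := by positivity
    have e2 : (m : ℝ) * ((f : ℝ) * 2 / (p : ℝ) ^ f) + ((2 : ℕ) : ℝ) *
        (((f + 1 : ℕ) : ℝ) * 2 / (p : ℝ) ^ (f + 1)) =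
        (2 * ((f : ℝ) * m) * p + 4 * (f + 1)) / (p : ℝ) ^ (f + 1) := by
      rw [pow_succ]
      push_cast
      field_simp
      ring
    rw [e2, div_le_one hpf]
    exact h2
  rcases Nat.lt_or_ge l b with hbl | hbl
  · -- few classes, large rank
    set s := 2 * f / 3 with hs
    have hs1 : 1 ≤ s := by omega
    have hsl : s * l ≤ T.card := by
      have h1 : 3 * (s * l) ≤ 2 * (f * l) := by
        have : 3 * s ≤ 2 * f := by omega
        calc 3 * (s * l) = 3 * s * l := by ring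
          _ ≤ 2 * f * l := Nat.mul_le_mul_right _ this
          _ = _ := by ring
      have h2 : 3 * f ≤ f * l := by
        calc 3 * f = f * 3 := by ring
          _ ≤ _ := Nat.mul_le_mul_left _ hl3
      omega
    refine ⟨_, ?_, cover_lw hp2 hlpos (f := s + 1) (b := l) (by omega) le_rfl hcov (by
      have : (s + 1) * l = s * l + l := by ring
      omega)⟩
    rw [Nat.sub_self, Nat.cast_zero, zero_mul, add_zero, Nat.add_sub_cancel]
    unfold hl
    have h1 : 2 * (s * l) ≤ p ^ s := by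
      refine le_trans ?_ (num4 h5 s hs1)
      calc 2 * (s * l) = s * (2 * l) := by ring
        _ ≤ _ := Nat.mul_le_mul_left _ (by omega)
    have h2 : (2 * ((s : ℝ) * l)) ≤ (p : ℝ) ^ s := by exact_mod_cast h1
    have hpf : (0 : ℝ) < (p : ℝ) ^ s := by positivity
    rw [show (l : ℝ) * ((s : ℝ) * 2 / (p : ℝ) ^ s) = (2 * ((s : ℝ) * l)) / (p : ℝ) ^ s by ring,
      div_le_one hpf]
    exact h2
  rcases Nat.lt_or_ge (p ^ f) (2 * τ + 2 * b * (f - 1) * (p - 1)) with hfull | hnot
  swap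
  · -- the classes of size `f` and `f - 1`
    refine ⟨_, ?_, cover_lw hp2 hlpos (f := f) (b := b) hf2 hbl hcov (by omega)⟩
    unfold hl
    rw [hg, show g + 2 - 1 = g + 1 by omega, Nat.cast_sub hbl]
    rw [hg, hq, show g + 2 - 1 = g + 1 by omega, Nat.add_sub_cancel] at hnot
    have hpf : (0 : ℝ) < (p : ℝ) ^ (g + 2) := by positivity
    have h1 : (2 * (τ : ℝ) + 2 * b * (g + 1) * q) ≤ (p : ℝ) ^ (g + 2) := by
      rw [hq]
      exact_mod_cast hnot
    have h2 : (τ : ℝ) + b = (g + 2) * l := by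
      rw [hg] at hb
      exact_mod_cast hb
    have h3 : (q : ℝ) = p - 1 := by
      rw [hq]
      push_cast
      ring
    have e2 : (b : ℝ) * (((g + 1 : ℕ) : ℝ) * 2 / (p : ℝ) ^ (g + 1)) + ((l : ℝ) - b) *
        (((g + 2 : ℕ) : ℝ) * 2 / (p : ℝ) ^ (g + 2)) =
        (2 * (τ : ℝ) + 2 * b * (g + 1) * q) / (p : ℝ) ^ (g + 2) := by
      have h4 : (τ : ℝ) = (g + 2) * l - b := by linarith
      rw [h4, h3, show g + 2 = (g + 1) + 1 from rfl, pow_succ (p : ℝ) (g + 1)]
      push_cast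
      field_simp
      ring
    rw [e2, div_le_one hpf]
    exact h1
  have hb1 : 1 ≤ b := by
    by_contra hcon
    have : b = 0 := by omega
    rw [this] at hfull
    simp at hfull
    omega
  rcases Nat.lt_or_ge f 3 with hf3 | hf3
  · -- planes
    have hfe : f = 2 := by omega
    have hbe : b = 1 := by omega
    rw [hfe] at hτP' hb hB2 hτlow hfull
    rw [hbe] at hb
    have hk : T.card = 2 * l + 1 := by
      by_contra hne
      have h2 : T.card = 2 * l := by
        have := hpow 2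
        omega
      have h3 : 2 * τ + 1 = p ^ 2 := by
        have := hpow 2
        omega
      have h4 : p ^ 2 % 8 = 1 := by
        have h5 : p % 8 = 1 ∨ p % 8 = 3 ∨ p % 8 = 5 ∨ p % 8 = 7 := by omega
        rw [pow_two, Nat.mul_mod]
        rcases h5 with h | h | h | h <;> rw [h]
      omega
    refine ⟨_, ?_, cover_lw hp2 hlpos (f := 3) (b := l - 1) (by omega) (by omega) hcov (by omega)⟩
    have e1 : l - (l - 1) = 1 := by omega
    obtain ⟨m, hm⟩ : ∃ m, l = m + 1 := ⟨l - 1, by omega⟩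
    rw [e1, hm, Nat.add_sub_cancel]
    unfold hl
    have h1 : 4 * m * p + 6 ≤ p ^ 3 := by
      have h2 : 4 * m + 3 ≤ p ^ 2 := by omega
      have h3 : (4 * m + 3) * p ≤ p ^ 2 * p := Nat.mul_le_mul_right _ h2
      have e : p ^ 3 = p ^ 2 * p := by ring
      rw [e]
      nlinarith
    have h2 : (4 * (m : ℝ) * p + 6) ≤ (p : ℝ) ^ 3 := by exact_mod_cast h1
    have hpf : (0 : ℝ) < (p : ℝ) ^ 3 := by positivity
    have e2 : (m : ℝ) * (((3 - 1 : ℕ) : ℝ) * 2 / (p : ℝ) ^ (3 - 1)) + ((1 : ℕ) : ℝ) *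
        (((3 : ℕ) : ℝ) * 2 / (p : ℝ) ^ 3) = (4 * (m : ℝ) * p + 6) / (p : ℝ) ^ 3 := by
      norm_num
      field_simp
    rw [e2, div_le_one hpf]
    exact h2
  · exact near_full h5 F rfl hf3 T hneg TF hTFT (fun v hv => (mem_filter.1 hv).2)
      (fun v hv hv' => mem_filter.2 ⟨hv, hv'⟩) hb1 hbf hb hfull (by omega)

end Pool.Agent.V5helper6.LAR
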