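import Pool.Agent.V5helper6.LAR.Elem3

set_option autoImplicit false

/-!
Cayley graphs with commuting generators of prime order.
-/

namespace Pool.Agent.V5helper6.LAR

open Finset SimpleGraph H931R3.LA Pool.Agent.W111.LAR Pool.Agent.TH486.LAC Pool.Agent.Y59.LA
open Pool.Agent.Y647.LAC (LW)

/-- Elementary abelian groups. -/
theorem ld_elem {K : Type} [CommGroup K] [Finite K] {p : ℕ} [Fact p.Prime] (h5 : 5 ≤ p)
    (hexp : ∀ x : K, x ^ p = 1) (S : Finset K) (G : SimpleGraph K)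
    (hG : ∀ g h, G.Adj g h ↔ g⁻¹ * h ∈ S) : LD G (S.card / 2) := by
  classical
  have hpp : p.Prime := Fact.out
  rcases Nat.lt_or_ge S.card (p ^ 2) with hlt | hge
  · refine ld_lt_sq S G hG (fun s _ t _ => Commute.all s t) p (by omega) ?_ hlt
    intro q hq hdvd
    haveI : Fact q.Prime := ⟨hq⟩
    obtain ⟨x, hx⟩ := exists_prime_orderOf_dvd_card' q hdvd
    have h1 : orderOf x ∣ p := orderOf_dvd_of_pow_eq_one (hexp x)
    rw [hx] at h1
    exact le_of_eq ((Nat.prime_dvd_prime_iff_eq hq hpp).1 h1).symm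
  · have hodd : ∀ s ∈ S, Odd (orderOf s) := by
      intro s _
      exact (hpp.odd_of_ne_two (by omega)).of_dvd_nat (orderOf_dvd_of_pow_eq_one (hexp s))
    obtain ⟨hone, hinv, hno⟩ := odd_facts hG hodd
    obtain ⟨T, hTS, hT, hT', hcard, -⟩ := halve' S hinv hno
    letI : Module (ZMod p) (Additive K) :=
      AddCommGroup.zmodModule (fun x => hexp x.toMul)
    have hbig : p ^ 2 ≤ 2 * T.card := by omega
    have key : ∃ c : ℝ, c ≤ 1 ∧ LW (cayG T) T.card c :=
      lw_all (p := p) (V := Additive K) h5 T hT' hbig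
    obtain ⟨c, hc, h⟩ := key
    exact ld_of_lw hG hinv hTS hT hcard hc h

/-- Commuting generators of prime order in a finite group: there is a locally injective
homomorphism to a Cayley graph of an elementary abelian group. -/
theorem elem_cov {Γ : Type} [Group Γ] [Finite Γ] {p : ℕ} [Fact p.Prime] (h5 : 5 ≤ p)
    (S : Finset Γ) (X : SimpleGraph Γ) (hX : ∀ g h, X.Adj g h ↔ g⁻¹ * h ∈ S)
    (hcomm : ∀ s ∈ S, ∀ t ∈ S, Commute s t) (hexp : ∀ s ∈ S, s ^ p = 1)
    {W : Type} [Finite W] (G : SimpleGraph W) (f : W → Γ)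
    (hom : ∀ a b, G.Adj a b → X.Adj (f a) (f b))
    (inj : ∀ a b c, G.Adj a b → G.Adj a c → f b = f c → b = c) : Cov G (S.card / 2 + 1) := by
  classical
  set K : Subgroup Γ := Subgroup.closure (S : Set Γ) with hK
  have hcK : IsMulCommutative K :=
    Subgroup.isMulCommutative_closure (fun x hx y hy => hcomm x hx y hy)
  letI : CommGroup K := { Subgroup.toGroup K with mul_comm := fun a b => hcK.is_comm.comm a b }
  have hSK : ∀ s ∈ S, s ∈ K := fun s hs => Subgroup.subset_closure hs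
  have hexpK : ∀ x : K, x ^ p = 1 := by
    rintro ⟨x, hx⟩
    refine Subgroup.closure_induction (p := fun x hx => (⟨x, hx⟩ : K) ^ p = 1) ?_ ?_ ?_ ?_ hx
    · intro s hs
      apply Subtype.ext
      exact hexp s hs
    · exact one_pow p
    · intro x y hx hy h1 h2
      have : (⟨x * y, K.mul_mem hx hy⟩ : K) = ⟨x, hx⟩ * ⟨y, hy⟩ := rfl
      rw [this, mul_pow, h1, h2, one_mul]
    · intro x hx h1
      have : (⟨x⁻¹, K.inv_mem hx⟩ : K) = (⟨x, hx⟩ : K)⁻¹ := rfl
      rw [this, inv_pow, h1, inv_one]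
  set SK : Finset K := S.subtype (fun x => x ∈ K) with hSKdef
  have hSKc : SK.card = S.card := by
    rw [hSKdef, card_subtype]
    congr 1
    exact filter_true_of_mem hSK
  have hLD : LD (X.comap (Subtype.val : K → Γ)) (SK.card / 2) := by
    refine ld_elem (K := K) h5 hexpK SK _ ?_
    intro g h
    rw [comap_adj, hX, hSKdef, mem_subtype]
    rfl
  rw [hSKc] at hLD
  -- the map to `K`
  set q : Γ → Γ := fun g => (QuotientGroup.mk g : Γ ⧸ K).out with hq
  have hqK : ∀ g, (q g)⁻¹ * g ∈ K := by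
    intro g
    rw [← QuotientGroup.eq]
    exact QuotientGroup.out_eq' _
  have hqs : ∀ g h, X.Adj g h → q g = q h := by
    intro g h hgh
    have h1 : g⁻¹ * h ∈ K := hSK _ ((hX g h).1 hgh)
    have h2 : (QuotientGroup.mk g : Γ ⧸ K) = QuotientGroup.mk h := QuotientGroup.eq.2 h1
    rw [hq]
    simp only
    rw [h2]
  refine hLD.lift G (fun w => ⟨(q (f w))⁻¹ * f w, hqK (f w)⟩) ?_ ?_
  · intro a b hab
    have h1 := hom a b hab
    rw [comap_adj, hX]
    show ((q (f a))⁻¹ * f a)⁻¹ * ((q (f b))⁻¹ * f b) ∈ S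
    rw [hqs _ _ h1]
    have : ((q (f b))⁻¹ * f a)⁻¹ * ((q (f b))⁻¹ * f b) = (f a)⁻¹ * f b := by group
    rw [this]
    exact (hX _ _).1 h1
  · intro a b c hab hac h
    have h1 : (q (f b))⁻¹ * f b = (q (f c))⁻¹ * f c := congrArg Subtype.val h
    rw [← hqs _ _ (hom a b hab), ← hqs _ _ (hom a c hac)] at h1
    exact inj a b c hab hac (mul_left_cancel h1)

end Pool.Agent.V5helper6.LAR
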