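import Pool.Agent.V5helper6.LAR.Skew

set_option autoImplicit false

/-!
The directions of the colours in the product of `r` directed cycles of the same odd length `m`.
-/

namespace Pool.Agent.V5helper6.LAR

open Finset Function

section scheme

variable {m : ℕ} (r : ℕ)

/-- The rotation of the layer. -/
def rot (s : ZMod m) : ZMod r := ((min s.val (r - 1) : ℕ) : ZMod r)

/-- The weight of a rotation. -/
noncomputable def om (x : ZMod r) : ℕ := by
  classical
  exact if x.val = r - 1 ∧ Odd r then 2 else x.val % 2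

/-- The weight of a layer. -/
noncomputable def wt (s : ZMod m) : ℕ := if s.val < r then om r (s.val : ZMod r) else 0

/-- The position of the swap. -/
def Sw (f : ℕ → ZMod m) (j : ℕ) : Prop :=
  1 ≤ j ∧ j + 2 ≤ r ∧ (∀ k, 1 ≤ k → k < j → f k = 0) ∧ f j ≠ 0 ∧ (f j).val ≤ wt r (f 0)

/-- The permutation of the directions. -/
noncomputable def sw (f : ℕ → ZMod m) : Equiv.Perm (ZMod r) := by
  classical
  exact if h : ∃ j, Sw r f j then
    Equiv.swap ((h.choose + 1 : ℕ) : ZMod r) ((h.choose + 2 : ℕ) : ZMod r) else 1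

/-- The direction of a colour. -/
noncomputable def dir (c : ZMod r) (f : ℕ → ZMod m) : ZMod r := sw r f (c - rot r (f 0) + 1)

/-- The steps. -/
noncomputable def stp (c : ZMod r) (i : ℕ) (f : ℕ → ZMod m) : ZMod m := by
  classical
  exact if i = 0 then 1 else if dir r c f = (i : ZMod r) then 1 else 0

variable {r}

theorem Sw.unique {f : ℕ → ZMod m} {j j' : ℕ} (h : Sw r f j) (h' : Sw r f j') : j = j' := by
  obtain ⟨h1, -, h3, h4, -⟩ := h
  obtain ⟨h1', -, h3', h4', -⟩ := h'
  rcases lt_trichotomy j j' with hlt | heq | hlt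
  · exact absurd (h3' j h1 hlt) h4
  · exact heq
  · exact absurd (h3 j' h1' hlt) h4'

theorem sw_eq {f : ℕ → ZMod m} {j : ℕ} (h : Sw r f j) :
    sw r f = Equiv.swap ((j + 1 : ℕ) : ZMod r) ((j + 2 : ℕ) : ZMod r) := by
  have hex : ∃ j, Sw r f j := ⟨j, h⟩
  have h1 : hex.choose = j := hex.choose_spec.unique h
  unfold sw
  rw [dif_pos hex, h1]

theorem sw_none {f : ℕ → ZMod m} (h : ∀ j, ¬ Sw r f j) : sw r f = 1 := by
  unfold sw
  rw [dif_neg (by rintro ⟨j, hj⟩; exact h j hj)]

theorem sw_congr {f f' : ℕ → ZMod m} (h : ∀ j, Sw r f j ↔ Sw r f' j) : sw r f = sw r f' := by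
  by_cases hex : ∃ j, Sw r f j
  · obtain ⟨j, hj⟩ := hex
    rw [sw_eq hj, sw_eq ((h j).1 hj)]
  · push Not at hex
    rw [sw_none hex, sw_none (fun j hj => hex j ((h j).2 hj))]

theorem cast_ne {r : ℕ} {i j : ℕ} (hi : 1 ≤ i) (hij : i < j) (hj : j ≤ r) :
    (i : ZMod r) ≠ (j : ZMod r) := by
  intro h
  rw [ZMod.natCast_eq_natCast_iff] at h
  have h1 := (Nat.modEq_iff_dvd' hij.le).1 h
  have h2 := Nat.le_of_dvd (by omega) h1
  omega

theorem dir_trunc (c : ZMod r) (f : ℕ → ZMod m) {i : ℕ} (h1 : 1 ≤ i) (hi : i < r) :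
    dir r c (trunc i f) = (i : ZMod r) ↔ dir r c f = (i : ZMod r) := by
  have h0 : trunc i f 0 = f 0 := if_pos h1
  unfold dir
  rw [h0]
  by_cases hex : ∃ j, Sw r f j
  · obtain ⟨j, hj⟩ := hex
    rcases lt_or_ge j i with hlt | hge
    · have hj' : Sw r (trunc i f) j := by
        obtain ⟨e1, e2, e3, e4, e5⟩ := hj
        have e6 : trunc i f j = f j := if_pos hlt
        refine ⟨e1, e2, fun k hk hkj => ?_, ?_, ?_⟩
        · have : trunc i f k = f k := if_pos (by omega)
          rw [this]
          exact e3 k hk hkj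
        · rwa [e6]
        · rwa [e6, h0]
      rw [sw_eq hj, sw_eq hj']
    · have hno : ∀ j', ¬ Sw r (trunc i f) j' := by
        rintro j' ⟨e1, e2, e3, e4, e5⟩
        apply e4
        unfold trunc
        by_cases hji : j' < i
        · rw [if_pos hji]
          exact hj.2.2.1 j' e1 (by omega)
        · rw [if_neg hji]
      rw [sw_none hno, sw_eq hj]
      have h2 := hj.2.1
      have e1 : (i : ZMod r) ≠ ((j + 1 : ℕ) : ZMod r) := cast_ne h1 (by omega) (by omega)
      have e2 : (i : ZMod r) ≠ ((j + 2 : ℕ) : ZMod r) := cast_ne h1 (by omega) (by omega)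
      have e3 := Equiv.swap_apply_of_ne_of_ne e1 e2
      rw [Equiv.Perm.one_apply]
      constructor
      · intro h
        rw [h, e3]
      · intro h
        rw [← e3] at h
        exact (Equiv.injective _) h
  · push Not at hex
    have hno : ∀ j', ¬ Sw r (trunc i f) j' := by
      rintro j' ⟨e1, e2, e3, e4, e5⟩
      have hji : j' < i := by
        by_contra hcon
        apply e4
        exact if_neg hcon
      have e6 : trunc i f j' = f j' := if_pos hji
      refine hex j' ⟨e1, e2, fun k hk hkj => ?_, ?_, ?_⟩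
      · have e7 := e3 k hk hkj
        have e8 : trunc i f k = f k := if_pos (by omega)
        rwa [e8] at e7
      · rwa [e6] at e4
      · rwa [e6, h0] at e5
    rw [sw_none hno, sw_none hex]

theorem stp_trunc (c : ZMod r) (f : ℕ → ZMod m) {i : ℕ} (hi : i < r) :
    stp r c i (trunc i f) = stp r c i f := by
  unfold stp
  by_cases h0 : i = 0
  · rw [if_pos h0, if_pos h0]
  · rw [if_neg h0, if_neg h0]
    simp only [dir_trunc c f (Nat.one_le_iff_ne_zero.2 h0) hi]

end scheme

section sums

theorem sum_val {m : ℕ} [NeZero m] {M : Type} [AddCommMonoid M] (F : ℕ → M) :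
    ∑ s : ZMod m, F s.val = ∑ k ∈ range m, F k := by
  cases m with
  | zero => exact absurd rfl (NeZero.ne 0)
  | succ n => exact Fin.sum_univ_eq_sum_range F (n + 1)

variable {m r : ℕ} [NeZero m] [NeZero r]

theorem cast_eq_iff {k : ℕ} (hk : k < r) (x : ZMod r) : (k : ZMod r) = x ↔ k = x.val := by
  constructor
  · rintro rfl
    rw [ZMod.val_natCast, Nat.mod_eq_of_lt hk]
  · rintro rfl
    exact ZMod.natCast_zmod_val x

theorem rot_eq_iff (s : ZMod m) (x : ZMod r) : rot r s = x ↔ min s.val (r - 1) = x.val := by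
  have hr : 0 < r := Nat.pos_of_ne_zero (NeZero.ne r)
  exact cast_eq_iff (by omega) x

open Classical in
theorem sum_wt (hrm : r ≤ m) (x : ZMod r) :
    ∑ s : ZMod m, (if rot r s = x then (wt r s : ZMod m) else 0) = (om r x : ZMod m) := by
  have hx : x.val < r := ZMod.val_lt x
  have h1 : ∀ s : ZMod m, (if rot r s = x then (wt r s : ZMod m) else 0) =
      (fun k : ℕ => if k = x.val then (om r x : ZMod m) else 0) s.val := by
    intro s
    simp only [rot_eq_iff]
    unfold wt
    by_cases hs : s.val < r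
    · have e1 : min s.val (r - 1) = s.val := by omega
      rw [e1, if_pos hs]
      by_cases h : s.val = x.val
      · rw [if_pos h, if_pos h, h, ZMod.natCast_zmod_val]
      · rw [if_neg h, if_neg h]
    · rw [if_neg hs]
      have h : s.val ≠ x.val := by omega
      rw [if_neg h]
      simp
  refine (sum_congr rfl (fun s _ => h1 s)).trans
    ((sum_val (fun k : ℕ => if k = x.val then (om r x : ZMod m) else 0)).trans ?_)
  rw [sum_ite_eq' (range m) x.val, if_pos (mem_range.2 (by omega))]

open Classical in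
theorem sum_rot (hr : 2 ≤ r) (hrm : r ≤ m) (x : ZMod r) :
    ∑ s : ZMod m, (if rot r s = x then (1 : ZMod m) else 0) =
      if x.val = r - 1 then -((r - 1 : ℕ) : ZMod m) else 1 := by
  have hx : x.val < r := ZMod.val_lt x
  have h1 : ∀ s : ZMod m, (if rot r s = x then (1 : ZMod m) else 0) =
      (fun k : ℕ => if min k (r - 1) = x.val then (1 : ZMod m) else 0) s.val := by
    intro s
    simp only [rot_eq_iff]
  refine (sum_congr rfl (fun s _ => h1 s)).trans
    ((sum_val (fun k : ℕ => if min k (r - 1) = x.val then (1 : ZMod m) else 0)).trans ?_)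
  by_cases h : x.val = r - 1
  · rw [if_pos h, h, sum_boole]
    have h2 : (range m).filter (fun k => min k (r - 1) = r - 1) = (range m) \ range (r - 1) := by
      ext k
      simp only [mem_filter, mem_range, mem_sdiff]
      omega
    rw [h2, card_sdiff_of_subset (range_subset_range.2 (by omega)), card_range, card_range,
      Nat.cast_sub (by omega), ZMod.natCast_self, zero_sub]
  · rw [if_neg h, sum_boole]
    have h2 : (range m).filter (fun k => min k (r - 1) = x.val) = {x.val} := by
      ext k
      simp only [mem_filter, mem_range, mem_singleton]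
      omega
    rw [h2, card_singleton, Nat.cast_one]

theorem om_unit (hm : Odd m) (hr : 2 ≤ r) (x : ZMod r) :
    IsUnit ((om r x : ZMod m) - (om r (x + 1) : ZMod m)) := by
  have h2u : IsUnit ((2 : ℕ) : ZMod m) := by
    rw [ZMod.isUnit_iff_coprime]
    exact (Nat.coprime_two_left).2 hm
  have hx : x.val < r := ZMod.val_lt x
  by_cases h : x.val = r - 1
  · have h1 : x + 1 = 0 := by
      have h3 : ((x.val : ℕ) : ZMod r) = x := ZMod.natCast_zmod_val x
      rw [← h3, h, Nat.cast_sub (by omega), ZMod.natCast_self]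
      push_cast
      ring
    have h2 : om r (x + 1) = 0 := by
      rw [h1]
      unfold om
      rw [ZMod.val_zero, if_neg (by omega)]
    rw [h2, Nat.cast_zero, sub_zero]
    unfold om
    by_cases ho : Odd r
    · rw [if_pos ⟨h, ho⟩]
      exact h2u
    · rw [if_neg (by tauto), h]
      have h3 : (r - 1) % 2 = 1 := by
        rw [Nat.not_odd_iff_even] at ho
        obtain ⟨k, hk⟩ := ho
        omega
      rw [h3, Nat.cast_one]
      exact isUnit_one
  · have h1 : (x + 1).val = x.val + 1 := by
      have h3 : x + 1 = ((x.val + 1 : ℕ) : ZMod r) := by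
        push_cast
        rw [ZMod.natCast_zmod_val]
      rw [h3, ZMod.val_natCast, Nat.mod_eq_of_lt (by omega)]
    have h2 : om r x = x.val % 2 := by
      unfold om
      rw [if_neg (by tauto)]
    have h4 : om r (x + 1) = om r x + 1 ∨ om r x = om r (x + 1) + 1 := by
      rw [h2]
      unfold om
      rw [h1]
      by_cases ho : x.val + 1 = r - 1 ∧ Odd r
      · rw [if_pos ho]
        obtain ⟨ho1, k, hk⟩ := ho
        left
        omega
      · rw [if_neg ho]
        omega
    rcases h4 with h4 | h4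
    · rw [h4]
      push_cast
      rw [sub_add_cancel_left]
      exact isUnit_one.neg
    · rw [h4]
      push_cast
      rw [add_sub_cancel_left]
      exact isUnit_one

open Classical in
theorem dir_sum_one (c : ZMod r) :
    ∑ q : Fin 1 → ZMod m, (if dir r c (ext0 q) = ((1 : ℕ) : ZMod r) then (1 : ZMod m) else 0) =
      ∑ s : ZMod m, (if rot r s = c then (1 : ZMod m) else 0) := by
  refine Fintype.sum_equiv (Equiv.funUnique (Fin 1) (ZMod m)) _ _ fun q => ?_
  have h1 : ∀ j, ¬ Sw r (ext0 q) j := by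
    rintro j ⟨e1, -, -, e4, -⟩
    apply e4
    unfold ext0
    rw [dif_neg (by omega)]
  have h2 : ext0 q 0 = (Equiv.funUnique (Fin 1) (ZMod m)) q := rfl
  unfold dir
  rw [sw_none h1, Equiv.Perm.one_apply, h2]
  set s := (Equiv.funUnique (Fin 1) (ZMod m)) q
  have h3 : (c - rot r s + 1 = ((1 : ℕ) : ZMod r)) ↔ rot r s = c := by
    constructor
    · intro h
      push_cast at h
      linear_combination -h
    · intro h
      rw [h]
      push_cast
      ring
  simp only [h3]

theorem ext0_snoc_lt {n : ℕ} (q : Fin (n + 1) → ZMod m) (y : ZMod m) {k : ℕ} (hk : k < n + 1) :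
    ext0 (Fin.snoc q y : Fin (n + 1 + 1) → ZMod m) k = ext0 q k := by
  unfold ext0
  rw [dif_pos (by omega), dif_pos hk]
  exact Fin.snoc_castSucc (α := fun _ => ZMod m) y q ⟨k, hk⟩

theorem ext0_snoc_last {n : ℕ} (q : Fin (n + 1) → ZMod m) (y : ZMod m) :
    ext0 (Fin.snoc q y : Fin (n + 1 + 1) → ZMod m) (n + 1) = y := by
  unfold ext0
  rw [dif_pos (by omega)]
  exact Fin.snoc_last (α := fun _ => ZMod m) y q

theorem ext0_ge {n : ℕ} (q : Fin n → ZMod m) {k : ℕ} (hk : n ≤ k) : ext0 q k = 0 := by
  unfold ext0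
  rw [dif_neg (by omega)]

open Classical in
theorem dir_inner (c : ZMod r) {n : ℕ} (hn : n + 2 < r) (h2m : 3 ≤ m) (q : Fin (n + 1) → ZMod m) :
    ∑ y : ZMod m, (if dir r c (ext0 (Fin.snoc q y : Fin (n + 1 + 1) → ZMod m)) =
        ((n + 2 : ℕ) : ZMod r) then (1 : ZMod m) else 0) =
      if ∀ k, 1 ≤ k → ext0 q k = 0 then
        ((if rot r (q 0) = c - ((n + 2 : ℕ) : ZMod r) then (wt r (q 0) : ZMod m) else 0) -
          if rot r (q 0) = c - ((n + 2 : ℕ) : ZMod r) + 1 then (wt r (q 0) : ZMod m) else 0)
      else 0 := by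
  have h00 : ext0 q 0 = q 0 := rfl
  by_cases hz : ∀ k, 1 ≤ k → ext0 q k = 0
  · rw [if_pos hz]
    set s := q 0 with hs
    set β : ZMod r := c - rot r s + 1 with hβ
    have hwt : wt r s < m := by
      have : wt r s ≤ 2 := by
        unfold wt om
        split_ifs <;> omega
      omega
    have key : ∀ y : ZMod m, (if dir r c (ext0 (Fin.snoc q y : Fin (n + 1 + 1) → ZMod m)) =
        ((n + 2 : ℕ) : ZMod r) then (1 : ZMod m) else 0) =
        (fun k : ℕ => if k ≠ 0 ∧ k ≤ wt r s then
          (if β = ((n + 3 : ℕ) : ZMod r) then (1 : ZMod m) else 0) else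
          (if β = ((n + 2 : ℕ) : ZMod r) then (1 : ZMod m) else 0)) y.val := by
      intro y
      have h0 : ext0 (Fin.snoc q y : Fin (n + 1 + 1) → ZMod m) 0 = s := by
        rw [ext0_snoc_lt q y (by omega), h00]
      have hzero : ∀ k, 1 ≤ k → k ≠ n + 1 →
          ext0 (Fin.snoc q y : Fin (n + 1 + 1) → ZMod m) k = 0 := by
        intro k hk hk'
        rcases lt_or_ge k (n + 1) with hlt | hge
        · rw [ext0_snoc_lt q y hlt]
          exact hz k hk
        · exact ext0_ge _ (by omega)
      have hy0 : y.val ≠ 0 ↔ y ≠ 0 := not_congr (ZMod.val_eq_zero y)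
      unfold dir
      rw [h0, ← hβ]
      by_cases hy : y.val ≠ 0 ∧ y.val ≤ wt r s
      · have hSw : Sw r (ext0 (Fin.snoc q y : Fin (n + 1 + 1) → ZMod m)) (n + 1) := by
          refine ⟨by omega, by omega, fun k hk hkn => hzero k hk (by omega), ?_, ?_⟩
          · rw [ext0_snoc_last]
            exact hy0.1 hy.1
          · rw [ext0_snoc_last, h0]
            exact hy.2
        show _ = if y.val ≠ 0 ∧ y.val ≤ wt r s then _ else _
        rw [if_pos hy, sw_eq hSw]
        have e1 : Equiv.swap ((n + 1 + 1 : ℕ) : ZMod r) ((n + 1 + 2 : ℕ) : ZMod r) β =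
            ((n + 2 : ℕ) : ZMod r) ↔ β = ((n + 3 : ℕ) : ZMod r) := by
          rw [Equiv.swap_apply_eq_iff, show ((n + 2 : ℕ)) = n + 1 + 1 from rfl,
            Equiv.swap_apply_left]
        simp only [e1]
      · have hno : ∀ j, ¬ Sw r (ext0 (Fin.snoc q y : Fin (n + 1 + 1) → ZMod m)) j := by
          rintro j ⟨e1, e2, e3, e4, e5⟩
          by_cases hj : j = n + 1
          · subst hj
            rw [ext0_snoc_last] at e4 e5
            rw [h0] at e5
            exact hy ⟨hy0.2 e4, e5⟩
          · exact e4 (hzero j e1 hj)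
        show _ = if y.val ≠ 0 ∧ y.val ≤ wt r s then _ else _
        rw [if_neg hy, sw_none hno, Equiv.Perm.one_apply]
    refine (sum_congr rfl (fun y _ => key y)).trans
      ((sum_val (fun k : ℕ => if k ≠ 0 ∧ k ≤ wt r s then
          (if β = ((n + 3 : ℕ) : ZMod r) then (1 : ZMod m) else 0) else
          (if β = ((n + 2 : ℕ) : ZMod r) then (1 : ZMod m) else 0))).trans ?_)
    rw [sum_ite, sum_const, sum_const]
    have hc1 : ((range m).filter (fun k => k ≠ 0 ∧ k ≤ wt r s)).card = wt r s := by
      have : (range m).filter (fun k => k ≠ 0 ∧ k ≤ wt r s) = Finset.Icc 1 (wt r s) := by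
        ext k
        simp only [mem_filter, mem_range, Finset.mem_Icc]
        omega
      rw [this, Nat.card_Icc]
      omega
    have hc2 : ((range m).filter (fun k => ¬ (k ≠ 0 ∧ k ≤ wt r s))).card = m - wt r s := by
      have h1 := card_filter_add_card_filter_not (s := range m) (fun k => k ≠ 0 ∧ k ≤ wt r s)
      rw [hc1, card_range] at h1
      omega
    rw [hc1, hc2]
    have e1 : (β = ((n + 3 : ℕ) : ZMod r)) ↔ rot r s = c - ((n + 2 : ℕ) : ZMod r) := by
      rw [hβ]
      constructor
      · intro h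
        push_cast at h ⊢
        linear_combination -h
      · intro h
        rw [h]
        push_cast
        ring
    have e2 : (β = ((n + 2 : ℕ) : ZMod r)) ↔ rot r s = c - ((n + 2 : ℕ) : ZMod r) + 1 := by
      rw [hβ]
      constructor
      · intro h
        push_cast at h ⊢
        linear_combination -h
      · intro h
        rw [h]
        push_cast
        ring
    simp only [e1, e2]
    have e3 : (((m - wt r s : ℕ)) : ZMod m) = -(wt r s : ZMod m) := by
      rw [Nat.cast_sub hwt.le, ZMod.natCast_self, zero_sub]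
    rw [nsmul_eq_mul, nsmul_eq_mul, e3]
    split_ifs <;> ring
  · rw [if_neg hz]
    push Not at hz
    obtain ⟨k0, hk0, hk0'⟩ := hz
    have hk0n : k0 < n + 1 := by
      by_contra hcon
      exact hk0' (ext0_ge q (by omega))
    have key : ∀ y : ZMod m, dir r c (ext0 (Fin.snoc q y : Fin (n + 1 + 1) → ZMod m)) =
        dir r c (ext0 q) := by
      intro y
      unfold dir
      rw [ext0_snoc_lt q y (by omega : 0 < n + 1)]
      congr 1
      refine sw_congr fun j => ?_
      have hle : ∀ f : ℕ → ZMod m, f k0 ≠ 0 → Sw r f j → j ≤ k0 := by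
        rintro f hf ⟨-, -, e3, -, -⟩
        by_contra hcon
        exact hf (e3 k0 hk0 (by omega))
      constructor
      · intro h
        have h1 := hle _ (by rwa [ext0_snoc_lt q y hk0n]) h
        obtain ⟨e1, e2, e3, e4, e5⟩ := h
        rw [ext0_snoc_lt q y (by omega)] at e4 e5
        rw [ext0_snoc_lt q y (by omega : 0 < n + 1)] at e5
        refine ⟨e1, e2, fun k hk hkj => ?_, e4, e5⟩
        have := e3 k hk hkj
        rwa [ext0_snoc_lt q y (by omega)] at this
      · intro h
        have h1 := hle _ hk0' h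
        obtain ⟨e1, e2, e3, e4, e5⟩ := h
        refine ⟨e1, e2, fun k hk hkj => ?_, ?_, ?_⟩
        · rw [ext0_snoc_lt q y (by omega)]
          exact e3 k hk hkj
        · rwa [ext0_snoc_lt q y (by omega)]
        · rwa [ext0_snoc_lt q y (by omega), ext0_snoc_lt q y (by omega : 0 < n + 1)]
    simp only [key]
    rw [sum_const, card_univ, ZMod.card, nsmul_eq_mul, ZMod.natCast_self, zero_mul]

open Classical in
theorem sum_zero_tail {n : ℕ} (F : ZMod m → ZMod m) :
    ∑ q : Fin (n + 1) → ZMod m, (if ∀ k, 1 ≤ k → ext0 q k = 0 then F (q 0) else 0) =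
      ∑ s : ZMod m, F s := by
  rw [← sum_filter]
  refine sum_nbij' (fun q => q 0) (fun s k => if k = 0 then s else 0) (fun _ _ => mem_univ _)
    ?_ ?_ ?_ ?_
  · intro s _
    rw [mem_filter]
    refine ⟨mem_univ _, fun k hk => ?_⟩
    unfold ext0
    by_cases h : k < n + 1
    · rw [dif_pos h]
      refine if_neg ?_
      intro h1
      have := congrArg Fin.val h1
      simp at this
      omega
    · rw [dif_neg h]
  · intro q hq
    obtain ⟨-, hq⟩ := mem_filter.1 hq
    funext k
    by_cases hk : k = 0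
    · subst hk
      rw [if_pos rfl]
    · simp only [if_neg hk]
      have h1 := hq k (by
        rcases Nat.eq_zero_or_pos (k : ℕ) with h | h
        · exact absurd (Fin.ext h) hk
        · exact h)
      unfold ext0 at h1
      rw [dif_pos k.2] at h1
      exact h1.symm
  · intro s _
    simp
  · intro q _
    rfl

/-- The total of the steps of every direction is a unit. -/
theorem stp_unit (hm : Odd m) (h3 : 3 ≤ m) (hrm : r ≤ m) (hcop : r = 1 ∨ (r - 1).Coprime m)
    (c : ZMod r) : ∀ i < r, IsUnit (∑ q : Fin i → ZMod m, stp r c i (ext0 q)) := by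
  classical
  intro i hi
  rcases Nat.eq_zero_or_pos i with rfl | hpos
  · have : ∑ q : Fin 0 → ZMod m, stp r c 0 (ext0 q) = 1 := by
      unfold stp
      simp
    rw [this]
    exact isUnit_one
  have hi0 : i ≠ 0 := by omega
  have h1 : ∑ q : Fin i → ZMod m, stp r c i (ext0 q) =
      ∑ q : Fin i → ZMod m, (if dir r c (ext0 q) = (i : ZMod r) then (1 : ZMod m) else 0) := by
    refine sum_congr rfl fun q _ => ?_
    unfold stp
    rw [if_neg hi0]
  rw [h1]
  obtain ⟨n, rfl⟩ : ∃ n, i = n + 1 := ⟨i - 1, by omega⟩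
  cases n with
  | zero =>
    rw [dir_sum_one, sum_rot (by omega) hrm]
    by_cases h : c.val = r - 1
    · rw [if_pos h]
      have h4 : (r - 1).Coprime m := by
        rcases hcop with h | h
        · omega
        · exact h
      exact ((ZMod.isUnit_iff_coprime _ _).2 h4).neg
    · rw [if_neg h]
      exact isUnit_one
  | succ n =>
    have h2 : ∑ q : Fin (n + 1 + 1) → ZMod m,
        (if dir r c (ext0 q) = ((n + 1 + 1 : ℕ) : ZMod r) then (1 : ZMod m) else 0) =
        ∑ q : Fin (n + 1) → ZMod m, ∑ y : ZMod m,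
          (if dir r c (ext0 (Fin.snoc q y : Fin (n + 1 + 1) → ZMod m)) =
            ((n + 2 : ℕ) : ZMod r) then (1 : ZMod m) else 0) := by
      rw [← Fintype.sum_equiv (Fin.snocEquiv (fun _ : Fin (n + 1 + 1) => ZMod m))
        (fun x => (if dir r c (ext0 (Fin.snoc x.2 x.1 : Fin (n + 1 + 1) → ZMod m)) =
            ((n + 1 + 1 : ℕ) : ZMod r) then (1 : ZMod m) else 0)) _ (fun x => rfl)]
      rw [Fintype.sum_prod_type, sum_comm]
    rw [h2, sum_congr rfl (fun q _ => dir_inner c (by omega) h3 q)]
    rw [sum_zero_tail (fun s => ((if rot r s = c - ((n + 2 : ℕ) : ZMod r)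
      then (wt r s : ZMod m) else 0) -
          if rot r s = c - ((n + 2 : ℕ) : ZMod r) + 1 then (wt r s : ZMod m) else 0))]
    rw [sum_sub_distrib, sum_wt hrm, sum_wt hrm]
    exact om_unit hm (by omega) _

end sums

end Pool.Agent.V5helper6.LAR
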