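import Pool.Agent.V5helper6.LAR.Torus
import Pool.Agent.V5helper6.LAR.Scheme

set_option autoImplicit false

/-!
The decomposition of the product of `r` directed cycles of the same odd length `m` into `r` directed
Hamilton cycles.
-/

namespace Pool.Agent.V5helper6.LAR

open SimpleGraph

/-- A Hamilton decomposition of the Cayley graph of the elements `δ k`. -/
def HamDec {κ W : Type} [AddCommGroup W] (δ : κ → W) : Prop :=
  ∃ P : κ → SimpleGraph W, (∀ k v, ((P k).neighborSet v).ncard = 2) ∧
    (∀ k v w, (P k).Reachable v w) ∧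
    ∀ v w, (⨆ k, P k).Adj v w ↔ v ≠ w ∧ ∃ k, w = v + δ k ∨ v = w + δ k

theorem graded_two {W : Type} {m : ℕ} [Finite W] (hm : 3 ≤ m) (s : W → ZMod m)
    (σ : Equiv.Perm W) (hσ : ∀ v, s (σ v) = s v + 1) (v : W) :
    ((PG σ σ.symm).neighborSet v).ncard = 2 := by
  have hports : Ports (σ : W → W) σ.symm := ⟨fun v => Or.inr (σ.symm_apply_apply v),
    fun v => Or.inl (σ.apply_symm_apply v)⟩
  have hs : ∀ v, s (σ.symm v) = s v - 1 := by
    intro v
    have := hσ (σ.symm v)
    rw [σ.apply_symm_apply] at this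
    rw [this]; ring
  have : Fact (1 < m) := ⟨by omega⟩
  have h1 : (1 : ZMod m) ≠ 0 := one_ne_zero
  have h2 : (2 : ZMod m) ≠ 0 := by
    intro h
    have h1 : ((2 : ℕ) : ZMod m) = 0 := by exact_mod_cast h
    rw [ZMod.natCast_eq_zero_iff] at h1
    have := Nat.le_of_dvd (by norm_num) h1
    omega
  have hset : (PG σ σ.symm).neighborSet v = {σ v, σ.symm v} := by
    ext w
    rw [mem_neighborSet, hports.adj]
    constructor
    · rintro ⟨_, h | h⟩
      · exact Or.inl h
      · exact Or.inr h
    · rintro (h | h)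
      · refine ⟨?_, Or.inl h⟩
        rintro rfl
        have := hσ v
        rw [← h] at this
        exact h1 (by linear_combination -this)
      · rw [Set.mem_singleton_iff] at h
        refine ⟨?_, Or.inr h⟩
        rintro rfl
        have := hs v
        rw [← h] at this
        exact h1 (by linear_combination this)
  rw [hset, Set.ncard_pair]
  intro h
  have := hσ v
  rw [h, hs] at this
  exact h2 (by linear_combination -this)

section

variable {m r : ℕ}

/-- The generators. -/
noncomputable def gen (k : ZMod r) (i : Fin r) : ZMod m := by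
  classical
  exact if (i : ℕ) = 0 then 1 else if k = ((i : ℕ) : ZMod r) then 1 else 0

theorem tow_gen (c : ZMod r) (v : Fin r → ZMod m) :
    tow (stp r c) r v = v + gen (dir r c (ext0 v)) := by
  funext i
  show v i + stp r c i (trunc i (ext0 v)) = v i + gen (dir r c (ext0 v)) i
  rw [stp_trunc c (ext0 v) i.2]
  rfl

theorem dir_surj (f : ℕ → ZMod m) (k : ZMod r) : ∃ c, dir r c f = k := by
  refine ⟨(sw r f).symm k + rot r (f 0) - 1, ?_⟩
  unfold dir
  have : (sw r f).symm k + rot r (f 0) - 1 - rot r (f 0) + 1 = (sw r f).symm k := by ring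
  rw [this, Equiv.apply_symm_apply]

/-- The product of `r` cycles of the same odd length. -/
theorem ham_rank [NeZero r] (hm : Odd m) (h3 : 3 ≤ m) (hrm : r ≤ m)
    (hcop : r = 1 ∨ (r - 1).Coprime m) :
    HamDec (fun k : ZMod r => (gen k : Fin r → ZMod m)) := by
  have : NeZero m := ⟨by omega⟩
  have htr : ∀ c : ZMod r, Trans (tow (stp r c) r : (Fin r → ZMod m) → Fin r → ZMod m) :=
    fun c => tow_trans _ r (stp_unit hm h3 hrm hcop c) r le_rfl
  let σ : ZMod r → Equiv.Perm (Fin r → ZMod m) := fun c =>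
    Equiv.ofBijective (tow (stp r c) r) (htr c).bij
  have hσ : ∀ c v, σ c v = v + gen (dir r c (ext0 v)) := fun c v => tow_gen c v
  have hports : ∀ c, Ports (σ c : (Fin r → ZMod m) → _) (σ c).symm := fun c =>
    ⟨fun v => Or.inr ((σ c).symm_apply_apply v), fun v => Or.inl ((σ c).apply_symm_apply v)⟩
  have hr : 0 < r := Nat.pos_of_ne_zero (NeZero.ne r)
  refine ⟨fun c => PG (σ c) (σ c).symm, fun c v => ?_, fun c v w => ?_, fun v w => ?_⟩
  · refine graded_two h3 (fun v => v ⟨0, hr⟩) (σ c) (fun v => ?_) v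
    rw [hσ]
    show v ⟨0, hr⟩ + gen _ ⟨0, hr⟩ = _
    unfold gen
    rw [if_pos rfl]
  · obtain ⟨n, hn⟩ := htr c v w
    have key : ∀ n : ℕ, (PG (σ c) (σ c).symm).Reachable v ((tow (stp r c) r)^[n] v) := by
      intro n
      induction n with
      | zero => exact Reachable.refl _
      | succ n ih =>
        rw [Function.iterate_succ_apply']
        exact ih.trans (PG.reach_f (f := σ c) (g := (σ c).symm) _)
    rw [← hn]
    exact key n
  · rw [iSup_adj]
    constructor
    · rintro ⟨c, h⟩
      obtain ⟨h0, h | h⟩ := (hports c).adj.1 h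
      · refine ⟨h0, dir r c (ext0 v), Or.inl ?_⟩
        rw [h, hσ]
      · refine ⟨h0, dir r c (ext0 w), Or.inr ?_⟩
        rw [← hσ, h, Equiv.apply_symm_apply]
    · rintro ⟨h0, k, h | h⟩
      · obtain ⟨c, hc⟩ := dir_surj (ext0 v) k
        refine ⟨c, (hports c).adj.2 ⟨h0, Or.inl ?_⟩⟩
        rw [hσ, hc, h]
      · obtain ⟨c, hc⟩ := dir_surj (ext0 w) k
        refine ⟨c, (hports c).adj.2 ⟨h0, Or.inr ?_⟩⟩
        rw [Equiv.eq_symm_apply, hσ, hc, h]

end

end Pool.Agent.V5helper6.LAR
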