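import Pool.Agent.V5helper6.LAR.Prod3
import Pool.Agent.V5helper6.LAR.Rank

set_option autoImplicit false

/-!
Hamilton decompositions of direct sums.
-/

namespace Pool.Agent.V5helper6.LAR

open SimpleGraph Finset

section disj

variable {κ W : Type} [Fintype κ] [AddCommGroup W] [Finite W]

/-- The elements `± δ k` are all different. -/
def Nd (δ : κ → W) : Prop := (∀ k l, k ≠ l → δ k ≠ δ l) ∧ ∀ k l, δ k ≠ -δ l

theorem ham_disj (δ : κ → W) (hδ : Nd δ) (P : κ → SimpleGraph W)
    (h1 : ∀ k v, ((P k).neighborSet v).ncard = 2)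
    (h2 : ∀ v w, (⨆ k, P k).Adj v w ↔ v ≠ w ∧ ∃ k, w = v + δ k ∨ v = w + δ k)
    (k l : κ) (hkl : k ≠ l) (v w : W) (hk : (P k).Adj v w) : ¬ (P l).Adj v w := by
  classical
  have := Fintype.ofFinite W
  intro hl
  -- the degree
  let F : κ ⊕ κ → W := Sum.elim (fun k => v + δ k) (fun k => v - δ k)
  have hF : Function.Injective F := by
    rintro (a | a) (b | b) h
    · have h : v + δ a = v + δ b := h
      have h' := add_left_cancel h
      by_contra hcon
      exact hδ.1 a b (fun e => hcon (by rw [e])) h'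
    · have h : v + δ a = v - δ b := h
      rw [sub_eq_add_neg] at h
      exact absurd (add_left_cancel h) (hδ.2 a b)
    · have h : v - δ a = v + δ b := h
      rw [sub_eq_add_neg] at h
      exact absurd (add_left_cancel h).symm (hδ.2 b a)
    · have h : v - δ a = v - δ b := h
      have h' := sub_right_injective h
      by_contra hcon
      exact hδ.1 a b (fun e => hcon (by rw [e])) h'
  let N : κ → Finset W := fun j => univ.filter (fun w => (P j).Adj v w)
  have hNc : ∀ j, (N j).card = 2 := by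
    intro j
    rw [← h1 j v, ← Set.ncard_coe_finset]
    congr 1
    ext u
    simp [N]
  have hsub : univ.image F ⊆ univ.biUnion (fun j => if j = k then (N k).erase w else N j) := by
    intro u hu
    obtain ⟨j, -, rfl⟩ := mem_image.1 hu
    have hadj : (⨆ k, P k).Adj v (F j) := by
      rw [h2]
      rcases j with j | j
      · refine ⟨?_, j, Or.inl rfl⟩
        intro h
        have h : v = v + δ j := h
        have h3 : δ j = 0 := left_eq_add.1 h
        exact hδ.2 j j (by rw [h3, neg_zero])
      · refine ⟨?_, j, Or.inr ?_⟩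
        · intro h
          have h : v = v - δ j := h
          have h3 : δ j = 0 := by
            rw [sub_eq_add_neg] at h
            exact neg_eq_zero.1 (left_eq_add.1 h)
          exact hδ.2 j j (by rw [h3, neg_zero])
        · show v = v - δ j + δ j
          abel
    rw [iSup_adj] at hadj
    obtain ⟨j', hj'⟩ := hadj
    rw [mem_biUnion]
    by_cases h3 : F j = w
    · refine ⟨l, mem_univ _, ?_⟩
      rw [if_neg hkl.symm, mem_filter]
      exact ⟨mem_univ _, by rw [h3]; exact hl⟩
    · refine ⟨j', mem_univ _, ?_⟩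
      by_cases h4 : j' = k
      · rw [if_pos h4, mem_erase, mem_filter]
        exact ⟨h3, mem_univ _, by rw [← h4]; exact hj'⟩
      · rw [if_neg h4, mem_filter]
        exact ⟨mem_univ _, hj'⟩
  have hcard := (card_le_card hsub).trans card_biUnion_le
  rw [card_image_of_injective _ hF, card_univ, Fintype.card_sum] at hcard
  have hw : w ∈ N k := mem_filter.2 ⟨mem_univ _, hk⟩
  have h5 : ∀ j, (if j = k then (N k).erase w else N j).card = if j = k then 1 else 2 := by
    intro j
    by_cases h : j = k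
    · rw [if_pos h, if_pos h, card_erase_of_mem hw, hNc]
    · rw [if_neg h, if_neg h, hNc]
  rw [sum_congr rfl (fun j _ => h5 j)] at hcard
  have h6 : ∑ j : κ, (if j = k then 1 else 2) < ∑ _j : κ, 2 := by
    refine sum_lt_sum (fun j _ => ?_) ⟨k, mem_univ _, ?_⟩
    · split_ifs <;> omega
    · rw [if_pos rfl]; omega
  rw [sum_const, card_univ, smul_eq_mul] at h6
  omega

end disj

section local_

variable {W W' : Type} [Finite W] [Finite W'] [Nonempty W] [Nonempty W']

theorem ham_local {ι : Type} [Fintype ι] (P : SimpleGraph W) (Q : ι → SimpleGraph W')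
    (h1 : ∀ v, (P.neighborSet v).ncard = 2) (h2 : ∀ v w, P.Reachable v w)
    (h1' : ∀ i v, ((Q i).neighborSet v).ncard = 2) (h2' : ∀ i v w, (Q i).Reachable v w)
    (hdisj : ∀ i j, i ≠ j → ∀ v w, (Q i).Adj v w → ¬ (Q j).Adj v w)
    (hι : Fintype.card ι = 1 ∨ (Fintype.card ι = 2 ∧ Nat.card W % 2 = 1 ∧ Nat.card W' % 2 = 1 ∧
      5 ≤ Nat.card W ∧ 2 * Nat.card W ≤ Nat.card W' + 1)) :
    ∃ g : Option ι → SimpleGraph (W × W'), (∀ k v, ((g k).neighborSet v).ncard = 2) ∧
      (∀ k v w, (g k).Reachable v w) ∧ (⨆ k, g k) = P □ (⨆ i, Q i) := by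
  classical
  rcases hι with hι | ⟨hι, a1, a2, a3, a4⟩
  · obtain ⟨i, hi⟩ := Fintype.card_eq_one_iff.1 hι
    obtain ⟨R, R', b1, b2, b3, b4, b5⟩ := ham_prod P (Q i) h1 h2 (h1' i) (h2' i)
    refine ⟨fun k => k.elim R (fun _ => R'), ?_, ?_, ?_⟩
    · rintro (_ | k) v
      · exact b1 v
      · exact b2 v
    · rintro (_ | k) v w
      · exact b3 v w
      · exact b4 v w
    · have e1 : (⨆ i, Q i) = Q i := by
        refine le_antisymm (iSup_le fun j => by rw [hi j]) (le_iSup Q i)
      rw [e1, ← b5, iSup_option]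
      show R ⊔ (⨆ _b : ι, R') = _
      have : Nonempty ι := ⟨i⟩
      rw [iSup_const]
  · obtain ⟨i, j, hij, hall⟩ : ∃ i j : ι, i ≠ j ∧ ∀ k, k = i ∨ k = j := by
      rw [← Finset.card_univ, Finset.card_eq_two] at hι
      obtain ⟨i, j, hij, h⟩ := hι
      refine ⟨i, j, hij, fun k => ?_⟩
      have : k ∈ (univ : Finset ι) := mem_univ k
      rw [h] at this
      simpa using this
    obtain ⟨R, R', R'', b1, b2, b3, b4, b5, b6, b7⟩ := ham_prod3 a1 a2 a3 a4 P (Q i) (Q j) h1 h2
      (h1' i) (h2' i) (h1' j) (h2' j) (hdisj i j hij)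
    refine ⟨fun k => k.elim R (fun k => if k = i then R' else R''), ?_, ?_, ?_⟩
    · rintro (_ | k) v
      · exact b1 v
      · show (((if k = i then R' else R'') : SimpleGraph (W × W')).neighborSet v).ncard = 2
        split_ifs
        · exact b2 v
        · exact b3 v
    · rintro (_ | k) v w
      · exact b4 v w
      · show ((if k = i then R' else R'') : SimpleGraph (W × W')).Reachable v w
        split_ifs
        · exact b5 v w
        · exact b6 v w
    · have e1 : (⨆ k, Q k) = Q i ⊔ Q j := by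
        refine le_antisymm (iSup_le fun k => ?_) (sup_le (le_iSup Q i) (le_iSup Q j))
        rcases hall k with rfl | rfl
        · exact le_sup_left
        · exact le_sup_right
      rw [e1, ← b7, iSup_option]
      show R ⊔ (⨆ k : ι, if k = i then R' else R'') = _
      have e2 : (⨆ k : ι, if k = i then R' else R'') = R' ⊔ R'' := by
        refine le_antisymm (iSup_le fun k => ?_) (sup_le ?_ ?_)
        · split_ifs
          · exact le_sup_left
          · exact le_sup_right
        · have := le_iSup (fun k : ι => if k = i then R' else R'') i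
          simpa using this
        · have := le_iSup (fun k : ι => if k = i then R' else R'') j
          simpa [Ne.symm hij] using this
      rw [e2, sup_assoc]

end local_

section sum

variable {κ κ' W W' : Type} [Fintype κ] [Fintype κ'] [AddCommGroup W] [AddCommGroup W']
  [Finite W] [Finite W']

theorem HamDec.sum {δ : κ → W} {δ' : κ' → W'} (h : HamDec δ) (h' : HamDec δ') (hδ' : Nd δ')
    (ψ : κ' → κ) (hψ : ∀ k, 1 ≤ Nat.card {k' // ψ k' = k} ∧ Nat.card {k' // ψ k' = k} ≤ 2)
    (hsize : Fintype.card κ' ≠ Fintype.card κ → Nat.card W % 2 = 1 ∧ Nat.card W' % 2 = 1 ∧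
      5 ≤ Nat.card W ∧ 2 * Nat.card W ≤ Nat.card W' + 1) :
    HamDec (Sum.elim (fun k => ((δ k, 0) : W × W')) (fun k => ((0, δ' k) : W × W'))) := by
  classical
  obtain ⟨P, h1, h2, h3⟩ := h
  obtain ⟨Q, h1', h2', h3'⟩ := h'
  have hsz : ∀ k, Nat.card {k' // ψ k' = k} = 2 → Fintype.card κ' ≠ Fintype.card κ := by
    intro k hk heq
    have e1 : Fintype.card κ' = ∑ k, Fintype.card {k' // ψ k' = k} := by
      rw [← Fintype.card_sigma]
      exact Fintype.card_congr (Equiv.sigmaFiberEquiv ψ).symm
    have e2 : ∑ _k : κ, 1 < ∑ k, Fintype.card {k' // ψ k' = k} := by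
      refine sum_lt_sum (fun j _ => ?_) ⟨k, mem_univ _, ?_⟩
      · rw [← Nat.card_eq_fintype_card]
        exact (hψ j).1
      · rw [← Nat.card_eq_fintype_card, hk]
        omega
    rw [sum_const, card_univ, smul_eq_mul, mul_one, ← e1] at e2
    omega
  have hloc : ∀ k, ∃ g : Option {k' // ψ k' = k} → SimpleGraph (W × W'),
      (∀ j v, ((g j).neighborSet v).ncard = 2) ∧
      (∀ j v w, (g j).Reachable v w) ∧ (⨆ j, g j) = P k □ (⨆ i : {k' // ψ k' = k}, Q i) := by
    intro k
    refine ham_local (P k) (fun i : {k' // ψ k' = k} => Q i) (h1 k) (h2 k)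
      (fun i => h1' i) (fun i => h2' i) ?_ ?_
    · intro i j hij v w
      exact ham_disj δ' hδ' Q h1' h3' i j (fun e => hij (Subtype.ext e)) v w
    · have := hψ k
      rw [← Nat.card_eq_fintype_card]
      rcases Nat.lt_or_ge (Nat.card {k' // ψ k' = k}) 2 with h | h
      · left; omega
      · right
        have h2 : Nat.card {k' // ψ k' = k} = 2 := by omega
        exact ⟨h2, hsize (hsz k h2)⟩
  choose g g1 g2 g3 using hloc
  let R : κ ⊕ κ' → SimpleGraph (W × W') := fun j =>
    match j with
    | Sum.inl k => g k none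
    | Sum.inr k' => g (ψ k') (some ⟨k', rfl⟩)
  refine ⟨R, ?_, ?_, ?_⟩
  · rintro (k | k') v
    · exact g1 k none v
    · exact g1 (ψ k') _ v
  · rintro (k | k') v w
    · exact g2 k none v w
    · exact g2 (ψ k') _ v w
  · intro v w
    have e1 : (⨆ j, R j).Adj v w ↔ ∃ k, (⨆ j, g k j).Adj v w := by
      rw [iSup_adj]
      constructor
      · rintro ⟨k | k', h⟩
        · exact ⟨k, iSup_adj.2 ⟨none, h⟩⟩
        · exact ⟨ψ k', iSup_adj.2 ⟨some ⟨k', rfl⟩, h⟩⟩
      · rintro ⟨k, h⟩
        rw [iSup_adj] at h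
        obtain ⟨_ | ⟨k', hk'⟩, h⟩ := h
        · exact ⟨Sum.inl k, h⟩
        · subst hk'
          exact ⟨Sum.inr k', h⟩
    have hP : ∀ a b, (∃ k, (P k).Adj a b) ↔ a ≠ b ∧ ∃ k, b = a + δ k ∨ a = b + δ k := by
      intro a b
      rw [← h3, iSup_adj]
    have hQ : ∀ a b, (∃ k, (Q k).Adj a b) ↔ a ≠ b ∧ ∃ k, b = a + δ' k ∨ a = b + δ' k := by
      intro a b
      rw [← h3', iSup_adj]
    have e2 : (∃ k, (⨆ j, g k j).Adj v w) ↔
        ((∃ k, (P k).Adj v.1 w.1) ∧ v.2 = w.2) ∨ ((∃ k', (Q k').Adj v.2 w.2) ∧ v.1 = w.1) := by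
      constructor
      · rintro ⟨k, h⟩
        rw [g3, boxProd_adj] at h
        rcases h with ⟨h, h'⟩ | ⟨h, h'⟩
        · exact Or.inl ⟨⟨k, h⟩, h'⟩
        · rw [iSup_adj] at h
          obtain ⟨i, hi⟩ := h
          exact Or.inr ⟨⟨i.1, hi⟩, h'⟩
      · rintro (⟨⟨k, h⟩, h'⟩ | ⟨⟨k', h⟩, h'⟩)
        · exact ⟨k, by rw [g3, boxProd_adj]; exact Or.inl ⟨h, h'⟩⟩
        · refine ⟨ψ k', ?_⟩
          rw [g3, boxProd_adj]
          exact Or.inr ⟨iSup_adj.2 ⟨⟨k', rfl⟩, h⟩, h'⟩
    rw [e1, e2, hP, hQ]
    constructor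
    · rintro (⟨⟨h0, k, h⟩, h'⟩ | ⟨⟨h0, k, h⟩, h'⟩)
      · refine ⟨fun e => h0 (by rw [e]), Sum.inl k, ?_⟩
        rcases h with h | h
        · exact Or.inl (Prod.ext h (by simp [h']))
        · exact Or.inr (Prod.ext h (by simp [h']))
      · refine ⟨fun e => h0 (by rw [e]), Sum.inr k, ?_⟩
        rcases h with h | h
        · exact Or.inl (Prod.ext (by simp [h']) h)
        · exact Or.inr (Prod.ext (by simp [h']) h)
    · rintro ⟨h0, k | k, h⟩
      · left
        rcases h with h | h
        · have a1 : w.1 = v.1 + δ k := by rw [h]; rfl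
          have a2 : w.2 = v.2 := by rw [h]; show v.2 + 0 = _; rw [add_zero]
          exact ⟨⟨fun e => h0 (Prod.ext e a2.symm), k, Or.inl a1⟩, a2.symm⟩
        · have a1 : v.1 = w.1 + δ k := by rw [h]; rfl
          have a2 : v.2 = w.2 := by rw [h]; show w.2 + 0 = _; rw [add_zero]
          exact ⟨⟨fun e => h0 (Prod.ext e a2), k, Or.inr a1⟩, a2⟩
      · right
        rcases h with h | h
        · have a1 : w.2 = v.2 + δ' k := by rw [h]; rfl
          have a2 : w.1 = v.1 := by rw [h]; show v.1 + 0 = _; rw [add_zero]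
          exact ⟨⟨fun e => h0 (Prod.ext a2.symm e), k, Or.inl a1⟩, a2.symm⟩
        · have a1 : v.2 = w.2 + δ' k := by rw [h]; rfl
          have a2 : v.1 = w.1 := by rw [h]; show w.1 + 0 = _; rw [add_zero]
          exact ⟨⟨fun e => h0 (Prod.ext a2 e), k, Or.inr a1⟩, a2⟩

/-- A map with fibres of one or two elements. -/
theorem exists_fibres (h1 : Fintype.card κ ≤ Fintype.card κ')
    (h2 : Fintype.card κ' ≤ 2 * Fintype.card κ) :
    ∃ ψ : κ' → κ, ∀ k, 1 ≤ Nat.card {k' // ψ k' = k} ∧ Nat.card {k' // ψ k' = k} ≤ 2 := by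
  classical
  set a := Fintype.card κ with ha
  set b := Fintype.card κ' with hb
  let e : κ ≃ Fin a := Fintype.equivFin κ
  let e' : κ' ≃ Fin b := Fintype.equivFin κ'
  let ψ : κ' → κ := fun k' => e.symm (if h : (e' k').val < a then ⟨(e' k').val, h⟩
    else ⟨(e' k').val - a, by have := (e' k').2; omega⟩)
  refine ⟨ψ, fun k => ?_⟩
  have hval : ∀ k', ψ k' = k ↔ ((e' k').val = (e k).val ∨ (e' k').val = (e k).val + a) := by
    intro k'
    have hk := (e k).2
    show e.symm _ = k ↔ _
    rw [Equiv.symm_apply_eq]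
    by_cases h : (e' k').val < a
    · rw [dif_pos h]
      constructor
      · intro h'
        left
        rw [← h']
      · rintro (h' | h')
        · exact Fin.ext h'
        · omega
    · rw [dif_neg h]
      constructor
      · intro h'
        right
        rw [← h']
        show _ = (e' k').val - a + a
        omega
      · rintro (h' | h')
        · omega
        · refine Fin.ext ?_
          show (e' k').val - a = _
          omega
  constructor
  · have : Nonempty {k' // ψ k' = k} := by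
      refine ⟨⟨e'.symm ⟨(e k).val, by have := (e k).2; omega⟩, ?_⟩⟩
      rw [hval]
      left
      rw [Equiv.apply_symm_apply]
    exact Nat.card_pos
  · let F : {k' // ψ k' = k} → Bool := fun x => decide ((e' x.1).val = (e k).val)
    have hF : Function.Injective F := by
      intro x y hxy
      have hk := (e k).2
      have hx := (hval x.1).1 x.2
      have hy := (hval y.1).1 y.2
      have h3 : (e' x.1).val = (e k).val ↔ (e' y.1).val = (e k).val := by
        have := hxy
        simp only [F, decide_eq_decide] at this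
        exact this
      have h4 : (e' x.1).val = (e' y.1).val := by omega
      exact Subtype.ext (e'.injective (Fin.ext h4))
    have := Nat.card_le_card_of_injective F hF
    rwa [Nat.card_eq_fintype_card (α := Bool), Fintype.card_bool] at this

theorem HamDec.sum' {δ : κ → W} {δ' : κ' → W'} (h : HamDec δ) (h' : HamDec δ') (hδ' : Nd δ')
    (h1 : Fintype.card κ ≤ Fintype.card κ') (h2 : Fintype.card κ' ≤ 2 * Fintype.card κ)
    (hsize : Fintype.card κ' ≠ Fintype.card κ → Nat.card W % 2 = 1 ∧ Nat.card W' % 2 = 1 ∧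
      5 ≤ Nat.card W ∧ 2 * Nat.card W ≤ Nat.card W' + 1) :
    HamDec (Sum.elim (fun k => ((δ k, 0) : W × W')) (fun k => ((0, δ' k) : W × W'))) := by
  obtain ⟨ψ, hψ⟩ := exists_fibres h1 h2
  exact h.sum h' hδ' ψ hψ hsize

end sum

end Pool.Agent.V5helper6.LAR
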