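import Pool.Agent.V5helper6.LAR.Triple
import Pool.Agent.V5helper6.LAR.TorusLw

set_option autoImplicit false

/-!
Auxiliary facts for commuting connection sets.
-/

namespace Pool.Agent.V5helper6.LAR

open Finset SimpleGraph H931R3.LA Pool.Agent.W111.LAR Pool.Agent.TH486.LAC Pool.Agent.Y59.LA
open Pool.Agent.Y647.LAC (LW)

variable {Γ : Type} [Group Γ]

theorem cayG_congr {A B : Finset Γ} (h1 : ∀ s ∈ A, s ∈ B ∨ s⁻¹ ∈ B)
    (h2 : ∀ s ∈ B, s ∈ A ∨ s⁻¹ ∈ A) : cayG A = cayG B := by
  have key : ∀ {A B : Finset Γ}, (∀ s ∈ A, s ∈ B ∨ s⁻¹ ∈ B) → cayG A ≤ cayG B := by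
    intro A B h v w
    rintro ⟨h0, s, hs, h3⟩
    rcases h s hs with h4 | h4
    · exact ⟨h0, s, h4, h3⟩
    · refine ⟨h0, s⁻¹, h4, ?_⟩
      rcases h3 with h3 | h3
      · right; rw [h3]; group
      · left; rw [h3]; group
  exact le_antisymm (key h1) (key h2)

/-- A set without inverses in a subgroup. -/
theorem half_bound [Finite Γ] (C : Subgroup Γ) (A : Finset Γ) (h1 : ∀ x ∈ A, x ∈ C)
    (h2 : ∀ x ∈ A, x⁻¹ ∉ A) (h3 : (1 : Γ) ∉ A) : 2 * A.card + 1 ≤ Nat.card C := by
  classical
  have hsub : ((insert 1 (A ∪ A.image (fun x => x⁻¹)) : Finset Γ) : Set Γ) ⊆ (C : Set Γ) := by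
    intro x hx
    rw [mem_coe, mem_insert, mem_union] at hx
    rcases hx with rfl | h | h
    · exact one_mem _
    · exact h1 x h
    · obtain ⟨y, hy, rfl⟩ := mem_image.1 h
      exact inv_mem (h1 y hy)
  have e1 := Set.ncard_le_ncard hsub (Set.toFinite _)
  rw [Set.ncard_coe_finset] at e1
  have e2 : (C : Set Γ).ncard = Nat.card C := rfl
  have hdis : Disjoint A (A.image (fun x => x⁻¹)) := by
    rw [Finset.disjoint_left]
    intro x hx hx'
    obtain ⟨y, hy, rfl⟩ := mem_image.1 hx'
    exact h2 y hy hx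
  rw [card_insert_of_notMem, card_union_of_disjoint hdis,
    card_image_of_injective _ inv_injective, e2] at e1
  · omega
  · rw [mem_union]
    rintro (h | h)
    · exact h3 h
    · obtain ⟨y, hy, hy'⟩ := mem_image.1 h
      rw [inv_eq_one] at hy'
      exact h3 (hy' ▸ hy)

/-- A nontrivial element of a group of prime order generates it. -/
theorem zp_eq [Finite Γ] {g h : Γ} (hg : g ≠ 1) (hh : (orderOf h).Prime)
    (hm : g ∈ Subgroup.zpowers h) : h ∈ Subgroup.zpowers g := by
  have h1 : Subgroup.zpowers g ≤ Subgroup.zpowers h := Subgroup.zpowers_le.2 hm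
  have h2 : Subgroup.zpowers g = Subgroup.zpowers h := by
    have e1 : orderOf g ∣ orderOf h := by
      rw [← Nat.card_zpowers, ← Nat.card_zpowers]
      exact Subgroup.card_dvd_of_le h1
    have e2 : orderOf g = orderOf h := by
      rcases (Nat.dvd_prime hh).1 e1 with e | e
      · exact absurd (orderOf_eq_one_iff.1 e) hg
      · exact e
    apply Subgroup.eq_of_le_of_card_ge h1
    rw [Nat.card_zpowers, Nat.card_zpowers, e2]
  rw [h2]
  exact Subgroup.mem_zpowers h

/-- Two independent elements of the same prime order. -/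
theorem sq_le_gn [Finite Γ] {q : ℕ} (hq : q.Prime) {a c : Γ} (hac : Commute a c) (ha : a ^ q = 1)
    (hc : c ^ q = 1) (ha1 : a ≠ 1) (hca : c ∉ Subgroup.zpowers a) : q ^ 2 ≤ gn a c := by
  have : Fact q.Prime := ⟨hq⟩
  have hadd := phi_add hac ha hc
  have hker := phi_ker ha hc ha1 hca
  have h0 : phi a c (0 : ZMod q × ZMod q) = 1 := by
    have := hadd 0 0
    rw [add_zero] at this
    exact (mul_eq_left.1 this.symm)
  have hneg : ∀ u : ZMod q × ZMod q, phi a c (-u) = (phi a c u)⁻¹ := by
    intro u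
    rw [eq_inv_iff_mul_eq_one, ← hadd, neg_add_cancel, h0]
  have hinj : Function.Injective (phi a c : ZMod q × ZMod q → Γ) := by
    intro u v h
    have h1 : phi a c (u - v) = 1 := by
      rw [sub_eq_add_neg, hadd, hneg, h, mul_inv_cancel]
    exact sub_eq_zero.1 (hker _ h1)
  have hsub : (phi a c : ZMod q × ZMod q → Γ) '' Set.univ ⊆
      ((Subgroup.closure {a, c} : Subgroup Γ) : Set Γ) := by
    rintro _ ⟨u, -, rfl⟩
    exact mul_mem (pow_mem (Subgroup.subset_closure (by simp)) _)
      (pow_mem (Subgroup.subset_closure (by simp)) _)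
  have h1 := Set.ncard_le_ncard hsub (Set.toFinite _)
  rw [Set.ncard_image_of_injective _ hinj, Set.ncard_univ, Nat.card_prod, Nat.card_zmod,
    ← pow_two] at h1
  exact h1

/-- The subgroup generated by two commuting elements of order `q` is small. -/
theorem gn_le_sq [Finite Γ] {q : ℕ} (hq : 0 < q) {a c : Γ} (hac : Commute a c) (ha : a ^ q = 1)
    (hc : c ^ q = 1) : gn a c ≤ q ^ 2 := by
  classical
  have hsub : ((Subgroup.closure {a, c} : Subgroup Γ) : Set Γ) ⊆
      (((range q ×ˢ range q).image (fun u : ℕ × ℕ => c ^ u.1 * a ^ u.2) : Finset Γ) : Set Γ) := by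
    intro x hx
    obtain ⟨i, j, rfl⟩ := mem_closure_comm hac hx
    rw [mem_coe, mem_image]
    refine ⟨(i % q, j % q), mem_product.2 ⟨mem_range.2 (Nat.mod_lt _ hq),
      mem_range.2 (Nat.mod_lt _ hq)⟩, ?_⟩
    show c ^ (i % q) * a ^ (j % q) = c ^ i * a ^ j
    conv_rhs => rw [← Nat.mod_add_div i q, ← Nat.mod_add_div j q, pow_add, pow_add, pow_mul,
      pow_mul, ha, hc, one_pow, one_pow, mul_one, mul_one]
  have h1 := Set.ncard_le_ncard hsub (Set.toFinite _)
  rw [Set.ncard_coe_finset] at h1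
  have h2 : ((range q ×ˢ range q).image (fun u : ℕ × ℕ => c ^ u.1 * a ^ u.2)).card ≤ q ^ 2 := by
    refine card_image_le.trans ?_
    rw [card_product, card_range, pow_two]
  exact h1.trans h2

theorem pow_mem_closure {q : ℕ} [Finite Γ] {a c : Γ} (hac : Commute a c) (ha : a ^ q = 1)
    (hc : c ^ q = 1) {x : Γ} (hx : x ∈ (Subgroup.closure {a, c} : Subgroup Γ)) : x ^ q = 1 := by
  obtain ⟨i, j, rfl⟩ := mem_closure_comm hac hx
  have h1 : Commute (c ^ i) (a ^ j) := (hac.pow_pow j i).symm
  rw [h1.mul_pow, ← pow_mul, ← pow_mul, mul_comm i, mul_comm j, pow_mul, pow_mul, ha, hc,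
    one_pow, one_pow, mul_one]

/-- The order of a third element of prime order. -/
theorem prime_eq [Finite Γ] {a b w : Γ} (hab : Commute a b) (ha : (orderOf a).Prime)
    (hw : (orderOf w).Prime) (hwE : w ∈ (Subgroup.closure {a, b} : Subgroup Γ))
    (hwb : w ∉ Subgroup.zpowers b) : orderOf a = orderOf w := by
  by_contra hne
  obtain ⟨i, j, hij⟩ := mem_closure_comm hab hwE
  apply hwb
  have h1 : w ^ orderOf a = b ^ (i * orderOf a) := by
    have h2 : Commute (b ^ i) (a ^ j) := (hab.pow_pow j i).symm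
    rw [hij, h2.mul_pow, ← pow_mul, ← pow_mul, mul_comm j, pow_mul a, pow_orderOf_eq_one, one_pow,
      mul_one]
  have h2 : w ∈ Subgroup.zpowers (w ^ orderOf a) := by
    rw [mem_zpowers_pow_iff]
    exact (Nat.coprime_primes ha hw).2 hne
  rw [h1] at h2
  exact (Subgroup.zpowers_le.2 (pow_mem (Subgroup.mem_zpowers b) _)) h2

/-- An involution with at most one fixed point and parity. -/
theorem invol_parity {κ : Type} [Fintype κ] [DecidableEq κ] (π : Equiv.Perm κ)
    (h : ∀ k, π (π k) = k) : Fintype.card κ % 2 = (univ.filter (fun k => π k = k)).card % 2 := by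
  have h1 : Fintype.card κ = (univ.filter (fun k => π k = k)).card +
      (univ.filter (fun k => ¬ π k = k)).card := by
    rw [← card_univ]
    exact (card_filter_add_card_filter_not _).symm
  have h2 : Even (univ.filter (fun k => ¬ π k = k)).card := by
    refine card_involution_even (fun k => π k) ?_ ?_ ?_
    · intro k hk
      exact (mem_filter.1 hk).2
    · intro k hk
      refine mem_filter.2 ⟨mem_univ _, fun h' => (mem_filter.1 hk).2 ?_⟩
      exact π.injective h'
    · intro k _
      exact h k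
  obtain ⟨m, hm⟩ := h2
  omega
where
  card_involution_even {κ : Type} [DecidableEq κ] {s : Finset κ} (f : κ → κ)
      (h1 : ∀ k ∈ s, f k ≠ k) (h2 : ∀ k ∈ s, f k ∈ s) (h3 : ∀ k ∈ s, f (f k) = k) :
      Even s.card := by
    have h4 : ((s.card : ℕ) : ZMod 2) = 0 := by
      rw [card_eq_sum_ones, Nat.cast_sum]
      exact sum_involution (fun k _ => f k) (fun k _ => by decide) (fun k hk _ => h1 k hk)
        (fun k hk => h2 k hk) (fun k hk => h3 k hk)
    rw [ZMod.natCast_eq_zero_iff] at h4
    exact even_iff_two_dvd.2 h4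

end Pool.Agent.V5helper6.LAR
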