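import Mathlib

set_option autoImplicit false

/-!
A finite connected graph all of whose degrees are two is a cycle.
-/

namespace Pool.Agent.V5helper6.LAR

open SimpleGraph

theorem label {W : Type} [Finite W] [Nonempty W] (P : SimpleGraph W)
    (hdeg : ∀ v, (P.neighborSet v).ncard = 2) (hconn : ∀ v w, P.Reachable v w) :
    ∃ (n : ℕ) (_ : NeZero n) (e : W ≃ ZMod n), 3 ≤ n ∧
      ∀ v w, P.Adj v w ↔ (e w = e v + 1 ∨ e v = e w + 1) := by
  classical
  obtain ⟨v0⟩ := ‹Nonempty W›
  have hcyc : P.IsCycles := fun v _ => hdeg v
  have hne : (P.neighborSet v0).Nonempty := by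
    rw [Set.nonempty_iff_ne_empty]
    intro h
    have := hdeg v0
    rw [h, Set.ncard_empty] at this
    omega
  obtain ⟨p, hp, hverts⟩ := hcyc.exists_cycle_toSubgraph_verts_eq_connectedComponentSupp
    (c := P.connectedComponentMk v0) (v := v0) (by simp) hne
  have hn3 : 3 ≤ p.length := hp.three_le_length
  have hall : ∀ w, ∃ i, i < p.length ∧ p.getVert i = w := by
    intro w
    have h1 : w ∈ p.toSubgraph.verts := by
      rw [hverts, ConnectedComponent.mem_supp_iff, ConnectedComponent.eq]
      exact hconn w v0
    rw [Walk.mem_verts_toSubgraph, Walk.mem_support_iff_exists_getVert] at h1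
    obtain ⟨i, hi, hil⟩ := h1
    rcases Nat.lt_or_ge i p.length with h2 | h2
    · exact ⟨i, h2, hi⟩
    · refine ⟨0, by omega, ?_⟩
      have h3 : i = p.length := le_antisymm hil h2
      rw [h3, Walk.getVert_length] at hi
      rw [Walk.getVert_zero, hi]
  have : NeZero p.length := ⟨by omega⟩
  let g : ZMod p.length → W := fun i => p.getVert i.val
  have hg : Function.Bijective g := by
    constructor
    · intro i j hij
      have h1 := ZMod.val_lt i
      have h2 := ZMod.val_lt j
      have h3 := hp.getVert_injOn' (by simp only [Set.mem_ofPred_eq]; omega)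
        (by simp only [Set.mem_ofPred_eq]; omega) hij
      exact ZMod.val_injective _ h3
    · intro w
      obtain ⟨i, hi, hw⟩ := hall w
      refine ⟨(i : ZMod p.length), ?_⟩
      show p.getVert (i : ZMod p.length).val = w
      rw [ZMod.val_natCast_of_lt hi]
      exact hw
  let e : W ≃ ZMod p.length := (Equiv.ofBijective g hg).symm
  have hge : ∀ v, g (e v) = v := fun v => (Equiv.ofBijective g hg).apply_symm_apply v
  have heg : ∀ i, e (g i) = i := fun i => (Equiv.ofBijective g hg).symm_apply_apply i
  have hval : ∀ i : ZMod p.length, (i.val + 1 < p.length ∧ (i + 1).val = i.val + 1) ∨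
      (i.val + 1 = p.length ∧ i + 1 = 0) := by
    intro i
    have h1 := ZMod.val_lt i
    have h2 : ((i.val + 1 : ℕ) : ZMod p.length) = i + 1 := by
      push_cast
      rw [ZMod.natCast_zmod_val]
    rcases Nat.lt_or_ge (i.val + 1) p.length with h | h
    · left
      refine ⟨h, ?_⟩
      rw [← h2, ZMod.val_natCast_of_lt h]
    · right
      have h3 : i.val + 1 = p.length := by omega
      refine ⟨h3, ?_⟩
      rw [← h2, h3, ZMod.natCast_self]
  have hadj : ∀ i : ZMod p.length, P.Adj (g i) (g (i + 1)) := by
    intro i
    have h1 := ZMod.val_lt i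
    have h2 := p.adj_getVert_succ h1
    rcases hval i with ⟨h3, h4⟩ | ⟨h3, h4⟩
    · show P.Adj (p.getVert i.val) (p.getVert (i + 1).val)
      rw [h4]; exact h2
    · show P.Adj (p.getVert i.val) (p.getVert (i + 1).val)
      rw [h4, ZMod.val_zero, Walk.getVert_zero]
      rw [h3, Walk.getVert_length] at h2
      exact h2
  have h2ne : (2 : ZMod p.length) ≠ 0 := by
    intro h
    have h1 : ((2 : ℕ) : ZMod p.length) = 0 := by exact_mod_cast h
    rw [ZMod.natCast_eq_zero_iff] at h1
    have := Nat.le_of_dvd (by norm_num) h1
    omega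
  have hnb : ∀ i : ZMod p.length, P.neighborSet (g i) = {g (i + 1), g (i - 1)} := by
    intro i
    have h1 : ({g (i + 1), g (i - 1)} : Set W) ⊆ P.neighborSet (g i) := by
      intro w hw
      rcases hw with rfl | hw
      · exact hadj i
      · rw [Set.mem_singleton_iff] at hw
        subst hw
        have := hadj (i - 1)
        rw [sub_add_cancel] at this
        exact this.symm
    refine (Set.eq_of_subset_of_ncard_le h1 ?_ (Set.toFinite _)).symm
    rw [hdeg, Set.ncard_pair]
    intro h
    have h2 := hg.1 h
    apply h2ne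
    linear_combination h2
  refine ⟨p.length, inferInstance, e, hn3, ?_⟩
  intro v w
  have h1 : P.Adj v w ↔ w ∈ P.neighborSet (g (e v)) := by
    rw [hge]; rfl
  rw [h1, hnb]
  constructor
  · rintro (h | h)
    · left
      rw [h, heg]
    · right
      rw [Set.mem_singleton_iff] at h
      rw [h, heg, sub_add_cancel]
  · rintro (h | h)
    · left
      rw [← h, hge]
    · right
      rw [Set.mem_singleton_iff, h, add_sub_cancel_right, hge]

end Pool.Agent.V5helper6.LAR
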