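import Pool.Agent.V5helper6.LAR.Cover

set_option autoImplicit false

/-!
From periods of the monodromies to linear forests.
-/

namespace Pool.Agent.V5helper6.LAR

open Finset SimpleGraph H931R3.LA Pool.Agent.W111.LAR

/-- A decomposition into pairwise edge-disjoint graphs of maximum degree two. -/
theorem decomp' {V : Type} [Finite V] (G : SimpleGraph V) (k : ℕ)
    (hdeg : ∀ v, (G.neighborSet v).ncard ≤ 2 * k) :
    ∃ H : Fin k → SimpleGraph V, (∀ i v, ((H i).neighborSet v).ncard ≤ 2) ∧ (⨆ i, H i) = G ∧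
      ∀ i j, i ≠ j → ∀ u v, (H i).Adj u v → ¬ (H j).Adj u v := by
  classical
  obtain ⟨H, h1, h2⟩ := decomp G k hdeg
  let H' : Fin k → SimpleGraph V := fun i =>
    { Adj := fun u v => (H i).Adj u v ∧ ∀ j < i, ¬ (H j).Adj u v
      symm := ⟨fun u v h => ⟨h.1.symm, fun j hj h' => h.2 j hj h'.symm⟩⟩
      loopless := ⟨fun u h => (H i).irrefl h.1⟩ }
  refine ⟨H', ?_, ?_, ?_⟩
  · intro i v
    exact (Set.ncard_le_ncard (fun u hu => hu.1) (Set.toFinite _)).trans (h1 i v)
  · rw [← h2]
    ext u v
    simp only [iSup_adj]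
    constructor
    · rintro ⟨i, hi⟩
      exact ⟨i, hi.1⟩
    · intro hex
      have hne : (univ.filter (fun i => (H i).Adj u v)).Nonempty := by
        obtain ⟨i, hi⟩ := hex
        exact ⟨i, mem_filter.2 ⟨mem_univ _, hi⟩⟩
      refine ⟨(univ.filter (fun i => (H i).Adj u v)).min' hne, ?_, ?_⟩
      · exact (mem_filter.1 (min'_mem _ hne)).2
      · intro j hj hadj
        exact absurd (min'_le _ j (mem_filter.2 ⟨mem_univ _, hadj⟩)) (not_le.2 hj)
  · rintro i j hij u v ⟨h3, h4⟩ ⟨h5, h6⟩
    rcases lt_or_gt_of_ne hij with h | h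
    · exact h6 i h h3
    · exact h4 j h h5

section

variable {V Γ X : Type} [LinearOrder V] [Group Γ] [MulAction Γ X] [Finite V] [Finite X]

/-- The period of `x` under the monodromy of the closed walk `c`. -/
noncomputable def per (X : Type) [MulAction Γ X] {P : SimpleGraph V} (σ : Sym2 V → Γ) {v : V}
    (c : P.Walk v v) (x : X) : ℕ :=
  Function.minimalPeriod (fun y : X => wv σ c • y) x

theorem per_pos {P : SimpleGraph V} (σ : Sym2 V → Γ) {v : V} (c : P.Walk v v) (x : X) :
    0 < per X σ c x := by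
  unfold per
  apply Function.minimalPeriod_pos_of_mem_periodicPts
  exact Function.Injective.mem_periodicPts (MulAction.injective _) x

theorem load_le {P : SimpleGraph V} (hdeg : ∀ v, (P.neighborSet v).ncard ≤ 2)
    (σ : Sym2 V → Γ) {v : V} (hv : Cyc P v) (c : P.Walk v v) (x : X) :
    (2 : ℝ) / csize (cover X P σ) (v, x) ≤ 2 / (3 * per X σ c x) := by
  have h1 := csize_cover σ c x
  have h2 := (exists_cut hdeg hv).1
  have h3 := per_pos σ c x
  have h4 : 3 * per X σ c x ≤ csize (cover X P σ) (v, x) :=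
    (Nat.mul_le_mul_right _ h2).trans h1
  have h5 : (3 * per X σ c x : ℝ) ≤ csize (cover X P σ) (v, x) := by exact_mod_cast h4
  have h6 : (0 : ℝ) < 3 * per X σ c x := by positivity
  exact div_le_div_of_nonneg_left (by norm_num) h6 h5

theorem cov_of_large {k : ℕ} (H : Fin k → SimpleGraph V)
    (hdeg : ∀ i v, ((H i).neighborSet v).ncard ≤ 2) (σ : Sym2 V → Γ)
    (hgood : ∀ i v, Cyc (H i) v → ∀ x : X, ∃ (w : V) (y : X) (c : (H i).Walk w w),
      (cover X (H i) σ).Reachable (v, x) (w, y) ∧ 2 * k ≤ 3 * per X σ c y) :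
    Cov (cover X (⨆ i, H i) σ) (k + 1) := by
  classical
  rcases Nat.eq_zero_or_pos k with h0 | h0
  · subst h0
    rw [cover_sup]
    have h1 := cov_of_load (fun i => cover X (H i) σ) (fun i => i.elim0) (by simp)
    rwa [Fintype.card_fin] at h1
  rw [cover_sup]
  have h1 := cov_of_load (fun i => cover X (H i) σ)
    (fun i v => by rw [cover_deg]; exact hdeg i v.1) (by
    rintro ⟨v, x⟩
    have h2 : ∀ i ∈ (univ : Finset (Fin k)), (if Cyc (cover X (H i) σ) (v, x) then
        (2 : ℝ) / csize (cover X (H i) σ) (v, x) else 0) ≤ 1 / k := by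
      intro i _
      split_ifs with hc
      · obtain ⟨w, y, c, hr, hp⟩ := hgood i v (cyc_of_cover σ hc) x
        have hw : Cyc (H i) w := cyc_of_cover σ (hc.trans hr)
        rw [csize_eq hr]
        refine (load_le (hdeg i) σ hw c y).trans ?_
        have h3 := per_pos σ c y
        have h4 : (2 * k : ℝ) ≤ 3 * per X σ c y := by exact_mod_cast hp
        have h5 : (0 : ℝ) < k := by exact_mod_cast h0
        have h6 : (0 : ℝ) < per X σ c y := by exact_mod_cast h3
        rw [div_le_div_iff₀ (by positivity) h5]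
        linarith
      · positivity
    refine (sum_le_sum h2).trans ?_
    rw [sum_const, card_univ, Fintype.card_fin, nsmul_eq_mul]
    have h5 : (0 : ℝ) < k := by exact_mod_cast h0
    rw [mul_one_div_cancel h5.ne'])
  rwa [Fintype.card_fin] at h1

theorem cov_of_pairs {k : ℕ} (H : Fin k → SimpleGraph V)
    (hdeg : ∀ i v, ((H i).neighborSet v).ncard ≤ 2) (σ : Sym2 V → Γ)
    (c : ∀ i v, Cyc (H i) v → (H i).Walk v v)
    (hgood : ∀ i j v (hi : Cyc (H i) v) (hj : Cyc (H j) v) (x : X), i ≠ j →
      2 * k ≤ per X σ (c i v hi) x ∨ 2 * k ≤ per X σ (c j v hj) x) :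
    Cov (cover X (⨆ i, H i) σ) (k + 1) := by
  classical
  rcases Nat.eq_zero_or_pos k with h0 | h0
  · subst h0
    rw [cover_sup]
    have h1 := cov_of_load (fun i => cover X (H i) σ) (fun i => i.elim0) (by simp)
    rwa [Fintype.card_fin] at h1
  rw [cover_sup]
  have h1 := cov_of_load (fun i => cover X (H i) σ)
    (fun i v => by rw [cover_deg]; exact hdeg i v.1) (by
    rintro ⟨v, x⟩
    let S : Finset (Fin k) := univ.filter (fun i => ∃ hi : Cyc (H i) v,
      per X σ (c i v hi) x < 2 * k)
    have hS : S.card ≤ 1 := by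
      rw [card_le_one]
      intro i hi j hj
      by_contra hne
      obtain ⟨h1, h2⟩ := (mem_filter.1 hi).2
      obtain ⟨h3, h4⟩ := (mem_filter.1 hj).2
      rcases hgood i j v h1 h3 x hne with h | h <;> omega
    have h5 : (0 : ℝ) < k := by exact_mod_cast h0
    have h2 : ∀ i ∈ (univ : Finset (Fin k)), (if Cyc (cover X (H i) σ) (v, x) then
        (2 : ℝ) / csize (cover X (H i) σ) (v, x) else 0) ≤
          1 / (3 * k) + (if i ∈ S then 2 / 3 else 0) := by
      intro i _
      split_ifs with hc hiS hiS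
      · have hw : Cyc (H i) v := cyc_of_cover σ hc
        refine (load_le (hdeg i) σ hw (c i v hw) x).trans ?_
        have h3 : (1 : ℝ) ≤ per X σ (c i v hw) x := by exact_mod_cast per_pos σ (c i v hw) x
        have h4 : (2 : ℝ) / (3 * per X σ (c i v hw) x) ≤ 2 / 3 := by
          apply div_le_div_of_nonneg_left (by norm_num) (by norm_num)
          linarith
        have h6 : (0 : ℝ) ≤ 1 / (3 * k) := by positivity
        linarith
      · have hw : Cyc (H i) v := cyc_of_cover σ hc
        refine (load_le (hdeg i) σ hw (c i v hw) x).trans ?_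
        have h3 : 2 * k ≤ per X σ (c i v hw) x := by
          by_contra hcon
          exact hiS (mem_filter.2 ⟨mem_univ _, hw, not_le.1 hcon⟩)
        have h4 : (2 * k : ℝ) ≤ per X σ (c i v hw) x := by exact_mod_cast h3
        rw [add_zero, div_le_div_iff₀ (by linarith) (by positivity)]
        linarith
      · positivity
      · positivity
    refine (sum_le_sum h2).trans ?_
    rw [sum_add_distrib, sum_const, card_univ, Fintype.card_fin, nsmul_eq_mul, ← sum_filter,
      sum_const, nsmul_eq_mul]
    have h3 : (univ.filter (fun i => i ∈ S)).card ≤ 1 := by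
      rw [filter_mem_eq_inter, univ_inter]; exact hS
    have h4 : ((univ.filter (fun i => i ∈ S)).card : ℝ) ≤ 1 := by exact_mod_cast h3
    have h6 : (k : ℝ) * (1 / (3 * k)) = 1 / 3 := by
      field_simp
    rw [h6]
    linarith)
  rwa [Fintype.card_fin] at h1

end

end Pool.Agent.V5helper6.LAR
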