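import Pool.Agent.Y59.LA.Comm2
import Pool.Agent.Y647.LAC.Even

set_option autoImplicit false

/-!
Loads of the Cayley graphs of finite sets, by pieces.
-/

namespace Pool.Agent.V5helper6.LAR

open Finset SimpleGraph H931R3.LA Pool.Agent.W111.LAR Pool.Agent.TH486.LAC Pool.Agent.Y59.LA
open Pool.Agent.Y647.LAC (LW)

variable {Γ : Type} [Group Γ]

/-- The Cayley graph of a set of elements and their inverses. -/
def cayG (A : Finset Γ) : SimpleGraph Γ where
  Adj v w := v ≠ w ∧ ∃ s ∈ A, w = v * s ∨ v = w * s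
  symm := ⟨fun _ _ h => ⟨h.1.symm, h.2.imp fun _ h' => ⟨h'.1, h'.2.symm⟩⟩⟩
  loopless := ⟨fun _ h => h.1 rfl⟩

theorem cayG_union [DecidableEq Γ] (A B : Finset Γ) : cayG (A ∪ B) = cayG A ⊔ cayG B := by
  ext v w
  rw [sup_adj]
  constructor
  · rintro ⟨h0, s, hs, h⟩
    rcases mem_union.1 hs with hs | hs
    · exact Or.inl ⟨h0, s, hs, h⟩
    · exact Or.inr ⟨h0, s, hs, h⟩
  · rintro (⟨h0, s, hs, h⟩ | ⟨h0, s, hs, h⟩)
    · exact ⟨h0, s, mem_union_left _ hs, h⟩
    · exact ⟨h0, s, mem_union_right _ hs, h⟩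

theorem LW.mono' {V : Type} {G : SimpleGraph V} {N : ℕ} {c c' : ℝ} (h : LW G N c) (hc : c ≤ c') :
    LW G N c' := by
  obtain ⟨κ, _, P, h1, h2, h3, h4⟩ := h
  exact ⟨κ, inferInstance, P, h1, h2, fun v => (h3 v).trans hc, h4⟩

theorem lw_union [DecidableEq Γ] {A B : Finset Γ} {c c' : ℝ} (hAB : Disjoint A B)
    (hA : LW (cayG A) A.card c) (hB : LW (cayG B) B.card c') :
    LW (cayG (A ∪ B)) (A ∪ B).card (c + c') := by
  rw [cayG_union, card_union_of_disjoint hAB]
  exact hA.sup hB

theorem lw_empty : LW (cayG (∅ : Finset Γ)) (∅ : Finset Γ).card 0 := by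
  have h : cayG (∅ : Finset Γ) = ⊥ := by
    ext v w
    constructor
    · rintro ⟨_, s, hs, _⟩
      exact absurd hs (notMem_empty s)
    · intro h
      exact absurd h (by simp)
  rw [h, card_empty]
  exact Pool.Agent.Y647.LAC.LW.bot

theorem lw_single [Finite Γ] (s : Γ) : LW (cayG {s}) ({s} : Finset Γ).card (2 / orderOf s) := by
  have h : cayG {s} = pgr s s := by
    ext v w
    constructor
    · rintro ⟨h0, t, ht, h⟩
      rw [mem_singleton] at ht
      subst ht
      exact ⟨h0, by tauto⟩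
    · rintro ⟨h0, h⟩
      exact ⟨h0, s, mem_singleton_self s, by tauto⟩
  rw [h, card_singleton]
  refine Pool.Agent.Y647.LAC.LW.one (pgr_self_deg s) fun v => ?_
  have h1 := pgr_size (s := s) (t := s) v
  have h2 : orderOf s ≤ csize (pgr s s) v := by
    rw [← gn_self]
    exact h1
  have h3 : (0 : ℝ) < orderOf s := by exact_mod_cast orderOf_pos s
  exact div_le_div_of_nonneg_left (by norm_num) h3 (by exact_mod_cast h2)

theorem lw_pair [Finite Γ] [DecidableEq Γ] {s t : Γ} (hst : s ≠ t) {n : ℕ} (hn : 0 < n)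
    (h : PD s t n) :
    LW (cayG {s, t}) ({s, t} : Finset Γ).card (4 / n) := by
  obtain ⟨P, Q, h1, h2, h3, h4, h5⟩ := h
  have hG : cayG {s, t} = P ⊔ Q := by
    rw [h5]
    ext v w
    constructor
    · rintro ⟨h0, x, hx, h⟩
      rw [mem_insert, mem_singleton] at hx
      rcases hx with rfl | rfl
      · exact ⟨h0, by tauto⟩
      · exact ⟨h0, by tauto⟩
    · rintro ⟨h0, h | h | h | h⟩
      · exact ⟨h0, s, by simp, Or.inl h⟩
      · exact ⟨h0, t, by simp, Or.inl h⟩
      · exact ⟨h0, s, by simp, Or.inr h⟩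
      · exact ⟨h0, t, by simp, Or.inr h⟩
  have hn' : (0 : ℝ) < n := by exact_mod_cast hn
  rw [hG, card_pair hst]
  have e1 := Pool.Agent.Y647.LAC.LW.one (P := P) (c := 2 / (n : ℝ)) h1 (fun v =>
    div_le_div_of_nonneg_left (by norm_num) hn' (by exact_mod_cast h3 v))
  have e2 := Pool.Agent.Y647.LAC.LW.one (P := Q) (c := 2 / (n : ℝ)) h2 (fun v =>
    div_le_div_of_nonneg_left (by norm_num) hn' (by exact_mod_cast h4 v))
  have e3 := e1.sup e2
  have e4 : (2 : ℝ) / n + 2 / n = 4 / n := by ring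
  rwa [e4] at e3

/-- An involution of a set of commuting elements of odd order. -/
theorem lw_match [Finite Γ] [DecidableEq Γ] (σ : Γ → Γ) (k : ℕ) : ∀ (T : Finset Γ), T.card ≤ k →
    (∀ t ∈ T, σ t ∈ T ∧ σ (σ t) = t ∧ Commute t (σ t)) → (∀ t ∈ T, Odd (orderOf t)) →
    (1 : Γ) ∉ T → LW (cayG T) T.card (∑ t ∈ T, (2 : ℝ) / gn t (σ t)) := by
  induction k with
  | zero =>
    intro T hT _ _ _
    have : T = ∅ := card_eq_zero.1 (by omega)
    subst this
    rw [sum_empty]
    exact lw_empty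
  | succ k ih =>
    intro T hT hσ hodd hone
    rcases T.eq_empty_or_nonempty with rfl | ⟨t, ht⟩
    · rw [sum_empty]
      exact lw_empty
    · obtain ⟨h1, h2, h3⟩ := hσ t ht
      by_cases hfix : σ t = t
      · have h4 := ih (T.erase t) (by rw [card_erase_of_mem ht]; omega) (by
          intro x hx
          obtain ⟨hxt, hx⟩ := mem_erase.1 hx
          obtain ⟨e1, e2, e3⟩ := hσ x hx
          refine ⟨mem_erase.2 ⟨?_, e1⟩, e2, e3⟩
          intro h
          apply hxt
          rw [← e2, h, hfix]) (fun x hx => hodd x (mem_of_mem_erase hx))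
          (fun h => hone (mem_of_mem_erase h))
        have h5 := lw_union (A := {t}) (B := T.erase t) (by
          rw [disjoint_singleton_left]
          exact notMem_erase t T) (lw_single t) h4
        have h6 : ({t} : Finset Γ) ∪ T.erase t = T := by
          rw [← insert_eq, insert_erase ht]
        rw [h6] at h5
        have h7 : ∑ x ∈ T, (2 : ℝ) / gn x (σ x) = 2 / orderOf t + ∑ x ∈ T.erase t,
            (2 : ℝ) / gn x (σ x) := by
          rw [← add_sum_erase T _ ht, hfix, gn_self]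
        rwa [h7]
      · have hsub : ({t, σ t} : Finset Γ) ⊆ T := by
          intro x hx
          rw [mem_insert, mem_singleton] at hx
          rcases hx with rfl | rfl
          · exact ht
          · exact h1
        have hcard : (T \ {t, σ t}).card ≤ k := by
          rw [card_sdiff_of_subset hsub, card_pair (Ne.symm hfix)]
          omega
        have h4 := ih (T \ {t, σ t}) hcard (by
          intro x hx
          obtain ⟨hx, hx'⟩ := mem_sdiff.1 hx
          obtain ⟨e1, e2, e3⟩ := hσ x hx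
          refine ⟨mem_sdiff.2 ⟨e1, ?_⟩, e2, e3⟩
          intro h
          apply hx'
          rw [mem_insert, mem_singleton] at h ⊢
          rcases h with h | h
          · right
            rw [← e2, h]
          · left
            rw [← e2, h, h2]) (fun x hx => hodd x (mem_sdiff.1 hx).1)
          (fun h => hone (mem_sdiff.1 h).1)
        have hPD := pd_comm h3 (hodd t ht) (hodd _ h1) (fun h => hone (h ▸ ht))
          (fun h => hone (h ▸ h1))
        have h5 := lw_union (A := {t, σ t}) (B := T \ {t, σ t}) disjoint_sdiff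
          (lw_pair (Ne.symm hfix) (gn_pos t (σ t)) hPD) h4
        rw [union_sdiff_of_subset hsub] at h5
        have h7 : ∑ x ∈ T, (2 : ℝ) / gn x (σ x) = 4 / gn t (σ t) + ∑ x ∈ T \ {t, σ t},
            (2 : ℝ) / gn x (σ x) := by
          rw [← sum_sdiff hsub, sum_pair (Ne.symm hfix), h2, gn_comm (σ t) t]
          ring
        rwa [h7]

theorem ld_of_lw [Finite Γ] {S T : Finset Γ} {G : SimpleGraph Γ}
    (hG : ∀ g h, G.Adj g h ↔ g⁻¹ * h ∈ S) (hinv : ∀ s ∈ S, s⁻¹ ∈ S)
    (hTS : T ⊆ S) (hT : ∀ s ∈ S, s ∈ T ∨ s⁻¹ ∈ T) (hcard : S.card = 2 * T.card) {c : ℝ}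
    (hc : c ≤ 1) (h : LW (cayG T) T.card c) : LD G (S.card / 2) := by
  have h1 : G = cayG T := by
    ext v w
    rw [adj_half hG hTS hinv hT]
    constructor
    · rintro ⟨h0, k, hk⟩
      exact ⟨h0, k.1, k.2, hk⟩
    · rintro ⟨h0, s, hs, hk⟩
      exact ⟨h0, ⟨s, hs⟩, hk⟩
  have h2 : S.card / 2 = T.card := by omega
  rw [h1, h2]
  exact h.ld hc

end Pool.Agent.V5helper6.LAR
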