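import Mathlib

set_option autoImplicit false

/-!
Permutations for which a given point has a short period.
-/

namespace Pool.Agent.V5helper6.LAR

open Finset Equiv

section

variable {α : Type} [Fintype α] [DecidableEq α]

theorem minPer_pos (g : Perm α) (x : α) : 0 < Function.minimalPeriod (fun y => g • y) x := by
  apply Function.minimalPeriod_pos_of_mem_periodicPts
  exact Function.Injective.mem_periodicPts (MulAction.injective g) x

theorem swap_pow {g : Perm α} {x y : α} {s : ℕ}
    (hs : Function.minimalPeriod (fun y => g • y) x = s) (hy : ∀ t < s, (g ^ t) x ≠ y) :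
    (∀ t < s, ((swap x y * g) ^ t) x = (g ^ t) x) ∧ ((swap x y * g) ^ s) x = y := by
  have hpos : 0 < s := hs ▸ minPer_pos g x
  have hiter : ∀ t, (fun y => g • y)^[t] x = (g ^ t) x := by
    intro t
    rw [smul_iterate_apply]
    rfl
  have hper : (g ^ s) x = x := by
    have h1 : Function.IsPeriodicPt (fun y => g • y) s x := hs ▸ Function.isPeriodicPt_minimalPeriod _ _
    rw [← hiter]
    exact h1
  have hne : ∀ t, 0 < t → t < s → (g ^ t) x ≠ x := by
    intro t h0 ht h
    have h1 : Function.IsPeriodicPt (fun y => g • y) t x := by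
      unfold Function.IsPeriodicPt Function.IsFixedPt
      rw [hiter]; exact h
    have h2 := h1.minimalPeriod_le h0
    omega
  have h1 : ∀ t < s, ((swap x y * g) ^ t) x = (g ^ t) x := by
    intro t
    induction t with
    | zero => intro _; rfl
    | succ t ih =>
      intro ht
      rw [pow_succ', Perm.mul_apply, ih (by omega), Perm.mul_apply, ← Perm.mul_apply g,
        ← pow_succ']
      exact swap_apply_of_ne_of_ne (hne _ (by omega) ht) (hy _ ht)
  refine ⟨h1, ?_⟩
  obtain ⟨t, rfl⟩ : ∃ t, s = t + 1 := ⟨s - 1, by omega⟩
  rw [pow_succ', Perm.mul_apply, h1 t (by omega), Perm.mul_apply, ← Perm.mul_apply g,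
    ← pow_succ', hper, swap_apply_left]

open Classical in
theorem perm_len (x : α) (s : ℕ) :
    (Fintype.card α - s) * (univ.filter (fun g : Perm α =>
      Function.minimalPeriod (fun y => g • y) x = s)).card ≤ Fintype.card (Perm α) := by
  set A := univ.filter (fun g : Perm α => Function.minimalPeriod (fun y => g • y) x = s) with hA
  let Y : Perm α → Finset α := fun g => univ.filter (fun y => ∀ t < s, (g ^ t) x ≠ y)
  have hY : ∀ g ∈ A, Fintype.card α - s ≤ (Y g).card := by
    intro g _
    have h1 : (Y g)ᶜ ⊆ (range s).image (fun t => (g ^ t) x) := by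
      intro y hy
      rw [mem_compl, mem_filter] at hy
      push Not at hy
      obtain ⟨t, ht, hty⟩ := hy (mem_univ _)
      exact mem_image.2 ⟨t, mem_range.2 ht, hty⟩
    have h2 := (card_le_card h1).trans card_image_le
    rw [card_range, card_compl] at h2
    omega
  have h1 : (Fintype.card α - s) * A.card ≤ (A.sigma Y).card := by
    rw [card_sigma, mul_comm, ← smul_eq_mul, ← sum_const]
    exact sum_le_sum hY
  refine h1.trans ?_
  rw [← card_univ]
  refine card_le_card_of_injOn (fun a => swap x a.2 * a.1) (fun _ _ => mem_univ _) ?_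
  rintro ⟨g, y⟩ h ⟨g', y'⟩ h' he
  obtain ⟨h2, h3⟩ := mem_sigma.1 h
  obtain ⟨h2', h3'⟩ := mem_sigma.1 h'
  have h4 := (swap_pow (mem_filter.1 h2).2 (mem_filter.1 h3).2).2
  have h4' := (swap_pow (mem_filter.1 h2').2 (mem_filter.1 h3').2).2
  dsimp only at he h4 h4'
  rw [he, h4'] at h4
  subst h4
  have h5 := mul_left_cancel he
  subst h5
  rfl

open Classical in
/-- Few permutations have a given point in a short cycle. -/
theorem perm_short (x : α) (L : ℕ) :
    Fintype.card α * (univ.filter (fun g : Perm α =>
      Function.minimalPeriod (fun y => g • y) x < L)).card ≤ 2 * L * Fintype.card (Perm α) := by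
  set B := univ.filter (fun g : Perm α => Function.minimalPeriod (fun y => g • y) x < L) with hB
  rcases Nat.lt_or_ge (Fintype.card α) (2 * L) with hN | hN
  · exact Nat.mul_le_mul hN.le (card_le_univ _)
  have h1 : B ⊆ (range L).biUnion (fun s => univ.filter (fun g : Perm α =>
      Function.minimalPeriod (fun y => g • y) x = s)) := by
    intro g hg
    rw [mem_biUnion]
    exact ⟨_, mem_range.2 (mem_filter.1 hg).2, mem_filter.2 ⟨mem_univ _, rfl⟩⟩
  have h2 : (Fintype.card α - L) * B.card ≤ L * Fintype.card (Perm α) := by
    calc (Fintype.card α - L) * B.card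
        ≤ (Fintype.card α - L) * ∑ s ∈ range L, (univ.filter (fun g : Perm α =>
          Function.minimalPeriod (fun y => g • y) x = s)).card :=
          Nat.mul_le_mul_left _ ((card_le_card h1).trans card_biUnion_le)
      _ = ∑ s ∈ range L, (Fintype.card α - L) * (univ.filter (fun g : Perm α =>
          Function.minimalPeriod (fun y => g • y) x = s)).card := mul_sum _ _ _
      _ ≤ ∑ s ∈ range L, Fintype.card (Perm α) := by
          refine sum_le_sum fun s hs => ?_
          refine le_trans ?_ (perm_len x s)
          have := mem_range.1 hs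
          exact Nat.mul_le_mul_right _ (by omega)
      _ = L * Fintype.card (Perm α) := by rw [sum_const, card_range, smul_eq_mul]
  calc Fintype.card α * B.card ≤ (2 * (Fintype.card α - L)) * B.card :=
        Nat.mul_le_mul_right _ (by omega)
    _ = 2 * ((Fintype.card α - L) * B.card) := by ring
    _ ≤ 2 * (L * Fintype.card (Perm α)) := Nat.mul_le_mul_left _ h2
    _ = 2 * L * Fintype.card (Perm α) := by ring

end

end Pool.Agent.V5helper6.LAR
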