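import Pool.Agent.V5helper6.LAR.Label
import Pool.Agent.Y647.LAC.Even

set_option autoImplicit false

/-!
The Cartesian product of two cycles is the union of two Hamilton cycles.
-/

namespace Pool.Agent.V5helper6.LAR

open SimpleGraph Pool.Agent.Y647.LAC

theorem oo_prod (n m : ℕ) [NeZero n] [NeZero m] :
    oo ((1, 0) : ZMod n × ZMod m) (0, 1) = m := by
  have key : ∀ i, oo ((1, 0) : ZMod n × ZMod m) (0, 1) ∣ i ↔ m ∣ i := by
    intro i
    rw [oo_dvd, AddSubgroup.mem_zmultiples_iff, ← ZMod.natCast_eq_zero_iff]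
    constructor
    · rintro ⟨k, hk⟩
      have := congrArg Prod.snd hk
      simp at this
      exact this.symm
    · intro h
      refine ⟨0, ?_⟩
      ext
      · simp
      · simp [h]
  exact Nat.dvd_antisymm ((key m).2 dvd_rfl) ((key _).1 dvd_rfl)

theorem oo_prod' (n m : ℕ) [NeZero n] [NeZero m] :
    oo ((0, 1) : ZMod n × ZMod m) (1, 0) = n := by
  have key : ∀ i, oo ((0, 1) : ZMod n × ZMod m) (1, 0) ∣ i ↔ n ∣ i := by
    intro i
    rw [oo_dvd, AddSubgroup.mem_zmultiples_iff, ← ZMod.natCast_eq_zero_iff]
    constructor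
    · rintro ⟨k, hk⟩
      have := congrArg Prod.fst hk
      simp at this
      exact this.symm
    · intro h
      refine ⟨0, ?_⟩
      ext
      · simp [h]
      · simp
  exact Nat.dvd_antisymm ((key n).2 dvd_rfl) ((key _).1 dvd_rfl)

/-- Two Hamilton cycles in the product of two cycles. -/
theorem kotzig (n m : ℕ) [NeZero n] [NeZero m] (hn : 3 ≤ n) (hm : 3 ≤ m) :
    Two ((1, 0) : ZMod n × ZMod m) (0, 1) := by
  set a : ZMod n × ZMod m := (1, 0) with ha
  set b : ZMod n × ZMod m := (0, 1) with hb
  have hab : oo a b = m := oo_prod n m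
  have hba : oo b a = n := oo_prod' n m
  have hg : Gen a b := by
    intro x
    refine ⟨x.2.val, x.1.val, ?_⟩
    ext
    · simp [ha, hb]
    · simp [ha, hb]
  have hoa : 3 ≤ addOrderOf a := by
    have h1 := oo_dvd_order b a
    rw [hba] at h1
    exact hn.trans (Nat.le_of_dvd (addOrderOf_pos a) h1)
  have hob : 3 ≤ addOrderOf b := by
    have h1 := oo_dvd_order a b
    rw [hab] at h1
    exact hm.trans (Nat.le_of_dvd (addOrderOf_pos b) h1)
  rcases Nat.lt_trichotomy n m with h | h | h
  · rcases Nat.mod_two_eq_zero_or_one n with h1 | h1 <;>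
      rcases Nat.mod_two_eq_zero_or_one m with h2 | h2
    · exact two_many hg (by omega) (by omega) (by omega)
    · exact two_D3 hg (by omega) (by omega) hoa (by omega) (by omega)
    · exact two_D1 hg (by omega) (by omega) (by omega) (by omega)
    · exact two_many hg (by omega) (by omega) (by omega)
  · exact two_many hg (by omega) (by omega) (by omega)
  · refine Two.symm ?_
    rcases Nat.mod_two_eq_zero_or_one n with h1 | h1 <;>
      rcases Nat.mod_two_eq_zero_or_one m with h2 | h2
    · exact two_many hg.symm (by omega) (by omega) (by omega)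
    · exact two_D1 hg.symm (by omega) (by omega) (by omega) (by omega)
    · exact two_D3 hg.symm (by omega) (by omega) hob (by omega) (by omega)
    · exact two_many hg.symm (by omega) (by omega) (by omega)

theorem comap_deg {U W : Type} (e : U ≃ W) (P : SimpleGraph W) (v : U) :
    ((P.comap e).neighborSet v).ncard = (P.neighborSet (e v)).ncard := by
  have h : P.neighborSet (e v) = e '' ((P.comap e).neighborSet v) := by
    ext w
    constructor
    · intro hw
      refine ⟨e.symm w, ?_, e.apply_symm_apply w⟩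
      show P.Adj (e v) (e (e.symm w))
      rw [e.apply_symm_apply]
      exact hw
    · rintro ⟨u, hu, rfl⟩
      exact hu
  rw [h, Set.ncard_image_of_injective _ e.injective]

theorem comap_reach {U W : Type} (e : U ≃ W) {P : SimpleGraph W}
    (h : ∀ v w, P.Reachable v w) (v w : U) : (P.comap e).Reachable v w := by
  have h1 := h (e v) (e w)
  exact (Iso.reachable_iff (φ := Iso.comap e P)).1 h1

theorem box_nbhd {U U' : Type} (P : SimpleGraph U) (P' : SimpleGraph U') (x : U × U') :
    (P □ P').neighborSet x = ((fun u => (u, x.2)) '' P.neighborSet x.1) ∪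
      ((fun u => (x.1, u)) '' P'.neighborSet x.2) := by
  ext y
  rw [mem_neighborSet, boxProd_adj]
  constructor
  · rintro (⟨h1, h2⟩ | ⟨h1, h2⟩)
    · left
      exact ⟨y.1, h1, by rw [h2]⟩
    · right
      exact ⟨y.2, h1, by rw [h2]⟩
  · rintro (⟨u, h1, rfl⟩ | ⟨u, h1, rfl⟩)
    · exact Or.inl ⟨h1, rfl⟩
    · exact Or.inr ⟨h1, rfl⟩

theorem box_deg {U U' : Type} [Finite U] [Finite U'] (P : SimpleGraph U) (P' : SimpleGraph U')
    (x : U × U') : ((P □ P').neighborSet x).ncard =
      (P.neighborSet x.1).ncard + (P'.neighborSet x.2).ncard := by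
  rw [box_nbhd, Set.ncard_union_eq]
  · rw [Set.ncard_image_of_injective _ (fun a b h => (Prod.ext_iff.1 h).1),
      Set.ncard_image_of_injective _ (fun a b h => (Prod.ext_iff.1 h).2)]
  · rw [Set.disjoint_left]
    rintro y ⟨u, hu, rfl⟩ ⟨u', hu', h⟩
    have h1 := (Prod.ext_iff.1 h).1
    have h1 : x.1 = u := h1
    rw [← h1] at hu
    exact P.irrefl hu

/-- If two graphs of maximum degree two have a union of degree four, then they are regular. -/
theorem deg_two {U : Type} [Finite U] {P Q G : SimpleGraph U} {v : U} (hG : P ⊔ Q = G)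
    (h4 : (G.neighborSet v).ncard = 4) (hP : (P.neighborSet v).ncard ≤ 2)
    (hQ : (Q.neighborSet v).ncard ≤ 2) :
    (P.neighborSet v).ncard = 2 ∧ (Q.neighborSet v).ncard = 2 := by
  have h1 : G.neighborSet v = P.neighborSet v ∪ Q.neighborSet v := by
    rw [← hG]
    ext w
    rfl
  have h2 := Set.ncard_union_le (P.neighborSet v) (Q.neighborSet v)
  rw [← h1, h4] at h2
  omega

/-- The product of two Hamilton cycles is the union of two Hamilton cycles. -/
theorem ham_prod {U U' : Type} [Finite U] [Finite U'] [Nonempty U] [Nonempty U']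
    (P : SimpleGraph U) (P' : SimpleGraph U')
    (h1 : ∀ v, (P.neighborSet v).ncard = 2) (h2 : ∀ v w, P.Reachable v w)
    (h1' : ∀ v, (P'.neighborSet v).ncard = 2) (h2' : ∀ v w, P'.Reachable v w) :
    ∃ R R' : SimpleGraph (U × U'), (∀ v, (R.neighborSet v).ncard = 2) ∧
      (∀ v, (R'.neighborSet v).ncard = 2) ∧ (∀ v w, R.Reachable v w) ∧
      (∀ v w, R'.Reachable v w) ∧ R ⊔ R' = P □ P' := by
  obtain ⟨n, _, e, hn, he⟩ := label P h1 h2
  obtain ⟨m, _, e', hm, he'⟩ := label P' h1' h2'
  obtain ⟨A, B, hd, hc, hu⟩ := kotzig n m hn hm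
  let E : U × U' ≃ ZMod n × ZMod m := e.prodCongr e'
  have hE : ∀ x, E x = (e x.1, e' x.2) := fun x => rfl
  have hsup : A.comap E ⊔ B.comap E = P □ P' := by
    ext x y
    have e1 : (A.comap E ⊔ B.comap E).Adj x y ↔ (A ⊔ B).Adj (E x) (E y) := Iff.rfl
    rw [e1, hu, boxProd_adj, he, he', hE, hE]
    have hne : (1 : ZMod n) ≠ 0 := by
      have : Fact (1 < n) := ⟨by omega⟩
      exact one_ne_zero
    have hne' : (1 : ZMod m) ≠ 0 := by
      have : Fact (1 < m) := ⟨by omega⟩
      exact one_ne_zero
    constructor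
    · rintro ⟨_, h | h | h | h⟩
      · have a1 := (Prod.ext_iff.1 h).1
        have a2 := (Prod.ext_iff.1 h).2
        simp only [Prod.fst_add, Prod.snd_add, add_zero] at a1 a2
        exact Or.inl ⟨Or.inl a1, (e'.injective a2).symm⟩
      · have a1 := (Prod.ext_iff.1 h).1
        have a2 := (Prod.ext_iff.1 h).2
        simp only [Prod.fst_add, Prod.snd_add, add_zero] at a1 a2
        exact Or.inl ⟨Or.inr a1, e'.injective a2⟩
      · have a1 := (Prod.ext_iff.1 h).1
        have a2 := (Prod.ext_iff.1 h).2
        simp only [Prod.fst_add, Prod.snd_add, add_zero] at a1 a2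
        exact Or.inr ⟨Or.inl a2, (e.injective a1).symm⟩
      · have a1 := (Prod.ext_iff.1 h).1
        have a2 := (Prod.ext_iff.1 h).2
        simp only [Prod.fst_add, Prod.snd_add, add_zero] at a1 a2
        exact Or.inr ⟨Or.inr a2, e.injective a1⟩
    · rintro (⟨h | h, h3⟩ | ⟨h | h, h3⟩)
      · refine ⟨?_, Or.inl ?_⟩
        · intro h4
          have h5 := (Prod.ext_iff.1 h4).1
          have h5 : e x.1 = e y.1 := h5
          rw [h] at h5
          exact hne (by linear_combination -h5)
        · rw [h, h3]
          ext <;> simp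
      · refine ⟨?_, Or.inr (Or.inl ?_)⟩
        · intro h4
          have h5 := (Prod.ext_iff.1 h4).1
          have h5 : e x.1 = e y.1 := h5
          rw [h] at h5
          exact hne (by linear_combination h5)
        · rw [h, h3]
          ext <;> simp
      · refine ⟨?_, Or.inr (Or.inr (Or.inl ?_))⟩
        · intro h4
          have h5 := (Prod.ext_iff.1 h4).2
          have h5 : e' x.2 = e' y.2 := h5
          rw [h] at h5
          exact hne' (by linear_combination -h5)
        · rw [h, h3]
          ext <;> simp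
      · refine ⟨?_, Or.inr (Or.inr (Or.inr ?_))⟩
        · intro h4
          have h5 := (Prod.ext_iff.1 h4).2
          have h5 : e' x.2 = e' y.2 := h5
          rw [h] at h5
          exact hne' (by linear_combination h5)
        · rw [h, h3]
          ext <;> simp
  have hreg : ∀ v, ((A.comap E).neighborSet v).ncard = 2 ∧ ((B.comap E).neighborSet v).ncard = 2 := by
    intro v
    refine deg_two hsup ?_ ?_ ?_
    · rw [box_deg, h1, h1']
    · rw [comap_deg]
      exact (hd _).1
    · rw [comap_deg]
      exact (hd _).2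
  exact ⟨A.comap E, B.comap E, fun v => (hreg v).1, fun v => (hreg v).2,
    comap_reach E (fun v w => (hc v w).1), comap_reach E (fun v w => (hc v w).2), hsup⟩

end Pool.Agent.V5helper6.LAR
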