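import Pool.Agent.V5helper6.LAR.SwPath
import Pool.Agent.V5helper6.LAR.Prod

set_option autoImplicit false

/-!
The product of a Hamilton cycle and the union of two Hamilton cycles is the union of three Hamilton
cycles.
-/

namespace Pool.Agent.V5helper6.LAR

open SimpleGraph

theorem deg_three {U : Type} [Finite U] {P Q R G : SimpleGraph U} {v : U} (hG : P ⊔ Q ⊔ R = G)
    (h6 : (G.neighborSet v).ncard = 6) (hP : (P.neighborSet v).ncard ≤ 2)
    (hQ : (Q.neighborSet v).ncard ≤ 2) (hR : (R.neighborSet v).ncard ≤ 2) :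
    (P.neighborSet v).ncard = 2 ∧ (Q.neighborSet v).ncard = 2 ∧ (R.neighborSet v).ncard = 2 := by
  have h1 : G.neighborSet v = P.neighborSet v ∪ Q.neighborSet v ∪ R.neighborSet v := by
    rw [← hG]
    ext w
    rfl
  have h2 := Set.ncard_union_le (P.neighborSet v ∪ Q.neighborSet v) (R.neighborSet v)
  have h3 := Set.ncard_union_le (P.neighborSet v) (Q.neighborSet v)
  rw [← h1, h6] at h2
  omega

theorem iter_symm {Q Q' : Type} (e : Q ≃ Q') (T : Q' → Q') (n : ℕ) (a : Q) :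
    (fun x => e.symm (T (e x)))^[n] a = e.symm (T^[n] (e a)) := by
  induction n with
  | zero => simp
  | succ n ih =>
    rw [Function.iterate_succ_apply', ih, Function.iterate_succ_apply']
    simp

/-- The product of a Hamilton cycle and the union of two disjoint Hamilton cycles. -/
theorem ham_prod3 {U U' : Type} [Finite U] [Finite U'] [Nonempty U] [Nonempty U']
    (hU : Nat.card U % 2 = 1) (hU' : Nat.card U' % 2 = 1) (h5 : 5 ≤ Nat.card U)
    (hUU : 2 * Nat.card U ≤ Nat.card U' + 1)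
    (P : SimpleGraph U) (Q Q' : SimpleGraph U')
    (h1 : ∀ v, (P.neighborSet v).ncard = 2) (h2 : ∀ v w, P.Reachable v w)
    (h1' : ∀ v, (Q.neighborSet v).ncard = 2) (h2' : ∀ v w, Q.Reachable v w)
    (h1'' : ∀ v, (Q'.neighborSet v).ncard = 2) (h2'' : ∀ v w, Q'.Reachable v w)
    (hdisj : ∀ v w, Q.Adj v w → ¬ Q'.Adj v w) :
    ∃ R R' R'' : SimpleGraph (U × U'), (∀ v, (R.neighborSet v).ncard = 2) ∧
      (∀ v, (R'.neighborSet v).ncard = 2) ∧ (∀ v, (R''.neighborSet v).ncard = 2) ∧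
      (∀ v w, R.Reachable v w) ∧ (∀ v w, R'.Reachable v w) ∧ (∀ v w, R''.Reachable v w) ∧
      R ⊔ R' ⊔ R'' = P □ (Q ⊔ Q') := by
  obtain ⟨n, _, e, hn, he⟩ := label P h1 h2
  obtain ⟨m, _, e', hm, he'⟩ := label Q h1' h2'
  obtain ⟨m', _, e'', hm', he''⟩ := label Q' h1'' h2''
  have hcn : Nat.card U = n := by rw [Nat.card_congr e, Nat.card_zmod]
  have hcm : Nat.card U' = m := by rw [Nat.card_congr e', Nat.card_zmod]
  rw [hcn] at hU h5 hUU
  rw [hcm] at hU' hUU
  let c : ZMod m ≃ ZMod m' := e'.symm.trans e''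
  let κ : Equiv.Perm (ZMod m) := (c.trans (Equiv.addRight 1)).trans c.symm
  have hκa : ∀ y, κ y = c.symm (c y + 1) := fun y => rfl
  have hκ : ∀ a b, ∃ n, κ^[n] a = b := by
    intro a b
    obtain ⟨n, hn⟩ := add_one_trans (c a) (c b)
    refine ⟨n, ?_⟩
    have h := iter_symm c (fun x => x + 1) n a
    have h' : (κ : ZMod m → ZMod m) = fun x => c.symm ((fun x => x + 1) (c x)) := rfl
    rw [h', h, hn, c.symm_apply_apply]
  have hQ' : ∀ v w, Q'.Adj v w ↔ (e' w = κ (e' v) ∨ e' v = κ (e' w)) := by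
    intro v w
    have hc : ∀ v, c (e' v) = e'' v := by
      intro v
      show e'' (e'.symm (e' v)) = _
      rw [e'.symm_apply_apply]
    rw [he'', hκa, hκa, Equiv.eq_symm_apply, Equiv.eq_symm_apply, hc, hc]
  obtain ⟨A, B, C, hA, hB, hC, hA', hB', hC', hu⟩ := three_cyc hU hU' h5 hUU κ hκ
  let E : U × U' ≃ ZMod m × ZMod n := (Equiv.prodComm U U').trans (e'.prodCongr e)
  have hE : ∀ x, E x = (e' x.2, e x.1) := fun x => rfl
  have hsup : A.comap E ⊔ B.comap E ⊔ C.comap E = P □ (Q ⊔ Q') := by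
    ext x y
    have e1 : (A.comap E ⊔ B.comap E ⊔ C.comap E).Adj x y ↔ (A ⊔ B ⊔ C).Adj (E x) (E y) := Iff.rfl
    have e2 : ∀ v w, (Q ⊔ Q').Adj v w ↔ Q.Adj v w ∨ Q'.Adj v w := fun v w => Iff.rfl
    have hsym : ∀ u w : U, (P.Adj u w ↔ P.Adj w u) := fun u w => P.adj_comm u w
    rw [e1, hu, boxProd_adj, e2, he, he', hQ', hE, hE]
    unfold Arc
    simp only [plus_apply, Prod.mk.injEq, ne_eq]
    constructor
    · rintro ⟨_, (⟨a1, a2⟩ | ⟨a1, a2 | a2⟩) | (⟨a1, a2⟩ | ⟨a1, a2 | a2⟩)⟩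
      · exact Or.inl ⟨Or.inl a2, (e'.injective a1).symm⟩
      · exact Or.inr ⟨Or.inl (Or.inl a2), (e.injective a1).symm⟩
      · exact Or.inr ⟨Or.inr (Or.inl a2), (e.injective a1).symm⟩
      · exact Or.inl ⟨Or.inr a2, e'.injective a1⟩
      · exact Or.inr ⟨Or.inl (Or.inr a2), e.injective a1⟩
      · exact Or.inr ⟨Or.inr (Or.inr a2), e.injective a1⟩
    · intro h
      have hadj : (P □ (Q ⊔ Q')).Adj x y := by
        rw [boxProd_adj, e2, he, he', hQ']
        exact h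
      have hne : x ≠ y := hadj.ne
      refine ⟨fun h' => hne (Prod.ext (e.injective h'.2) (e'.injective h'.1)), ?_⟩
      rcases h with ⟨a1 | a1, a2⟩ | ⟨(a1 | a1) | (a1 | a1), a2⟩
      · exact Or.inl (Or.inl ⟨by rw [a2], a1⟩)
      · exact Or.inr (Or.inl ⟨by rw [a2], a1⟩)
      · exact Or.inl (Or.inr ⟨by rw [a2], Or.inl a1⟩)
      · exact Or.inr (Or.inr ⟨by rw [a2], Or.inl a1⟩)
      · exact Or.inl (Or.inr ⟨by rw [a2], Or.inr a1⟩)
      · exact Or.inr (Or.inr ⟨by rw [a2], Or.inr a1⟩)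
  have hreg : ∀ v, ((A.comap E).neighborSet v).ncard = 2 ∧ ((B.comap E).neighborSet v).ncard = 2 ∧
      ((C.comap E).neighborSet v).ncard = 2 := by
    intro v
    refine deg_three hsup ?_ ?_ ?_ ?_
    · rw [box_deg, h1]
      have h3 : (Q ⊔ Q').neighborSet v.2 = Q.neighborSet v.2 ∪ Q'.neighborSet v.2 := rfl
      rw [h3, Set.ncard_union_eq, h1', h1'']
      rw [Set.disjoint_left]
      intro w hw hw'
      exact hdisj _ _ hw hw'
    · rw [comap_deg]
      exact hA _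
    · rw [comap_deg]
      exact hB _
    · rw [comap_deg]
      exact hC _
  exact ⟨A.comap E, B.comap E, C.comap E, fun v => (hreg v).1, fun v => (hreg v).2.1,
    fun v => (hreg v).2.2, comap_reach E hA', comap_reach E hB', comap_reach E hC', hsup⟩

end Pool.Agent.V5helper6.LAR
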