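import Pool.Agent.V5helper6.LAR.Lw

set_option autoImplicit false

/-!
Pulling back decompositions from models of the subgroup generated by some elements.
-/

namespace Pool.Agent.V5helper6.LAR

open Finset SimpleGraph H931R3.LA Pool.Agent.W111.LAR Pool.Agent.TH486.LAC Pool.Agent.Y59.LA
open Pool.Agent.Y647.LAC (LW)

variable {Γ : Type} [Group Γ]

theorem pull_fam [Finite Γ] {κ ι W : Type} [Finite W] (x : κ → Γ) (K : Subgroup Γ)
    (hK : ∀ k, x k ∈ K) (y : κ → W → W) (F : Γ → W) (hF : ∀ v k, F (v * x k) = y k (F v))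
    (hyi : ∀ k, Function.Injective (y k)) (hinj : ∀ v w, v⁻¹ * w ∈ K → F v = F w → v = w)
    (P : ι → SimpleGraph W) (hdeg : ∀ i v, ((P i).neighborSet v).ncard ≤ 2)
    (hadj : ∀ v w, (⨆ i, P i).Adj v w ↔ v ≠ w ∧ ∃ k, w = y k v ∨ v = y k w) :
    ∃ Q : ι → SimpleGraph Γ, (∀ i v, ((Q i).neighborSet v).ncard ≤ 2) ∧
      (∀ i v, csize (P i) (F v) ≤ csize (Q i) v) ∧
      ∀ v w, (⨆ i, Q i).Adj v w ↔ v ≠ w ∧ ∃ k, w = v * x k ∨ v = w * x k := by
  let Q : ι → SimpleGraph Γ := fun i =>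
    { Adj := fun v w => v⁻¹ * w ∈ K ∧ (P i).Adj (F v) (F w)
      symm := ⟨fun v w h => ⟨by
        have := inv_mem h.1
        simpa using this, h.2.symm⟩⟩
      loopless := ⟨fun v h => (P i).irrefl h.2⟩ }
  have hQ : ∀ i v w, (Q i).Adj v w ↔ v⁻¹ * w ∈ K ∧ (P i).Adj (F v) (F w) := fun i v w => Iff.rfl
  have hK' : ∀ v w w' : Γ, v⁻¹ * w ∈ K → v⁻¹ * w' ∈ K → w⁻¹ * w' ∈ K := by
    intro v w w' h1 h2
    have := mul_mem (inv_mem h1) h2
    have e : (v⁻¹ * w)⁻¹ * (v⁻¹ * w') = w⁻¹ * w' := by group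
    rwa [e] at this
  refine ⟨Q, ?_, ?_, ?_⟩
  · intro i v
    refine le_trans ?_ (hdeg i (F v))
    refine Set.ncard_le_ncard_of_injOn F (fun w hw => ((hQ i v w).1 hw).2) ?_ (Set.toFinite _)
    intro w hw w' hw' h
    exact hinj w w' (hK' v w w' ((hQ i v w).1 hw).1 ((hQ i v w').1 hw').1) h
  · intro i v
    have key : ∀ {a b : W} (_q : (P i).Walk a b) (w : Γ), (Q i).Reachable v w → F w = a →
        ∃ w', (Q i).Reachable v w' ∧ F w' = b := by
      intro a b q
      induction q with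
      | nil => intro w hw hwa; exact ⟨w, hw, hwa⟩
      | cons had q ih =>
        rename_i a c b
        intro w hw hwa
        have h1 : (⨆ i, P i).Adj a c := by
          rw [iSup_adj]; exact ⟨i, had⟩
        obtain ⟨_, k, h2 | h2⟩ := (hadj a c).1 h1
        · have h3 : F (w * x k) = c := by rw [hF, hwa, h2]
          refine ih (w * x k) (hw.trans (Adj.reachable ?_)) h3
          rw [hQ, h3, hwa]
          exact ⟨by simpa using hK k, had⟩
        · have h3 : F (w * (x k)⁻¹) = c := by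
            apply hyi k
            rw [← hF, ← h2, inv_mul_cancel_right, hwa]
          refine ih (w * (x k)⁻¹) (hw.trans (Adj.reachable ?_)) h3
          rw [hQ, h3, hwa]
          exact ⟨by simpa using hK k, had⟩
    have hsub : {a | (P i).Reachable (F v) a} ⊆ F '' {w | (Q i).Reachable v w} := by
      rintro a ⟨q⟩
      obtain ⟨w, h1, h2⟩ := key q v (Reachable.refl v) rfl
      exact ⟨w, h1, h2⟩
    exact (Set.ncard_le_ncard hsub (Set.toFinite _)).trans (Set.ncard_image_le (Set.toFinite _))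
  · intro v w
    rw [iSup_adj]
    constructor
    · rintro ⟨i, hi⟩
      obtain ⟨h1, h2⟩ := (hQ i v w).1 hi
      refine ⟨?_, ?_⟩
      · rintro rfl
        exact (P i).irrefl h2
      · have h3 : (⨆ i, P i).Adj (F v) (F w) := by
          rw [iSup_adj]; exact ⟨i, h2⟩
        obtain ⟨_, k, h4 | h4⟩ := (hadj _ _).1 h3
        · refine ⟨k, Or.inl ?_⟩
          rw [← hF] at h4
          refine hinj _ _ (hK' v w (v * x k) h1 (by simpa using hK k)) h4
        · refine ⟨k, Or.inr ?_⟩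
          rw [← hF] at h4
          have h5 : w⁻¹ * v ∈ K := by
            have := inv_mem h1
            simpa using this
          exact hinj _ _ (hK' w v (w * x k) h5 (by simpa using hK k)) h4
    · rintro ⟨h0, k, h⟩
      have h1 : v⁻¹ * w ∈ K := by
        rcases h with h | h
        · rw [h]; simpa using hK k
        · rw [h]; simpa using hK k
      have h2 : F v ≠ F w := fun h' => h0 (hinj v w h1 h')
      have h3 : (⨆ i, P i).Adj (F v) (F w) := by
        rw [hadj]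
        refine ⟨h2, k, ?_⟩
        rcases h with h | h
        · left
          rw [← hF, ← h]
        · right
          rw [← hF, ← h]
      rw [iSup_adj] at h3
      obtain ⟨i, hi⟩ := h3
      exact ⟨i, (hQ i v w).2 ⟨h1, hi⟩⟩

/-- Pulling back from a model of the subgroup. -/
theorem pull_grp [Finite Γ] {κ ι W : Type} [Finite W] (x : κ → Γ) (K : Subgroup Γ) (φ : W → Γ)
    (hφ : Function.Injective φ) (hr : ∀ g, g ∈ K ↔ ∃ u, φ u = g) (y : κ → W → W)
    (hy : ∀ k u, φ (y k u) = φ u * x k) (P : ι → SimpleGraph W)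
    (hdeg : ∀ i v, ((P i).neighborSet v).ncard ≤ 2)
    (hadj : ∀ v w, (⨆ i, P i).Adj v w ↔ v ≠ w ∧ ∃ k, w = y k v ∨ v = y k w) :
    ∃ Q : ι → SimpleGraph Γ, (∀ i v, ((Q i).neighborSet v).ncard ≤ 2) ∧
      (∀ i v, ∃ u, csize (P i) u ≤ csize (Q i) v) ∧
      ∀ v w, (⨆ i, Q i).Adj v w ↔ v ≠ w ∧ ∃ k, w = v * x k ∨ v = w * x k := by
  obtain ⟨B, hB1, hB2⟩ := exists_base K
  have hex : ∀ v, ∃ u, v = B v * φ u := by
    intro v
    obtain ⟨k, hk, h⟩ := hB2 v
    obtain ⟨u, hu⟩ := (hr k).1 hk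
    exact ⟨u, by rw [hu]; exact h⟩
  choose F hF using hex
  have hφK : ∀ u, φ u ∈ K := fun u => (hr _).2 ⟨u, rfl⟩
  have hK : ∀ k, x k ∈ K := by
    intro k
    obtain ⟨u, hu⟩ := (hr 1).1 (one_mem K)
    have h1 := hφK (y k u)
    rw [hy, hu, one_mul] at h1
    exact h1
  obtain ⟨Q, h1, h2, h3⟩ := pull_fam x K hK y F (by
    intro v k
    apply hφ
    have h1 := hF (v * x k)
    rw [hB1 v (x k) (hK k)] at h1
    have h2 := hF v
    have h3 : B v * φ (F (v * x k)) = B v * (φ (F v) * x k) := by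
      rw [← h1, ← mul_assoc, ← h2]
    rw [hy]
    exact mul_left_cancel h3) (by
    intro k u u' h
    apply hφ
    have h1 : φ (y k u) = φ (y k u') := by rw [h]
    rw [hy, hy] at h1
    exact mul_right_cancel h1) (by
    intro v w h1 h2
    have h3 : B w = B v := by
      have := hB1 v (v⁻¹ * w) h1
      rwa [mul_inv_cancel_left] at this
    rw [hF v, hF w, h3, h2]) P hdeg hadj
  exact ⟨Q, h1, fun i v => ⟨F v, h2 i v⟩, h3⟩

/-- The load of a family of elements which has a model. -/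
theorem lw_model [Finite Γ] [DecidableEq Γ] {κ W : Type} [Fintype κ] [Finite W] (x : κ → Γ)
    (hx : Function.Injective x) (K : Subgroup Γ) (φ : W → Γ)
    (hφ : Function.Injective φ) (hr : ∀ g, g ∈ K ↔ ∃ u, φ u = g) (y : κ → W → W)
    (hy : ∀ k u, φ (y k u) = φ u * x k) (P : κ → SimpleGraph W)
    (hdeg : ∀ i v, ((P i).neighborSet v).ncard ≤ 2)
    (hadj : ∀ v w, (⨆ i, P i).Adj v w ↔ v ≠ w ∧ ∃ k, w = y k v ∨ v = y k w) (N : κ → ℕ)
    (hN0 : ∀ k, 0 < N k) (hN : ∀ k u, N k ≤ csize (P k) u) :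
    LW (cayG (univ.image x)) (univ.image x).card (∑ k, (2 : ℝ) / N k) := by
  obtain ⟨Q, h1, h2, h3⟩ := pull_grp x K φ hφ hr y hy P hdeg hadj
  refine ⟨κ, inferInstance, Q, ?_, h1, ?_, ?_⟩
  · rw [card_image_of_injective _ hx, card_univ]
  · intro v
    refine sum_le_sum fun k _ => ?_
    obtain ⟨u, hu⟩ := h2 k v
    have h4 := (hN k u).trans hu
    have h5 : (0 : ℝ) < N k := by exact_mod_cast hN0 k
    exact div_le_div_of_nonneg_left (by norm_num) h5 (by exact_mod_cast h4)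
  · ext v w
    rw [h3]
    constructor
    · rintro ⟨h0, s, hs, h⟩
      obtain ⟨k, _, rfl⟩ := mem_image.1 hs
      exact ⟨h0, k, h⟩
    · rintro ⟨h0, k, h⟩
      exact ⟨h0, x k, mem_image_of_mem _ (mem_univ k), h⟩

end Pool.Agent.V5helper6.LAR
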