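import Mathlib

set_option autoImplicit false

/-!
Triangular maps with one cycle.
-/

namespace Pool.Agent.V5helper6.LAR

open Finset Function

section skew

variable {Q : Type}

/-- A transitive map. -/
def Trans (T : Q → Q) : Prop := ∀ a b, ∃ n, T^[n] a = b

theorem Trans.surj {T : Q → Q} (h : Trans T) : Surjective T := by
  intro b
  obtain ⟨n, hn⟩ := h (T b) b
  cases n with
  | zero => exact ⟨b, hn⟩
  | succ n =>
    rw [iterate_succ_apply'] at hn
    exact ⟨_, hn⟩

theorem Trans.bij [Finite Q] {T : Q → Q} (h : Trans T) : Bijective T :=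
  Finite.surjective_iff_bijective.1 h.surj

theorem Trans.periodic {T : Q → Q} (h : Trans T) (a : Q) : a ∈ periodicPts T := by
  obtain ⟨n, hn⟩ := h (T a) a
  rw [← iterate_succ_apply] at hn
  exact ⟨n + 1, Nat.succ_pos n, hn⟩

theorem Trans.sum [Fintype Q] {T : Q → Q} (h : Trans T) {M : Type} [AddCommMonoid M] (g : Q → M)
    (a : Q) : ∑ i ∈ range (minimalPeriod T a), g (T^[i] a) = ∑ q, g q := by
  classical
  have h1 : (range (minimalPeriod T a)).image (fun i => T^[i] a) = univ := by
    ext b
    refine ⟨fun _ => mem_univ b, fun _ => ?_⟩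
    obtain ⟨n, hn⟩ := h a b
    refine mem_image.2 ⟨n % minimalPeriod T a, mem_range.2 (Nat.mod_lt _ ?_), ?_⟩
    · exact minimalPeriod_pos_of_mem_periodicPts (h.periodic a)
    · rw [iterate_mod_minimalPeriod_eq, hn]
  rw [← h1, sum_image]
  intro i hi j hj hij
  exact iterate_injOn_Iio_minimalPeriod (by simpa using hi) (by simpa using hj) hij

/-- The skew product. -/
def skew {m : ℕ} (T : Q → Q) (g : Q → ZMod m) (v : Q × ZMod m) : Q × ZMod m :=
  (T v.1, v.2 + g v.1)

theorem skew_iter {m : ℕ} (T : Q → Q) (g : Q → ZMod m) (a : Q) (x : ZMod m) (n : ℕ) :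
    (skew T g)^[n] (a, x) = (T^[n] a, x + ∑ i ∈ range n, g (T^[i] a)) := by
  induction n with
  | zero => simp
  | succ n ih =>
    rw [iterate_succ_apply', ih, iterate_succ_apply', sum_range_succ]
    unfold skew
    simp only [add_assoc]

theorem Trans.skew [Fintype Q] {m : ℕ} [NeZero m] {T : Q → Q} (h : Trans T) (g : Q → ZMod m)
    (hu : IsUnit (∑ q, g q)) : Trans (skew T g) := by
  rintro ⟨a, x⟩ ⟨b, y⟩
  obtain ⟨j, hj⟩ := h a b
  obtain ⟨u, hu⟩ := hu
  have hper : ∀ z, (LAR.skew T g)^[minimalPeriod T b] (b, z) = (b, z + u) := by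
    intro z
    rw [skew_iter, h.sum g b, hu, iterate_minimalPeriod]
  have hmul : ∀ (n : ℕ) z, (LAR.skew T g)^[minimalPeriod T b * n] (b, z) = (b, z + n * u) := by
    intro n
    induction n with
    | zero => intro z; simp
    | succ n ih =>
      intro z
      rw [Nat.mul_succ, Nat.add_comm, iterate_add_apply, ih, hper]
      push_cast
      congr 1
      ring
  have h1 := skew_iter T g a x j
  rw [hj] at h1
  set x' := x + ∑ i ∈ range j, g (T^[i] a)
  refine ⟨minimalPeriod T b * ((y - x') * ((u⁻¹ : (ZMod m)ˣ) : ZMod m)).val + j, ?_⟩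
  rw [iterate_add_apply, h1, hmul, ZMod.natCast_zmod_val, mul_assoc, Units.inv_mul, mul_one]
  congr 1
  ring

end skew

section tower

variable {m : ℕ}

/-- Extension by zero. -/
def ext0 {j : ℕ} (q : Fin j → ZMod m) (k : ℕ) : ZMod m := if h : k < j then q ⟨k, h⟩ else 0

/-- Truncation. -/
def trunc (j : ℕ) (f : ℕ → ZMod m) (k : ℕ) : ZMod m := if k < j then f k else 0

/-- The triangular map. -/
def tow (G : ℕ → (ℕ → ZMod m) → ZMod m) (j : ℕ) (q : Fin j → ZMod m) (i : Fin j) : ZMod m :=
  q i + G i (trunc i (ext0 q))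

theorem trunc_ext0_init {j : ℕ} (q : Fin (j + 1) → ZMod m) {i : ℕ} (hi : i ≤ j) :
    trunc i (ext0 q) = trunc i (ext0 (Fin.init q)) := by
  funext k
  unfold trunc ext0
  by_cases hk : k < i
  · rw [if_pos hk, if_pos hk, dif_pos (by omega), dif_pos (by omega)]
    rfl
  · rw [if_neg hk, if_neg hk]

theorem trunc_ext0 {j : ℕ} (q : Fin j → ZMod m) : trunc j (ext0 q) = ext0 q := by
  funext k
  unfold trunc ext0
  by_cases hk : k < j
  · rw [if_pos hk]
  · rw [if_neg hk, dif_neg hk]

theorem tow_trans [NeZero m] (G : ℕ → (ℕ → ZMod m) → ZMod m) (r : ℕ)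
    (hG : ∀ i < r, IsUnit (∑ q : Fin i → ZMod m, G i (ext0 q))) :
    ∀ j ≤ r, Trans (tow G j) := by
  intro j
  induction j with
  | zero =>
    intro _ a b
    exact ⟨0, Subsingleton.elim _ _⟩
  | succ j ih =>
    intro hj
    have h1 := (ih (by omega)).skew (fun q => G j (ext0 q)) (hG j (by omega))
    let π : (Fin (j + 1) → ZMod m) → (Fin j → ZMod m) × ZMod m :=
      fun q => (Fin.init q, q (Fin.last j))
    have hπ : Injective π := by
      intro q q' h
      have h2 : Fin.init q = Fin.init q' := congrArg Prod.fst h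
      have h3 : q (Fin.last j) = q' (Fin.last j) := congrArg Prod.snd h
      rw [← Fin.snoc_init_self q, ← Fin.snoc_init_self q', h2, h3]
    have hsemi : Semiconj π (tow G (j + 1)) (skew (tow G j) (fun q => G j (ext0 q))) := by
      intro q
      refine Prod.ext ?_ ?_
      · funext i
        show q i.castSucc + G i.castSucc (trunc i.castSucc (ext0 q)) =
          Fin.init q i + G i (trunc i (ext0 (Fin.init q)))
        rw [show ((i.castSucc : Fin (j + 1)) : ℕ) = (i : ℕ) from rfl,
          trunc_ext0_init q (i := (i : ℕ)) (by omega)]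
        rfl
      · show q (Fin.last j) + G (Fin.last j : Fin (j + 1)) (trunc (Fin.last j : Fin (j + 1))
          (ext0 q)) = q (Fin.last j) + G j (ext0 (Fin.init q))
        rw [show ((Fin.last j : Fin (j + 1)) : ℕ) = j from rfl,
          trunc_ext0_init q (i := j) le_rfl, trunc_ext0]
    intro a b
    obtain ⟨n, hn⟩ := h1 (π a) (π b)
    refine ⟨n, hπ ?_⟩
    rw [hsemi.iterate_right n a, hn]

end tower

end Pool.Agent.V5helper6.LAR
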