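import Pool.Agent.V5helper6.LAR.Uniq

set_option autoImplicit false

/-!
Commuting sets in an elementary abelian group of order `q²`.
-/

namespace Pool.Agent.V5helper6.LAR

open Finset SimpleGraph H931R3.LA Pool.Agent.W111.LAR Pool.Agent.TH486.LAC Pool.Agent.Y59.LA
open Pool.Agent.Y647.LAC (LW)

variable {Γ : Type} [Group Γ] {T : Finset Γ} {p : ℕ} {π : Equiv.Perm T} {w : T}

/-- Three elements of order three in a group of order nine. -/
theorem lw_nine [Finite Γ] [DecidableEq Γ] {k l c : Γ} (hkl : Commute k l) (hk : k ^ 3 = 1)
    (hl : l ^ 3 = 1) (hc3 : c ^ 3 = 1) (hk1 : k ≠ 1) (hlk : l ∉ Subgroup.zpowers k)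
    (hc : c ∈ (Subgroup.closure {k, l} : Subgroup Γ)) (hck : c ∉ Subgroup.zpowers k)
    (hcl : c ∉ Subgroup.zpowers l) : LW (cayG {k, l, c}) 3 (6 / (3 : ℝ) ^ 2) := by
  have main : ∀ k l c : Γ, Commute k l → k ^ 3 = 1 → l ^ 3 = 1 → k ≠ 1 → l ∉ Subgroup.zpowers k →
      (c = k * l ∨ c⁻¹ = k * l) → LW (cayG {k, l, c}) 3 (6 / (3 : ℝ) ^ 2) := by
    intro k l c hkl hk hl hk1 hlk hc
    have h1 := lw_torus9 hkl hk hl hk1 hlk
    have hl1 : l ≠ 1 := fun h => hlk (h ▸ one_mem _)
    have hcard : ({k, l, k * l} : Finset Γ).card = 3 := by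
      rw [card_insert_of_notMem, card_pair]
      · intro h
        exact hk1 (by simpa using h.symm)
      · rw [mem_insert, mem_singleton]
        rintro (h | h)
        · exact hlk (h ▸ Subgroup.mem_zpowers k)
        · exact hl1 (by simpa using h.symm)
    rw [hcard] at h1
    have h2 : cayG {k, l, c} = cayG {k, l, k * l} := by
      apply cayG_congr
      · intro s hs
        rw [mem_insert, mem_insert, mem_singleton] at hs
        rcases hs with rfl | rfl | rfl
        · left; simp
        · left; simp
        · rcases hc with hc | hc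
          · left; rw [hc]; simp
          · right; rw [hc]; simp
      · intro s hs
        rw [mem_insert, mem_insert, mem_singleton] at hs
        rcases hs with rfl | rfl | rfl
        · left; simp
        · left; simp
        · rcases hc with hc | hc
          · left; rw [← hc]; simp
          · right
            rw [← hc, inv_inv]; simp
    rw [h2]
    exact h1
  obtain ⟨i, j, hij⟩ := mem_closure_comm hkl hc
  have hi : l ^ i = l ^ (i % 3) := by
    conv_lhs => rw [← Nat.mod_add_div i 3, pow_add, pow_mul, hl, one_pow, mul_one]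
  have hj : k ^ j = k ^ (j % 3) := by
    conv_lhs => rw [← Nat.mod_add_div j 3, pow_add, pow_mul, hk, one_pow, mul_one]
  rw [hi, hj] at hij
  have hi3 : i % 3 < 3 := Nat.mod_lt _ (by norm_num)
  have hj3 : j % 3 < 3 := Nat.mod_lt _ (by norm_num)
  generalize i % 3 = i' at hij hi3
  generalize j % 3 = j' at hij hj3
  have hk2 : k ^ 2 = k⁻¹ := by
    rw [eq_inv_iff_mul_eq_one, ← pow_succ]; exact hk
  have hl2 : l ^ 2 = l⁻¹ := by
    rw [eq_inv_iff_mul_eq_one, ← pow_succ]; exact hl
  have hi0 : i' ≠ 0 := by
    rintro rfl
    rw [pow_zero, one_mul] at hij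
    exact hck (hij ▸ pow_mem (Subgroup.mem_zpowers k) _)
  have hj0 : j' ≠ 0 := by
    rintro rfl
    rw [pow_zero, mul_one] at hij
    exact hcl (hij ▸ pow_mem (Subgroup.mem_zpowers l) _)
  have hinv : cayG {k, l, c} = cayG {k⁻¹, l, c} := by
    apply cayG_congr
    · intro s hs
      rw [mem_insert, mem_insert, mem_singleton] at hs
      rcases hs with rfl | rfl | rfl
      · right; simp
      · left; simp
      · left; simp
    · intro s hs
      rw [mem_insert, mem_insert, mem_singleton] at hs
      rcases hs with rfl | rfl | rfl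
      · right; simp
      · left; simp
      · left; simp
  have hcases : (i' = 1 ∨ i' = 2) ∧ (j' = 1 ∨ j' = 2) := by omega
  rcases hcases with ⟨rfl | rfl, rfl | rfl⟩
  · refine main k l c hkl hk hl hk1 hlk (Or.inl ?_)
    rw [hij, pow_one, pow_one, hkl.eq]
  · rw [hinv]
    refine main k⁻¹ l c hkl.inv_left (by rw [inv_pow, hk, inv_one]) hl (by simpa using hk1)
      (by rwa [Subgroup.zpowers_inv]) (Or.inl ?_)
    rw [hij, pow_one, hk2, hkl.inv_left.eq]
  · rw [hinv]
    refine main k⁻¹ l c hkl.inv_left (by rw [inv_pow, hk, inv_one]) hl (by simpa using hk1)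
      (by rwa [Subgroup.zpowers_inv]) (Or.inr ?_)
    rw [hij, pow_one, hl2, mul_inv_rev, inv_inv]
  · refine main k l c hkl hk hl hk1 hlk (Or.inr ?_)
    rw [hij, hk2, hl2, mul_inv_rev, inv_inv, inv_inv]

theorem Setup.done_sq [Finite Γ] [DecidableEq Γ] (S : Setup T p) (O : OneFix T p π w) {q : ℕ}
    (hq : q.Prime) (hpq : p ≤ q) (hlt : q < p ^ 2) {a b : T} (haq : orderOf a.1 = q)
    (hbq : orderOf b.1 = q) (hE : ∀ k : T, k.1 ∈ (Subgroup.closure {a.1, b.1} : Subgroup Γ))
    (hba : b.1 ∉ Subgroup.zpowers a.1) : Done T := by
  have hp := S.hp3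
  have hq0 : 0 < q := hq.pos
  have hab : Commute a.1 b.1 := S.comm _ a.2 _ b.2
  have ha : a.1 ^ q = 1 := by rw [← haq]; exact pow_orderOf_eq_one _
  have hb : b.1 ^ q = 1 := by rw [← hbq]; exact pow_orderOf_eq_one _
  have hpow : ∀ k : T, k.1 ^ q = 1 := fun k => pow_mem_closure hab ha hb (hE k)
  have hord : ∀ k : T, orderOf k.1 = q := by
    intro k
    have : Fact q.Prime := ⟨hq⟩
    exact orderOf_eq_prime (hpow k) (S.ne_one k)
  have hnot : ∀ k l : T, p ^ 2 ≤ gn k.1 l.1 → l.1 ∉ Subgroup.zpowers k.1 := by
    intro k l h1 h2
    have h3 : gn k.1 l.1 ≤ orderOf k.1 := by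
      unfold gn
      rw [← Nat.card_zpowers]
      refine Subgroup.card_le_of_le ?_
      rw [Subgroup.closure_le]
      rintro x (rfl | hx)
      · exact Subgroup.mem_zpowers _
      · rw [Set.mem_singleton_iff] at hx
        rw [hx]; exact h2
    rw [hord] at h3
    omega
  have hgq : ∀ k : T, k ≠ w → q ^ 2 ≤ gn k.1 (π k).1 := fun k hk =>
    sq_le_gn hq (S.comm _ k.2 _ (π k).2) (hpow k) (hpow _) (S.ne_one k)
      (hnot _ _ (O.good' hk))
  by_cases h1 : 2 * q + 2 * T.card ≤ q ^ 2 + 2
  · refine ⟨_, ?_, S.lw T (Subset.refl T) π O.gi⟩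
    refine (Setup.load_one T π (N := q ^ 2) (M := q) (by positivity) hq0 w ?_ hgq).trans ?_
    · rw [O.self, gn_self, hord]
    · have hq0' : (0 : ℝ) < q := by exact_mod_cast hq0
      have h2 : (2 * q + 2 * T.card : ℝ) ≤ (q : ℝ) ^ 2 + 2 := by exact_mod_cast h1
      push_cast
      have h3 : (2 : ℝ) / q + (T.card - 1) * (2 / (q : ℝ) ^ 2) =
          (2 * q + 2 * (T.card - 1)) / (q : ℝ) ^ 2 := by
        field_simp
      rw [h3, div_le_one (by positivity)]
      linarith
  · have h1 := not_le.1 h1
    have hcard := S.card
    have hqp : q = p := by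
      by_contra hne
      have h2 : p + 1 ≤ q := by omega
      obtain ⟨e, rfl⟩ : ∃ e, q = e + 1 := ⟨q - 1, by omega⟩
      have h3 : p ^ 2 ≤ e ^ 2 := Nat.pow_le_pow_left (by omega) 2
      nlinarith
    subst hqp
    have hodd := O.odd
    rcases Nat.lt_or_ge q 5 with h5 | h5
    · -- `q = 3`
      have hq3 : q = 3 := by
        interval_cases q
        · rfl
        · exact absurd hq (by norm_num)
      subst hq3
      have hT3 : T.card = 3 := by omega
      -- a pair
      obtain ⟨k, hk⟩ : ∃ k : T, k ≠ w := by
        by_contra hcon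
        push Not at hcon
        rcases eq_or_ne a w with h | h
        · have := hcon b
          apply hba
          rw [this, h]
          exact Subgroup.mem_zpowers _
        · exact h (hcon a)
      have hk1 : π k ≠ k := fun h => hk ((O.fix k).1 h)
      have hk2 : π k ≠ w := fun h => hk (by rw [← O.gi k, h, O.self])
      have hsubE : (Subgroup.closure {k.1, (π k).1} : Subgroup Γ) =
          Subgroup.closure {a.1, b.1} := by
        apply Subgroup.eq_of_le_of_card_ge
        · rw [Subgroup.closure_le]
          rintro x (rfl | hx)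
          · exact hE k
          · rw [Set.mem_singleton_iff] at hx
            rw [hx]; exact hE _
        · exact (gn_le_sq hq0 hab ha hb).trans (hgq k hk)
      have hself : ∀ x y : T, x ≠ y → y.1 ∉ Subgroup.zpowers x.1 := by
        intro x y hxy hy
        obtain ⟨m, hm⟩ := Subgroup.mem_zpowers_iff.1 hy
        have h2 : x.1 ^ m = x.1 ^ (m % 3) := by
          rw [← zpow_mod_orderOf, hord]
          norm_num
        have h3 : m % 3 = 0 ∨ m % 3 = 1 ∨ m % 3 = 2 := by omega
        rw [h2] at hm
        rcases h3 with h3 | h3 | h3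
        · rw [h3, zpow_zero] at hm
          exact S.ne_one y hm.symm
        · rw [h3, zpow_one] at hm
          exact hxy (Subtype.ext hm)
        · rw [h3] at hm
          have h4 : x.1 ^ (2 : ℤ) = (x.1)⁻¹ := by
            have h5 : x.1 ^ (2 : ℤ) = x.1 ^ 2 := by norm_cast
            rw [h5, eq_inv_iff_mul_eq_one, ← pow_succ]
            exact hpow x
          rw [h4] at hm
          exact S.inv _ x.2 (hm ▸ y.2)
      have hlw := lw_nine (k := k.1) (l := (π k).1) (c := w.1) (S.comm _ k.2 _ (π k).2) (hpow k)
        (hpow _) (hpow w) (S.ne_one k) (hself k (π k) (Ne.symm hk1)) (by rw [hsubE]; exact hE w)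
        (hself k w hk) (hself (π k) w hk2)
      have hset : ({k.1, (π k).1, w.1} : Finset Γ) = T := by
        apply eq_of_subset_of_card_le
        · intro x hx
          rw [mem_insert, mem_insert, mem_singleton] at hx
          rcases hx with rfl | rfl | rfl
          · exact k.2
          · exact (π k).2
          · exact w.2
        · rw [hT3, card_insert_of_notMem, card_pair]
          · exact fun h => hk2 (Subtype.ext h)
          · rw [mem_insert, mem_singleton]
            rintro (h | h)
            · exact hk1 (Subtype.ext h.symm)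
            · exact hk (Subtype.ext h)
      rw [hset] at hlw
      refine ⟨_, ?_, by rw [hT3]; exact hlw⟩
      norm_num
    · -- `5 ≤ q`
      have hEcard : gn a.1 b.1 ≤ q ^ 2 := gn_le_sq hq0 hab ha hb
      -- an element and its cube
      obtain ⟨s, v, hsv⟩ : ∃ s v : T, v.1 = s.1 ^ 3 ∨ (v.1)⁻¹ = s.1 ^ 3 := by
        by_contra hcon
        push Not at hcon
        set S' : Finset Γ := T ∪ T.image (fun x => x⁻¹) with hS'
        have hdis : Disjoint T (T.image (fun x => x⁻¹)) := by
          rw [Finset.disjoint_left]
          intro x hx hx'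
          obtain ⟨y, hy, rfl⟩ := mem_image.1 hx'
          exact S.inv y hy hx
        have hS'c : S'.card = 2 * T.card := by
          rw [hS', card_union_of_disjoint hdis, card_image_of_injective _ inv_injective]
          ring
        have hS'E : ∀ x ∈ S', x ∈ (Subgroup.closure {a.1, b.1} : Subgroup Γ) := by
          intro x hx
          rcases mem_union.1 hx with h | h
          · exact hE ⟨x, h⟩
          · obtain ⟨y, hy, rfl⟩ := mem_image.1 h
            exact inv_mem (hE ⟨y, hy⟩)
        have hS'1 : ∀ x ∈ S', x ≠ 1 := by
          intro x hx h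
          rcases mem_union.1 hx with h' | h'
          · exact S.one (h ▸ h')
          · obtain ⟨y, hy, rfl⟩ := mem_image.1 h'
            exact S.one ((inv_eq_one.1 h) ▸ hy)
        have hS'comm : ∀ x ∈ S', ∀ y ∈ S', Commute x y := by
          intro x hx y hy
          rcases mem_union.1 hx with h | h <;> rcases mem_union.1 hy with h' | h'
          · exact S.comm x h y h'
          · obtain ⟨y, hy2, rfl⟩ := mem_image.1 h'
            exact (S.comm x h y hy2).inv_right
          · obtain ⟨x, hx2, rfl⟩ := mem_image.1 h
            exact (S.comm x hx2 y h').inv_left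
          · obtain ⟨x, hx2, rfl⟩ := mem_image.1 h
            obtain ⟨y, hy2, rfl⟩ := mem_image.1 h'
            exact (S.comm x hx2 y hy2).inv_inv
        have hcop : ∀ z : Γ, z ^ q = 1 → z ^ 3 = 1 → z = 1 := by
          intro z h2 h3
          have e1 := orderOf_dvd_of_pow_eq_one h2
          have e2 := orderOf_dvd_of_pow_eq_one h3
          rcases (Nat.dvd_prime hq).1 e1 with e3 | e3
          · exact orderOf_eq_one_iff.1 e3
          · rw [e3] at e2
            have := Nat.le_of_dvd (by norm_num) e2
            omega
        have hinj : Set.InjOn (fun x : Γ => x ^ 3) S' := by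
          intro x hx y hy hxy
          have hc := (hS'comm x hx y hy).inv_right
          have e1 : (x * y⁻¹) ^ 3 = 1 := by
            rw [hc.mul_pow, inv_pow]
            have hxy : x ^ 3 = y ^ 3 := hxy
            rw [hxy, mul_inv_cancel]
          have e2 : (x * y⁻¹) ^ q = 1 := by
            rw [hc.mul_pow, inv_pow, pow_mem_closure hab ha hb (hS'E x hx),
              pow_mem_closure hab ha hb (hS'E y hy), inv_one, mul_one]
          have e3 := hcop _ e2 e1
          rwa [mul_inv_eq_one] at e3
        have hdis2 : Disjoint S' (S'.image (fun x => x ^ 3)) := by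
          rw [Finset.disjoint_left]
          intro y hy hy'
          obtain ⟨x, hx, hxy⟩ := mem_image.1 hy'
          have hxy : x ^ 3 = y := hxy
          -- the element
          obtain ⟨s, hs⟩ : ∃ s : T, x = s.1 ∨ x = (s.1)⁻¹ := by
            rcases mem_union.1 hx with h | h
            · exact ⟨⟨x, h⟩, Or.inl rfl⟩
            · obtain ⟨z, hz, rfl⟩ := mem_image.1 h
              exact ⟨⟨z, hz⟩, Or.inr rfl⟩
          obtain ⟨v, hv⟩ : ∃ v : T, y = v.1 ∨ y = (v.1)⁻¹ := by
            rcases mem_union.1 hy with h | h
            · exact ⟨⟨y, h⟩, Or.inl rfl⟩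
            · obtain ⟨z, hz, rfl⟩ := mem_image.1 h
              exact ⟨⟨z, hz⟩, Or.inr rfl⟩
          obtain ⟨e1, e2⟩ := hcon s v
          rcases hs with rfl | rfl <;> rcases hv with rfl | rfl
          · exact e1 hxy.symm
          · exact e2 hxy.symm
          · apply e2
            rw [← hxy, inv_pow, inv_inv]
          · apply e1
            rw [inv_pow] at hxy
            exact (inv_injective hxy).symm
        have hsub : ((insert 1 (S' ∪ S'.image (fun x => x ^ 3)) : Finset Γ) : Set Γ) ⊆
            ((Subgroup.closure {a.1, b.1} : Subgroup Γ) : Set Γ) := by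
          intro x hx
          rw [mem_coe, mem_insert, mem_union] at hx
          rcases hx with rfl | h | h
          · exact one_mem _
          · exact hS'E x h
          · obtain ⟨y, hy, rfl⟩ := mem_image.1 h
            exact pow_mem (hS'E y hy) 3
        have e1 := Set.ncard_le_ncard hsub (Set.toFinite _)
        rw [Set.ncard_coe_finset] at e1
        have e2 : ((Subgroup.closure {a.1, b.1} : Subgroup Γ) : Set Γ).ncard = gn a.1 b.1 := rfl
        rw [e2, card_insert_of_notMem, card_union_of_disjoint hdis2, card_image_of_injOn hinj,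
          hS'c] at e1
        · have e3 := e1.trans hEcard
          nlinarith
        · rw [mem_union]
          rintro (h | h)
          · exact hS'1 1 h rfl
          · obtain ⟨y, hy, hy'⟩ := mem_image.1 h
            exact hS'1 y hy (hcop y (pow_mem_closure hab ha hb (hS'E y hy)) hy')
      have hvs : v ≠ s := by
        rintro rfl
        rcases hsv with h | h
        · have h2 : v.1 ^ 2 = 1 := by
            have e : v.1 ^ 3 = v.1 * v.1 ^ 2 := by rw [← pow_succ']
            rw [e] at h
            exact (mul_eq_left.1 h.symm)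
          have h3 := orderOf_dvd_of_pow_eq_one h2
          rw [hord] at h3
          have := Nat.le_of_dvd (by norm_num) h3
          omega
        · have h2 : v.1 ^ 4 = 1 := by
            rw [pow_succ, ← h, inv_mul_cancel]
          have h3 := orderOf_dvd_of_pow_eq_one h2
          rw [hord] at h3
          have := Nat.le_of_dvd (by norm_num) h3
          omega
      have hvz : v.1 ∈ Subgroup.zpowers s.1 := by
        rcases hsv with h | h
        · rw [h]; exact pow_mem (Subgroup.mem_zpowers _) 3
        · rw [← inv_inv v.1, h]; exact inv_mem (pow_mem (Subgroup.mem_zpowers _) 3)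
      obtain ⟨c, hc⟩ : ∃ c : T, c.1 ∉ Subgroup.zpowers s.1 := by
        by_contra hcon
        push Not at hcon
        have h2 := zp_eq (S.ne_one a) (by rw [hord]; exact hq) (hcon a)
        exact hba ((Subgroup.zpowers_le.2 h2) (hcon b))
      have hcs : c ≠ s := fun h => hc (h ▸ Subgroup.mem_zpowers _)
      have hcv : c ≠ v := fun h => hc (h ▸ hvz)
      have htri := lw_torus5 hq h5 (S.comm _ s.2 _ c.2) (hpow s) (hpow c) (S.ne_one s) hc
      have hcay : cayG {s.1, s.1 ^ 3, c.1} = cayG {s.1, v.1, c.1} := by
        apply cayG_congr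
        · intro x hx
          rw [mem_insert, mem_insert, mem_singleton] at hx
          rcases hx with rfl | rfl | rfl
          · left; simp
          · rcases hsv with h | h
            · left; rw [← h]; simp
            · right; rw [← h, inv_inv]; simp
          · left; simp
        · intro x hx
          rw [mem_insert, mem_insert, mem_singleton] at hx
          rcases hx with rfl | rfl | rfl
          · left; simp
          · rcases hsv with h | h
            · left; rw [h]; simp
            · right; rw [h]; simp
          · left; simp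
      have hcard3 : ({s.1, v.1, c.1} : Finset Γ).card = 3 := by
        rw [card_insert_of_notMem, card_pair]
        · exact fun h => hcv (Subtype.ext h.symm)
        · rw [mem_insert, mem_singleton]
          rintro (h | h)
          · exact hvs (Subtype.ext h.symm)
          · exact hcs (Subtype.ext h.symm)
      have hcard3' : ({s.1, s.1 ^ 3, c.1} : Finset Γ).card = 3 := by
        have h3 : s.1 ^ 3 ∈ Subgroup.zpowers s.1 := pow_mem (Subgroup.mem_zpowers _) 3
        rw [card_insert_of_notMem, card_pair]
        · exact fun h => hc (h ▸ h3)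
        · rw [mem_insert, mem_singleton]
          rintro (h | h)
          · have h2 : s.1 ^ 2 = 1 := by
              have e : s.1 ^ 3 = s.1 * s.1 ^ 2 := by rw [← pow_succ']
              rw [e] at h
              exact (mul_eq_left.1 h.symm)
            have h4 := orderOf_dvd_of_pow_eq_one h2
            rw [hord] at h4
            have := Nat.le_of_dvd (by norm_num) h4
            omega
          · exact hcs (Subtype.ext h.symm)
      rw [hcay, hcard3', ← hcard3] at htri
      have hsub : ({s.1, v.1, c.1} : Finset Γ) ⊆ T := by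
        intro x hx
        rw [mem_insert, mem_insert, mem_singleton] at hx
        rcases hx with rfl | rfl | rfl
        · exact s.2
        · exact v.2
        · exact c.2
      set R : Finset Γ := T \ {s.1, v.1, c.1} with hR
      have hRT : R ⊆ T := sdiff_subset
      have hRc : R.card = T.card - 3 := by
        rw [hR, card_sdiff_of_subset hsub, hcard3]
      have hT3 : 3 ≤ T.card := by rw [← hcard3]; exact card_le_card hsub
      obtain ⟨ρ, r1, r2, r3, r4⟩ := exists_mm (κ := R) (fun k l => q ^ 2 ≤ gn k.1 l.1)
        (fun a b h => by rw [gn_comm]; exact h)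
      have hatmost : ∀ u v, ρ u = u → ρ v = v → u = v := by
        intro u v hu hv
        refine mm_dirac (good := fun k l : R => q ^ 2 ≤ gn k.1 l.1) r1 r3 r4 ?_ hu hv
        intro k B hB
        rw [Fintype.card_coe, hRc]
        have hk1 : k.1 ≠ 1 := S.ne_one ⟨k.1, hRT k.2⟩
        have e1 := half_bound (Subgroup.zpowers k.1) ((insert k B).image Subtype.val) (by
          intro x hx
          obtain ⟨l, hl, rfl⟩ := mem_image.1 hx
          rcases mem_insert.1 hl with h | h
          · rw [h]; exact Subgroup.mem_zpowers _
          · have h2 := (hB l h).2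
            exact (S.bad hk1 (not_le.1 h2)).2.2) (by
          intro x hx hx'
          obtain ⟨l, hl, rfl⟩ := mem_image.1 hx
          obtain ⟨m, hm, hm'⟩ := mem_image.1 hx'
          exact S.inv l.1 (hRT l.2) (hm' ▸ hRT m.2)) (by
          intro hx
          obtain ⟨l, hl, hl'⟩ := mem_image.1 hx
          exact S.ne_one ⟨l.1, hRT l.2⟩ hl')
        rw [card_image_of_injective _ Subtype.val_injective, Nat.card_zpowers,
          hord ⟨k.1, hRT k.2⟩, card_insert_of_notMem (fun h => (hB k h).1 rfl)] at e1
        have e2 : q + 1 ≤ T.card := by nlinarith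
        omega
      have hnofix : ∀ k, ρ k ≠ k := by
        intro k hk
        have e1 := invol_parity ρ r1
        rw [Fintype.card_coe, hRc] at e1
        have e2 : (univ.filter (fun k => ρ k = k)) = {k} := by
          ext l
          rw [mem_filter, mem_singleton]
          constructor
          · rintro ⟨_, h⟩
            exact hatmost l k h hk
          · rintro rfl
            exact ⟨mem_univ _, hk⟩
        rw [e2, card_singleton] at e1
        omega
      have hlw := S.lw R hRT ρ r1
      have hload := Setup.load_le R ρ (N := q ^ 2) (by positivity) (fun k => r2 k (hnofix k))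
      have h3 := lw_union (A := {s.1, v.1, c.1}) (B := R) disjoint_sdiff htri hlw
      have hRu : {s.1, v.1, c.1} ∪ R = T := union_sdiff_of_subset hsub
      rw [hRu] at h3
      refine ⟨_, ?_, h3⟩
      rw [hRc, Nat.cast_sub hT3] at hload
      have h7 : (2 * T.card : ℝ) ≤ (q : ℝ) ^ 2 := by exact_mod_cast hcard.le
      have h8 : (0 : ℝ) < (q : ℝ) ^ 2 := by positivity
      push_cast at hload
      have h9 : (6 : ℝ) / (q : ℝ) ^ 2 + ((T.card : ℝ) - 3) * (2 / (q : ℝ) ^ 2) ≤ 1 := by
        have e : (6 : ℝ) / (q : ℝ) ^ 2 + ((T.card : ℝ) - 3) * (2 / (q : ℝ) ^ 2) =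
            (2 * T.card) / (q : ℝ) ^ 2 := by ring
        rw [e, div_le_one h8]
        exact h7
      linarith

end Pool.Agent.V5helper6.LAR
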