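import Pool.Agent.V5helper6.LAR.Torus

set_option autoImplicit false

/-!
Exchanges of edges on squares of the product of a cycle with the union of two Hamilton cycles.
-/

namespace Pool.Agent.V5helper6.LAR

open SimpleGraph

section hor

variable {Y : Type} {N : ℕ} (κ : Equiv.Perm Y) (γ : Y → Option (ZMod N))

open Classical in
/-- The forward port. -/
noncomputable def fw (v : Y × ZMod N) : Y × ZMod N :=
  if γ v.1 = some v.2 then (v.1, v.2 + 1)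
  else if γ v.1 = some (v.2 - 1) then (v.1, v.2 - 1) else (κ v.1, v.2)

open Classical in
/-- The backward port. -/
noncomputable def bw (v : Y × ZMod N) : Y × ZMod N :=
  if γ (κ.symm v.1) = some v.2 then (v.1, v.2 + 1)
  else if γ (κ.symm v.1) = some (v.2 - 1) then (v.1, v.2 - 1) else (κ.symm v.1, v.2)

variable {κ γ}

theorem fw_1 {y : Y} {t : ZMod N} (h : γ y = some t) : fw κ γ (y, t) = (y, t + 1) := by
  unfold fw; rw [if_pos h]

theorem fw_2 [Fact (1 < N)] {y : Y} {t : ZMod N} (h : γ y = some t) :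
    fw κ γ (y, t + 1) = (y, t) := by
  have h1 : γ y ≠ some (t + 1) := by
    rw [h]
    intro h
    exact one_ne_zero (α := ZMod N) (by have := Option.some_injective _ h; linear_combination -this)
  unfold fw
  simp only [if_neg h1, add_sub_cancel_right, if_pos h]

theorem fw_3 {y : Y} {t : ZMod N} (h : γ y ≠ some t) (h' : γ y ≠ some (t - 1)) :
    fw κ γ (y, t) = (κ y, t) := by
  unfold fw; rw [if_neg h, if_neg h']

theorem bw_1 {y : Y} {t : ZMod N} (h : γ y = some t) : bw κ γ (κ y, t) = (κ y, t + 1) := by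
  unfold bw
  simp only [Equiv.symm_apply_apply, if_pos h]

theorem bw_2 [Fact (1 < N)] {y : Y} {t : ZMod N} (h : γ y = some t) :
    bw κ γ (κ y, t + 1) = (κ y, t) := by
  have h1 : γ y ≠ some (t + 1) := by
    rw [h]
    intro h
    exact one_ne_zero (α := ZMod N) (by have := Option.some_injective _ h; linear_combination -this)
  unfold bw
  simp only [Equiv.symm_apply_apply, if_neg h1, add_sub_cancel_right, if_pos h]

theorem bw_3 {y : Y} {t : ZMod N} (h : γ y ≠ some t) (h' : γ y ≠ some (t - 1)) :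
    bw κ γ (κ y, t) = (y, t) := by
  unfold bw
  simp only [Equiv.symm_apply_apply, if_neg h, if_neg h']

theorem ports_hor [Fact (1 < N)] : Ports (fw κ γ) (bw κ γ) := by
  constructor
  · rintro ⟨y, t⟩
    by_cases h : γ y = some t
    · left; rw [fw_1 h, fw_2 h]
    · by_cases h' : γ y = some (t - 1)
      · left
        have e : t = t - 1 + 1 := by ring
        have h2 : fw κ γ (y, t) = (y, t - 1) := by
          conv_lhs => rw [e]
          exact fw_2 h'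
        rw [h2, fw_1 h', ← e]
      · right
        rw [fw_3 h h', bw_3 h h']
  · rintro ⟨y, t⟩
    obtain ⟨x, rfl⟩ := κ.surjective y
    by_cases h : γ x = some t
    · right; rw [bw_1 h, bw_2 h]
    · by_cases h' : γ x = some (t - 1)
      · right
        have e : t = t - 1 + 1 := by ring
        have h2 : bw κ γ (κ x, t) = (κ x, t - 1) := by
          conv_lhs => rw [e]
          exact bw_2 h'
        rw [h2, bw_1 h', ← e]
      · left
        rw [bw_3 h h', fw_3 h h']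

end hor

section ver

variable {Y : Type} {N : ℕ} (ρ : ZMod N → Y → Y)

open Classical in
/-- The upper port. -/
noncomputable def upp (v : Y × ZMod N) : Y × ZMod N :=
  if ρ v.2 v.1 = v.1 then (v.1, v.2 + 1) else (ρ v.2 v.1, v.2)

open Classical in
/-- The lower port. -/
noncomputable def dnn (v : Y × ZMod N) : Y × ZMod N :=
  if ρ (v.2 - 1) v.1 = v.1 then (v.1, v.2 - 1) else (ρ (v.2 - 1) v.1, v.2)

variable {ρ}

theorem upp_1 {y : Y} {t : ZMod N} (h : ρ t y = y) : upp ρ (y, t) = (y, t + 1) := by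
  unfold upp; rw [if_pos h]

theorem upp_2 {y : Y} {t : ZMod N} (h : ρ t y ≠ y) : upp ρ (y, t) = (ρ t y, t) := by
  unfold upp; rw [if_neg h]

theorem dnn_1 {y : Y} {t : ZMod N} (h : ρ t y = y) : dnn ρ (y, t + 1) = (y, t) := by
  have e : t + 1 - 1 = t := by ring
  unfold dnn
  rw [if_pos (by rw [e]; exact h), e]

theorem dnn_2 {y : Y} {t : ZMod N} (h : ρ t y ≠ y) : dnn ρ (y, t + 1) = (ρ t y, t + 1) := by
  have e : t + 1 - 1 = t := by ring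
  unfold dnn
  rw [if_neg (by rw [e]; exact h), e]

theorem ports_ver (hρ : ∀ t y, ρ t (ρ t y) = y) : Ports (upp ρ) (dnn ρ) := by
  constructor
  · rintro ⟨y, t⟩
    by_cases h : ρ t y = y
    · right; rw [upp_1 h, dnn_1 h]
    · left
      have h' : ρ t (ρ t y) ≠ ρ t y := by rw [hρ]; exact Ne.symm h
      rw [upp_2 h, upp_2 h', hρ]
  · rintro ⟨y, t⟩
    obtain ⟨s, rfl⟩ : ∃ s, t = s + 1 := ⟨t - 1, by ring⟩
    by_cases h : ρ s y = y
    · left; rw [dnn_1 h, upp_1 h]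
    · right
      have h' : ρ s (ρ s y) ≠ ρ s y := by rw [hρ]; exact Ne.symm h
      rw [dnn_2 h, dnn_2 h', hρ]

end ver

section both

variable {Y : Type} {N : ℕ} (κ₁ κ₂ : Equiv.Perm Y) (γ₁ γ₂ : Y → Option (ZMod N))

open Classical in
/-- The exchanges of the vertical edges. -/
noncomputable def rho (t : ZMod N) (y : Y) : Y :=
  if γ₁ y = some t then κ₁ y else if γ₁ (κ₁.symm y) = some t then κ₁.symm y
  else if γ₂ y = some t then κ₂ y else if γ₂ (κ₂.symm y) = some t then κ₂.symm y else y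

/-- The squares are disjoint. -/
structure Compat : Prop where
  h12 : ∀ y t, γ₁ y = some t → γ₁ (κ₁.symm y) ≠ some t
  h13 : ∀ y t, γ₁ y = some t → γ₂ y ≠ some t
  h14 : ∀ y t, γ₁ y = some t → γ₂ (κ₂.symm y) ≠ some t
  h23 : ∀ y t, γ₁ (κ₁.symm y) = some t → γ₂ y ≠ some t
  h24 : ∀ y t, γ₁ (κ₁.symm y) = some t → γ₂ (κ₂.symm y) ≠ some t
  h34 : ∀ y t, γ₂ y = some t → γ₂ (κ₂.symm y) ≠ some t

variable {κ₁ κ₂ γ₁ γ₂}

theorem rho_1 {y : Y} {t : ZMod N} (h : γ₁ y = some t) : rho κ₁ κ₂ γ₁ γ₂ t y = κ₁ y := by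
  unfold rho; rw [if_pos h]

theorem Compat.rho_2 (hC : Compat κ₁ κ₂ γ₁ γ₂) {y : Y} {t : ZMod N}
    (h : γ₁ (κ₁.symm y) = some t) : rho κ₁ κ₂ γ₁ γ₂ t y = κ₁.symm y := by
  have h1 : γ₁ y ≠ some t := fun h' => hC.h12 y t h' h
  unfold rho; rw [if_neg h1, if_pos h]

theorem Compat.rho_3 (hC : Compat κ₁ κ₂ γ₁ γ₂) {y : Y} {t : ZMod N}
    (h : γ₂ y = some t) : rho κ₁ κ₂ γ₁ γ₂ t y = κ₂ y := by
  have h1 : γ₁ y ≠ some t := fun h' => hC.h13 y t h' h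
  have h2 : γ₁ (κ₁.symm y) ≠ some t := fun h' => hC.h23 y t h' h
  unfold rho; rw [if_neg h1, if_neg h2, if_pos h]

theorem Compat.rho_4 (hC : Compat κ₁ κ₂ γ₁ γ₂) {y : Y} {t : ZMod N}
    (h : γ₂ (κ₂.symm y) = some t) : rho κ₁ κ₂ γ₁ γ₂ t y = κ₂.symm y := by
  have h1 : γ₁ y ≠ some t := fun h' => hC.h14 y t h' h
  have h2 : γ₁ (κ₁.symm y) ≠ some t := fun h' => hC.h24 y t h' h
  have h3 : γ₂ y ≠ some t := fun h' => hC.h34 y t h' h
  unfold rho; rw [if_neg h1, if_neg h2, if_neg h3, if_pos h]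

theorem rho_5 {y : Y} {t : ZMod N} (h1 : γ₁ y ≠ some t) (h2 : γ₁ (κ₁.symm y) ≠ some t)
    (h3 : γ₂ y ≠ some t) (h4 : γ₂ (κ₂.symm y) ≠ some t) : rho κ₁ κ₂ γ₁ γ₂ t y = y := by
  unfold rho; rw [if_neg h1, if_neg h2, if_neg h3, if_neg h4]

/-- The five cases. -/
theorem Compat.cases (hC : Compat κ₁ κ₂ γ₁ γ₂) (y : Y) (t : ZMod N) :
    (γ₁ y = some t ∧ rho κ₁ κ₂ γ₁ γ₂ t y = κ₁ y) ∨
    (γ₁ (κ₁.symm y) = some t ∧ rho κ₁ κ₂ γ₁ γ₂ t y = κ₁.symm y) ∨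
    (γ₂ y = some t ∧ rho κ₁ κ₂ γ₁ γ₂ t y = κ₂ y) ∨
    (γ₂ (κ₂.symm y) = some t ∧ rho κ₁ κ₂ γ₁ γ₂ t y = κ₂.symm y) ∨
    rho κ₁ κ₂ γ₁ γ₂ t y = y := by
  by_cases h1 : γ₁ y = some t
  · exact Or.inl ⟨h1, rho_1 h1⟩
  by_cases h2 : γ₁ (κ₁.symm y) = some t
  · exact Or.inr (Or.inl ⟨h2, hC.rho_2 h2⟩)
  by_cases h3 : γ₂ y = some t
  · exact Or.inr (Or.inr (Or.inl ⟨h3, hC.rho_3 h3⟩))
  by_cases h4 : γ₂ (κ₂.symm y) = some t
  · exact Or.inr (Or.inr (Or.inr (Or.inl ⟨h4, hC.rho_4 h4⟩)))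
  exact Or.inr (Or.inr (Or.inr (Or.inr (rho_5 h1 h2 h3 h4))))

theorem Compat.invol (hC : Compat κ₁ κ₂ γ₁ γ₂) (t : ZMod N) (y : Y) :
    rho κ₁ κ₂ γ₁ γ₂ t (rho κ₁ κ₂ γ₁ γ₂ t y) = y := by
  rcases hC.cases y t with ⟨h, h'⟩ | ⟨h, h'⟩ | ⟨h, h'⟩ | ⟨h, h'⟩ | h'
  · rw [h', hC.rho_2 (by rw [Equiv.symm_apply_apply]; exact h), Equiv.symm_apply_apply]
  · rw [h', rho_1 h, Equiv.apply_symm_apply]
  · rw [h', hC.rho_4 (by rw [Equiv.symm_apply_apply]; exact h), Equiv.symm_apply_apply]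
  · rw [h', hC.rho_3 h, Equiv.apply_symm_apply]
  · rw [h', h']

variable (κ₁ κ₂ γ₁ γ₂)

/-- The three graphs. -/
noncomputable def GV : SimpleGraph (Y × ZMod N) :=
  PG (upp (rho κ₁ κ₂ γ₁ γ₂)) (dnn (rho κ₁ κ₂ γ₁ γ₂))

/-- The three graphs. -/
noncomputable def GH (κ : Equiv.Perm Y) (γ : Y → Option (ZMod N)) : SimpleGraph (Y × ZMod N) :=
  PG (fw κ γ) (bw κ γ)

/-- The arcs of the product. -/
def Arc (v w : Y × ZMod N) : Prop :=
  (w.1 = v.1 ∧ w.2 = v.2 + 1) ∨ (w.2 = v.2 ∧ (w.1 = κ₁ v.1 ∨ w.1 = κ₂ v.1))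

variable {κ₁ κ₂ γ₁ γ₂}

theorem Compat.union [Fact (1 < N)] (hC : Compat κ₁ κ₂ γ₁ γ₂) (v w : Y × ZMod N) :
    (GV κ₁ κ₂ γ₁ γ₂ ⊔ GH κ₁ γ₁ ⊔ GH κ₂ γ₂).Adj v w ↔
      v ≠ w ∧ (Arc κ₁ κ₂ v w ∨ Arc κ₁ κ₂ w v) := by
  have hpv : Ports (upp (rho κ₁ κ₂ γ₁ γ₂)) (dnn (rho κ₁ κ₂ γ₁ γ₂)) := ports_ver hC.invol
  have hp1 : Ports (fw κ₁ γ₁) (bw κ₁ γ₁) := ports_hor
  have hp2 : Ports (fw κ₂ γ₂) (bw κ₂ γ₂) := ports_hor
  have hrho : ∀ (t s : ZMod N) (y : Y), rho κ₁ κ₂ γ₁ γ₂ s y ≠ y →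
      Arc κ₁ κ₂ (y, t) (rho κ₁ κ₂ γ₁ γ₂ s y, t) ∨ Arc κ₁ κ₂ (rho κ₁ κ₂ γ₁ γ₂ s y, t) (y, t) := by
    intro t s y hne
    rcases hC.cases y s with ⟨_, h'⟩ | ⟨_, h'⟩ | ⟨_, h'⟩ | ⟨_, h'⟩ | h'
    · rw [h']
      exact Or.inl (Or.inr ⟨rfl, Or.inl rfl⟩)
    · rw [h']
      exact Or.inr (Or.inr ⟨rfl, Or.inl (κ₁.apply_symm_apply y).symm⟩)
    · rw [h']
      exact Or.inl (Or.inr ⟨rfl, Or.inr rfl⟩)
    · rw [h']
      exact Or.inr (Or.inr ⟨rfl, Or.inr (κ₂.apply_symm_apply y).symm⟩)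
    · exact absurd h' hne
  have hhor : ∀ (κ : Equiv.Perm Y) (γ : Y → Option (ZMod N)), (κ = κ₁ ∨ κ = κ₂) →
      ∀ v, (Arc κ₁ κ₂ v (fw κ γ v) ∨ Arc κ₁ κ₂ (fw κ γ v) v) ∧
        (Arc κ₁ κ₂ v (bw κ γ v) ∨ Arc κ₁ κ₂ (bw κ γ v) v) := by
    rintro κ γ hκ ⟨y, t⟩
    constructor
    · unfold fw
      split_ifs
      · exact Or.inl (Or.inl ⟨rfl, rfl⟩)
      · exact Or.inr (Or.inl ⟨rfl, by simp⟩)
      · refine Or.inl (Or.inr ⟨rfl, ?_⟩)
        rcases hκ with rfl | rfl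
        · exact Or.inl rfl
        · exact Or.inr rfl
    · unfold bw
      split_ifs
      · exact Or.inl (Or.inl ⟨rfl, rfl⟩)
      · exact Or.inr (Or.inl ⟨rfl, by simp⟩)
      · refine Or.inr (Or.inr ⟨rfl, ?_⟩)
        rcases hκ with rfl | rfl
        · exact Or.inl (κ.apply_symm_apply y).symm
        · exact Or.inr (κ.apply_symm_apply y).symm
  have hver : ∀ v, (Arc κ₁ κ₂ v (upp (rho κ₁ κ₂ γ₁ γ₂) v) ∨
      Arc κ₁ κ₂ (upp (rho κ₁ κ₂ γ₁ γ₂) v) v) ∧ (Arc κ₁ κ₂ v (dnn (rho κ₁ κ₂ γ₁ γ₂) v) ∨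
      Arc κ₁ κ₂ (dnn (rho κ₁ κ₂ γ₁ γ₂) v) v) := by
    rintro ⟨y, t⟩
    constructor
    · unfold upp
      split_ifs with h
      · exact Or.inl (Or.inl ⟨rfl, rfl⟩)
      · exact hrho t t y h
    · unfold dnn
      split_ifs with h
      · exact Or.inr (Or.inl ⟨rfl, by simp⟩)
      · exact hrho t (t - 1) y h
  have key : ∀ v w, v ≠ w → Arc κ₁ κ₂ v w →
      (GV κ₁ κ₂ γ₁ γ₂ ⊔ GH κ₁ γ₁ ⊔ GH κ₂ γ₂).Adj v w := by
    rintro ⟨y, t⟩ ⟨y', t'⟩ hne (⟨e1, e2⟩ | ⟨e1, e2⟩)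
    · simp only at e1 e2
      subst e1 e2
      rcases hC.cases y' t with ⟨h, _⟩ | ⟨h, _⟩ | ⟨h, _⟩ | ⟨h, _⟩ | h'
      · exact Or.inl (Or.inr (hp1.adj.2 ⟨hne, Or.inl (fw_1 h).symm⟩))
      · refine Or.inl (Or.inr (hp1.adj.2 ⟨hne, Or.inr ?_⟩))
        have := bw_1 (κ := κ₁) h
        rw [Equiv.apply_symm_apply] at this
        exact this.symm
      · exact Or.inr (hp2.adj.2 ⟨hne, Or.inl (fw_1 h).symm⟩)
      · refine Or.inr (hp2.adj.2 ⟨hne, Or.inr ?_⟩)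
        have := bw_1 (κ := κ₂) h
        rw [Equiv.apply_symm_apply] at this
        exact this.symm
      · exact Or.inl (Or.inl (hpv.adj.2 ⟨hne, Or.inl (upp_1 h').symm⟩))
    · simp only at e1 e2
      subst e1
      rcases e2 with rfl | rfl
      · by_cases h : γ₁ y = some t'
        · have hr := rho_1 (κ₁ := κ₁) (κ₂ := κ₂) (γ₂ := γ₂) h
          have hn : rho κ₁ κ₂ γ₁ γ₂ t' y ≠ y := by
            rw [hr]
            intro h'
            exact hne (Prod.ext h'.symm rfl)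
          have e := upp_2 hn
          rw [hr] at e
          exact Or.inl (Or.inl (hpv.adj.2 ⟨hne, Or.inl e.symm⟩))
        · by_cases h' : γ₁ y = some (t' - 1)
          · have hr := rho_1 (κ₁ := κ₁) (κ₂ := κ₂) (γ₂ := γ₂) h'
            have hn : rho κ₁ κ₂ γ₁ γ₂ (t' - 1) y ≠ y := by
              rw [hr]
              intro h'
              exact hne (Prod.ext h'.symm rfl)
            have e := dnn_2 hn
            rw [hr, sub_add_cancel] at e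
            exact Or.inl (Or.inl (hpv.adj.2 ⟨hne, Or.inr e.symm⟩))
          · exact Or.inl (Or.inr (hp1.adj.2 ⟨hne, Or.inl (fw_3 h h').symm⟩))
      · by_cases h : γ₂ y = some t'
        · have hr := hC.rho_3 h
          have hn : rho κ₁ κ₂ γ₁ γ₂ t' y ≠ y := by
            rw [hr]
            intro h'
            exact hne (Prod.ext h'.symm rfl)
          have e := upp_2 hn
          rw [hr] at e
          exact Or.inl (Or.inl (hpv.adj.2 ⟨hne, Or.inl e.symm⟩))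
        · by_cases h' : γ₂ y = some (t' - 1)
          · have hr := hC.rho_3 h'
            have hn : rho κ₁ κ₂ γ₁ γ₂ (t' - 1) y ≠ y := by
              rw [hr]
              intro h'
              exact hne (Prod.ext h'.symm rfl)
            have e := dnn_2 hn
            rw [hr, sub_add_cancel] at e
            exact Or.inl (Or.inl (hpv.adj.2 ⟨hne, Or.inr e.symm⟩))
          · exact Or.inr (hp2.adj.2 ⟨hne, Or.inl (fw_3 h h').symm⟩)
  constructor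
  · rintro ((h | h) | h)
    · obtain ⟨h0, rfl | rfl⟩ := hpv.adj.1 h
      · exact ⟨h0, (hver v).1⟩
      · exact ⟨h0, (hver v).2⟩
    · obtain ⟨h0, rfl | rfl⟩ := hp1.adj.1 h
      · exact ⟨h0, (hhor κ₁ γ₁ (Or.inl rfl) v).1⟩
      · exact ⟨h0, (hhor κ₁ γ₁ (Or.inl rfl) v).2⟩
    · obtain ⟨h0, rfl | rfl⟩ := hp2.adj.1 h
      · exact ⟨h0, (hhor κ₂ γ₂ (Or.inr rfl) v).1⟩
      · exact ⟨h0, (hhor κ₂ γ₂ (Or.inr rfl) v).2⟩
  · rintro ⟨h0, h | h⟩
    · exact key v w h0 h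
    · exact (key w v h0.symm h).symm

end both

end Pool.Agent.V5helper6.LAR
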