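import Pool.Agent.V5helper6.LAR.Sw

set_option autoImplicit false

/-!
The three graphs are connected.
-/

namespace Pool.Agent.V5helper6.LAR

open SimpleGraph

/-- A cycle without one of its edges is connected. -/
theorem around {Q : Type} (T : Q → Q) (hT : ∀ a b, ∃ n, T^[n] a = b) {S : Q → Q → Prop}
    (hr : ∀ a, S a a) (hs : ∀ a b, S a b → S b a) (ht : ∀ a b c, S a b → S b c → S a c) (x0 : Q)
    (h : ∀ x, x ≠ x0 → S x (T x)) (x x' : Q) : S x x' := by
  classical
  have key : ∀ b, S (T x0) b := by
    intro b
    let n := Nat.find (hT (T x0) b)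
    have hn : T^[n] (T x0) = b := Nat.find_spec (hT (T x0) b)
    have hmin : ∀ j < n, T^[j] (T x0) ≠ x0 := by
      intro j hj hj'
      have h1 : T^[n - (j + 1)] (T x0) = b := by
        have h2 : T^[j + 1] (T x0) = T x0 := by
          rw [Function.iterate_succ_apply', hj']
        have h3 : n = (n - (j + 1)) + (j + 1) := by omega
        rw [h3, Function.iterate_add_apply, h2] at hn
        exact hn
      have := Nat.find_min' (hT (T x0) b) h1
      have h4 : n ≤ n - (j + 1) := this
      omega
    have : ∀ j ≤ n, S (T x0) (T^[j] (T x0)) := by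
      intro j
      induction j with
      | zero => intro _; exact hr _
      | succ j ih =>
        intro hj
        rw [Function.iterate_succ_apply']
        exact ht _ _ _ (ih (by omega)) (h _ (hmin j (by omega)))
    rw [← hn]
    exact this n le_rfl
  exact ht _ _ _ (hs _ _ (key x)) (key x')

theorem add_one_trans {N : ℕ} [NeZero N] (a b : ZMod N) :
    ∃ n, (fun x : ZMod N => x + 1)^[n] a = b := by
  refine ⟨(b - a).val, ?_⟩
  have : ∀ n : ℕ, (fun x : ZMod N => x + 1)^[n] a = a + n := by
    intro n
    induction n with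
    | zero => simp
    | succ n ih =>
      rw [Function.iterate_succ_apply', ih]
      push_cast
      ring
  rw [this, ZMod.natCast_zmod_val]
  ring

section

variable {M N : ℕ} (L : ℕ)

/-- The squares of the first kind. -/
def ga (i : ℕ → ZMod N) (y : ZMod M) : Option (ZMod N) := if y.val < L then some (i y.val) else none

/-- The squares of the second kind. -/
def gb (g : ZMod M → ZMod N) (y : ZMod M) : Option (ZMod N) := if L < y.val then some (g y) else none

/-- The rotation. -/
def plus (M : ℕ) : Equiv.Perm (ZMod M) := Equiv.addRight 1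

theorem plus_apply (y : ZMod M) : plus M y = y + 1 := rfl

theorem plus_symm (y : ZMod M) : (plus M).symm y = y - 1 := by
  rw [Equiv.symm_apply_eq, plus_apply]; ring

variable {L}

theorem val_sub_one [NeZero M] {y : ZMod M} (h : 1 ≤ y.val) : (y - 1).val = y.val - 1 := by
  have hy := ZMod.val_lt y
  have : y - 1 = ((y.val - 1 : ℕ) : ZMod M) := by
    rw [Nat.cast_sub h, ZMod.natCast_zmod_val]
    push_cast
    ring
  rw [this, ZMod.val_natCast, Nat.mod_eq_of_lt (by omega)]

theorem val_neg_one' [NeZero M] (hM : 1 < M) : ((0 : ZMod M) - 1).val = M - 1 := by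
  have : (0 : ZMod M) - 1 = ((M - 1 : ℕ) : ZMod M) := by
    rw [Nat.cast_sub hM.le, ZMod.natCast_self]
    push_cast
    ring
  rw [this, ZMod.val_natCast, Nat.mod_eq_of_lt (by omega)]

theorem gv_conn [NeZero M] [NeZero N] (κ : Equiv.Perm (ZMod M))
    (hκ : ∀ a b, ∃ n, κ^[n] a = b) (hL : L < M) (hM : 1 < M) (i : ℕ → ZMod N)
    (g : ZMod M → ZMod N)
    (hC : Compat (plus M) κ (ga L i) (gb L g)) (v w : ZMod M × ZMod N) :
    (GV (plus M) κ (ga L i) (gb L g)).Reachable v w := by
  set ρ := rho (plus M) κ (ga L i) (gb L g) with hρ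
  set R : ZMod M × ZMod N → ZMod M × ZMod N → Prop :=
    fun v w => (GV (plus M) κ (ga L i) (gb L g)).Reachable v w with hR
  have rr : ∀ v, R v v := fun v => Reachable.refl v
  have rs : ∀ v w, R v w → R w v := fun v w h => h.symm
  have rt : ∀ u v w, R u v → R v w → R u w := fun u v w h h' => h.trans h'
  have U1 : ∀ y t, ρ t y = y → R (y, t) (y, t + 1) := by
    intro y t h
    have := PG.reach_f (f := upp ρ) (g := dnn ρ) (y, t)
    rwa [upp_1 h] at this
  have U2 : ∀ y t, R (y, t) (ρ t y, t) := by
    intro y t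
    by_cases h : ρ t y = y
    · rw [h]
    · have := PG.reach_f (f := upp ρ) (g := dnn ρ) (y, t)
      rwa [upp_2 h] at this
  have U3 : ∀ y t, R (y, t + 1) (ρ t y, t + 1) := by
    intro y t
    by_cases h : ρ t y = y
    · rw [h]
    · have := PG.reach_g (f := upp ρ) (g := dnn ρ) (y, t + 1)
      rwa [dnn_2 h] at this
  have ar : ∀ y t0, (∀ t, t ≠ t0 → R (y, t) (y, t + 1)) → ∀ t t', R (y, t) (y, t') := by
    intro y t0 h t t'
    exact around (fun t : ZMod N => t + 1) add_one_trans (S := fun t t' => R (y, t) (y, t'))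
      (fun t => rr _) (fun _ _ h => rs _ _ h) (fun _ _ _ h h' => rt _ _ _ h h') t0 h t t'
  have det : ∀ y t, (∀ t', t' ≠ t → R (ρ t y, t') (ρ t y, t' + 1)) → R (y, t) (y, t + 1) := by
    intro y t h
    exact rt _ _ _ (U2 y t) (rt _ _ _ (ar _ t h t (t + 1)) (rs _ _ (U3 y t)))
  have hsymm : ∀ a b : ZMod M, ∃ n, κ.symm^[n] a = b := by
    intro a b
    obtain ⟨n, hn⟩ := hκ b a
    exact ⟨n, by rw [← hn]; exact (Function.LeftInverse.iterate κ.symm_apply_apply n) b⟩
  have single : ∀ (n : ℕ) (y : ZMod M), L < y.val → (κ.symm^[n] y).val ≤ L →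
      ∀ t, t ≠ g y → R (y, t) (y, t + 1) := by
    intro n
    induction n with
    | zero =>
      intro y hy hn
      exact absurd hn (by simpa using hy)
    | succ n ih =>
      intro y hy hn t ht
      rcases hC.cases y t with ⟨h, _⟩ | ⟨h, _⟩ | ⟨h, _⟩ | ⟨h, h'⟩ | h'
      · unfold ga at h
        rw [if_neg (by omega)] at h
        cases h
      · unfold ga at h
        rw [plus_symm, if_neg (by rw [val_sub_one (by omega)]; omega)] at h
        cases h
      · unfold gb at h
        rw [if_pos hy] at h
        exact absurd (Option.some_injective _ h).symm ht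
      · refine det y t ?_
        have h'' : ρ t y = κ.symm y := h'
        rw [h'']
        unfold gb at h
        have hy' : L < (κ.symm y).val := by
          by_contra hcon
          rw [if_neg hcon] at h
          cases h
        rw [if_pos hy'] at h
        have hg := Option.some_injective _ h
        intro t' ht'
        rw [Function.iterate_succ_apply] at hn
        exact ih (κ.symm y) hy' hn t' (by rw [hg]; exact ht')
      · exact U1 y t h'
  have single' : ∀ y : ZMod M, L < y.val → ∀ t, t ≠ g y → R (y, t) (y, t + 1) := by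
    intro y hy
    obtain ⟨n, hn⟩ := hsymm y 0
    exact single n y hy (by rw [hn, ZMod.val_zero]; omega)
  have vz : ∀ z ≤ L, ((z : ℕ) : ZMod M).val = z := by
    intro z hz
    rw [ZMod.val_natCast, Nat.mod_eq_of_lt (by omega)]
  have arc : ∀ z ≤ L, ∀ t, (z < L → t ≠ i z) → R (((z : ℕ) : ZMod M), t) ((z : ℕ), t + 1) := by
    intro z
    induction z with
    | zero =>
      intro hz t ht
      rcases hC.cases ((0 : ℕ) : ZMod M) t with ⟨h, _⟩ | ⟨h, _⟩ | ⟨h, _⟩ | ⟨h, h'⟩ | h'
      · unfold ga at h
        rw [vz 0 hz] at h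
        by_cases h0 : 0 < L
        · rw [if_pos h0] at h
          exact absurd (Option.some_injective _ h).symm (ht h0)
        · rw [if_neg h0] at h
          cases h
      · unfold ga at h
        rw [plus_symm] at h
        have e : (((0 : ℕ) : ZMod M) - 1).val = M - 1 := by
          rw [Nat.cast_zero]
          exact val_neg_one' hM
        rw [if_neg (by rw [e]; omega)] at h
        cases h
      · unfold gb at h
        rw [vz 0 hz, if_neg (by omega)] at h
        cases h
      · refine det _ t ?_
        have h'' : ρ t ((0 : ℕ) : ZMod M) = κ.symm ((0 : ℕ) : ZMod M) := h'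
        rw [h'']
        unfold gb at h
        have hy' : L < (κ.symm ((0 : ℕ) : ZMod M)).val := by
          by_contra hcon
          rw [if_neg hcon] at h
          cases h
        rw [if_pos hy'] at h
        have hg := Option.some_injective _ h
        intro t' ht'
        exact single' _ hy' t' (by rw [hg]; exact ht')
      · exact U1 _ t h'
    | succ z ih =>
      intro hz t ht
      have ep : (plus M).symm ((z + 1 : ℕ) : ZMod M) = (z : ZMod M) := by
        rw [plus_symm]; push_cast; ring
      rcases hC.cases ((z + 1 : ℕ) : ZMod M) t with ⟨h, _⟩ | ⟨h, h'⟩ | ⟨h, _⟩ | ⟨h, h'⟩ | h'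
      · unfold ga at h
        rw [vz (z + 1) hz] at h
        by_cases h0 : z + 1 < L
        · rw [if_pos h0] at h
          exact absurd (Option.some_injective _ h).symm (ht h0)
        · rw [if_neg h0] at h
          cases h
      · refine det _ t ?_
        have h'' : ρ t ((z + 1 : ℕ) : ZMod M) = (plus M).symm ((z + 1 : ℕ) : ZMod M) := h'
        rw [h'', ep]
        unfold ga at h
        rw [ep, vz z (by omega), if_pos (by omega)] at h
        have hg := Option.some_injective _ h
        intro t' ht'
        exact ih (by omega) t' (fun _ => by rw [hg]; exact ht')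
      · unfold gb at h
        rw [vz (z + 1) hz, if_neg (by omega)] at h
        cases h
      · refine det _ t ?_
        have h'' : ρ t ((z + 1 : ℕ) : ZMod M) = κ.symm ((z + 1 : ℕ) : ZMod M) := h'
        rw [h'']
        unfold gb at h
        have hy' : L < (κ.symm ((z + 1 : ℕ) : ZMod M)).val := by
          by_contra hcon
          rw [if_neg hcon] at h
          cases h
        rw [if_pos hy'] at h
        have hg := Option.some_injective _ h
        intro t' ht'
        exact single' _ hy' t' (by rw [hg]; exact ht')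
      · exact U1 _ t h'
  have fin1 : ∀ d ≤ L, ∀ t, R (((L - d : ℕ) : ZMod M), t) (((L : ℕ) : ZMod M), 0) := by
    intro d
    induction d with
    | zero =>
      intro _ t
      exact ar _ 0 (fun t' _ => arc L le_rfl t' (fun h => absurd h (lt_irrefl _))) t 0
    | succ d ih =>
      intro hd t
      have h1 := ar (((L - (d + 1) : ℕ) : ZMod M)) (i (L - (d + 1)))
        (fun t' ht' => arc (L - (d + 1)) (by omega) t' (fun _ => ht')) t (i (L - (d + 1)))
      have h2 := U2 (((L - (d + 1) : ℕ) : ZMod M)) (i (L - (d + 1)))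
      have h3 : ga L i (((L - (d + 1) : ℕ) : ZMod M)) = some (i (L - (d + 1))) := by
        unfold ga
        rw [vz _ (by omega), if_pos (by omega)]
      have h4 : ρ (i (L - (d + 1))) (((L - (d + 1) : ℕ) : ZMod M)) = ((L - d : ℕ) : ZMod M) := by
        rw [hρ, rho_1 h3, plus_apply]
        have : ((L - d : ℕ)) = (L - (d + 1)) + 1 := by omega
        rw [this]
        push_cast
        ring
      rw [h4] at h2
      exact rt _ _ _ h1 (rt _ _ _ h2 (ih (by omega) _))
  have fin1' : ∀ y : ZMod M, y.val ≤ L → ∀ t, R (y, t) (((L : ℕ) : ZMod M), 0) := by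
    intro y hy t
    have h1 := fin1 (L - y.val) (by omega) t
    have h2 : L - (L - y.val) = y.val := by omega
    rw [h2, ZMod.natCast_zmod_val] at h1
    exact h1
  have fin2 : ∀ (n : ℕ) (y : ZMod M), (κ^[n] y).val ≤ L → ∀ t, R (y, t) (((L : ℕ) : ZMod M), 0) := by
    intro n
    induction n with
    | zero =>
      intro y hn
      exact fin1' y hn
    | succ n ih =>
      intro y hn t
      rcases Nat.lt_or_ge L y.val with hy | hy
      · have h1 := ar y (g y) (fun t' ht' => single' y hy t' ht') t (g y)
        have h2 := U2 y (g y)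
        have h3 : gb L g y = some (g y) := by
          unfold gb
          rw [if_pos hy]
        have h4 : ρ (g y) y = κ y := hC.rho_3 h3
        rw [h4] at h2
        rw [Function.iterate_succ_apply] at hn
        exact rt _ _ _ h1 (rt _ _ _ h2 (ih _ hn _))
      · exact fin1' y hy t
  have fin3 : ∀ v, R v (((L : ℕ) : ZMod M), 0) := by
    rintro ⟨y, t⟩
    obtain ⟨n, hn⟩ := hκ y 0
    exact fin2 n y (by rw [hn, ZMod.val_zero]; omega) t
  exact rt _ _ _ (fin3 v) (rs _ _ (fin3 w))

/-- The connectivity of the second graph. -/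
theorem gh2_conn {Y : Type} [NeZero N] [Fact (1 < N)] (κ : Equiv.Perm Y)
    (hκ : ∀ a b, ∃ n, κ^[n] a = b) (γ : Y → Option (ZMod N)) (m0 : ZMod N)
    (hinj : ∀ x x' t, γ x = some t → γ x' = some t → x = x') (hm0 : ∀ x, γ x ≠ some m0)
    (hsur : ∀ t, t ≠ m0 → ∃ x, γ x = some t) (v w : Y × ZMod N) :
    (GH κ γ).Reachable v w := by
  set R : Y × ZMod N → Y × ZMod N → Prop := fun v w => (GH κ γ).Reachable v w with hR
  have rr : ∀ v, R v v := fun v => Reachable.refl v
  have rs : ∀ v w, R v w → R w v := fun v w h => h.symm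
  have rt : ∀ u v w, R u v → R v w → R u w := fun u v w h h' => h.trans h'
  have W1 : ∀ x t, γ x ≠ some t → γ x ≠ some (t - 1) → R (x, t) (κ x, t) := by
    intro x t h h'
    have := PG.reach_f (f := fw κ γ) (g := bw κ γ) (x, t)
    rwa [fw_3 h h'] at this
  have W2 : ∀ x t, γ x = some t → R (x, t) (x, t + 1) := by
    intro x t h
    have := PG.reach_f (f := fw κ γ) (g := bw κ γ) (x, t)
    rwa [fw_1 h] at this
  have W3 : ∀ x t, γ x = some t → R (κ x, t) (κ x, t + 1) := by
    intro x t h
    have := PG.reach_g (f := fw κ γ) (g := bw κ γ) (κ x, t)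
    rwa [bw_1 h] at this
  have ar : ∀ t x0, (∀ x, x ≠ x0 → R (x, t) (κ x, t)) → ∀ x x', R (x, t) (x', t) := by
    intro t x0 h x x'
    exact around κ hκ (S := fun x x' => R (x, t) (x', t))
      (fun t => rr _) (fun _ _ h => rs _ _ h) (fun _ _ _ h h' => rt _ _ _ h h') x0 h x x'
  have B : ∀ (a : ℕ) (x : Y), γ x ≠ some (m0 + 1 + a) → R (x, m0 + 1 + a) (κ x, m0 + 1 + a) := by
    intro a
    induction a with
    | zero =>
      intro x hx
      refine W1 x _ hx ?_
      have : m0 + 1 + ((0 : ℕ) : ZMod N) - 1 = m0 := by push_cast; ring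
      rw [this]
      exact hm0 x
    | succ a ih =>
      intro x hx
      have e : m0 + 1 + ((a + 1 : ℕ) : ZMod N) = (m0 + 1 + (a : ZMod N)) + 1 := by
        push_cast; ring
      rw [e] at hx ⊢
      set t := m0 + 1 + (a : ZMod N)
      by_cases h : γ x = some t
      · have h1 := ar t x (fun x' hx' => ih x' (fun h' => hx' (hinj _ _ _ h' h))) x (κ x)
        exact rt _ _ _ (rs _ _ (W2 x t h)) (rt _ _ _ h1 (W3 x t h))
      · refine W1 x _ hx ?_
        rw [add_sub_cancel_right]
        exact h
  have B' : ∀ t x, γ x ≠ some t → R (x, t) (κ x, t) := by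
    intro t x hx
    have e : t = m0 + 1 + (((t - m0 - 1).val : ℕ) : ZMod N) := by
      rw [ZMod.natCast_zmod_val]; ring
    rw [e] at hx ⊢
    exact B _ x hx
  have I : ∀ t x x', R (x, t) (x', t) := by
    intro t x x'
    by_cases ht : t = m0
    · subst ht
      exact ar t x (fun y _ => B' t y (hm0 y)) x x'
    · obtain ⟨x0, hx0⟩ := hsur t ht
      exact ar t x0 (fun y hy => B' t y (fun h => hy (hinj _ _ _ h hx0))) x x'
  have fin : ∀ t t' x x', R (x, t) (x', t') := by
    intro t t'
    exact around (fun t : ZMod N => t + 1) add_one_trans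
      (S := fun t t' => ∀ x x', R (x, t) (x', t'))
      (fun t => I t) (fun _ _ h x x' => rs _ _ (h x' x))
      (fun _ _ _ h h' x x' => rt _ _ _ (h x x) (h' x x')) m0 (by
        intro t ht x x'
        obtain ⟨x0, hx0⟩ := hsur t ht
        exact rt _ _ _ (I t x x0) (rt _ _ _ (W2 x0 t hx0) (I (t + 1) x0 x'))) t t'
  exact fin _ _ _ _

/-- The connectivity of the first graph. -/
theorem gh1_conn [NeZero M] [NeZero N] [Fact (1 < N)] (p : ℕ → ℕ) (hL1 : 1 ≤ L) (hLM : L < M)
    (hp0 : p 0 = 0) (hstep : ∀ x, x + 1 < L → p (x + 1) = p x + 1 ∨ p x = p (x + 1) + 1)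
    (hpN : ∀ x, p x + 2 ≤ N) (hend : p (L - 1) + 2 = N) (v w : ZMod M × ZMod N) :
    (GH (plus M) (ga L (fun x => ((p x : ℕ) : ZMod N)))).Reachable v w := by
  set γ : ZMod M → Option (ZMod N) := ga L (fun x => ((p x : ℕ) : ZMod N)) with hγ
  set R : ZMod M × ZMod N → ZMod M × ZMod N → Prop :=
    fun v w => (GH (plus M) γ).Reachable v w with hR
  have rr : ∀ v, R v v := fun v => Reachable.refl v
  have rs : ∀ v w, R v w → R w v := fun v w h => h.symm
  have rt : ∀ u v w, R u v → R v w → R u w := fun u v w h h' => h.trans h'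
  have W1 : ∀ x t, γ x ≠ some t → γ x ≠ some (t - 1) → R (x, t) (x + 1, t) := by
    intro x t h h'
    have := PG.reach_f (f := fw (plus M) γ) (g := bw (plus M) γ) (x, t)
    rwa [fw_3 h h'] at this
  have W2 : ∀ x t, γ x = some t → R (x, t) (x, t + 1) := by
    intro x t h
    have := PG.reach_f (f := fw (plus M) γ) (g := bw (plus M) γ) (x, t)
    rwa [fw_1 h] at this
  have W3 : ∀ x t, γ x = some t → R (x + 1, t) (x + 1, t + 1) := by
    intro x t h
    have := PG.reach_g (f := fw (plus M) γ) (g := bw (plus M) γ) (plus M x, t)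
    rwa [bw_1 h] at this
  have vz : ∀ z < M, ((z : ℕ) : ZMod M).val = z := by
    intro z hz
    rw [ZMod.val_natCast, Nat.mod_eq_of_lt hz]
  have ceq : ∀ a b : ℕ, a < N → b < N → ((a : ZMod N) = (b : ZMod N) → a = b) := by
    intro a b ha hb h
    have := congrArg ZMod.val h
    rwa [ZMod.val_natCast, ZMod.val_natCast, Nat.mod_eq_of_lt ha, Nat.mod_eq_of_lt hb] at this
  have γz : ∀ z < L, γ ((z : ℕ) : ZMod M) = some ((p z : ℕ) : ZMod N) := by
    intro z hz
    rw [hγ]
    unfold ga
    rw [vz z (by omega), if_pos hz]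
  have γz' : ∀ z, L ≤ z → z < M → γ ((z : ℕ) : ZMod M) = none := by
    intro z hz hz'
    rw [hγ]
    unfold ga
    rw [vz z hz', if_neg (by omega)]
  -- the nodes
  set nd : ℕ → ℕ → ZMod M × ZMod N := fun z t => (((z : ℕ) : ZMod M), ((t : ℕ) : ZMod N)) with hnd
  have N1 : ∀ z < L, ∀ t < N, t ≠ p z → t ≠ p z + 1 → R (nd z t) (nd (z + 1) t) := by
    intro z hz t ht h h'
    have e : nd (z + 1) t = (((z : ℕ) : ZMod M) + 1, ((t : ℕ) : ZMod N)) := by
      rw [hnd]; simp
    rw [e]
    refine W1 _ _ ?_ ?_
    · rw [γz z hz]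
      intro h1
      exact h (ceq _ _ (by have := hpN z; omega) ht (Option.some_injective _ h1)).symm
    · rw [γz z hz]
      intro h1
      have h2 := Option.some_injective _ h1
      have h3 : ((p z + 1 : ℕ) : ZMod N) = (t : ZMod N) := by
        push_cast
        rw [h2]
        ring
      exact h' (ceq _ _ (by have := hpN z; omega) ht h3).symm
  have N1' : ∀ z, L ≤ z → z < M → ∀ t, R (nd z t) (nd (z + 1) t) := by
    intro z hz hz' t
    have e : nd (z + 1) t = (((z : ℕ) : ZMod M) + 1, ((t : ℕ) : ZMod N)) := by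
      rw [hnd]; simp
    rw [e]
    refine W1 _ _ ?_ ?_
    · rw [γz' z hz hz']
      exact fun h => by cases h
    · rw [γz' z hz hz']
      exact fun h => by cases h
  have N2 : ∀ z < L, R (nd z (p z)) (nd z (p z + 1)) := by
    intro z hz
    have e : nd z (p z + 1) = (((z : ℕ) : ZMod M), ((p z : ℕ) : ZMod N) + 1) := by
      rw [hnd]; simp
    rw [e]
    exact W2 _ _ (γz z hz)
  have N3 : ∀ z < L, R (nd (z + 1) (p z)) (nd (z + 1) (p z + 1)) := by
    intro z hz
    have e : nd (z + 1) (p z + 1) = (((z : ℕ) : ZMod M) + 1, ((p z : ℕ) : ZMod N) + 1) := by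
      rw [hnd]; simp
    have e' : nd (z + 1) (p z) = (((z : ℕ) : ZMod M) + 1, ((p z : ℕ) : ZMod N)) := by
      rw [hnd]; simp
    rw [e, e']
    exact W3 _ _ (γz z hz)
  -- the invariant
  have inv : ∀ z, z + 1 ≤ L → (∀ t < p z, R (nd (z + 1) t) (nd 0 (t + 2))) ∧
      (∀ t < N, p z + 2 ≤ t → R (nd (z + 1) t) (nd 0 t)) ∧
      (∀ z' ≤ z, ∀ t < N, ∃ t', t' < N ∧ R (nd z' t) (nd 0 t')) := by
    intro z
    induction z with
    | zero =>
      intro hz
      rw [hp0]
      refine ⟨fun t ht => absurd ht (by omega), fun t ht ht' => ?_, fun z' hz' t ht => ?_⟩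
      · exact rs _ _ (N1 0 (by omega) t ht (by rw [hp0]; omega) (by rw [hp0]; omega))
      · have : z' = 0 := by omega
        subst this
        exact ⟨t, ht, rr _⟩
    | succ z ih =>
      intro hz
      obtain ⟨J1, J2, J4⟩ := ih (by omega)
      have hb := hpN (z + 1)
      have ha := hpN z
      have V1 := N3 z (by omega)
      have V2 := N2 (z + 1) (by omega)
      rcases hstep z (by omega) with hs | hs
      · -- up
        rw [hs] at V2 ⊢
        have key : R (nd (z + 1) (p z)) (nd 0 (p z + 2)) :=
          rt _ _ _ V1 (rt _ _ _ V2 (J2 (p z + 2) (by omega) le_rfl))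
        refine ⟨fun t ht => ?_, fun t ht ht' => ?_, fun z' hz' t ht => ?_⟩
        · have h1 := rs _ _ (N1 (z + 1) (by omega) t (by omega) (by omega) (by omega))
          rcases Nat.lt_or_ge t (p z) with h | h
          · exact rt _ _ _ h1 (J1 t h)
          · have : t = p z := by omega
            subst this
            exact rt _ _ _ h1 key
        · have h1 := rs _ _ (N1 (z + 1) (by omega) t (by omega) (by omega) (by omega))
          exact rt _ _ _ h1 (J2 t ht (by omega))
        · rcases Nat.lt_or_ge z z' with h | h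
          · have : z' = z + 1 := by omega
            subst this
            rcases Nat.lt_or_ge t (p z) with h1 | h1
            · exact ⟨t + 2, by omega, J1 t h1⟩
            · rcases Nat.lt_or_ge t (p z + 2) with h2 | h2
              · refine ⟨p z + 2, by omega, ?_⟩
                have : t = p z ∨ t = p z + 1 := by omega
                rcases this with rfl | rfl
                · exact key
                · exact rt _ _ _ (rs _ _ V1) key
              · exact ⟨t, ht, J2 t ht h2⟩
          · exact J4 z' h t ht
      · -- down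
        have hp : p z = p (z + 1) + 1 := hs
        have key : R (nd (z + 1) (p z)) (nd 0 (p (z + 1) + 2)) := by
          rw [hp]
          exact rt _ _ _ (rs _ _ V2) (J1 (p (z + 1)) (by omega))
        refine ⟨fun t ht => ?_, fun t ht ht' => ?_, fun z' hz' t ht => ?_⟩
        · have h1 := rs _ _ (N1 (z + 1) (by omega) t (by omega) (by omega) (by omega))
          exact rt _ _ _ h1 (J1 t (by omega))
        · have h1 := rs _ _ (N1 (z + 1) (by omega) t (by omega) (by omega) (by omega))
          rcases Nat.lt_or_ge t (p z + 2) with h | h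
          · have : t = p z + 1 := by omega
            subst this
            have e : p z + 1 = p (z + 1) + 2 := by omega
            refine rt _ _ _ h1 (rt _ _ _ (rs _ _ V1) ?_)
            rw [e]
            exact key
          · exact rt _ _ _ h1 (J2 t ht h)
        · rcases Nat.lt_or_ge z z' with h | h
          · have : z' = z + 1 := by omega
            subst this
            rcases Nat.lt_or_ge t (p z) with h1 | h1
            · exact ⟨t + 2, by omega, J1 t h1⟩
            · rcases Nat.lt_or_ge t (p z + 2) with h2 | h2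
              · refine ⟨p (z + 1) + 2, by omega, ?_⟩
                have : t = p z ∨ t = p z + 1 := by omega
                rcases this with rfl | rfl
                · exact key
                · exact rt _ _ _ (rs _ _ V1) key
              · exact ⟨t, ht, J2 t ht h2⟩
          · exact J4 z' h t ht
  obtain ⟨J1, -, J4⟩ := inv (L - 1) (by omega)
  have hL' : L - 1 + 1 = L := by omega
  rw [hL'] at J1
  -- the free part
  have free : ∀ d, L + d ≤ M → ∀ t, R (nd (M - d) t) (nd 0 t) := by
    intro d
    induction d with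
    | zero =>
      intro _ t
      have : nd (M - 0) t = nd 0 t := by
        rw [hnd]; simp
      rw [this]
    | succ d ih =>
      intro hd t
      have h1 := N1' (M - (d + 1)) (by omega) (by omega) t
      have h2 : M - (d + 1) + 1 = M - d := by omega
      rw [h2] at h1
      exact rt _ _ _ h1 (ih (by omega) t)
  have free' : ∀ z, L ≤ z → z ≤ M → ∀ t, R (nd z t) (nd 0 t) := by
    intro z hz hz' t
    have := free (M - z) (by omega) t
    rwa [Nat.sub_sub_self hz'] at this
  have z2 : ∀ t, t + 2 < N → R (nd 0 t) (nd 0 (t + 2)) := by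
    intro t ht
    exact rt _ _ _ (rs _ _ (free' L le_rfl hLM.le t)) (J1 t (by omega))
  have z1 : R (nd 0 0) (nd 0 1) := by
    have := N2 0 (by omega)
    rwa [hp0] at this
  have z0 : ∀ t, t < N → R (nd 0 t) (nd 0 0) := by
    intro t
    induction t using Nat.strong_induction_on with
    | _ t ih =>
      intro ht
      match t, ih, ht with
      | 0, _, _ => exact rr _
      | 1, _, _ => exact rs _ _ z1
      | t + 2, ih, ht =>
        exact rt _ _ _ (rs _ _ (z2 t ht)) (ih t (by omega) (by omega))
  have all : ∀ v, R v (nd 0 0) := by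
    rintro ⟨y, t⟩
    have hy := ZMod.val_lt y
    have ht := ZMod.val_lt t
    have e : ((y, t) : ZMod M × ZMod N) = nd y.val t.val := by
      rw [hnd]
      simp
    rw [e]
    rcases Nat.lt_or_ge y.val L with h | h
    · obtain ⟨t', ht', h1⟩ := J4 y.val (by omega) t.val ht
      exact rt _ _ _ h1 (z0 t' ht')
    · exact rt _ _ _ (free' y.val h hy.le t.val) (z0 t.val ht)
  exact rt _ _ _ (all v) (rs _ _ (all w))

end

end Pool.Agent.V5helper6.LAR
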