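import Pool.Agent.V5helper6.LAR.SwConn
import Pool.Agent.V5helper6.LAR.Scheme

set_option autoImplicit false

/-!
The choice of the squares.
-/

namespace Pool.Agent.V5helper6.LAR

open SimpleGraph Finset

/-- The levels of the squares of the first kind. -/
def pp (N k x : ℕ) : ℕ :=
  if x ≤ 2 * k then x % 2 else if x - 2 * k + 2 ≤ N then x - 2 * k
  else if x % 2 = 1 then N - 2 else N - 3

theorem pp_zero (N k : ℕ) : pp N k 0 = 0 := by
  unfold pp; simp

theorem pp_step {N : ℕ} (hN : N % 2 = 1) (h5 : 5 ≤ N) (k x : ℕ) :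
    pp N k (x + 1) = pp N k x + 1 ∨ pp N k x = pp N k (x + 1) + 1 := by
  unfold pp
  split_ifs <;> omega

theorem pp_le {N : ℕ} (h5 : 5 ≤ N) (k x : ℕ) : pp N k x + 2 ≤ N := by
  unfold pp
  split_ifs <;> omega

theorem pp_end {N : ℕ} (hN : N % 2 = 1) (h5 : 5 ≤ N) (k x : ℕ) (hx : x % 2 = 1)
    (hk : 2 * k + N ≤ x + 2) : pp N k x + 2 = N := by
  unfold pp
  split_ifs <;> omega

theorem pp_lt {N : ℕ} (h5 : 5 ≤ N) (K z x : ℕ) (hz : 1 ≤ z) (hzx : z ≤ x)
    (hx : x + 2 ≤ 2 * K + N) : pp N (min ((z - 1) / 2) K) (z - 1) < pp N (min ((z - 1) / 2) K) x := by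
  rcases Nat.le_total ((z - 1) / 2) K with h | h
  · rw [min_eq_left h]
    unfold pp
    split_ifs <;> omega
  · rw [min_eq_right h]
    unfold pp
    split_ifs <;> omega

theorem card_single {M : ℕ} [NeZero M] (L : ℕ) :
    Fintype.card {y : ZMod M // L < y.val} = M - (L + 1) := by
  classical
  rw [Fintype.card_subtype, card_filter]
  have h := sum_val (m := M) (fun k => if L < k then 1 else 0)
  rw [h, ← card_filter]
  have h2 : (range M).filter (fun k => L < k) = (range M) \ range (L + 1) := by
    ext k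
    simp only [mem_filter, mem_range, mem_sdiff]
    omega
  rw [h2]
  rcases Nat.le_total (L + 1) M with h | h
  · rw [card_sdiff_of_subset (range_subset_range.2 h), card_range, card_range]
  · have : (range M) \ range (L + 1) = ∅ := by
      ext k
      simp only [mem_range, mem_sdiff, notMem_empty, iff_false]
      omega
    rw [this, card_empty]
    omega

theorem exists_squares {M N L : ℕ} [NeZero M] [NeZero N] (hL : L + N = M) (hN : N % 2 = 1)
    (hM : M % 2 = 1)
    (h5 : 5 ≤ N) (hMN : 2 * N ≤ M + 1) (κ : Equiv.Perm (ZMod M)) :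
    ∃ (k : ℕ) (f : {y : ZMod M // L < y.val} → ZMod N), 2 * k + N ≤ L + 1 ∧
      Function.Injective f ∧ ∀ y : {y : ZMod M // L < y.val},
        ga L (fun x => ((pp N k x : ℕ) : ZMod N)) (κ y) ≠ some (f y) ∧
        ga L (fun x => ((pp N k x : ℕ) : ZMod N)) (κ y - 1) ≠ some (f y) := by
  classical
  set K := (L + 1 - N) / 2 with hK
  have hKL : 2 * K + N = L + 1 := by omega
  let ι := {y : ZMod M // L < y.val}
  have hcard : Fintype.card ι = N - 1 := by
    rw [card_single]
    omega
  have hne : Nonempty ι := by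
    rw [← Fintype.card_pos_iff, hcard]
    omega
  obtain ⟨y0, hy0⟩ := Finite.exists_min (fun y : ι => (κ y).val)
  obtain ⟨y1, hy1⟩ : ∃ y1 : ι, y1 ≠ y0 := by
    have : Nontrivial ι := Fintype.one_lt_card_iff_nontrivial.1 (by rw [hcard]; omega)
    exact exists_ne y0
  set z := (κ y0).val with hz
  have hz1 : z < (κ y1).val := by
    refine lt_of_le_of_ne (hy0 y1) ?_
    intro h
    exact hy1 (Subtype.ext (κ.injective (ZMod.val_injective _ h))).symm
  set k := min ((z - 1) / 2) K with hk
  set i : ℕ → ZMod N := fun x => ((pp N k x : ℕ) : ZMod N) with hi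
  have ceq : ∀ a b : ℕ, a < N → b < N → ((a : ZMod N) = (b : ZMod N) → a = b) := by
    intro a b ha hb h
    have := congrArg ZMod.val h
    rwa [ZMod.val_natCast, ZMod.val_natCast, Nat.mod_eq_of_lt ha, Nat.mod_eq_of_lt hb] at this
  have hkey : ∀ x, 1 ≤ z → z ≤ x → x < L → i (z - 1) ≠ i x := by
    intro x h1 h2 h3 h
    have h4 := pp_lt h5 K z x h1 h2 (by omega)
    have h5' := pp_le h5 k (z - 1)
    have h6 := pp_le h5 k x
    have h7 := ceq _ _ (by omega) (by omega) h
    rw [← hk] at h4
    omega
  let A : ι → Finset (ZMod N) := fun y => univ.filter (fun t =>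
    ga L i (κ y) ≠ some t ∧ ga L i (κ y - 1) ≠ some t)
  have hAmem : ∀ y t, t ∈ A y ↔ ga L i (κ y) ≠ some t ∧ ga L i (κ y - 1) ≠ some t := by
    intro y t
    simp only [A, mem_filter, mem_univ, true_and]
  have hAcard : ∀ y, N - 2 ≤ (A y).card := by
    intro y
    have h1 : (A y)ᶜ ⊆ (univ.filter (fun t => ga L i (κ y) = some t)) ∪
        (univ.filter (fun t => ga L i (κ y - 1) = some t)) := by
      intro t ht
      rw [mem_compl, hAmem] at ht
      rw [mem_union, mem_filter, mem_filter]
      by_contra hcon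
      push Not at hcon
      exact ht ⟨hcon.1 (mem_univ _), hcon.2 (mem_univ _)⟩
    have h2 : ∀ o : Option (ZMod N), (univ.filter (fun t => o = some t)).card ≤ 1 := by
      intro o
      rw [card_le_one]
      intro a ha b hb
      have ha := (mem_filter.1 ha).2
      have hb := (mem_filter.1 hb).2
      rw [ha] at hb
      exact Option.some_injective _ hb
    have h3 := (card_le_card h1).trans ((card_union_le _ _).trans (Nat.add_le_add (h2 _) (h2 _)))
    rw [card_compl, ZMod.card] at h3
    omega
  have hall : ∀ c, c ≠ i z → ∃ y, c ∈ A y := by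
    intro c hc
    by_cases h : c ∈ A y0
    · exact ⟨y0, h⟩
    · refine ⟨y1, ?_⟩
      rw [hAmem] at h ⊢
      have h1 : ga L i (κ y0 - 1) = some c := by
        by_contra hcon
        apply h
        refine ⟨?_, hcon⟩
        intro h'
        unfold ga at h'
        rw [← hz] at h'
        by_cases h2 : z < L
        · rw [if_pos h2] at h'
          exact hc (Option.some_injective _ h').symm
        · rw [if_neg h2] at h'
          cases h'
      unfold ga at h1
      have hzpos : 1 ≤ z := by
        by_contra hcon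
        have h2 : κ y0 = 0 := (ZMod.val_eq_zero _).1 (by omega)
        rw [h2, val_neg_one' (by omega), if_neg (by omega)] at h1
        cases h1
      have h2 : (κ y0 - 1).val = z - 1 := val_sub_one hzpos
      rw [h2] at h1
      have h3 : z - 1 < L := by
        by_contra hcon
        rw [if_neg hcon] at h1
        cases h1
      rw [if_pos h3] at h1
      have h4 : i (z - 1) = c := Option.some_injective _ h1
      constructor
      · intro h5'
        unfold ga at h5'
        by_cases h6 : (κ y1).val < L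
        · rw [if_pos h6] at h5'
          exact hkey _ hzpos hz1.le h6 (h4.trans (Option.some_injective _ h5').symm)
        · rw [if_neg h6] at h5'
          cases h5'
      · intro h5'
        unfold ga at h5'
        rw [val_sub_one (by omega)] at h5'
        by_cases h6 : (κ y1).val - 1 < L
        · rw [if_pos h6] at h5'
          exact hkey _ hzpos (by omega) h6 (h4.trans (Option.some_injective _ h5').symm)
        · rw [if_neg h6] at h5'
          cases h5'
  obtain ⟨f, hf1, hf2⟩ := (Finset.all_card_le_biUnion_card_iff_exists_injective A).1 (by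
    intro s
    rcases s.eq_empty_or_nonempty with rfl | ⟨y, hy⟩
    · simp
    · by_cases hs : s.card ≤ N - 2
      · exact hs.trans ((hAcard y).trans (card_le_card (subset_biUnion_of_mem A hy)))
      · have h1 : s.card ≤ N - 1 := by
          rw [← hcard]
          exact card_le_univ s
        have h2 : s = univ := by
          rw [← card_eq_iff_eq_univ, hcard]
          omega
        have h3 : univ.erase (i z) ⊆ s.biUnion A := by
          intro c hc
          obtain ⟨y, hy⟩ := hall c (ne_of_mem_erase hc)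
          rw [h2]
          exact mem_biUnion.2 ⟨y, mem_univ _, hy⟩
        have h4 := card_le_card h3
        rw [card_erase_of_mem (mem_univ _), card_univ, ZMod.card] at h4
        omega)
  refine ⟨k, f, ?_, hf1, fun y => (hAmem y _).1 (hf2 y)⟩
  have : k ≤ K := min_le_right _ _
  omega

/-- The product of a cycle with the union of two Hamilton cycles. -/
theorem three_cyc {M N : ℕ} [NeZero M] [NeZero N] (hN : N % 2 = 1) (hM : M % 2 = 1)
    (h5 : 5 ≤ N) (hMN : 2 * N ≤ M + 1) (κ : Equiv.Perm (ZMod M))
    (hκ : ∀ a b, ∃ n, κ^[n] a = b) :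
    ∃ P Q R : SimpleGraph (ZMod M × ZMod N), (∀ v, (P.neighborSet v).ncard ≤ 2) ∧
      (∀ v, (Q.neighborSet v).ncard ≤ 2) ∧ (∀ v, (R.neighborSet v).ncard ≤ 2) ∧
      (∀ v w, P.Reachable v w) ∧ (∀ v w, Q.Reachable v w) ∧ (∀ v w, R.Reachable v w) ∧
      ∀ v w, (P ⊔ Q ⊔ R).Adj v w ↔ v ≠ w ∧ (Arc (plus M) κ v w ∨ Arc (plus M) κ w v) := by
  classical
  have hfact : Fact (1 < N) := ⟨by omega⟩
  obtain ⟨L, hL⟩ : ∃ L, L + N = M := ⟨M - N, by omega⟩
  obtain ⟨k, f, hk, hf, hfg⟩ := exists_squares hL hN hM h5 hMN κ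
  set i : ℕ → ZMod N := fun x => ((pp N k x : ℕ) : ZMod N) with hi
  let g : ZMod M → ZMod N := fun y => if h : L < y.val then f ⟨y, h⟩ else 0
  have hg : ∀ y (h : L < y.val), g y = f ⟨y, h⟩ := fun y h => dif_pos h
  have hcard : Fintype.card {y : ZMod M // L < y.val} = N - 1 := by
    rw [card_single]
    omega
  have ceq : ∀ a b : ℕ, a < N → b < N → ((a : ZMod N) = (b : ZMod N) → a = b) := by
    intro a b ha hb h
    have := congrArg ZMod.val h
    rwa [ZMod.val_natCast, ZMod.val_natCast, Nat.mod_eq_of_lt ha, Nat.mod_eq_of_lt hb] at this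
  have gbs : ∀ y t, gb L g y = some t → ∃ h : L < y.val, f ⟨y, h⟩ = t := by
    intro y t h
    unfold gb at h
    by_cases h1 : L < y.val
    · rw [if_pos h1] at h
      exact ⟨h1, by rw [← hg]; exact Option.some_injective _ h⟩
    · rw [if_neg h1] at h
      cases h
  have gas : ∀ (y : ZMod M) t, ga L i y = some t → y.val < L ∧ i y.val = t := by
    intro y t h
    unfold ga at h
    by_cases h1 : y.val < L
    · rw [if_pos h1] at h
      exact ⟨h1, Option.some_injective _ h⟩
    · rw [if_neg h1] at h
      cases h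
  have gas' : ∀ (y : ZMod M) t, ga L i (y - 1) = some t → 1 ≤ y.val ∧ y.val ≤ L ∧ i (y.val - 1) = t := by
    intro y t h
    obtain ⟨h1, h2⟩ := gas _ _ h
    have h3 : 1 ≤ y.val := by
      by_contra hcon
      have h4 : y = 0 := (ZMod.val_eq_zero _).1 (by omega)
      rw [h4, val_neg_one' (by omega)] at h1
      omega
    rw [val_sub_one h3] at h1 h2
    exact ⟨h3, by omega, h2⟩
  have hC : Compat (plus M) κ (ga L i) (gb L g) := by
    refine ⟨?_, ?_, ?_, ?_, ?_, ?_⟩
    · intro y t h h'
      rw [plus_symm] at h'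
      obtain ⟨h1, h2⟩ := gas _ _ h
      obtain ⟨h3, h4, h5'⟩ := gas' _ _ h'
      have h6 := pp_le h5 k y.val
      have h7 := pp_le h5 k (y.val - 1)
      have h8 := ceq _ _ (by omega) (by omega) (h2.trans h5'.symm)
      have h9 := pp_step hN h5 k (y.val - 1)
      have h10 : y.val - 1 + 1 = y.val := by omega
      rw [h10] at h9
      omega
    · intro y t h h'
      obtain ⟨h1, _⟩ := gas _ _ h
      obtain ⟨h2, _⟩ := gbs _ _ h'
      omega
    · intro y t h h'
      obtain ⟨h2, h3⟩ := gbs _ _ h'
      have h4 := (hfg ⟨κ.symm y, h2⟩).1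
      apply h4
      show ga L i (κ (κ.symm y)) = _
      rw [κ.apply_symm_apply, h3]
      exact h
    · intro y t h h'
      rw [plus_symm] at h
      obtain ⟨_, h1, _⟩ := gas' _ _ h
      obtain ⟨h2, _⟩ := gbs _ _ h'
      omega
    · intro y t h h'
      rw [plus_symm] at h
      obtain ⟨h2, h3⟩ := gbs _ _ h'
      have h4 := (hfg ⟨κ.symm y, h2⟩).2
      apply h4
      show ga L i (κ (κ.symm y) - 1) = _
      rw [κ.apply_symm_apply, h3]
      exact h
    · intro y t h h'
      obtain ⟨h1, h2⟩ := gbs _ _ h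
      obtain ⟨h3, h4⟩ := gbs _ _ h'
      have h5' := congrArg Subtype.val (hf (h2.trans h4.symm))
      have h6 : y = κ.symm y := h5'
      have h7 : κ y = y := by
        conv_lhs => rw [h6]
        exact κ.apply_symm_apply y
      have h8 : ∀ n, κ^[n] y = y := by
        intro n
        induction n with
        | zero => rfl
        | succ n ih => rw [Function.iterate_succ_apply, h7, ih]
      obtain ⟨n, hn⟩ := hκ y (y + 1)
      rw [h8] at hn
      have : Fact (1 < M) := ⟨by omega⟩
      exact one_ne_zero (α := ZMod M) (by linear_combination -hn)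
  have hinj : ∀ x x' t, gb L g x = some t → gb L g x' = some t → x = x' := by
    intro x x' t h h'
    obtain ⟨h1, h2⟩ := gbs _ _ h
    obtain ⟨h3, h4⟩ := gbs _ _ h'
    exact congrArg Subtype.val (hf (h2.trans h4.symm))
  obtain ⟨m0, hm0⟩ : ∃ m0, ∀ y, f y ≠ m0 := by
    by_contra hcon
    push Not at hcon
    have := Fintype.card_le_of_surjective f hcon
    rw [hcard, ZMod.card] at this
    omega
  have hsur : ∀ t, t ≠ m0 → ∃ y, f y = t := by
    have h1 : univ.image f = univ.erase m0 := by
      refine eq_of_subset_of_card_le ?_ ?_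
      · intro t ht
        obtain ⟨y, _, rfl⟩ := mem_image.1 ht
        exact mem_erase.2 ⟨hm0 y, mem_univ _⟩
      · rw [card_image_of_injective _ hf, card_erase_of_mem (mem_univ _), card_univ, card_univ,
          hcard, ZMod.card]
    intro t ht
    have h2 : t ∈ univ.image f := by
      rw [h1]
      exact mem_erase.2 ⟨ht, mem_univ _⟩
    obtain ⟨y, _, hy⟩ := mem_image.1 h2
    exact ⟨y, hy⟩
  refine ⟨GV (plus M) κ (ga L i) (gb L g), GH (plus M) (ga L i), GH κ (gb L g),
    (ports_ver hC.invol).deg, ports_hor.deg, ports_hor.deg,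
    gv_conn κ hκ (by omega) (by omega) i g hC, ?_, ?_, hC.union⟩
  · exact gh1_conn (pp N k) (by omega) (by omega) (pp_zero N k)
      (fun x _ => pp_step hN h5 k x) (fun x => pp_le h5 k x)
      (pp_end hN h5 k (L - 1) (by omega) (by omega))
  · refine gh2_conn κ hκ (gb L g) m0 hinj ?_ ?_
    · intro x hx
      obtain ⟨h1, h2⟩ := gbs _ _ hx
      exact hm0 _ h2
    · intro t ht
      obtain ⟨y, hy⟩ := hsur t ht
      refine ⟨y.1, ?_⟩
      unfold gb
      rw [if_pos y.2, hg _ y.2, hy]

end Pool.Agent.V5helper6.LAR
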