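import Mathlib

set_option autoImplicit false

/-!
Three connected two-factors of the Cayley graph of the group `(ℤ/p)²` with the generators `a = (1, 0)`,
`3 a` and `b = (-1, 1)`, for a prime `p ≥ 5`.
-/

namespace Pool.Agent.V5helper6.LAR

open SimpleGraph

section ports

variable {W : Type}

/-- The graph with the edges `v, f v` and `v, g v`. -/
def PG (f g : W → W) : SimpleGraph W where
  Adj v w := v ≠ w ∧ (w = f v ∨ w = g v ∨ v = f w ∨ v = g w)
  symm := ⟨fun _ _ h => ⟨h.1.symm, by tauto⟩⟩
  loopless := ⟨fun _ h => h.1 rfl⟩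

/-- `f` and `g` are the two ports of the vertices. -/
def Ports (f g : W → W) : Prop :=
  (∀ v, f (f v) = v ∨ g (f v) = v) ∧ (∀ v, f (g v) = v ∨ g (g v) = v)

theorem Ports.adj {f g : W → W} (h : Ports f g) {v w : W} :
    (PG f g).Adj v w ↔ v ≠ w ∧ (w = f v ∨ w = g v) := by
  refine ⟨fun ⟨h1, h2⟩ => ⟨h1, ?_⟩, fun ⟨h1, h2⟩ => ⟨h1, by tauto⟩⟩
  rcases h2 with h2 | h2 | h2 | h2
  · exact Or.inl h2
  · exact Or.inr h2
  · rcases h.1 w with h3 | h3
    · left; rw [h2, h3]
    · right; rw [h2, h3]
  · rcases h.2 w with h3 | h3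
    · left; rw [h2, h3]
    · right; rw [h2, h3]

theorem Ports.deg {f g : W → W} [Finite W] (h : Ports f g) (v : W) :
    ((PG f g).neighborSet v).ncard ≤ 2 := by
  have hsub : (PG f g).neighborSet v ⊆ {f v, g v} := by
    intro w hw
    exact (h.adj.1 hw).2
  refine (Set.ncard_le_ncard hsub (Set.toFinite _)).trans ?_
  exact (Set.ncard_insert_le _ _).trans (by simp)

theorem PG.reach_f {f g : W → W} (v : W) : (PG f g).Reachable v (f v) := by
  by_cases h : v = f v
  · rw [← h]
  · exact Adj.reachable ⟨h, Or.inl rfl⟩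

theorem PG.reach_g {f g : W → W} (v : W) : (PG f g).Reachable v (g v) := by
  by_cases h : v = g v
  · rw [← h]
  · exact Adj.reachable ⟨h, Or.inr (Or.inl rfl)⟩

end ports

section row

variable {p : ℕ} [Fact p.Prime] (r d : ZMod p)

/-- The right port. -/
def rt (v : ZMod p × ZMod p) : ZMod p × ZMod p :=
  if v.1 = r + 1 ∧ v.2 ≠ -1 then (r, v.2 + 1)
  else if v.1 = r ∧ v.2 ≠ 0 then (r + 1, v.2 - 1) else (v.1 + d, v.2)

/-- The left port. -/
def lf (v : ZMod p × ZMod p) : ZMod p × ZMod p :=
  if v.1 = r + 1 + d ∧ v.2 ≠ -1 then (r + d, v.2 + 1)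
  else if v.1 = r + d ∧ v.2 ≠ 0 then (r + 1 + d, v.2 - 1) else (v.1 - d, v.2)

theorem add_one_ne (x : ZMod p) : x + 1 ≠ x := by
  intro h
  have : (1 : ZMod p) = 0 := by linear_combination h
  exact one_ne_zero this

theorem add_one_ne' (x : ZMod p) : x ≠ x + 1 := (add_one_ne x).symm

theorem ports_row : Ports (rt r d) (lf r d) := by
  have e0 : ∀ y : ZMod p, y ≠ -1 → y + 1 ≠ 0 := fun y hy h => hy (by linear_combination h)
  have e1 : ∀ y : ZMod p, y ≠ 0 → y - 1 ≠ -1 := fun y hy h => hy (by linear_combination h)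
  constructor
  · rintro ⟨u, y⟩
    by_cases h1 : u = r + 1 ∧ y ≠ -1
    · left
      obtain ⟨rfl, h2⟩ := h1
      have : rt r d (r + 1, y) = (r, y + 1) := by
        unfold rt; rw [if_pos ⟨rfl, h2⟩]
      rw [this]
      unfold rt
      rw [if_neg (fun h => add_one_ne' r h.1), if_pos ⟨rfl, e0 y h2⟩]
      simp
    · by_cases h3 : u = r ∧ y ≠ 0
      · left
        obtain ⟨rfl, h2⟩ := h3
        have : rt u d (u, y) = (u + 1, y - 1) := by
          unfold rt; rw [if_neg h1, if_pos ⟨rfl, h2⟩]
        rw [this]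
        unfold rt
        rw [if_pos ⟨rfl, e1 y h2⟩]
        simp
      · right
        have : rt r d (u, y) = (u + d, y) := by
          unfold rt; rw [if_neg h1, if_neg h3]
        rw [this]
        unfold lf
        rw [if_neg (fun h => h1 ⟨add_right_cancel h.1, h.2⟩),
          if_neg (fun h => h3 ⟨add_right_cancel h.1, h.2⟩)]
        simp
  · rintro ⟨u, y⟩
    by_cases h1 : u = r + 1 + d ∧ y ≠ -1
    · right
      obtain ⟨rfl, h2⟩ := h1
      have : lf r d (r + 1 + d, y) = (r + d, y + 1) := by
        unfold lf; rw [if_pos ⟨rfl, h2⟩]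
      rw [this]
      unfold lf
      rw [if_neg (fun h => add_one_ne' r (add_right_cancel h.1)), if_pos ⟨rfl, e0 y h2⟩]
      simp
    · by_cases h3 : u = r + d ∧ y ≠ 0
      · right
        obtain ⟨rfl, h2⟩ := h3
        have : lf r d (r + d, y) = (r + 1 + d, y - 1) := by
          unfold lf; rw [if_neg h1, if_pos ⟨rfl, h2⟩]
        rw [this]
        unfold lf
        rw [if_pos ⟨rfl, e1 y h2⟩]
        simp
      · left
        have : lf r d (u, y) = (u - d, y) := by
          unfold lf; rw [if_neg h1, if_neg h3]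
        rw [this]
        unfold rt
        rw [if_neg (fun h => h1 ⟨by linear_combination h.1, h.2⟩),
          if_neg (fun h => h3 ⟨by linear_combination h.1, h.2⟩)]
        simp

/-- The vertices of a row in the order of the cycle. -/
def uu (s : ℕ) : ZMod p := r + 1 + d + d * s

theorem uu_zero : uu r d 0 = r + 1 + d := by simp [uu]

theorem uu_succ (s : ℕ) : uu r d (s + 1) = uu r d s + d := by
  simp only [uu]; push_cast; ring

variable {r d}

theorem uu_ne {s : ℕ} (hd : d ≠ 0) (hs : s + 1 < p) : uu r d s ≠ r + 1 := by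
  intro h
  have h1 : d * ((s + 1 : ℕ) : ZMod p) = 0 := by
    push_cast
    unfold uu at h
    linear_combination h
  rcases mul_eq_zero.1 h1 with h2 | h2
  · exact hd h2
  · rw [ZMod.natCast_eq_zero_iff] at h2
    have := Nat.le_of_dvd (by omega) h2
    omega

theorem row_reach (hd : d ≠ 0) (y : ZMod p) (i j : ℕ) (hij : i ≤ j) (hj : j < p)
    (h : ∀ s, i ≤ s → s < j → uu r d s ≠ r ∨ y = 0) :
    (PG (rt r d) (lf r d)).Reachable (uu r d i, y) (uu r d j, y) := by
  induction j, hij using Nat.le_induction with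
  | base => exact Reachable.refl _
  | succ j hij ih =>
    have h1 := ih (by omega) (fun s h1 h2 => h s h1 (by omega))
    refine h1.trans ?_
    have h2 : rt r d (uu r d j, y) = (uu r d (j + 1), y) := by
      unfold rt
      rw [if_neg (fun h3 => uu_ne hd hj h3.1), if_neg, uu_succ]
      rintro ⟨h3, h4⟩
      rcases h j hij (by omega) with h5 | h5
      · exact h5 h3
      · exact h4 h5
    rw [← h2]
    exact PG.reach_f _

theorem exists_uu (hd : d ≠ 0) (u : ZMod p) : ∃ j < p, u = uu r d j := by
  have hp : NeZero p := ⟨(Fact.out : p.Prime).ne_zero⟩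
  refine ⟨((u - r - 1 - d) * d⁻¹).val, ZMod.val_lt _, ?_⟩
  unfold uu
  rw [ZMod.natCast_zmod_val, mul_comm, mul_assoc, inv_mul_cancel₀ hd]
  ring

theorem row_conn (hd : d ≠ 0) (v w : ZMod p × ZMod p) :
    (PG (rt r d) (lf r d)).Reachable v w := by
  have hp : NeZero p := ⟨(Fact.out : p.Prime).ne_zero⟩
  have hp1 : 1 < p := (Fact.out : p.Prime).one_lt
  -- the position of `r`
  obtain ⟨m, hmp, hm⟩ := exists_uu (r := r) hd r
  have e : d * ((m + 1 : ℕ) : ZMod p) = -1 := by
    have h := hm
    unfold uu at h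
    push_cast
    linear_combination -h
  have hm1 : m + 1 < p := by
    by_contra hcon
    have h1 : m + 1 = p := by omega
    rw [h1, ZMod.natCast_self, mul_zero] at e
    exact one_ne_zero (α := ZMod p) (by linear_combination e)
  have hmuniq : ∀ s < p, uu r d s = r → s = m := by
    intro s hs h
    have h1 : d * (s : ZMod p) = d * (m : ZMod p) := by
      unfold uu at h
      push_cast at e
      linear_combination h - e
    have h2 := mul_left_cancel₀ hd h1
    rw [ZMod.natCast_eq_natCast_iff'] at h2
    rwa [Nat.mod_eq_of_lt hs, Nat.mod_eq_of_lt hmp] at h2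
  have key : ∀ (n : ℕ) (u y : ZMod p), y.val = n →
      (PG (rt r d) (lf r d)).Reachable (u, y) (uu r d 0, 0) := by
    intro n
    induction n with
    | zero =>
      intro u y hy
      rw [ZMod.val_eq_zero] at hy
      subst hy
      obtain ⟨j, hj, rfl⟩ := exists_uu (r := r) hd u
      exact (row_reach hd 0 0 j (Nat.zero_le _) hj (fun s _ _ => Or.inr rfl)).symm
    | succ n ih =>
      intro u y hy
      have hy0 : y ≠ 0 := by
        rintro rfl
        rw [ZMod.val_zero] at hy
        omega
      have hy1 : (y - 1).val = n := by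
        have : Fact (1 < p) := ⟨hp1⟩
        rw [ZMod.val_sub (by rw [ZMod.val_one, hy]; omega), ZMod.val_one, hy]
        rfl
      obtain ⟨j, hj, rfl⟩ := exists_uu (r := r) hd u
      rcases Nat.lt_or_ge m j with hjm | hjm
      · have h1 := row_reach hd y (m + 1) j hjm hj (fun s h1 h2 => by
          left
          intro h3
          have := hmuniq s (by omega) h3
          omega)
        have h2 : lf r d (uu r d (m + 1), y) = (r + 1 + d, y - 1) := by
          have e1 : uu r d (m + 1) = r + d := by rw [uu_succ, ← hm]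
          unfold lf
          rw [e1, if_neg (fun h => add_one_ne' r (add_right_cancel h.1)), if_pos ⟨rfl, hy0⟩]
        have h3 := PG.reach_g (f := rt r d) (g := lf r d) (uu r d (m + 1), y)
        rw [h2] at h3
        exact h1.symm.trans (h3.trans (ih _ _ hy1))
      · have h1 := row_reach hd y j m hjm hmp (fun s h1 h2 => by
          left
          intro h3
          have := hmuniq s (by omega) h3
          omega)
        have h2 : rt r d (uu r d m, y) = (r + 1, y - 1) := by
          unfold rt
          rw [← hm, if_neg (fun h => add_one_ne' r h.1), if_pos ⟨rfl, hy0⟩]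
        have h3 := PG.reach_f (f := rt r d) (g := lf r d) (uu r d m, y)
        rw [h2] at h3
        exact h1.trans (h3.trans (ih _ _ hy1))
  exact (key _ v.1 v.2 rfl).trans (key _ w.1 w.2 rfl).symm

end row

section col

variable {p : ℕ} [Fact p.Prime]

/-- The upper port. -/
def up (v : ZMod p × ZMod p) : ZMod p × ZMod p :=
  if v.2 = -1 then (v.1 - 1, v.2 + 1)
  else if v.1 = 0 then (1, v.2) else if v.1 = 1 then (0, v.2)
  else if v.1 = -1 then (2, v.2) else if v.1 = 2 then (-1, v.2)
  else (v.1 - 1, v.2 + 1)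

/-- The lower port. -/
def dn (v : ZMod p × ZMod p) : ZMod p × ZMod p :=
  if v.2 = 0 then (v.1 + 1, v.2 - 1)
  else if v.1 = -1 then (0, v.2) else if v.1 = 0 then (-1, v.2)
  else if v.1 = -2 then (1, v.2) else if v.1 = 1 then (-2, v.2)
  else (v.1 + 1, v.2 - 1)

/-- The small residues are different. -/
structure Sm (p : ℕ) : Prop where
  h1 : (1 : ZMod p) ≠ 0
  h2 : (2 : ZMod p) ≠ 0
  h3 : (3 : ZMod p) ≠ 0
  h4 : (4 : ZMod p) ≠ 0

theorem sm (h : 5 ≤ p) : Sm p := by
  have key : ∀ n : ℕ, 0 < n → n < 5 → ((n : ℕ) : ZMod p) ≠ 0 := by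
    intro n h0 hn hz
    rw [ZMod.natCast_eq_zero_iff] at hz
    have := Nat.le_of_dvd h0 hz
    omega
  exact ⟨by simpa using key 1 (by norm_num) (by norm_num),
    by simpa using key 2 (by norm_num) (by norm_num),
    by simpa using key 3 (by norm_num) (by norm_num),
    by simpa using key 4 (by norm_num) (by norm_num)⟩

section

variable (hs : Sm p) (y : ZMod p)

include hs

theorem up0 (hy : y ≠ -1) : up ((0 : ZMod p), y) = (1, y) := by
  unfold up; rw [if_neg hy, if_pos rfl]

theorem up1 (hy : y ≠ -1) : up ((1 : ZMod p), y) = (0, y) := by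
  unfold up; rw [if_neg hy, if_neg hs.h1, if_pos rfl]

theorem upm (hy : y ≠ -1) : up ((-1 : ZMod p), y) = (2, y) := by
  unfold up
  rw [if_neg hy, if_neg (fun h => hs.h1 (by linear_combination -h)),
    if_neg (fun h => hs.h2 (by linear_combination -h)), if_pos rfl]

theorem up2 (hy : y ≠ -1) : up ((2 : ZMod p), y) = (-1, y) := by
  unfold up
  rw [if_neg hy, if_neg hs.h2,
    if_neg (fun h => hs.h1 (by linear_combination h)),
    if_neg (fun h => hs.h3 (by linear_combination h)), if_pos rfl]

theorem dnm (hy : y ≠ 0) : dn ((-1 : ZMod p), y) = (0, y) := by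
  unfold dn; rw [if_neg hy, if_pos rfl]

theorem dn0 (hy : y ≠ 0) : dn ((0 : ZMod p), y) = (-1, y) := by
  unfold dn; rw [if_neg hy, if_neg (fun h => hs.h1 (by linear_combination h)), if_pos rfl]

theorem dnm2 (hy : y ≠ 0) : dn ((-2 : ZMod p), y) = (1, y) := by
  unfold dn
  rw [if_neg hy, if_neg (fun h => hs.h1 (by linear_combination -h)),
    if_neg (fun h => hs.h2 (by linear_combination -h)), if_pos rfl]

theorem dn1 (hy : y ≠ 0) : dn ((1 : ZMod p), y) = (-2, y) := by
  unfold dn
  rw [if_neg hy, if_neg (fun h => hs.h2 (by linear_combination h)),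
    if_neg (fun h => hs.h1 (by linear_combination h)),
    if_neg (fun h => hs.h3 (by linear_combination h)), if_pos rfl]

end

theorem up_else {u y : ZMod p} (h : y = -1 ∨ (u ≠ 0 ∧ u ≠ 1 ∧ u ≠ -1 ∧ u ≠ 2)) :
    up (u, y) = (u - 1, y + 1) := by
  unfold up
  rcases h with h | ⟨h1, h2, h3, h4⟩
  · rw [if_pos h]
  · split_ifs <;> rfl

theorem dn_else {u y : ZMod p} (h : y = 0 ∨ (u ≠ 0 ∧ u ≠ 1 ∧ u ≠ -1 ∧ u ≠ -2)) :
    dn (u, y) = (u + 1, y - 1) := by
  unfold dn
  rcases h with h | ⟨h1, h2, h3, h4⟩
  · rw [if_pos h]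
  · split_ifs <;> rfl

theorem up_cases (u y : ZMod p) : (y ≠ -1 ∧ (u = 0 ∨ u = 1 ∨ u = -1 ∨ u = 2)) ∨
    (y = -1 ∨ (u ≠ 0 ∧ u ≠ 1 ∧ u ≠ -1 ∧ u ≠ 2)) := by tauto

theorem dn_cases (u y : ZMod p) : (y ≠ 0 ∧ (u = 0 ∨ u = 1 ∨ u = -1 ∨ u = -2)) ∨
    (y = 0 ∨ (u ≠ 0 ∧ u ≠ 1 ∧ u ≠ -1 ∧ u ≠ -2)) := by tauto

theorem ports_col (hs : Sm p) : Ports (up (p := p)) dn := by
  constructor
  · rintro ⟨u, y⟩
    rcases up_cases u y with ⟨hy, h⟩ | h
    · left
      rcases h with rfl | rfl | rfl | rfl
      · rw [up0 hs y hy, up1 hs y hy]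
      · rw [up1 hs y hy, up0 hs y hy]
      · rw [upm hs y hy, up2 hs y hy]
      · rw [up2 hs y hy, upm hs y hy]
    · right
      rw [up_else h, dn_else]
      · simp
      · rcases h with h | ⟨h1, h2, h3, h4⟩
        · left; rw [h]; ring
        · right
          exact ⟨fun h => h2 (by linear_combination h), fun h => h4 (by linear_combination h),
            fun h => h1 (by linear_combination h), fun h => h3 (by linear_combination h)⟩
  · rintro ⟨u, y⟩
    rcases dn_cases u y with ⟨hy, h⟩ | h
    · right
      rcases h with rfl | rfl | rfl | rfl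
      · rw [dn0 hs y hy, dnm hs y hy]
      · rw [dn1 hs y hy, dnm2 hs y hy]
      · rw [dnm hs y hy, dn0 hs y hy]
      · rw [dnm2 hs y hy, dn1 hs y hy]
    · left
      rw [dn_else h, up_else]
      · simp
      · rcases h with h | ⟨h1, h2, h3, h4⟩
        · left; rw [h]; ring
        · right
          exact ⟨fun h => h3 (by linear_combination h), fun h => h1 (by linear_combination h),
            fun h => h4 (by linear_combination h), fun h => h2 (by linear_combination h)⟩

/-- The long segments of the columns. -/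
theorem col_seg (y : ZMod p) (j : ℕ) (hj : j + 4 ≤ p) :
    (PG (up (p := p)) dn).Reachable (-2, y) (-2 - j, y + j) := by
  induction j with
  | zero => simp
  | succ j ih =>
    have h1 := ih (by omega)
    refine h1.trans ?_
    have h2 : up ((-2 - j : ZMod p), y + j) = (-2 - ((j + 1 : ℕ) : ZMod p), y + ((j + 1 : ℕ) : ZMod p)) := by
      have key : ∀ i : ℕ, 0 < i → i < 5 → (-2 - j : ZMod p) ≠ ((i : ℕ) : ZMod p) - 2 := by
        intro i h0 hi h
        have h3 : ((j + i : ℕ) : ZMod p) = 0 := by
          push_cast; linear_combination -h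
        rw [ZMod.natCast_eq_zero_iff] at h3
        have := Nat.le_of_dvd (by omega) h3
        omega
      rw [up_else]
      · push_cast
        refine Prod.ext ?_ ?_ <;> simp <;> ring
      · right
        refine ⟨fun h => key 2 (by norm_num) (by norm_num) ?_,
          fun h => key 3 (by norm_num) (by norm_num) ?_,
          fun h => key 1 (by norm_num) (by norm_num) ?_,
          fun h => key 4 (by norm_num) (by norm_num) ?_⟩ <;> rw [h] <;> push_cast <;> ring
    rw [← h2]
    exact PG.reach_f _

theorem col_conn (h5 : 5 ≤ p) (v w : ZMod p × ZMod p) :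
    (PG (up (p := p)) dn).Reachable v w := by
  have hs := sm h5
  have hp : NeZero p := ⟨(Fact.out : p.Prime).ne_zero⟩
  have hU : ∀ a b : ZMod p × ZMod p, up a = b → (PG (up (p := p)) dn).Reachable a b := by
    rintro a b rfl
    exact PG.reach_f _
  have hD : ∀ a b : ZMod p × ZMod p, dn a = b → (PG (up (p := p)) dn).Reachable a b := by
    rintro a b rfl
    exact PG.reach_g _
  have h01 : (0 : ZMod p) ≠ -1 := fun h => hs.h1 (by linear_combination h)
  have h10 : (-1 : ZMod p) ≠ 0 := fun h => hs.h1 (by linear_combination -h)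
  -- the special rows
  have s1 : up ((-1 : ZMod p), (0 : ZMod p)) = (2, 0) := upm hs 0 h01
  have s2 : dn ((-1 : ZMod p), (0 : ZMod p)) = (0, -1) := by
    rw [dn_else (Or.inl rfl)]; simp
  have s3 : dn ((0 : ZMod p), (-1 : ZMod p)) = (-1, -1) := dn0 hs _ h10
  have s4 : up ((-1 : ZMod p), (-1 : ZMod p)) = (-2, 0) := by
    rw [up_else (Or.inl rfl)]
    refine Prod.ext ?_ ?_ <;> simp <;> ring
  have s5 : dn ((1 : ZMod p), (0 : ZMod p)) = (2, -1) := by
    rw [dn_else (Or.inl rfl)]
    refine Prod.ext ?_ ?_ <;> simp <;> ring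
  have s6 : up ((0 : ZMod p), (0 : ZMod p)) = (1, 0) := up0 hs 0 h01
  have s7 : dn ((0 : ZMod p), (0 : ZMod p)) = (1, -1) := by
    rw [dn_else (Or.inl rfl)]; simp
  have s8 : dn ((1 : ZMod p), (-1 : ZMod p)) = (-2, -1) := dn1 hs _ h10
  have row : ∀ y : ZMod p, (PG (up (p := p)) dn).Reachable (2, y) (-2, y) := by
    intro y
    by_cases hy0 : y = 0
    · subst hy0
      exact (hU _ _ s1).symm.trans ((hD _ _ s2).trans ((hD _ _ s3).trans (hU _ _ s4)))
    · by_cases hy1 : y = -1
      · subst hy1
        exact (hD _ _ s5).symm.trans ((hU _ _ s6).symm.trans ((hD _ _ s7).trans (hD _ _ s8)))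
      · exact (hU _ _ (up2 hs y hy1)).trans ((hD _ _ (dnm hs y hy0)).trans
          ((hU _ _ (up0 hs y hy1)).trans (hD _ _ (dn1 hs y hy0))))
  have step : ∀ y : ZMod p, (PG (up (p := p)) dn).Reachable (-2, y) (-2, y - 4) := by
    intro y
    have h1 := col_seg y (p - 4) (by omega)
    have h2 : ((p - 4 : ℕ) : ZMod p) = -4 := by
      rw [Nat.cast_sub (by omega), ZMod.natCast_self]; simp
    rw [h2] at h1
    have h3 : (-2 - -4 : ZMod p) = 2 := by ring
    have h4 : y + -4 = y - 4 := by ring
    rw [h3, h4] at h1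
    exact h1.trans (row _)
  have steps : ∀ (n : ℕ) (y : ZMod p), (PG (up (p := p)) dn).Reachable (-2, y) (-2, y - 4 * n) := by
    intro n
    induction n with
    | zero => intro y; simp
    | succ n ih =>
      intro y
      have h1 := (ih y).trans (step _)
      have h2 : y - 4 * (n : ZMod p) - 4 = y - 4 * ((n + 1 : ℕ) : ZMod p) := by push_cast; ring
      rwa [h2] at h1
  have base : ∀ y : ZMod p, (PG (up (p := p)) dn).Reachable (-2, y) (-2, 0) := by
    intro y
    have h1 := steps (y * 4⁻¹).val y
    rw [ZMod.natCast_zmod_val] at h1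
    have h2 : y - 4 * (y * 4⁻¹) = 0 := by
      have : (4 : ZMod p) * 4⁻¹ = 1 := mul_inv_cancel₀ hs.h4
      linear_combination -y * this
    rwa [h2] at h1
  have all : ∀ u y : ZMod p, (PG (up (p := p)) dn).Reachable (u, y) (-2, 0) := by
    intro u y
    by_cases hu : u = 0 ∨ u = 1 ∨ u = -1
    · by_cases hy0 : y = 0
      · subst hy0
        rcases hu with rfl | rfl | rfl
        · exact (hD _ _ s7).trans ((hD _ _ s8).trans (base _))
        · exact (hU _ _ s6).symm.trans ((hD _ _ s7).trans ((hD _ _ s8).trans (base _)))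
        · exact (hU _ _ s1).trans ((row _).trans (base _))
      · rcases hu with rfl | rfl | rfl
        · by_cases hy1 : y = -1
          · subst hy1
            exact (hD _ _ s3).trans ((hU _ _ s4).trans (base _))
          · exact (hU _ _ (up0 hs y hy1)).trans ((hD _ _ (dn1 hs y hy0)).trans (base _))
        · exact (hD _ _ (dn1 hs y hy0)).trans (base _)
        · by_cases hy1 : y = -1
          · subst hy1
            exact (hU _ _ s4).trans (base _)
          · exact (hD _ _ (dnm hs y hy0)).trans ((hU _ _ (up0 hs y hy1)).trans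
              ((hD _ _ (dn1 hs y hy0)).trans (base _)))
    · push Not at hu
      obtain ⟨j, hj⟩ : ∃ j, j = (-2 - u).val := ⟨_, rfl⟩
      have hj1 : ((j : ℕ) : ZMod p) = -2 - u := by rw [hj, ZMod.natCast_zmod_val]
      have hj2 : j < p := by rw [hj]; exact ZMod.val_lt _
      have hj3 : j + 4 ≤ p := by
        by_contra hcon
        have h1 : j + 1 = p ∨ j + 2 = p ∨ j + 3 = p := by omega
        rcases h1 with h1 | h1 | h1
        · have h2 : ((j + 1 : ℕ) : ZMod p) = 0 := by rw [h1, ZMod.natCast_self]
          push_cast at h2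
          exact hu.2.2 (by linear_combination hj1 - h2)
        · have h2 : ((j + 2 : ℕ) : ZMod p) = 0 := by rw [h1, ZMod.natCast_self]
          push_cast at h2
          exact hu.1 (by linear_combination hj1 - h2)
        · have h2 : ((j + 3 : ℕ) : ZMod p) = 0 := by rw [h1, ZMod.natCast_self]
          push_cast at h2
          exact hu.2.1 (by linear_combination hj1 - h2)
      have h1 := col_seg (y - (j : ZMod p)) j hj3
      rw [hj1] at h1
      have h2 : (-2 - (-2 - u) : ZMod p) = u := by ring
      have h3 : y - (-2 - u) + (-2 - u) = y := by ring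
      rw [h2, h3] at h1
      exact h1.symm.trans (base _)
  exact (all v.1 v.2).trans (all w.1 w.2).symm

/-- The six neighbours of a vertex. -/
def Nb (v w : ZMod p × ZMod p) : Prop :=
  w = (v.1 + 1, v.2) ∨ w = (v.1 - 1, v.2) ∨ w = (v.1 + 3, v.2) ∨ w = (v.1 - 3, v.2) ∨
    w = (v.1 - 1, v.2 + 1) ∨ w = (v.1 + 1, v.2 - 1)

theorem nb_of_rt1 (v : ZMod p × ZMod p) : Nb v (rt (-1) 1 v) ∧ Nb v (lf (-1) 1 v) := by
  obtain ⟨u, y⟩ := v
  refine ⟨?_, ?_⟩
  · unfold rt
    split_ifs with h1 h2
    · obtain ⟨rfl, -⟩ := h1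
      right; right; right; right; left; simp
    · obtain ⟨rfl, -⟩ := h2
      right; right; right; right; right; rfl
    · left; rfl
  · unfold lf
    split_ifs with h1 h2
    · obtain ⟨rfl, -⟩ := h1
      right; right; right; right; left; simp
    · obtain ⟨rfl, -⟩ := h2
      right; right; right; right; right; simp
    · right; left; rfl

theorem nb_of_rt3 (v : ZMod p × ZMod p) : Nb v (rt (-2) 3 v) ∧ Nb v (lf (-2) 3 v) := by
  obtain ⟨u, y⟩ := v
  refine ⟨?_, ?_⟩
  · unfold rt
    split_ifs with h1 h2
    · obtain ⟨rfl, -⟩ := h1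
      right; right; right; right; left
      refine Prod.ext ?_ ?_ <;> simp
    · obtain ⟨rfl, -⟩ := h2
      right; right; right; right; right; rfl
    · right; right; left; rfl
  · unfold lf
    split_ifs with h1 h2
    · obtain ⟨rfl, -⟩ := h1
      right; right; right; right; left
      refine Prod.ext ?_ ?_ <;> simp <;> ring
    · obtain ⟨rfl, -⟩ := h2
      right; right; right; right; right
      refine Prod.ext ?_ ?_ <;> simp <;> ring
    · right; right; right; left; rfl

theorem nb_of_up (v : ZMod p × ZMod p) : Nb v (up v) ∧ Nb v (dn v) := by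
  obtain ⟨u, y⟩ := v
  refine ⟨?_, ?_⟩
  · unfold up
    split_ifs with h1 h2 h3 h4 h5
    · right; right; right; right; left; rfl
    · dsimp only at h2; subst h2; left; simp
    · dsimp only at h3; subst h3; right; left; simp
    · dsimp only at h4; subst h4; right; right; left
      refine Prod.ext ?_ ?_ <;> simp <;> ring
    · dsimp only at h5; subst h5; right; right; right; left
      refine Prod.ext ?_ ?_ <;> simp <;> ring
    · right; right; right; right; left; rfl
  · unfold dn
    split_ifs with h1 h2 h3 h4 h5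
    · right; right; right; right; right; rfl
    · dsimp only at h2; subst h2; left; simp
    · dsimp only at h3; subst h3; right; left; simp
    · dsimp only at h4; subst h4; right; right; left
      refine Prod.ext ?_ ?_ <;> simp <;> ring
    · dsimp only at h5; subst h5; right; right; right; left
      refine Prod.ext ?_ ?_ <;> simp <;> ring
    · right; right; right; right; right; rfl

theorem nb_port (hs : Sm p) {v w : ZMod p × ZMod p} (h : Nb v w) :
    w = rt (-1) 1 v ∨ w = lf (-1) 1 v ∨ w = rt (-2) 3 v ∨ w = lf (-2) 3 v ∨ w = up v ∨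
      w = dn v := by
  obtain ⟨u, y⟩ := v
  rcases h with rfl | rfl | rfl | rfl | rfl | rfl
  · -- right by one
    by_cases h1 : u = -1 + 1 ∧ y ≠ -1
    · obtain ⟨h1, hy⟩ := h1
      have : u = 0 := by rw [h1]; ring
      subst this
      right; right; right; right; left
      rw [up0 hs y hy]; simp
    · by_cases h2 : u = -1 ∧ y ≠ 0
      · obtain ⟨rfl, hy⟩ := h2
        right; right; right; right; right
        rw [dnm hs y hy]; simp
      · left
        unfold rt
        rw [if_neg h1, if_neg h2]
  · by_cases h1 : u = -1 + 1 + 1 ∧ y ≠ -1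
    · obtain ⟨h1, hy⟩ := h1
      have : u = 1 := by rw [h1]; ring
      subst this
      right; right; right; right; left
      rw [up1 hs y hy]; simp
    · by_cases h2 : u = -1 + 1 ∧ y ≠ 0
      · obtain ⟨h2, hy⟩ := h2
        have : u = 0 := by rw [h2]; ring
        subst this
        right; right; right; right; right
        rw [dn0 hs y hy]; simp
      · right; left
        unfold lf
        rw [if_neg h1, if_neg h2]
  · by_cases h1 : u = -2 + 1 ∧ y ≠ -1
    · obtain ⟨h1, hy⟩ := h1
      have : u = -1 := by rw [h1]; ring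
      subst this
      right; right; right; right; left
      rw [upm hs y hy]
      refine Prod.ext ?_ ?_ <;> simp <;> ring
    · by_cases h2 : u = -2 ∧ y ≠ 0
      · obtain ⟨rfl, hy⟩ := h2
        right; right; right; right; right
        rw [dnm2 hs y hy]
        refine Prod.ext ?_ ?_ <;> simp <;> ring
      · right; right; left
        unfold rt
        rw [if_neg h1, if_neg h2]
  · by_cases h1 : u = -2 + 1 + 3 ∧ y ≠ -1
    · obtain ⟨h1, hy⟩ := h1
      have : u = 2 := by rw [h1]; ring
      subst this
      right; right; right; right; left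
      rw [up2 hs y hy]
      refine Prod.ext ?_ ?_ <;> simp <;> ring
    · by_cases h2 : u = -2 + 3 ∧ y ≠ 0
      · obtain ⟨h2, hy⟩ := h2
        have : u = 1 := by rw [h2]; ring
        subst this
        right; right; right; right; right
        rw [dn1 hs y hy]
        refine Prod.ext ?_ ?_ <;> simp <;> ring
      · right; right; right; left
        unfold lf
        rw [if_neg h1, if_neg h2]
  · -- up
    rcases up_cases u y with ⟨hy, h⟩ | h
    · rcases h with rfl | rfl | rfl | rfl
      · left
        unfold rt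
        rw [if_pos ⟨by ring, hy⟩]
        simp
      · right; left
        unfold lf
        rw [if_pos ⟨by ring, hy⟩]
        refine Prod.ext ?_ ?_ <;> simp
      · right; right; left
        unfold rt
        rw [if_pos ⟨by ring, hy⟩]
        refine Prod.ext ?_ ?_ <;> simp <;> ring
      · right; right; right; left
        unfold lf
        rw [if_pos ⟨by ring, hy⟩]
        refine Prod.ext ?_ ?_ <;> simp <;> ring
    · right; right; right; right; left
      rw [up_else h]
  · -- down
    rcases dn_cases u y with ⟨hy, h⟩ | h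
    · rcases h with rfl | rfl | rfl | rfl
      · right; left
        unfold lf
        rw [if_neg (fun h => add_one_ne' (0 : ZMod p) (by linear_combination h.1)),
          if_pos ⟨by ring, hy⟩]
        refine Prod.ext ?_ ?_ <;> simp
      · right; right; right; left
        unfold lf
        rw [if_neg (fun h => add_one_ne' (0 : ZMod p) (by linear_combination h.1)),
          if_pos ⟨by ring, hy⟩]
        refine Prod.ext ?_ ?_ <;> simp <;> ring
      · left
        unfold rt
        rw [if_neg (fun h => add_one_ne' (0 : ZMod p) (by linear_combination h.1)),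
          if_pos ⟨rfl, hy⟩]
      · right; right; left
        unfold rt
        rw [if_neg (fun h => add_one_ne' (0 : ZMod p) (by linear_combination h.1)),
          if_pos ⟨rfl, hy⟩]
    · right; right; right; right; right
      rw [dn_else h]

/-- Three connected graphs of maximum degree two. -/
theorem torus3 (h5 : 5 ≤ p) : ∃ P : Fin 3 → SimpleGraph (ZMod p × ZMod p),
    (∀ i v, ((P i).neighborSet v).ncard ≤ 2) ∧ (∀ i v w, (P i).Reachable v w) ∧
    ∀ v w, (⨆ i, P i).Adj v w ↔ v ≠ w ∧ Nb v w := by
  have hs := sm h5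
  have hp : NeZero p := ⟨(Fact.out : p.Prime).ne_zero⟩
  refine ⟨![PG (rt (-1) 1) (lf (-1) 1), PG (rt (-2) 3) (lf (-2) 3), PG up dn], ?_, ?_, ?_⟩
  · intro i v
    fin_cases i
    · exact (ports_row (-1) 1).deg v
    · exact (ports_row (-2) 3).deg v
    · exact (ports_col hs).deg v
  · intro i v w
    fin_cases i
    · exact row_conn hs.h1 v w
    · exact row_conn hs.h3 v w
    · exact col_conn h5 v w
  · intro v w
    rw [iSup_adj]
    constructor
    · rintro ⟨i, hi⟩
      fin_cases i
      · obtain ⟨h1, h2⟩ := (ports_row (-1) 1).adj.1 hi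
        refine ⟨h1, ?_⟩
        rcases h2 with rfl | rfl
        · exact (nb_of_rt1 v).1
        · exact (nb_of_rt1 v).2
      · obtain ⟨h1, h2⟩ := (ports_row (-2) 3).adj.1 hi
        refine ⟨h1, ?_⟩
        rcases h2 with rfl | rfl
        · exact (nb_of_rt3 v).1
        · exact (nb_of_rt3 v).2
      · obtain ⟨h1, h2⟩ := (ports_col hs).adj.1 hi
        refine ⟨h1, ?_⟩
        rcases h2 with rfl | rfl
        · exact (nb_of_up v).1
        · exact (nb_of_up v).2
    · rintro ⟨h1, h2⟩
      rcases nb_port hs h2 with h | h | h | h | h | h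
      · exact ⟨0, h1, Or.inl h⟩
      · exact ⟨0, h1, Or.inr (Or.inl h)⟩
      · exact ⟨1, h1, Or.inl h⟩
      · exact ⟨1, h1, Or.inr (Or.inl h)⟩
      · exact ⟨2, h1, Or.inl h⟩
      · exact ⟨2, h1, Or.inr (Or.inl h)⟩

end col

end Pool.Agent.V5helper6.LAR
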