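import Pool.Agent.V5helper6.LAR.Pull
import Pool.Agent.V5helper6.LAR.Prod

set_option autoImplicit false

/-!
Two commuting elements and a third one that is independent of them.
-/

namespace Pool.Agent.V5helper6.LAR

open Finset SimpleGraph H931R3.LA Pool.Agent.W111.LAR Pool.Agent.TH486.LAC Pool.Agent.Y59.LA
open Pool.Agent.Y647.LAC (LW)

variable {Γ : Type} [Group Γ]

theorem csize_conn {V : Type} [Finite V] {P : SimpleGraph V} {v : V}
    (h : Nat.card V ≤ csize P v) (w : V) : P.Reachable v w := by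
  have h1 : {u | P.Reachable v u} = Set.univ := by
    apply Set.eq_of_subset_of_ncard_le (Set.subset_univ _)
    rw [Set.ncard_univ]
    exact h
  have h2 : w ∈ {u | P.Reachable v u} := by rw [h1]; exact Set.mem_univ w
  exact h2

theorem csize_of_conn {V : Type} {P : SimpleGraph V} {v : V}
    (h : ∀ w, P.Reachable v w) : csize P v = Nat.card V := by
  have h1 : {u | P.Reachable v u} = Set.univ := by
    ext u
    exact ⟨fun _ => Set.mem_univ u, fun _ => h u⟩
  show {u | P.Reachable v u}.ncard = _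
  rw [h1, Set.ncard_univ]

theorem ne_inv_of_odd {s : Γ} (h1 : s ≠ 1) (hodd : Odd (orderOf s)) : s ≠ s⁻¹ := by
  intro h
  have h2 : s * s = 1 := by
    rw [mul_eq_one_iff_eq_inv]; exact h
  have h3 : orderOf s ∣ 2 := orderOf_dvd_of_pow_eq_one (by rw [pow_two]; exact h2)
  rcases (Nat.dvd_prime Nat.prime_two).1 h3 with h4 | h4
  · exact h1 (orderOf_eq_one_iff.1 h4)
  · rw [h4] at hodd
    exact absurd hodd (by decide)

/-- The Cayley graph of two different elements has degree four. -/
theorem pgr_four {s t : Γ} (hs : s ≠ s⁻¹) (ht : t ≠ t⁻¹) (h1 : s ≠ t) (h2 : s ≠ t⁻¹) (hs1 : s ≠ 1)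
    (ht1 : t ≠ 1) (v : Γ) : ((pgr s t).neighborSet v).ncard = 4 := by
  classical
  have hset : (pgr s t).neighborSet v = ((({v * s, v * s⁻¹, v * t, v * t⁻¹} : Finset Γ)) : Set Γ) := by
    ext w
    rw [mem_neighborSet]
    simp only [coe_insert, coe_singleton, Set.mem_insert_iff, Set.mem_singleton_iff]
    constructor
    · rintro ⟨_, h | h | h | h⟩
      · exact Or.inl h
      · exact Or.inr (Or.inr (Or.inl h))
      · exact Or.inr (Or.inl (by rw [h]; group))
      · exact Or.inr (Or.inr (Or.inr (by rw [h]; group)))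
    · rintro (h | h | h | h)
      · refine ⟨?_, Or.inl h⟩
        rw [h]
        intro h'
        exact hs1 (by simpa using h'.symm)
      · refine ⟨?_, Or.inr (Or.inr (Or.inl (by rw [h]; group)))⟩
        rw [h]
        intro h'
        exact hs1 (by simpa using h'.symm)
      · refine ⟨?_, Or.inr (Or.inl h)⟩
        rw [h]
        intro h'
        exact ht1 (by simpa using h'.symm)
      · refine ⟨?_, Or.inr (Or.inr (Or.inr (by rw [h]; group)))⟩
        rw [h]
        intro h'
        exact ht1 (by simpa using h'.symm)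
  rw [hset, Set.ncard_coe_finset]
  have e1 : v * s ∉ ({v * s⁻¹, v * t, v * t⁻¹} : Finset Γ) := by
    simp only [mem_insert, mem_singleton, mul_right_inj]
    rintro (h | h | h)
    · exact hs h
    · exact h1 h
    · exact h2 h
  have e2 : v * s⁻¹ ∉ ({v * t, v * t⁻¹} : Finset Γ) := by
    simp only [mem_insert, mem_singleton, mul_right_inj]
    rintro (h | h)
    · exact h2 (by rw [← h, inv_inv])
    · exact h1 (inv_injective h)
  have e3 : v * t ∉ ({v * t⁻¹} : Finset Γ) := by
    simp only [mem_singleton, mul_right_inj]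
    exact ht
  rw [card_insert_of_notMem e1, card_insert_of_notMem e2, card_insert_of_notMem e3,
    card_singleton]

theorem pgr_self_two {s : Γ} (hs : s ≠ s⁻¹) (hs1 : s ≠ 1) (v : Γ) :
    ((pgr s s).neighborSet v).ncard = 2 := by
  have hset : (pgr s s).neighborSet v = {v * s, v * s⁻¹} := by
    ext w
    rw [mem_neighborSet]
    simp only [Set.mem_insert_iff, Set.mem_singleton_iff]
    constructor
    · rintro ⟨_, h | h | h | h⟩
      · exact Or.inl h
      · exact Or.inl h
      · exact Or.inr (by rw [h]; group)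
      · exact Or.inr (by rw [h]; group)
    · rintro (h | h)
      · refine ⟨?_, Or.inl h⟩
        rw [h]
        intro h'
        exact hs1 (by simpa using h'.symm)
      · refine ⟨?_, Or.inr (Or.inr (Or.inl (by rw [h]; group)))⟩
        rw [h]
        intro h'
        exact hs1 (by simpa using h'.symm)
  rw [hset, Set.ncard_pair]
  intro h
  exact hs (mul_left_cancel h)

/-- The Hamilton decomposition on the subgroup of two commuting elements. -/
theorem ham_two [Finite Γ] {a b : Γ} (hab : Commute a b) (ha : Odd (orderOf a))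
    (hb : Odd (orderOf b)) (ha1 : a ≠ 1) (hb1 : b ≠ 1) (h1 : a ≠ b) (h2 : a ≠ b⁻¹)
    (hgen : (Subgroup.closure {a, b} : Subgroup Γ) = ⊤) :
    ∃ P Q : SimpleGraph Γ, (∀ v, (P.neighborSet v).ncard = 2) ∧
      (∀ v, (Q.neighborSet v).ncard = 2) ∧ (∀ v w, P.Reachable v w) ∧
      (∀ v w, Q.Reachable v w) ∧ P ⊔ Q = pgr a b := by
  obtain ⟨P, Q, e1, e2, e3, e4, e5⟩ := pd_comm hab ha hb ha1 hb1
  have hcard : Nat.card (Subgroup.closure {a, b} : Subgroup Γ) = Nat.card Γ := by
    rw [hgen, Subgroup.card_top]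
  have hreg : ∀ v, (P.neighborSet v).ncard = 2 ∧ (Q.neighborSet v).ncard = 2 := fun v =>
    deg_two e5 (pgr_four (ne_inv_of_odd ha1 ha) (ne_inv_of_odd hb1 hb) h1 h2 ha1 hb1 v)
      (e1 v) (e2 v)
  exact ⟨P, Q, fun v => (hreg v).1, fun v => (hreg v).2,
    fun v w => csize_conn (by rw [← hcard]; exact e3 v) w,
    fun v w => csize_conn (by rw [← hcard]; exact e4 v) w, e5⟩

theorem box_bot_size {U U' : Type} [Finite U] [Finite U'] {Q : SimpleGraph U}
    (hQ : ∀ v w, Q.Reachable v w) (v : U × U') :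
    Nat.card U ≤ csize (Q □ (⊥ : SimpleGraph U')) v := by
  have hsub : (fun u => (u, v.2)) '' (Set.univ : Set U) ⊆
      {w | (Q □ (⊥ : SimpleGraph U')).Reachable v w} := by
    rintro _ ⟨u, -, rfl⟩
    exact (hQ v.1 u).map (boxProdLeft Q (⊥ : SimpleGraph U') v.2).toHom
  have h1 := Set.ncard_le_ncard hsub (Set.toFinite _)
  rw [Set.ncard_image_of_injective _ (fun a b h => (Prod.ext_iff.1 h).1), Set.ncard_univ] at h1
  exact h1

/-- Two commuting elements and a third one that is independent of them. -/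
theorem lw_triple [Finite Γ] [DecidableEq Γ] {a b w : Γ} (hab : Commute a b) (haw : Commute a w)
    (hbw : Commute b w) (ha : Odd (orderOf a)) (hb : Odd (orderOf b)) (hw : Odd (orderOf w))
    (ha1 : a ≠ 1) (hb1 : b ≠ 1) (hw1 : w ≠ 1) (h1 : a ≠ b) (h2 : a ≠ b⁻¹)
    (hdis : ∀ g, g ∈ (Subgroup.closure {a, b} : Subgroup Γ) → g ∈ Subgroup.zpowers w → g = 1) :
    LW (cayG {a, b, w}) ({a, b, w} : Finset Γ).card (6 / gn a b) := by
  set H : Subgroup Γ := Subgroup.closure {a, b} with hH
  set C : Subgroup Γ := Subgroup.zpowers w with hC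
  have haH : a ∈ H := Subgroup.subset_closure (by simp)
  have hbH : b ∈ H := Subgroup.subset_closure (by simp)
  have hwC : w ∈ C := Subgroup.mem_zpowers w
  let a' : H := ⟨a, haH⟩
  let b' : H := ⟨b, hbH⟩
  let w' : C := ⟨w, hwC⟩
  have hoa : orderOf a' = orderOf a := (Subgroup.orderOf_coe a').symm
  have hob : orderOf b' = orderOf b := (Subgroup.orderOf_coe b').symm
  have how : orderOf w' = orderOf w := (Subgroup.orderOf_coe w').symm
  have hwa : w ≠ a := by
    rintro rfl
    exact hw1 (hdis w haH hwC)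
  have hwb : w ≠ b := by
    rintro rfl
    exact hw1 (hdis w hbH hwC)
  have hgen : (Subgroup.closure {a', b'} : Subgroup H) = ⊤ := by
    have h3 : ({a', b'} : Set H) = ((↑) : H → Γ) ⁻¹' {a, b} := by
      ext x
      simp only [Set.mem_insert_iff, Set.mem_singleton_iff, Set.mem_preimage]
      constructor
      · rintro (rfl | rfl)
        · exact Or.inl rfl
        · exact Or.inr rfl
      · rintro (h | h)
        · exact Or.inl (Subtype.ext h)
        · exact Or.inr (Subtype.ext h)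
    rw [h3]
    exact Subgroup.closure_closure_coe_preimage
  obtain ⟨P, Q, p1, q1, p2, q2, pq⟩ := ham_two (a := a') (b := b') (Subtype.ext hab.eq)
    (by rw [hoa]; exact ha) (by rw [hob]; exact hb) (fun h => ha1 (congrArg Subtype.val h))
    (fun h => hb1 (congrArg Subtype.val h)) (fun h => h1 (congrArg Subtype.val h))
    (fun h => h2 (congrArg Subtype.val h)) hgen
  have hw1' : w' ≠ 1 := fun h => hw1 (congrArg Subtype.val h)
  have hwi' : w' ≠ w'⁻¹ := ne_inv_of_odd hw1' (by rw [how]; exact hw)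
  have c1 : ∀ v, ((pgr w' w').neighborSet v).ncard = 2 := pgr_self_two hwi' hw1'
  have c2 : ∀ v u, (pgr w' w').Reachable v u := by
    intro v u
    refine csize_conn ?_ u
    have h3 := pgr_size (s := w') (t := w') v
    have h4 : Nat.card (Subgroup.closure {w', w'} : Subgroup C) = Nat.card C := by
      have h5 := gn_self w'
      unfold gn at h5
      rw [h5, how, hC, Nat.card_zpowers]
    rw [h4] at h3
    exact h3
  obtain ⟨R, R', r1, r1', r2, r2', hR⟩ := ham_prod P (pgr w' w') p1 p2 c1 c2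
  -- the model
  let F : Fin 3 → SimpleGraph (H × C) := ![R, R', Q □ (⊥ : SimpleGraph C)]
  let x : Fin 3 → Γ := ![a, b, w]
  let y : Fin 3 → (H × C) → (H × C) :=
    ![fun u => (u.1 * a', u.2), fun u => (u.1 * b', u.2), fun u => (u.1, u.2 * w')]
  let φ : H × C → Γ := fun u => u.1.1 * u.2.1
  have hcomm : ∀ h ∈ H, ∀ c ∈ C, Commute h c := by
    intro h hh c hc
    obtain ⟨i, rfl⟩ := Subgroup.mem_zpowers_iff.1 hc
    refine Commute.zpow_right ?_ i
    have h3 : H ≤ Subgroup.centralizer {w} := by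
      rw [hH, Subgroup.closure_le]
      rintro g (rfl | hg)
      · rw [SetLike.mem_coe, Subgroup.mem_centralizer_singleton_iff]
        exact haw.eq
      · rw [Set.mem_singleton_iff] at hg
        subst hg
        rw [SetLike.mem_coe, Subgroup.mem_centralizer_singleton_iff]
        exact hbw.eq
    exact Subgroup.mem_centralizer_singleton_iff.1 (h3 hh)
  let K : Subgroup Γ :=
    { carrier := {g | ∃ u, φ u = g}
      mul_mem' := by
        rintro _ _ ⟨u, rfl⟩ ⟨v, rfl⟩
        refine ⟨(u.1 * v.1, u.2 * v.2), ?_⟩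
        show (u.1.1 * v.1.1) * (u.2.1 * v.2.1) = u.1.1 * u.2.1 * (v.1.1 * v.2.1)
        have h3 := (hcomm v.1.1 v.1.2 u.2.1 u.2.2).eq
        calc (u.1.1 * v.1.1) * (u.2.1 * v.2.1) = u.1.1 * (v.1.1 * u.2.1) * v.2.1 := by group
          _ = u.1.1 * (u.2.1 * v.1.1) * v.2.1 := by rw [h3]
          _ = _ := by group
      one_mem' := ⟨(1, 1), by show (1 : Γ) * 1 = 1; simp⟩
      inv_mem' := by
        rintro _ ⟨u, rfl⟩
        refine ⟨(u.1⁻¹, u.2⁻¹), ?_⟩
        show (u.1.1)⁻¹ * (u.2.1)⁻¹ = (u.1.1 * u.2.1)⁻¹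
        have h3 := (hcomm u.1.1 u.1.2 u.2.1 u.2.2).eq
        rw [h3, mul_inv_rev] }
  have hφ : Function.Injective φ := by
    rintro ⟨h, c⟩ ⟨h', c'⟩ he
    have he : h.1 * c.1 = h'.1 * c'.1 := he
    have h3 : (h'.1)⁻¹ * h.1 = c'.1 * (c.1)⁻¹ := by
      rw [inv_mul_eq_iff_eq_mul, ← mul_assoc, ← he]; group
    have h4 : (h'.1)⁻¹ * h.1 = 1 := by
      apply hdis
      · exact mul_mem (inv_mem h'.2) h.2
      · rw [h3]
        exact mul_mem c'.2 (inv_mem c.2)
    have h5 : c'.1 * (c.1)⁻¹ = 1 := by rw [← h3]; exact h4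
    have h6 : h = h' := by
      apply Subtype.ext
      rw [inv_mul_eq_one] at h4
      exact h4.symm
    have h7 : c = c' := by
      apply Subtype.ext
      rw [mul_inv_eq_one] at h5
      exact h5.symm
    rw [h6, h7]
  have hx : Function.Injective x := by
    intro i j hij
    fin_cases i <;> fin_cases j
    · rfl
    · exact absurd hij h1
    · exact absurd hij.symm hwa
    · exact absurd hij.symm h1
    · rfl
    · exact absurd hij.symm hwb
    · exact absurd hij hwa
    · exact absurd hij hwb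
    · rfl
  have himg : univ.image x = {a, b, w} := by
    ext g
    rw [mem_image]
    simp only [mem_univ, true_and, mem_insert, mem_singleton]
    constructor
    · rintro ⟨i, rfl⟩
      fin_cases i
      · exact Or.inl rfl
      · exact Or.inr (Or.inl rfl)
      · exact Or.inr (Or.inr rfl)
    · rintro (rfl | rfl | rfl)
      · exact ⟨0, rfl⟩
      · exact ⟨1, rfl⟩
      · exact ⟨2, rfl⟩
  have hn0 : 0 < gn a b := gn_pos a b
  have key := lw_model x hx K φ hφ (fun g => Iff.rfl) y (by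
    intro k u
    fin_cases k
    · show (u.1.1 * a) * u.2.1 = u.1.1 * u.2.1 * a
      rw [mul_assoc, mul_assoc, (hcomm a haH u.2.1 u.2.2).eq]
    · show (u.1.1 * b) * u.2.1 = u.1.1 * u.2.1 * b
      rw [mul_assoc, mul_assoc, (hcomm b hbH u.2.1 u.2.2).eq]
    · show u.1.1 * (u.2.1 * w) = u.1.1 * u.2.1 * w
      rw [mul_assoc]) F (by
    intro i v
    fin_cases i
    · exact (r1 v).le
    · exact (r1' v).le
    · show ((Q □ (⊥ : SimpleGraph C)).neighborSet v).ncard ≤ 2
      rw [box_deg, q1]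
      have : (⊥ : SimpleGraph C).neighborSet v.2 = ∅ := by
        ext u; simp
      rw [this, Set.ncard_empty]) (by
    intro u v
    have e1 : (⨆ i, F i).Adj u v ↔ (P □ pgr w' w').Adj u v ∨ (Q □ (⊥ : SimpleGraph C)).Adj u v := by
      rw [iSup_adj, Fin.exists_fin_succ, Fin.exists_fin_two, ← hR, sup_adj, or_assoc]
      rfl
    rw [e1, boxProd_adj, boxProd_adj]
    have e2 : ∀ h h' : H, P.Adj h h' ∨ Q.Adj h h' ↔ (pgr a' b').Adj h h' := by
      intro h h'
      rw [← pq, sup_adj]
    have e3 : (P.Adj u.1 v.1 ∧ u.2 = v.2 ∨ (pgr w' w').Adj u.2 v.2 ∧ u.1 = v.1) ∨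
        (Q.Adj u.1 v.1 ∧ u.2 = v.2 ∨ (⊥ : SimpleGraph C).Adj u.2 v.2 ∧ u.1 = v.1) ↔
        ((pgr a' b').Adj u.1 v.1 ∧ u.2 = v.2) ∨ ((pgr w' w').Adj u.2 v.2 ∧ u.1 = v.1) := by
      rw [← e2]
      simp only [bot_adj, false_and, or_false]
      tauto
    rw [e3]
    constructor
    · rintro (⟨⟨h0, h⟩, h3⟩ | ⟨⟨h0, h⟩, h3⟩)
      · refine ⟨fun h4 => h0 (congrArg Prod.fst h4), ?_⟩
        rcases h with h | h | h | h
        · exact ⟨0, Or.inl (Prod.ext h h3.symm)⟩
        · exact ⟨1, Or.inl (Prod.ext h h3.symm)⟩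
        · exact ⟨0, Or.inr (Prod.ext h h3)⟩
        · exact ⟨1, Or.inr (Prod.ext h h3)⟩
      · refine ⟨fun h4 => h0 (congrArg Prod.snd h4), ?_⟩
        rcases h with h | h | h | h
        · exact ⟨2, Or.inl (Prod.ext h3.symm h)⟩
        · exact ⟨2, Or.inl (Prod.ext h3.symm h)⟩
        · exact ⟨2, Or.inr (Prod.ext h3 h)⟩
        · exact ⟨2, Or.inr (Prod.ext h3 h)⟩
    · rintro ⟨h0, k, h⟩
      have hfst : ∀ k : Fin 3, k = 0 ∨ k = 1 ∨ k = 2 := by decide
      rcases hfst k with rfl | rfl | rfl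
      · left
        rcases h with h | h
        · have b1 : v.1 = u.1 * a' := (Prod.ext_iff.1 h).1
          have b2 : v.2 = u.2 := (Prod.ext_iff.1 h).2
          exact ⟨⟨fun h4 => h0 (Prod.ext h4 b2.symm), Or.inl b1⟩, b2.symm⟩
        · have b1 : u.1 = v.1 * a' := (Prod.ext_iff.1 h).1
          have b2 : u.2 = v.2 := (Prod.ext_iff.1 h).2
          exact ⟨⟨fun h4 => h0 (Prod.ext h4 b2), Or.inr (Or.inr (Or.inl b1))⟩, b2⟩
      · left
        rcases h with h | h
        · have b1 : v.1 = u.1 * b' := (Prod.ext_iff.1 h).1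
          have b2 : v.2 = u.2 := (Prod.ext_iff.1 h).2
          exact ⟨⟨fun h4 => h0 (Prod.ext h4 b2.symm), Or.inr (Or.inl b1)⟩, b2.symm⟩
        · have b1 : u.1 = v.1 * b' := (Prod.ext_iff.1 h).1
          have b2 : u.2 = v.2 := (Prod.ext_iff.1 h).2
          exact ⟨⟨fun h4 => h0 (Prod.ext h4 b2), Or.inr (Or.inr (Or.inr b1))⟩, b2⟩
      · right
        rcases h with h | h
        · have b1 : v.1 = u.1 := (Prod.ext_iff.1 h).1
          have b2 : v.2 = u.2 * w' := (Prod.ext_iff.1 h).2
          exact ⟨⟨fun h4 => h0 (Prod.ext b1.symm h4), Or.inl b2⟩, b1.symm⟩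
        · have b1 : u.1 = v.1 := (Prod.ext_iff.1 h).1
          have b2 : u.2 = v.2 * w' := (Prod.ext_iff.1 h).2
          exact ⟨⟨fun h4 => h0 (Prod.ext b1 h4), Or.inr (Or.inr (Or.inl b2))⟩, b1⟩)
    (fun _ => gn a b) (fun _ => hn0) (by
    have hgnH : gn a b = Nat.card H := rfl
    have hHC : Nat.card H ≤ Nat.card (H × C) := by
      rw [Nat.card_prod]
      exact Nat.le_mul_of_pos_right _ Nat.card_pos
    intro k u
    fin_cases k
    · show gn a b ≤ csize R u
      rw [hgnH, csize_of_conn (fun v => r2 u v)]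
      exact hHC
    · show gn a b ≤ csize R' u
      rw [hgnH, csize_of_conn (fun v => r2' u v)]
      exact hHC
    · show gn a b ≤ csize (Q □ (⊥ : SimpleGraph C)) u
      exact box_bot_size q2 u)
  rw [himg] at key
  have hsum : ∑ _k : Fin 3, (2 : ℝ) / gn a b = 6 / gn a b := by
    rw [sum_const, card_univ, Fintype.card_fin, nsmul_eq_mul]
    push_cast
    ring
  rwa [hsum] at key

end Pool.Agent.V5helper6.LAR
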