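import Pool.Agent.V5helper6.LAR.Help

set_option autoImplicit false

/-!
Commuting sets in groups of odd order: maximum matchings with two free elements.
-/

namespace Pool.Agent.V5helper6.LAR

open Finset SimpleGraph H931R3.LA Pool.Agent.W111.LAR Pool.Agent.TH486.LAC Pool.Agent.Y59.LA
open Pool.Agent.Y647.LAC (LW)

variable {Γ : Type} [Group Γ]

/-- A half of a commuting connection set in a group whose order has no prime factor less than `p`. -/
structure Setup (T : Finset Γ) (p : ℕ) : Prop where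
  hp3 : 3 ≤ p
  hp : ∀ q : ℕ, q.Prime → q ∣ Nat.card Γ → p ≤ q
  comm : ∀ s ∈ T, ∀ t ∈ T, Commute s t
  one : (1 : Γ) ∉ T
  inv : ∀ s ∈ T, s⁻¹ ∉ T
  card : 2 * T.card < p ^ 2

/-- The conclusion. -/
def Done (T : Finset Γ) : Prop := ∃ c ≤ (1 : ℝ), LW (cayG T) T.card c

namespace Setup

variable {T : Finset Γ} {p : ℕ}

theorem ne_one (S : Setup T p) (k : T) : k.1 ≠ 1 := fun h => S.one (h ▸ k.2)

theorem odd [Finite Γ] (S : Setup T p) (g : Γ) : Odd (orderOf g) := by
  rw [← Nat.not_even_iff_odd]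
  intro h
  have h1 := S.hp 2 Nat.prime_two (h.two_dvd.trans (orderOf_dvd_natCard g))
  have := S.hp3
  omega

theorem ord_ge [Finite Γ] (S : Setup T p) {g : Γ} (hg : g ≠ 1) : p ≤ orderOf g := by
  have h1 : orderOf g ≠ 1 := fun h => hg (orderOf_eq_one_iff.1 h)
  have h2 : p ≤ (orderOf g).minFac :=
    S.hp _ (Nat.minFac_prime h1) ((Nat.minFac_dvd _).trans (orderOf_dvd_natCard _))
  exact h2.trans (Nat.minFac_le (orderOf_pos _))

theorem bad [Finite Γ] (S : Setup T p) {s t : Γ} (hs : s ≠ 1) (h : gn s t < p ^ 2) :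
    (orderOf s).Prime ∧ orderOf s < p ^ 2 ∧ t ∈ Subgroup.zpowers s := by
  obtain ⟨h1, h2⟩ := gn_small S.hp hs h
  have h3 : orderOf s = gn s t := by
    rw [← Nat.card_zpowers, h2]
    rfl
  refine ⟨by rw [h3]; exact h1, by rw [h3]; exact h, ?_⟩
  rw [h2]
  exact Subgroup.subset_closure (by simp)

theorem lw [Finite Γ] [DecidableEq Γ] (S : Setup T p) (A : Finset Γ) (hA : A ⊆ T)
    (π : Equiv.Perm A) (h : ∀ k, π (π k) = k) :
    LW (cayG A) A.card (∑ k : A, (2 : ℝ) / gn k.1 (π k).1) := by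
  let σ : Γ → Γ := fun g => if h : g ∈ A then (π ⟨g, h⟩).1 else g
  have hσ : ∀ k : A, σ k.1 = (π k).1 := by
    intro k
    show (if h : k.1 ∈ A then (π ⟨k.1, h⟩).1 else k.1) = _
    rw [dif_pos k.2]
  have h1 := lw_match σ A.card A le_rfl (by
    intro t ht
    have e1 : σ t = (π ⟨t, ht⟩).1 := hσ ⟨t, ht⟩
    refine ⟨by rw [e1]; exact (π ⟨t, ht⟩).2, ?_, ?_⟩
    · rw [e1, hσ, h]
    · rw [e1]
      exact S.comm _ (hA ht) _ (hA (π ⟨t, ht⟩).2)) (fun t _ => S.odd t)
    (fun h => S.one (hA h))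
  have h2 : ∑ t ∈ A, (2 : ℝ) / gn t (σ t) = ∑ k : A, (2 : ℝ) / gn k.1 (π k).1 := by
    rw [← sum_coe_sort A]
    refine sum_congr rfl fun k _ => ?_
    rw [hσ]
  rwa [h2] at h1

/-- A maximum matching with two free elements. -/
theorem two_fixed [Finite Γ] (S : Setup T p) (π : Equiv.Perm T)
    (h1 : ∀ k, π (π k) = k) (h2 : ∀ k, π k ≠ k → p ^ 2 ≤ gn k.1 (π k).1)
    (h3 : ∀ u v, u ≠ v → π u = u → π v = v → ¬ p ^ 2 ≤ gn u.1 v.1)
    (h4 : ∀ u v x, u ≠ v → π u = u → π v = v → π x ≠ x → p ^ 2 ≤ gn u.1 x.1 →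
      ¬ p ^ 2 ≤ gn v.1 (π x).1) {u v : T} (hu : π u = u) (hv : π v = v) (huv : u ≠ v) :
    ∑ k : T, (2 : ℝ) / gn k.1 (π k).1 ≤ 1 := by
  classical
  have hT1 := S.ne_one
  have hp := S.hp
  have hbuv : gn u.1 v.1 < p ^ 2 := not_le.1 (h3 u v huv hu hv)
  obtain ⟨hq, hzu⟩ := gn_small hp (hT1 u) hbuv
  obtain ⟨-, hzv⟩ := gn_small hp (hT1 v) (by rw [gn_comm]; exact hbuv)
  set q := gn u.1 v.1 with hqdef
  set C : Subgroup Γ := Subgroup.closure {u.1, v.1} with hC
  have hzv' : Subgroup.zpowers v.1 = C := by rw [hzv, Set.pair_comm]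
  have hCq : Nat.card C = q := rfl
  have hq1 : 1 < q := hq.one_lt
  -- elements of C generate C
  have hgen : ∀ k : T, k.1 ∈ C → Subgroup.zpowers k.1 = C := by
    intro k hk
    have e1 : Subgroup.zpowers k.1 ≤ C := Subgroup.zpowers_le.2 hk
    have e2 : orderOf k.1 ∣ q := by
      rw [← hCq, ← Nat.card_zpowers]
      exact Subgroup.card_dvd_of_le e1
    have e3 : orderOf k.1 = q := by
      rcases (Nat.dvd_prime hq).1 e2 with e4 | e4
      · exact absurd (orderOf_eq_one_iff.1 e4) (hT1 k)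
      · exact e4
    apply Subgroup.eq_of_le_of_card_ge e1
    rw [hCq, Nat.card_zpowers, e3]
  have hinC : ∀ (w k : T), Subgroup.zpowers w.1 = C → gn w.1 k.1 < p ^ 2 → k.1 ∈ C := by
    intro w k hw hk
    obtain ⟨-, e1⟩ := gn_small hp (hT1 w) hk
    rw [← hw, e1]
    exact Subgroup.subset_closure (by simp)
  have hfixC : ∀ w, π w = w → w.1 ∈ C := by
    intro w hw
    by_cases hwu : w = u
    · rw [hwu]; exact Subgroup.subset_closure (by simp)
    · exact hinC u w hzu (not_le.1 (h3 u w (Ne.symm hwu) hu hw))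
  have hor : ∀ k, π k ≠ k → k.1 ∈ C ∨ (π k).1 ∈ C := by
    intro k hk
    by_cases hg : p ^ 2 ≤ gn u.1 k.1
    · exact Or.inr (hinC v (π k) hzv' (not_le.1 (h4 u v k huv hu hv hk hg)))
    · exact Or.inl (hinC u k hzu (not_le.1 hg))
  have hnand : ∀ k, π k ≠ k → k.1 ∈ C → (π k).1 ∉ C := by
    intro k hk hkC hkC'
    have e1 : gn k.1 (π k).1 ≤ q := by
      rw [← hCq]
      refine Subgroup.card_le_of_le ?_
      rw [Subgroup.closure_le]
      rintro x (rfl | hx)
      · exact hkC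
      · rw [Set.mem_singleton_iff] at hx
        rw [hx]; exact hkC'
    have e2 := h2 k hk
    omega
  have hbig : ∀ k, π k ≠ k → k.1 ∈ C → 2 * q ≤ gn k.1 (π k).1 := by
    intro k hk hkC
    have e1 : C ≤ Subgroup.closure {k.1, (π k).1} := by
      rw [← hgen k hkC]
      exact Subgroup.zpowers_le.2 (Subgroup.subset_closure (by simp))
    have e2 : q ∣ gn k.1 (π k).1 := by
      rw [← hCq]
      exact Subgroup.card_dvd_of_le e1
    obtain ⟨j, hj⟩ := e2
    have e3 : j ≠ 1 := by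
      rintro rfl
      rw [mul_one] at hj
      have e4 : C = Subgroup.closure {k.1, (π k).1} := by
        apply Subgroup.eq_of_le_of_card_ge e1
        rw [hCq]
        exact hj.le
      apply hnand k hk hkC
      rw [e4]
      exact Subgroup.subset_closure (by simp)
    have e5 : j ≠ 0 := by
      rintro rfl
      have := gn_pos k.1 (π k).1
      omega
    rw [hj, mul_comm]
    exact Nat.mul_le_mul_left q (by omega)
  -- the load
  set A : Finset T := univ.filter (fun k : T => k.1 ∈ C) with hA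
  have hFsym : ∀ k : T, (2 : ℝ) / gn (π k).1 (π (π k)).1 = 2 / gn k.1 (π k).1 := by
    intro k
    rw [h1, gn_comm]
  have hsplit : ∑ k : T, (2 : ℝ) / gn k.1 (π k).1 =
      ∑ k ∈ A, (2 : ℝ) / gn k.1 (π k).1 +
        ∑ k ∈ univ.filter (fun k : T => ¬ k.1 ∈ C), (2 : ℝ) / gn k.1 (π k).1 :=
    (sum_filter_add_sum_filter_not univ (fun k : T => k.1 ∈ C) _).symm
  have hre : ∑ k ∈ univ.filter (fun k : T => ¬ k.1 ∈ C), (2 : ℝ) / gn k.1 (π k).1 ≤
      ∑ k ∈ A, if π k = k then 0 else (2 : ℝ) / gn k.1 (π k).1 := by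
    have e1 : ∑ k ∈ univ.filter (fun k : T => ¬ k.1 ∈ C), (2 : ℝ) / gn k.1 (π k).1 =
        ∑ k ∈ (univ.filter (fun k : T => ¬ k.1 ∈ C)).image π,
          if π k = k then 0 else (2 : ℝ) / gn k.1 (π k).1 := by
      rw [sum_image (fun a _ b _ h => π.injective h)]
      refine sum_congr rfl fun k hk => ?_
      have hkC := (mem_filter.1 hk).2
      have hne : π k ≠ k := fun h => hkC (hfixC k h)
      rw [if_neg (by rw [h1]; exact fun h => hne h.symm), hFsym]
    rw [e1]
    refine sum_le_sum_of_subset_of_nonneg ?_ ?_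
    · intro l hl
      obtain ⟨k, hk, rfl⟩ := mem_image.1 hl
      have hkC := (mem_filter.1 hk).2
      have hne : π k ≠ k := fun h => hkC (hfixC k h)
      rw [hA, mem_filter]
      exact ⟨mem_univ _, (hor k hne).resolve_left hkC⟩
    · intro k _ _
      split_ifs
      · exact le_rfl
      · positivity
  have hq0 : (0 : ℝ) < q := by exact_mod_cast hq.pos
  have hterm : ∀ k ∈ A, (2 : ℝ) / gn k.1 (π k).1 +
      (if π k = k then 0 else (2 : ℝ) / gn k.1 (π k).1) ≤ 2 / q := by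
    intro k hk
    have hkC := (mem_filter.1 hk).2
    split_ifs with h
    · rw [h, gn_self, add_zero]
      have e1 : orderOf k.1 = q := by
        rw [← Nat.card_zpowers, hgen k hkC]
        exact hCq
      rw [e1]
    · have e1 := hbig k h hkC
      have e2 : (2 : ℝ) / gn k.1 (π k).1 ≤ 2 / (2 * q) :=
        div_le_div_of_nonneg_left (by norm_num) (by positivity) (by exact_mod_cast e1)
      have e3 : (2 : ℝ) / (2 * q) + 2 / (2 * q) = 2 / q := by
        field_simp
        norm_num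
      linarith
  have hcardA : 2 * A.card + 1 ≤ q := by
    have e1 := half_bound C (A.image Subtype.val) (by
      intro x hx
      obtain ⟨k, hk, rfl⟩ := mem_image.1 hx
      exact (mem_filter.1 hk).2) (by
      intro x hx hx'
      obtain ⟨k, hk, rfl⟩ := mem_image.1 hx
      obtain ⟨l, hl, hl'⟩ := mem_image.1 hx'
      exact S.inv k.1 k.2 (hl' ▸ l.2)) (by
      intro hx
      obtain ⟨k, hk, hk'⟩ := mem_image.1 hx
      exact S.ne_one k hk')
    rw [card_image_of_injective _ Subtype.val_injective, hCq] at e1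
    exact e1
  calc ∑ k : T, (2 : ℝ) / gn k.1 (π k).1
      ≤ ∑ k ∈ A, ((2 : ℝ) / gn k.1 (π k).1 +
          (if π k = k then 0 else (2 : ℝ) / gn k.1 (π k).1)) := by
        rw [sum_add_distrib, hsplit]
        linarith
    _ ≤ ∑ _k ∈ A, (2 : ℝ) / q := sum_le_sum hterm
    _ = A.card * (2 / q) := by rw [sum_const, nsmul_eq_mul]
    _ ≤ 1 := by
        rw [mul_div_assoc', div_le_one hq0]
        have : (2 * A.card + 1 : ℝ) ≤ q := by exact_mod_cast hcardA
        linarith

/-- The load of a matching with few free elements. -/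
theorem load_le [Finite Γ] (A : Finset Γ) (π : Equiv.Perm A) {N : ℕ} (hN : 0 < N)
    (h2 : ∀ k, N ≤ gn k.1 (π k).1) :
    ∑ k : A, (2 : ℝ) / gn k.1 (π k).1 ≤ A.card * (2 / N) := by
  have hN' : (0 : ℝ) < N := by exact_mod_cast hN
  refine (sum_le_sum (g := fun _ => (2 : ℝ) / N) fun k _ => ?_).trans ?_
  · exact div_le_div_of_nonneg_left (by norm_num) hN' (by exact_mod_cast h2 k)
  · rw [sum_const, card_univ, Fintype.card_coe, nsmul_eq_mul]

/-- One free element. -/
theorem load_one [Finite Γ] [DecidableEq Γ] (A : Finset Γ) (π : Equiv.Perm A) {N M : ℕ}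
    (hN : 0 < N) (hM : 0 < M) (w : A) (hw : M ≤ gn w.1 (π w).1)
    (h2 : ∀ k, k ≠ w → N ≤ gn k.1 (π k).1) :
    ∑ k : A, (2 : ℝ) / gn k.1 (π k).1 ≤ 2 / M + (A.card - 1) * (2 / N) := by
  have hN' : (0 : ℝ) < N := by exact_mod_cast hN
  have hM' : (0 : ℝ) < M := by exact_mod_cast hM
  have hA : 1 ≤ A.card := card_pos.2 ⟨w.1, w.2⟩
  rw [← add_sum_erase univ _ (mem_univ w)]
  have h5 : ∑ k ∈ univ.erase w, (2 : ℝ) / gn k.1 (π k).1 ≤ ∑ _k ∈ univ.erase w, (2 : ℝ) / N := by
    refine sum_le_sum fun k hk => ?_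
    exact div_le_div_of_nonneg_left (by norm_num) hN'
      (by exact_mod_cast h2 k (mem_erase.1 hk).1)
  rw [sum_const, card_erase_of_mem (mem_univ _), card_univ, Fintype.card_coe, nsmul_eq_mul,
    Nat.cast_sub hA, Nat.cast_one] at h5
  have h6 : (2 : ℝ) / gn w.1 (π w).1 ≤ 2 / M :=
    div_le_div_of_nonneg_left (by norm_num) hM' (by exact_mod_cast hw)
  linarith

end Setup

end Pool.Agent.V5helper6.LAR
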