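import Pool.Agent.V5helper6.LAR.Two

set_option autoImplicit false

/-!
Commuting sets in groups of odd order: matchings with one free element.
-/

namespace Pool.Agent.V5helper6.LAR

open Finset SimpleGraph H931R3.LA Pool.Agent.W111.LAR Pool.Agent.TH486.LAC Pool.Agent.Y59.LA
open Pool.Agent.Y647.LAC (LW)

variable {Γ : Type} [Group Γ]

/-- A matching with good pairs and one free element. -/
structure OneFix (T : Finset Γ) (p : ℕ) (π : Equiv.Perm T) (w : T) : Prop where
  gi : ∀ k, π (π k) = k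
  good : ∀ k, π k ≠ k → p ^ 2 ≤ gn k.1 (π k).1
  fix : ∀ k, π k = k ↔ k = w

variable {T : Finset Γ} {p : ℕ} {π : Equiv.Perm T} {w : T}

theorem OneFix.conj [DecidableEq Γ] (O : OneFix T p π w) {x : T} (hx : x ≠ w)
    (hg : p ^ 2 ≤ gn w.1 (π x).1) :
    ∃ π' : Equiv.Perm T, OneFix T p π' x ∧ π' (π x) = w ∧ π' w = π x ∧
      ∀ k, k ≠ w → k ≠ x → k ≠ π x → π' k = π k := by
  have hv : π w = w := (O.fix w).2 rfl
  have hx' : π x ≠ x := fun h => hx ((O.fix x).1 h)
  have hpv : π x ≠ w := fun h => hx (by rw [← O.gi x, h, hv])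
  let π' : Equiv.Perm T := Equiv.swap x w * π * Equiv.swap x w
  have h0 : ∀ k, π' k = Equiv.swap x w (π (Equiv.swap x w k)) := fun k => rfl
  have hvx : π' w = π x := by
    rw [h0, Equiv.swap_apply_right, Equiv.swap_apply_of_ne_of_ne hx' hpv]
  have hpx : π' (π x) = w := by
    rw [h0, Equiv.swap_apply_of_ne_of_ne hx' hpv, O.gi, Equiv.swap_apply_left]
  have hk : ∀ k, k ≠ w → k ≠ x → k ≠ π x → π' k = π k := by
    intro k h1 h2 h3
    rw [h0, Equiv.swap_apply_of_ne_of_ne h2 h1, Equiv.swap_apply_of_ne_of_ne]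
    · intro h; apply h3; rw [← h, O.gi]
    · intro h; apply h1; rw [← O.gi k, h, hv]
  have hfix : ∀ k, π' k = k ↔ k = x := by
    intro k
    rw [h0]
    constructor
    · intro h
      have h1 : π (Equiv.swap x w k) = Equiv.swap x w k := by
        apply (Equiv.swap x w).injective
        rw [h, Equiv.swap_apply_self]
      have h2 := (O.fix _).1 h1
      have h3 : k = Equiv.swap x w w := by
        have h4 := congrArg (Equiv.swap x w) h2
        rwa [Equiv.swap_apply_self] at h4
      rw [h3, Equiv.swap_apply_right]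
    · rintro rfl
      rw [Equiv.swap_apply_left, hv, Equiv.swap_apply_right]
  refine ⟨π', ⟨?_, ?_, hfix⟩, hpx, hvx, hk⟩
  · intro k
    rw [h0, h0, Equiv.swap_apply_self, O.gi, Equiv.swap_apply_self]
  · intro k hk'
    by_cases h1 : k = w
    · rw [h1, hvx]; exact hg
    · by_cases h2 : k = x
      · exact absurd ((hfix k).2 h2) hk'
      · by_cases h3 : k = π x
        · rw [h3, hpx, gn_comm]; exact hg
        · rw [hk k h1 h2 h3] at hk' ⊢
          exact O.good k hk'

theorem OneFix.self (O : OneFix T p π w) : π w = w := (O.fix w).2 rfl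

theorem OneFix.good' (O : OneFix T p π w) {k : T} (h : k ≠ w) : p ^ 2 ≤ gn k.1 (π k).1 :=
  O.good k (fun h' => h ((O.fix k).1 h'))

theorem OneFix.card_pos (_O : OneFix T p π w) : 1 ≤ T.card := Finset.card_pos.2 ⟨w.1, w.2⟩

/-- The parity of the size. -/
theorem OneFix.odd [DecidableEq Γ] (O : OneFix T p π w) : T.card % 2 = 1 := by
  have h1 := invol_parity π O.gi
  rw [Fintype.card_coe] at h1
  have h2 : (univ.filter (fun k => π k = k)) = {w} := by
    ext k
    rw [mem_filter, mem_singleton, O.fix]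
    simp
  rw [h2, card_singleton] at h1
  exact h1

/-- The free element has large order. -/
theorem Setup.done_large [Finite Γ] [DecidableEq Γ] (S : Setup T p) (O : OneFix T p π w)
    (h : p ^ 2 ≤ orderOf w.1) : Done T := by
  have hp := S.hp3
  have hp2 : 0 < p ^ 2 := by positivity
  refine ⟨_, ?_, S.lw T (Subset.refl T) π O.gi⟩
  refine (Setup.load_one T π (N := p ^ 2) (M := p ^ 2) hp2 hp2 w ?_ (fun k hk => O.good' hk)).trans ?_
  · rw [O.self, gn_self]; exact h
  · have h1 : (2 * T.card : ℝ) ≤ (p : ℝ) ^ 2 := by exact_mod_cast S.card.le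
    have h2 : (0 : ℝ) < (p : ℝ) ^ 2 := by exact_mod_cast hp2
    push_cast
    have h3 : (2 : ℝ) / (p : ℝ) ^ 2 + (T.card - 1) * (2 / (p : ℝ) ^ 2) =
        (2 * T.card) / (p : ℝ) ^ 2 := by ring
    rw [h3, div_le_one h2]
    exact h1

/-- The rest after removing a set which is closed under the matching. -/
theorem Setup.lw_rest [Finite Γ] [DecidableEq Γ] (S : Setup T p) (hgi : ∀ k, π (π k) = k)
    (B : Finset Γ) (hB : ∀ k : T, k.1 ∈ B → (π k).1 ∈ B) (N : ℕ) (hN : 0 < N)
    (hg : ∀ k : T, k.1 ∉ B → N ≤ gn k.1 (π k).1) :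
    ∃ c ≤ (T \ B).card * (2 / (N : ℝ)), LW (cayG (T \ B)) (T \ B).card c := by
  let σ : Γ → Γ := fun g => if h : g ∈ T then (π ⟨g, h⟩).1 else g
  have hσ : ∀ k : T, σ k.1 = (π k).1 := by
    intro k
    show (if h : k.1 ∈ T then (π ⟨k.1, h⟩).1 else k.1) = _
    rw [dif_pos k.2]
  refine ⟨∑ t ∈ T \ B, (2 : ℝ) / gn t (σ t), ?_, ?_⟩
  · refine (sum_le_sum (g := fun _ => (2 : ℝ) / N) fun t ht => ?_).trans ?_
    · obtain ⟨h1, h2⟩ := mem_sdiff.1 ht
      have h3 := hg ⟨t, h1⟩ h2
      have h4 : (0 : ℝ) < N := by exact_mod_cast hN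
      refine div_le_div_of_nonneg_left (by norm_num) h4 ?_
      have h5 := hσ ⟨t, h1⟩
      rw [h5]
      exact_mod_cast h3
    · rw [sum_const, nsmul_eq_mul]
  · refine lw_match σ (T \ B).card (T \ B) le_rfl ?_ (fun t _ => S.odd t)
      (fun h => S.one (mem_sdiff.1 h).1)
    intro t ht
    obtain ⟨h1, h2⟩ := mem_sdiff.1 ht
    have e1 : σ t = (π ⟨t, h1⟩).1 := hσ ⟨t, h1⟩
    refine ⟨?_, ?_, ?_⟩
    · rw [e1]
      refine mem_sdiff.2 ⟨(π ⟨t, h1⟩).2, fun h => h2 ?_⟩
      have := hB _ h
      rwa [hgi] at this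
    · rw [e1, hσ, hgi]
    · rw [e1]
      exact S.comm _ h1 _ (π ⟨t, h1⟩).2

/-- The free element is not in the subgroup of a pair. -/
theorem Setup.done_indep [Finite Γ] [DecidableEq Γ] (S : Setup T p) (O : OneFix T p π w)
    (hw : (orderOf w.1).Prime) {a : T} (ha : a ≠ w)
    (hwa : w.1 ∉ (Subgroup.closure {a.1, (π a).1} : Subgroup Γ)) : Done T := by
  have hp := S.hp3
  have hp2 : 0 < p ^ 2 := by positivity
  have hb1 : π a ≠ a := fun h => ha ((O.fix a).1 h)
  have hb2 : π a ≠ w := fun h => ha (by rw [← O.gi a, h, O.self])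
  have hab : a.1 ≠ (π a).1 := fun h => hb1 (Subtype.ext h.symm)
  have haw : a.1 ≠ w.1 := fun h => ha (Subtype.ext h)
  have hbw : (π a).1 ≠ w.1 := fun h => hb2 (Subtype.ext h)
  have h1 := lw_triple (a := a.1) (b := (π a).1) (w := w.1) (S.comm _ a.2 _ (π a).2)
    (S.comm _ a.2 _ w.2) (S.comm _ (π a).2 _ w.2) (S.odd _) (S.odd _) (S.odd _) (S.ne_one a)
    (S.ne_one _) (S.ne_one w) hab (fun h => S.inv _ (π a).2 (h ▸ a.2)) (by
      intro g hg hgw
      by_contra hg1
      apply hwa
      exact (Subgroup.zpowers_le.2 hg) (zp_eq hg1 hw hgw))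
  have hcard3 : ({a.1, (π a).1, w.1} : Finset Γ).card = 3 := by
    rw [card_insert_of_notMem, card_pair hbw]
    rw [mem_insert, mem_singleton]
    rintro (h | h)
    · exact hab h
    · exact haw h
  have hsub : ({a.1, (π a).1, w.1} : Finset Γ) ⊆ T := by
    intro x hx
    rw [mem_insert, mem_insert, mem_singleton] at hx
    rcases hx with rfl | rfl | rfl
    · exact a.2
    · exact (π a).2
    · exact w.2
  obtain ⟨c, hc, h2⟩ := S.lw_rest O.gi {a.1, (π a).1, w.1} (by
    intro k hk
    rw [mem_insert, mem_insert, mem_singleton] at hk ⊢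
    rcases hk with hk | hk | hk
    · right; left; rw [Subtype.ext hk]
    · left; rw [Subtype.ext hk, O.gi]
    · right; right; rw [Subtype.ext hk, O.self]) (p ^ 2) hp2 (by
    intro k hk
    refine O.good' (fun h => hk ?_)
    rw [h]; simp)
  have h3 := lw_union disjoint_sdiff h1 h2
  rw [union_sdiff_of_subset hsub] at h3
  refine ⟨_, ?_, h3⟩
  have h4 : (T \ {a.1, (π a).1, w.1}).card = T.card - 3 := by
    rw [card_sdiff_of_subset hsub, hcard3]
  have h5 : 3 ≤ T.card := by rw [← hcard3]; exact card_le_card hsub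
  rw [h4, Nat.cast_sub h5] at hc
  have h6 : (6 : ℝ) / gn a.1 (π a).1 ≤ 6 / (p : ℝ) ^ 2 :=
    div_le_div_of_nonneg_left (by norm_num) (by positivity) (by exact_mod_cast O.good' ha)
  have h7 : (2 * T.card : ℝ) ≤ (p : ℝ) ^ 2 := by exact_mod_cast S.card.le
  have h8 : (0 : ℝ) < (p : ℝ) ^ 2 := by exact_mod_cast hp2
  push_cast at hc
  have h9 : (6 : ℝ) / (p : ℝ) ^ 2 + ((T.card : ℝ) - 3) * (2 / (p : ℝ) ^ 2) ≤ 1 := by
    have e : (6 : ℝ) / (p : ℝ) ^ 2 + ((T.card : ℝ) - 3) * (2 / (p : ℝ) ^ 2) =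
        (2 * T.card) / (p : ℝ) ^ 2 := by ring
    rw [e, div_le_one h8]
    exact h7
  linarith

/-- All pairs meet the subgroup of the free element. -/
theorem Setup.done_meet [Finite Γ] [DecidableEq Γ] (S : Setup T p) (O : OneFix T p π w)
    (hw : (orderOf w.1).Prime) (hlt : orderOf w.1 < p ^ 2)
    (h : ∀ a, a ≠ w → a.1 ∈ Subgroup.zpowers w.1 ∨ (π a).1 ∈ Subgroup.zpowers w.1) :
    Done T := by
  have hp := S.hp3
  set C := Subgroup.zpowers w.1 with hC
  set q := orderOf w.1 with hq
  have hCq : Nat.card C = q := Nat.card_zpowers _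
  have hpq : p ≤ q := S.ord_ge (S.ne_one w)
  set A : Finset T := univ.filter (fun k : T => k.1 ∈ C) with hA
  have hcardA : 2 * A.card + 1 ≤ q := by
    have e1 := half_bound C (A.image Subtype.val) (by
      intro x hx
      obtain ⟨k, hk, rfl⟩ := mem_image.1 hx
      exact (mem_filter.1 hk).2) (by
      intro x hx hx'
      obtain ⟨k, hk, rfl⟩ := mem_image.1 hx
      obtain ⟨l, hl, hl'⟩ := mem_image.1 hx'
      exact S.inv k.1 k.2 (hl' ▸ l.2)) (by
      intro hx
      obtain ⟨k, hk, hk'⟩ := mem_image.1 hx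
      exact S.ne_one k hk')
    rw [card_image_of_injective _ Subtype.val_injective, hCq] at e1
    exact e1
  have hwA : w ∈ A := by
    rw [hA, mem_filter]
    exact ⟨mem_univ _, Subgroup.mem_zpowers _⟩
  have hT : T.card + 1 ≤ 2 * A.card := by
    have e1 : T.card = A.card + (univ.filter (fun k : T => ¬ k.1 ∈ C)).card := by
      rw [← Fintype.card_coe T, ← card_univ]
      exact (card_filter_add_card_filter_not _).symm
    have e2 : ((univ.filter (fun k : T => ¬ k.1 ∈ C)).image π) ⊆ A.erase w := by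
      intro l hl
      obtain ⟨k, hk, rfl⟩ := mem_image.1 hl
      have hkC := (mem_filter.1 hk).2
      have hkw : k ≠ w := by
        rintro rfl
        exact hkC (Subgroup.mem_zpowers _)
      rw [mem_erase, hA, mem_filter]
      refine ⟨?_, mem_univ _, (h k hkw).resolve_left hkC⟩
      intro h'
      exact hkw (by rw [← O.gi k, h', O.self])
    have e3 := card_le_card e2
    rw [card_image_of_injective _ π.injective, card_erase_of_mem hwA] at e3
    have e4 : 0 < A.card := Finset.card_pos.2 ⟨w, hwA⟩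
    omega
  -- pairs
  have hbig : ∀ k, k ≠ w → p * q ≤ gn k.1 (π k).1 := by
    have key : ∀ k, k ≠ w → k.1 ∈ C → p * q ≤ gn k.1 (π k).1 := by
      intro k hk hkC
      have hg := O.good' hk
      have hwk : w.1 ∈ Subgroup.zpowers k.1 := zp_eq (S.ne_one k) hw hkC
      have e1 : C ≤ Subgroup.closure {k.1, (π k).1} := by
        refine (Subgroup.zpowers_le.2 hwk).trans ?_
        exact Subgroup.zpowers_le.2 (Subgroup.subset_closure (by simp))
      have e2 : q ∣ gn k.1 (π k).1 := by
        rw [← hCq]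
        exact Subgroup.card_dvd_of_le e1
      obtain ⟨j, hj⟩ := e2
      have e3 : j ≠ 1 := by
        rintro rfl
        rw [mul_one] at hj
        omega
      have e5 : j ≠ 0 := by
        rintro rfl
        have := gn_pos k.1 (π k).1
        omega
      have e6 : p ≤ j := by
        have e7 : j ∣ Nat.card Γ := by
          have : gn k.1 (π k).1 ∣ Nat.card Γ := Subgroup.card_subgroup_dvd_card _
          exact (Dvd.intro_left _ hj.symm).trans this
        exact (S.hp _ (Nat.minFac_prime e3) ((Nat.minFac_dvd _).trans e7)).trans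
          (Nat.minFac_le (Nat.pos_of_ne_zero e5))
      rw [hj, mul_comm]
      exact Nat.mul_le_mul_left q e6
    intro k hk
    rcases h k hk with h1 | h1
    · exact key k hk h1
    · have hk' : π k ≠ w := fun h' => hk (by rw [← O.gi k, h', O.self])
      have := key (π k) hk' h1
      rwa [O.gi, gn_comm] at this
  have hq0 : 0 < q := hw.pos
  refine ⟨_, ?_, S.lw T (Subset.refl T) π O.gi⟩
  refine (Setup.load_one T π (N := p * q) (M := q) (by positivity) hq0 w ?_ hbig).trans ?_
  · rw [O.self, gn_self]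
  · have h1 : ((T.card : ℝ) + 2) ≤ q := by
      have : T.card + 2 ≤ q := by omega
      exact_mod_cast this
    have hpR : (3 : ℝ) ≤ p := by exact_mod_cast hp
    have hpqR : (p : ℝ) ≤ q := by exact_mod_cast hpq
    have hp0 : (0 : ℝ) < p := by linarith
    have hq0' : (0 : ℝ) < q := by linarith
    push_cast
    have h3 : (2 : ℝ) / q + (T.card - 1) * (2 / ((p : ℝ) * q)) =
        (2 * p + 2 * (T.card - 1)) / (p * q) := by
      field_simp
    rw [h3, div_le_one (by positivity)]
    nlinarith [mul_nonneg (by linarith : (0 : ℝ) ≤ p - 3) (by linarith : (0 : ℝ) ≤ q - 3)]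

end Pool.Agent.V5helper6.LAR
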